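import Pool.Agent.Helper21.FD.Defs

/-!
MP_0aa406_nt, project FE (helper50): definitions.

Part V: real directions of circulants.  Part X: exact weights by windows; signs are `1` or `-1`,
`bo s` is the borrow of a negative sign.
-/

set_option autoImplicit false

namespace Pool.Agent.Helper50.FE

open Finset Pool.Agent.Helper21.FC Pool.Agent.Helper21.FD

/-- a real direction of value at least `c` -/
def RVal {m : ℕ} [NeZero m] (a : ZMod m → ℝ) (c : ℤ) : Prop :=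
  ∃ y : ZMod m → ℝ, (∀ i, y i ≠ 0) ∧ (∀ u, act a y u ≠ 0) ∧
    c ≤ ∑ i, sg (y i) - ∑ u, sg (act a y u)

/-- the set `S` is not contained in a coset of a proper subgroup -/
def Gen {m : ℕ} (S : ZMod m → Prop) : Prop :=
  ∀ q : ℕ, q.Prime → q ∣ m → ∃ c c' : ZMod m, S c ∧ S c' ∧ pr q c ≠ pr q c'

/-- digit sum divided by `p - 1` (for `0 ≤ y`) -/
noncomputable def dw (p : ℕ) (y : ℤ) : ℝ := ((Nat.digits p y.toNat).sum : ℝ) / ((p : ℝ) - 1)

/-- the borrow of a sign -/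
def bo (s : ℤ) : ℤ := if s < 0 then 1 else 0

/-- weight of a window of length `D` with value `x` above the sign `s` -/
noncomputable def om (p D : ℕ) (x s : ℤ) : ℝ := dw p ((x - bo s) % (p : ℤ) ^ D)

/-- next sign -/
def sx (x s : ℤ) : ℤ := if x = 0 then s else x.sign

/-- circulant product -/
def cv {l : ℕ} [NeZero l] (μ v : ZMod l → ℤ) (u : ZMod l) : ℤ := ∑ i, μ (u - i) * v i

/-- states: signs of the coordinates and of the rows -/
abbrev St (l : ℕ) : Type := (ZMod l → ℤ) × (ZMod l → ℤ)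

/-- all signs are `1` or `-1` -/
def Ok {l : ℕ} (s : St l) : Prop := (∀ i, s.1 i = 1 ∨ s.1 i = -1) ∧ ∀ u, s.2 u = 1 ∨ s.2 u = -1

/-- the state after the play `v` -/
def nxt {l : ℕ} [NeZero l] (μ : ZMod l → ℤ) (s : St l) (v : ZMod l → ℤ) : St l :=
  (fun i => sx (v i) (s.1 i), fun u => sx (cv μ v u) (s.2 u))

/-- effect of the play `v` from the state `s` -/
noncomputable def eff (p D h κ : ℕ) {l : ℕ} [NeZero l] (μ : ZMod l → ℤ) (s : St l)
    (v : ZMod l → ℤ) : ℝ :=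
  ∑ u, om p D (cv μ v u) (s.2 u) - ∑ i, om p D ((h : ℤ) * v i) (s.1 i) - (κ : ℝ) * D

/-- `v` fits into a window of length `D` -/
def Fit (p D h : ℕ) {l : ℕ} [NeZero l] (μ v : ZMod l → ℤ) : Prop :=
  (∀ i, |(h : ℤ) * v i| < (p : ℤ) ^ D) ∧ ∀ u, |cv μ v u| < (p : ℤ) ^ D

/-- `Stage s s' R E`: a sequence of `R` plays from `s` to `s'` of total effect `E` -/
inductive Stage (p D h κ : ℕ) {l : ℕ} [NeZero l] (μ : ZMod l → ℤ) : St l → St l → ℕ → ℝ → Prop
  | nil (s : St l) : Stage p D h κ μ s s 0 0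
  | cons (v : ZMod l → ℤ) (s s' : St l) (R : ℕ) (E : ℝ) : Fit p D h μ v →
      Stage p D h κ μ (nxt μ s v) s' R E → Stage p D h κ μ s s' (R + 1) (eff p D h κ μ s v + E)

/-- translation of states -/
def sh {l : ℕ} (j : ZMod l) (s : St l) : St l := (fun c => s.1 (c - j), fun c => s.2 (c - j))

/-- tight states -/
def Tight (κ : ℕ) {l : ℕ} [NeZero l] (s : St l) : Prop := ∑ i, s.1 i - ∑ u, s.2 u = 2 * (κ : ℤ)

/-- the loss of the reversal for the functional with values `x`, forward signs `s` and backward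
signs `t` -/
noncomputable def ls (p R : ℕ) (x s t : ℕ → ℤ) : ℝ :=
  ∑ g ∈ range R, if x g = 0 then 0 else ((s g + t (g + 1) : ℤ) : ℝ) / 2 * (padicValInt p (x g) : ℝ)

/-- signs of the rows at the start of a fan -/
def r0 {ι : Type} (α β ρ : ι → ℤ) (c : ι) : ℤ := sx (α c) (sx (β c) (ρ c))

/-- sum of the signs of `α` over the rows of slope `r` (`β = - r α`) -/
def net {ι : Type} [Fintype ι] (α β : ι → ℤ) (r : ℚ) : ℤ :=
  ∑ c ∈ univ.filter (fun c => α c ≠ 0 ∧ (β c : ℚ) = - r * α c), (α c).sign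

/-- fan data: rows `α c x + β c y`; the slopes `r > 0` with `net r ≠ 0` are
`a 1 > a 2 > ... > a (2 Q)`, and `net (a i) = (-1) ^ i` -/
structure Fan {ι : Type} [Fintype ι] (α β ρ : ι → ℤ) (Q : ℕ) (a : ℕ → ℚ) : Prop where
  hpos : ∀ i, 1 ≤ i → i ≤ 2 * Q → 0 < a i
  hdec : ∀ i, 1 ≤ i → i < 2 * Q → a (i + 1) < a i
  hnet : ∀ i, 1 ≤ i → i ≤ 2 * Q → net α β (a i) = (-1) ^ i
  hzero : ∀ r : ℚ, 0 < r → (∀ i, 1 ≤ i → i ≤ 2 * Q → r ≠ a i) → net α β r = 0
  hα : ∑ c, (α c).sign = 1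
  hβ : ∑ c, (β c).sign = 1
  hρ : ∀ c, ρ c = 1 ∨ ρ c = -1
  hρ0 : 0 < Q → ∑ c ∈ univ.filter (fun c => α c = 0 ∧ β c = 0), ρ c = 0
  hr0 : ∑ c, r0 α β ρ c = 1
  hr1 : ∑ c, r0 β α ρ c = 1

/-- the vectors of the plays of a fan: `(1,0), (1,0), a 1, ..., a (2 Q), (0,1), (0,1)` -/
def fv (Q : ℕ) (a : ℕ → ℚ) (g : ℕ) : ℤ × ℤ :=
  if g < 2 then (1, 0) else if g < 2 * Q + 2 then ((a (g - 1)).num, ((a (g - 1)).den : ℤ))
  else (0, 1)

/-- the values of the row `c` in the plays of a fan -/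
def fz {ι : Type} (α β : ι → ℤ) (Q : ℕ) (a : ℕ → ℚ) (g : ℕ) (c : ι) : ℤ :=
  (-1) ^ (g + 1) * (α c * (fv Q a g).1 + β c * (fv Q a g).2)

/-- forward signs of the rows of a fan -/
def fs {ι : Type} (α β ρ : ι → ℤ) (Q : ℕ) (a : ℕ → ℚ) : ℕ → ι → ℤ
  | 0 => r0 α β ρ
  | g + 1 => fun c => sx (fz α β Q a g c) (fs α β ρ Q a g c)

/-- the slopes of the reversed fan -/
def ra (Q : ℕ) (a : ℕ → ℚ) (i : ℕ) : ℚ := (a (2 * Q + 1 - i))⁻¹

/-- backward signs of the rows of a fan -/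
def bs {ι : Type} (α β ρ : ι → ℤ) (Q : ℕ) (a : ℕ → ℚ) (g : ℕ) : ι → ℤ :=
  fs β α ρ Q (ra Q a) (2 * Q + 4 - g)

/-- sum of the signs of the rows before the play `g` -/
def tau (Q g : ℕ) : ℤ := if Even g then 1 else if g = 1 ∨ g = 2 * Q + 3 then -1 else -3

end Pool.Agent.Helper50.FE
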