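import Pool.Agent.Helper50.FE.Defs
import Pool.Agent.Helper21.FE.Game

/-!
MP_0aa406_nt, project FE: values of the sign pattern game (part 1).

`stuck_univ`: if `∑ g = 1`, the support generates (`Gen`) and `Y` is a nonempty stuck set then `Y = univ`:
`|Y + TT g| = |Y|` (`KZ.stuck_card`), so `Y + t = Y + t'` for `t, t' ∈ TT g`, `Y` is stable under the subgroup
generated by the differences, which is everything (a proper subgroup of `ZMod m` is contained in the kernel
of `ZMod m → ZMod q` for some prime `q ∣ m`; `pr q` is that map; then all of `TT g` lies in one fibre).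
`game_one`: `KZ.claim` with `L = m`: there are no atoms `Y` with `|Y + TT g| < m` (`stuck_univ`), so
`Val g univ (-q)` with `m q ≤ m`, `q ≤ 1`.
`game_one_proper`: `KZ.claim` with `L = m` for `U`: the stuck `A ⊆ U` is empty, hence `m q ≤ |A + TT g| = 0`.
-/

set_option autoImplicit false

namespace Pool.Agent.Helper50.FE

open Finset Pool.Agent.Helper21.FC Pool.Agent.Helper21.FD
open scoped Pointwise

theorem G1_ne {m : ℕ} [NeZero m] {g : ZMod m → ℤ} (he : ∑ i, g i = 1) : ∃ t, g t ≠ 0 := by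
  by_contra h
  push Not at h
  rw [Finset.sum_eq_zero (fun i _ => h i)] at he
  exact absurd he (by norm_num)

theorem G1_gen {m : ℕ} [NeZero m] {g : ZMod m → ℤ} (hne : ∃ t, g t ≠ 0)
    (hgen : Gen (fun i => g i ≠ 0)) : Helper21.FE.Gen g :=
  Helper21.FE.gen_of_pr hne hgen

theorem stuck_univ {m : ℕ} [NeZero m] {g : ZMod m → ℤ} (he : ∑ i, g i = 1)
    (hgen : Gen (fun i => g i ≠ 0)) (Y : Finset (ZMod m)) (hY : Y.Nonempty)
    (hs : Helper77.KZ.Stuck g Y) : Y = univ :=
  Helper21.FE.stuck_univ (G1_gen (G1_ne he) hgen) he hY hs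

theorem game_one {m : ℕ} [NeZero m] {g : ZMod m → ℤ} (hg : Helper77.KZ.IsSign g)
    (he : ∑ i, g i = 1) (hgen : Gen (fun i => g i ≠ 0)) :
    Helper77.KZ.Val g univ (-1) :=
  Helper21.FE.val_one hg (G1_gen (G1_ne he) hgen) he

theorem game_one_proper {m : ℕ} [NeZero m] {g : ZMod m → ℤ} (hg : Helper77.KZ.IsSign g)
    (he : ∑ i, g i = 1) (hgen : Gen (fun i => g i ≠ 0)) (U : Finset (ZMod m)) (hU : U ≠ univ) :
    Helper77.KZ.Val g U 0 :=
  Helper21.FE.val_proper hg (G1_gen (G1_ne he) hgen) he hU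

end Pool.Agent.Helper50.FE
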