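import Pool.Agent.Helper50.FE.V2
import Pool.Agent.Helper50.FE.G1

/-!
MP_0aa406_nt, project FE: the plane bound, parity.

(1) `plane_bound`: `U` = rows which vanish on the plane of the coordinates `0` and `δ`. `w` from `dir_of_val` (all `w i ≠ 0`,
`l + F ≤ ∑ sg w - ∑_{u ∈ U} sg (row u of w)`). Directions `y = w + ε Λ (x e_0 + y e_δ)`, `Λ` large, `ε = 1, -1`: coordinates `0, δ` have the signs
`ε sg x, ε sg y`, the others `sg w i`; the rows `c ∉ U`: `ε sg (μ c x + μ (c - δ) y)`; the rows in `U`: as for `w`.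
Value `≥ ε (sg x + sg y - ∑ rows) + (l + F - sg w_0 - sg w_δ)`; take the better `ε`. (`act μ (e_δ) u = μ (u - δ)`.)
(2) `play_parity`: every step of a play changes `F` by `|EE - 1| - 1 ≡ EE ≡ |cov|` modulo 2 (`KZ.EE_parity'`), and
`|U| = |cov g U s| + |rest g U s|`. Induction on the play.  `val_parity`: so a play of value `≥ 0` on an odd set has value `≥ 1`.
-/

set_option autoImplicit false

namespace Pool.Agent.Helper50.FE

open Finset Pool.Agent.Helper21.FC Pool.Agent.Helper21.FD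

private theorem C1_sg_add {b c : ℝ} (h : |b| < |c|) : sg (b + c) = sg c ∧ b + c ≠ 0 := by
  have hb := abs_lt.1 h
  rcases lt_trichotomy c 0 with hc | hc | hc
  · rw [abs_of_neg hc] at hb
    have h1 : b + c < 0 := by linarith [hb.2]
    refine ⟨?_, h1.ne⟩
    unfold sg
    rw [if_neg (not_lt.2 h1.le), if_pos h1, if_neg (not_lt.2 hc.le), if_pos hc]
  · rw [hc, abs_zero] at h
    exact absurd h (not_lt.2 (abs_nonneg b))
  · rw [abs_of_pos hc] at hb
    have h1 : 0 < b + c := by linarith [hb.1]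
    refine ⟨?_, h1.ne'⟩
    unfold sg
    rw [if_pos h1, if_pos hc]

private theorem C1_sg_mul {t : ℝ} (ht : 0 < t) (c : ℝ) : sg (t * c) = sg c := by
  unfold sg
  by_cases h1 : 0 < c
  · rw [if_pos h1, if_pos (mul_pos ht h1)]
  · have h1' : ¬ 0 < t * c := fun h => h1 ((mul_pos_iff_of_pos_left ht).1 h)
    rw [if_neg h1, if_neg h1']
    by_cases h2 : c < 0
    · rw [if_pos h2, if_pos (mul_neg_of_pos_of_neg ht h2)]
    · have h2' : ¬ t * c < 0 := fun h => h2 (neg_of_mul_neg_right h ht.le)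
      rw [if_neg h2, if_neg h2']

private theorem C1_sg_neg (c : ℝ) : sg (-c) = -sg c := by
  unfold sg
  rcases lt_trichotomy c 0 with hc | hc | hc
  · rw [if_pos (neg_pos.2 hc), if_neg (not_lt.2 hc.le), if_pos hc, neg_neg]
  · rw [hc]; simp
  · rw [if_neg (not_lt.2 (neg_neg_of_pos hc).le), if_pos (neg_neg_of_pos hc), if_pos hc]

private theorem C1_sg_zero : sg 0 = 0 := by
  unfold sg
  simp

private theorem C1_sg_le (c : ℝ) : sg c ≤ 1 := by
  unfold sg
  split_ifs <;> norm_num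

/-- the signed version for one sign `e` -/
private theorem C1_dir {l : ℕ} [NeZero l] (μ : ZMod l → ℝ) (δ : ZMod l) (hδ : δ ≠ 0) (x y : ℝ)
    (hx : x ≠ 0) (hy : y ≠ 0)
    (hrow : ∀ c, ¬ (μ c = 0 ∧ μ (c - δ) = 0) → μ c * x + μ (c - δ) * y ≠ 0) (F : ℤ)
    (hF : Helper77.KZ.Val (fun t => sg (μ (-t)))
      (univ.filter (fun c => μ c = 0 ∧ μ (c - δ) = 0)) F) :
    RVal μ ((l : ℤ) - 2 + F + (sg x + sg y - ∑ c, sg (μ c * x + μ (c - δ) * y))) := by
  obtain ⟨w, hw, hwU, hval⟩ := dir_of_val μ _ F hF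
  set R : ZMod l → ℝ := fun c => μ c * x + μ (c - δ) * y with hR
  set U : Finset (ZMod l) := univ.filter (fun c => μ c = 0 ∧ μ (c - δ) = 0) with hU
  set T : ℝ := ∑ c, |act μ w c| / |R c| with hT
  have hT1 : ∀ c, |act μ w c| / |R c| ≤ T := fun c =>
    Finset.single_le_sum (f := fun c => |act μ w c| / |R c|) (fun c _ => by positivity)
      (Finset.mem_univ c)
  have hT0 : 0 ≤ T := Finset.sum_nonneg fun c _ => by positivity
  set Λ : ℝ := 1 + |w 0| / |x| + |w δ| / |y| + T with hΛ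
  have hx0 : 0 ≤ |w 0| / |x| := by positivity
  have hy0 : 0 ≤ |w δ| / |y| := by positivity
  have hΛ0 : 0 < Λ := by linarith
  have key : ∀ A B : ℝ, B ≠ 0 → |A| / |B| ≤ Λ - 1 → |A| < |Λ * B| := by
    intro A B hB h
    have hB' : 0 < |B| := abs_pos.2 hB
    rw [abs_mul, abs_of_pos hΛ0]
    have h1 : |A| ≤ (Λ - 1) * |B| := (div_le_iff₀ hB').1 h
    nlinarith
  have hkx : |w 0| < |Λ * x| := key _ _ hx (by rw [hΛ]; linarith)
  have hky : |w δ| < |Λ * y| := key _ _ hy (by rw [hΛ]; linarith)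
  have hkr : ∀ c, c ∉ U → |act μ w c| < |Λ * R c| := by
    intro c hc
    refine key _ _ ?_ (by rw [hΛ]; linarith [hT1 c])
    refine hrow c fun h => hc ?_
    rw [hU, mem_filter]
    exact ⟨mem_univ c, h⟩
  set v : ZMod l → ℝ := fun i => w i + (if i = 0 then Λ * x else 0) + (if i = δ then Λ * y else 0)
    with hv
  have hv0 : v 0 = w 0 + Λ * x := by
    simp only [hv]
    rw [if_pos trivial, if_neg (fun h => hδ h.symm), add_zero]
  have hvδ : v δ = w δ + Λ * y := by
    simp only [hv]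
    rw [if_neg hδ, if_pos trivial, add_zero]
  have hvi : ∀ i, i ≠ 0 → i ≠ δ → v i = w i := by
    intro i h1 h2
    simp only [hv]
    rw [if_neg h1, if_neg h2, add_zero, add_zero]
  have hact : ∀ c, act μ v c = act μ w c + Λ * R c := by
    intro c
    unfold act
    simp only [hv, mul_add, Finset.sum_add_distrib, mul_ite, mul_zero, Finset.sum_ite_eq',
      Finset.mem_univ, if_true, sub_zero]
    simp only [hR]
    ring
  have hne : ∀ i, v i ≠ 0 := by
    intro i
    by_cases h1 : i = 0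
    · rw [h1, hv0]
      exact (C1_sg_add hkx).2
    · by_cases h2 : i = δ
      · rw [h2, hvδ]
        exact (C1_sg_add hky).2
      · rw [hvi i h1 h2]
        exact hw i
  have hUR : ∀ c ∈ U, R c = 0 := by
    intro c hc
    rw [hU, mem_filter] at hc
    simp only [hR]
    rw [hc.2.1, hc.2.2, zero_mul, zero_mul, add_zero]
  have hrne : ∀ c, act μ v c ≠ 0 := by
    intro c
    rw [hact]
    by_cases hc : c ∈ U
    · rw [hUR c hc, mul_zero, add_zero]
      exact hwU c hc
    · exact (C1_sg_add (hkr c hc)).2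
  refine ⟨v, hne, hrne, ?_⟩
  have hsum1 : ∑ i, sg (v i) = ∑ i, sg (w i) - sg (w 0) - sg (w δ) + sg x + sg y := by
    have h1 : ∀ i, sg (v i) = sg (w i) + (if i = 0 then sg x - sg (w 0) else 0) +
        (if i = δ then sg y - sg (w δ) else 0) := by
      intro i
      by_cases h1 : i = 0
      · rw [h1, hv0, (C1_sg_add hkx).1, C1_sg_mul hΛ0, if_pos rfl, if_neg (fun h => hδ h.symm)]
        ring
      · by_cases h2 : i = δ
        · rw [h2, hvδ, (C1_sg_add hky).1, C1_sg_mul hΛ0, if_neg hδ, if_pos rfl]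
          ring
        · rw [hvi i h1 h2, if_neg h1, if_neg h2, add_zero, add_zero]
    rw [Finset.sum_congr rfl fun i _ => h1 i]
    simp only [Finset.sum_add_distrib, Finset.sum_ite_eq', Finset.mem_univ, if_true]
    ring
  have hsum2 : ∑ c, sg (act μ v c) = ∑ c ∈ U, sg (act μ w c) + ∑ c, sg (R c) := by
    have h1 : ∀ c, sg (act μ v c) = (if c ∈ U then sg (act μ w c) else 0) + sg (R c) := by
      intro c
      rw [hact]
      by_cases hc : c ∈ U
      · rw [hUR c hc, mul_zero, add_zero, if_pos hc, C1_sg_zero, add_zero]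
      · rw [(C1_sg_add (hkr c hc)).1, C1_sg_mul hΛ0, if_neg hc, zero_add]
    rw [Finset.sum_congr rfl fun c _ => h1 c, Finset.sum_add_distrib]
    congr 1
    rw [← Finset.sum_filter]
    congr 1
    ext c
    simp
  rw [hsum1, hsum2]
  have h2 := C1_sg_le (w 0)
  have h3 := C1_sg_le (w δ)
  linarith

theorem plane_bound {l : ℕ} [NeZero l] (μ : ZMod l → ℝ) (δ : ZMod l) (hδ : δ ≠ 0) (x y : ℝ)
    (hx : x ≠ 0) (hy : y ≠ 0)
    (hrow : ∀ c, ¬ (μ c = 0 ∧ μ (c - δ) = 0) → μ c * x + μ (c - δ) * y ≠ 0) (F : ℤ)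
    (hF : Helper77.KZ.Val (fun t => sg (μ (-t)))
      (univ.filter (fun c => μ c = 0 ∧ μ (c - δ) = 0)) F) :
    RVal μ ((l : ℤ) - 2 + F + |sg x + sg y - ∑ c, sg (μ c * x + μ (c - δ) * y)|) := by
  rcases le_total 0 (sg x + sg y - ∑ c, sg (μ c * x + μ (c - δ) * y)) with h | h
  · rw [abs_of_nonneg h]
    exact C1_dir μ δ hδ x y hx hy hrow F hF
  · rw [abs_of_nonpos h]
    have hrow' : ∀ c, ¬ (μ c = 0 ∧ μ (c - δ) = 0) → μ c * (-x) + μ (c - δ) * (-y) ≠ 0 := by
      intro c hc h1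
      refine hrow c hc ?_
      have h2 : μ c * x + μ (c - δ) * y = -(μ c * (-x) + μ (c - δ) * (-y)) := by ring
      rw [h2, h1, neg_zero]
    have h1 := C1_dir μ δ hδ (-x) (-y) (neg_ne_zero.2 hx) (neg_ne_zero.2 hy) hrow' F hF
    have h2 : ∀ c, sg (μ c * (-x) + μ (c - δ) * (-y)) = -sg (μ c * x + μ (c - δ) * y) := by
      intro c
      rw [← C1_sg_neg]
      congr 1
      ring
    simp only [h2, C1_sg_neg, Finset.sum_neg_distrib] at h1
    have h3 : -sg x + -sg y - -∑ c, sg (μ c * x + μ (c - δ) * y) =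
        -(sg x + sg y - ∑ c, sg (μ c * x + μ (c - δ) * y)) := by ring
    rw [h3] at h1
    exact h1

theorem play_parity {m : ℕ} [NeZero m] {g : ZMod m → ℤ} (hg : Helper77.KZ.IsSign g)
    {U : Finset (ZMod m)} {F : ℤ} (h : Helper77.KZ.Play g U F) : (2 : ℤ) ∣ F - U.card := by
  induction h with
  | nil => simp
  | step U s F _ ih =>
    have h1 := (Helper77.KZ.EE_parity' hg U s).dvd
    have h2 : (Helper77.KZ.cov g U s).card + (Helper77.KZ.rest g U s).card = U.card := by
      unfold Helper77.KZ.cov Helper77.KZ.rest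
      rw [add_comm]
      have := Finset.card_filter_add_card_filter_not (s := U) (fun t => g (s - t) = 0)
      simpa using this
    have h3 : (U.card : ℤ) = (Helper77.KZ.cov g U s).card + (Helper77.KZ.rest g U s).card := by
      exact_mod_cast h2.symm
    rw [h3]
    rcases abs_cases (Helper77.KZ.EE g U s - 1) with ⟨h4, _⟩ | ⟨h4, _⟩ <;> rw [h4] <;> omega

theorem val_parity {m : ℕ} [NeZero m] {g : ZMod m → ℤ} (hg : Helper77.KZ.IsSign g)
    {U : Finset (ZMod m)} (h : Helper77.KZ.Val g U 0) (hU : Odd U.card) :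
    Helper77.KZ.Val g U 1 := by
  obtain ⟨F', h1, h2⟩ := h
  have h3 := play_parity hg h2
  obtain ⟨k, hk⟩ := hU
  refine ⟨F', ?_, h2⟩
  rw [hk] at h3
  push_cast at h3
  omega

end Pool.Agent.Helper50.FE
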