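import Pool.Agent.Helper50.FE.C1

/-!
MP_0aa406_nt, project FE: full support.

(1) `list_lemma`: sort `A` decreasingly, `a 1 > a 2 > ...` (`Finset.sort` or induction on the card, removing the
largest element); the sums over `{r ∈ A : r ≥ a i}` are `0` or `-1` and consecutive ones differ by
`f (a i) ≠ 0`; so they are `-1, 0, -1, ...`, `f (a i) = (-1) ^ i`, and the last one is `0`, so `|A|` is even.
(2) `row_sum`: `S(t) := ∑ c, sg (μ c t + μ (c - 1))` for `t > 0`, `t` not a slope: `U = ∅` (full support, `Play.nil`, `F = 0`), so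
`plane_bound` with `x = t, y = 1` and `¬ RVal μ l` give `|2 - S(t)| ≤ 1`, and `S(t)` is odd (`l` odd, all terms `1, -1`): `S(t) = 1` or `3`.
(3) `fan_full`: `S(t) = ∑_c sign (μ c) sign (t - r c)`, `r c = - μ (c-1) / μ c`, so `S(t) = 1 - 2 ∑_{r > t} net r` (`t > 0`): the sums
`∑_{r > t} net r` are `0` or `-1`; for `t` below all positive slopes `S(t) = ∑ sign (μ (c - 1)) = 1`, so the total is `0`. For sums over
`r ≥ t` take a smaller `t'` with no slope in `[t', t)`. `A` = positive slopes with `net ≠ 0`, `list_lemma`.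
`r0 μ _ = sign (μ c)`, `r0 _ μ = sign (μ (c - 1))` (full support).
-/

set_option autoImplicit false

namespace Pool.Agent.Helper50.FE

open Finset Pool.Agent.Helper21.FC Pool.Agent.Helper21.FD

private theorem C2_list (f : ℚ → ℤ) : ∀ A : Finset ℚ, (∀ r ∈ A, 0 < r) → (∀ r ∈ A, f r ≠ 0) →
    (∀ t : ℚ, 0 < t → ∑ r ∈ A.filter (fun r => t ≤ r), f r = 0 ∨
      ∑ r ∈ A.filter (fun r => t ≤ r), f r = -1) →
    ∃ (n : ℕ) (a : ℕ → ℚ), (∀ i, 1 ≤ i → i ≤ n → a i ∈ A) ∧
      (∀ i, 1 ≤ i → i < n → a (i + 1) < a i) ∧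
      (∀ i, 1 ≤ i → i ≤ n → f (a i) = (-1) ^ i) ∧
      (∀ r ∈ A, ∃ i, 1 ≤ i ∧ i ≤ n ∧ r = a i) ∧
      ((Even n ∧ ∑ r ∈ A, f r = 0) ∨ (¬ Even n ∧ ∑ r ∈ A, f r = -1)) := by
  intro A
  induction A using Finset.induction_on_min with
  | empty =>
    intro _ _ _
    exact ⟨0, fun _ => 0, fun i h1 h2 => by omega, fun i h1 h2 => by omega,
      fun i h1 h2 => by omega, fun r hr => absurd hr (Finset.notMem_empty r),
      Or.inl ⟨Even.zero, by simp⟩⟩
  | insert m A' hm ih =>
    intro hpos hne hpart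
    have hmA : m ∉ A' := fun h => lt_irrefl _ (hm m h)
    have hm0 : 0 < m := hpos m (Finset.mem_insert_self m A')
    have hfm : f m ≠ 0 := hne m (Finset.mem_insert_self m A')
    have hpart' : ∀ t : ℚ, 0 < t → ∑ r ∈ A'.filter (fun r => t ≤ r), f r = 0 ∨
        ∑ r ∈ A'.filter (fun r => t ≤ r), f r = -1 := by
      intro t ht
      rcases lt_or_ge m t with h | h
      · have h1 := hpart t ht
        rwa [Finset.filter_insert, if_neg (not_le.2 h)] at h1
      · have h1 : A'.filter (fun r => t ≤ r) = A' :=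
          Finset.filter_true_of_mem fun r hr => h.trans (hm r hr).le
        rw [h1]
        rcases A'.eq_empty_or_nonempty with h2 | h2
        · left; rw [h2]; simp
        · have h3 := hpart (A'.min' h2)
            (hm0.trans (hm _ (Finset.min'_mem _ _)))
          have h4 : (insert m A').filter (fun r => A'.min' h2 ≤ r) = A' := by
            rw [Finset.filter_insert, if_neg (not_le.2 (hm _ (Finset.min'_mem _ _)))]
            exact Finset.filter_true_of_mem fun r hr => Finset.min'_le _ _ hr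
          rwa [h4] at h3
    obtain ⟨n, a, h1, h2, h3, h4, h5⟩ := ih (fun r hr => hpos r (Finset.mem_insert_of_mem hr))
      (fun r hr => hne r (Finset.mem_insert_of_mem hr)) hpart'
    have htot : ∑ r ∈ insert m A', f r = f m + ∑ r ∈ A', f r := Finset.sum_insert hmA
    have hp := hpart m hm0
    have h6 : (insert m A').filter (fun r => m ≤ r) = insert m A' := by
      refine Finset.filter_true_of_mem fun r hr => ?_
      rcases Finset.mem_insert.1 hr with h | h
      · exact h.ge
      · exact (hm r h).le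
    rw [h6, htot] at hp
    have hfv : f m = (-1) ^ (n+1) := by
      rcases h5 with ⟨he, hs⟩ | ⟨he, hs⟩
      · rw [hs] at hp
        rw [pow_succ, he.neg_one_pow]
        rcases hp with hp | hp
        · exact absurd (by linarith) hfm
        · linarith
      · rw [hs] at hp
        rw [pow_succ, (Nat.not_even_iff_odd.1 he).neg_one_pow]
        rcases hp with hp | hp
        · linarith
        · exact absurd (by linarith) hfm
    refine ⟨n+1, fun i => if i ≤ n then a i else m, fun i hi1 hi2 => ?_, fun i hi1 hi2 => ?_,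
      fun i hi1 hi2 => ?_, fun r hr => ?_, ?_⟩
    · beta_reduce
      split_ifs with h
      · exact Finset.mem_insert_of_mem (h1 i hi1 h)
      · exact Finset.mem_insert_self m A'
    · beta_reduce
      rw [if_pos (by omega : i ≤ n)]
      split_ifs with h
      · exact h2 i hi1 (by omega)
      · exact hm _ (h1 i hi1 (by omega))
    · beta_reduce
      split_ifs with h
      · exact h3 i hi1 h
      · have : i = n + 1 := by omega
        rw [this]; exact hfv
    · rcases Finset.mem_insert.1 hr with h | h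
      · refine ⟨n+1, by omega, le_rfl, ?_⟩
        beta_reduce
        rw [if_neg (by omega)]
        exact h
      · obtain ⟨i, hi1, hi2, hi3⟩ := h4 r h
        refine ⟨i, hi1, by omega, ?_⟩
        beta_reduce
        rw [if_pos hi2]
        exact hi3
    · rw [htot, hfv]
      rcases h5 with ⟨he, hs⟩ | ⟨he, hs⟩
      · right
        rw [hs, pow_succ, he.neg_one_pow]
        exact ⟨by rw [Nat.even_add_one]; exact fun h => h he, by norm_num⟩
      · left
        rw [hs, pow_succ, (Nat.not_even_iff_odd.1 he).neg_one_pow]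
        exact ⟨by rw [Nat.even_add_one]; exact he, by norm_num⟩

theorem list_lemma (A : Finset ℚ) (hA : ∀ r ∈ A, 0 < r) (f : ℚ → ℤ) (hf : ∀ r ∈ A, f r ≠ 0)
    (hpart : ∀ t : ℚ, 0 < t → ∑ r ∈ A.filter (fun r => t ≤ r), f r = 0 ∨
      ∑ r ∈ A.filter (fun r => t ≤ r), f r = -1) (htot : ∑ r ∈ A, f r = 0) :
    ∃ (Q : ℕ) (a : ℕ → ℚ), (∀ i, 1 ≤ i → i ≤ 2 * Q → a i ∈ A) ∧
      (∀ i, 1 ≤ i → i < 2 * Q → a (i + 1) < a i) ∧
      (∀ i, 1 ≤ i → i ≤ 2 * Q → f (a i) = (-1) ^ i) ∧
      (∀ r ∈ A, ∃ i, 1 ≤ i ∧ i ≤ 2 * Q ∧ r = a i) := by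
  obtain ⟨n, a, h1, h2, h3, h4, h5⟩ := C2_list f A hA hf hpart
  rcases h5 with ⟨he, -⟩ | ⟨-, hs⟩
  · obtain ⟨Q, hQ⟩ := he
    have hn : n = 2 * Q := by omega
    rw [hn] at h1 h2 h3 h4
    exact ⟨Q, a, h1, h2, h3, h4⟩
  · rw [htot] at hs
    exact absurd hs (by norm_num)

private theorem C2_rval_mono {m : ℕ} [NeZero m] {a : ZMod m → ℝ} {c c' : ℤ} (h : c' ≤ c)
    (hR : RVal a c) : RVal a c' := by
  obtain ⟨y, h1, h2, h3⟩ := hR
  exact ⟨y, h1, h2, h.trans h3⟩

/-- partial sums over the slopes -/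
private theorem C2_part {l : ℕ} [NeZero l] (hl : 3 ≤ l) (μ : ZMod l → ℤ)
    (hfull : ∀ c, μ c ≠ 0) (he : ∑ c, (μ c).sign = 1)
    (hns : ¬ RVal (fun c => (μ c : ℝ)) l) (r : ZMod l → ℚ)
    (hr : ∀ c, r c = -(μ (c - 1) : ℚ) / (μ c : ℚ)) (t : ℚ) (ht : 0 < t) :
    ∑ c ∈ univ.filter (fun c => t ≤ r c), (μ c).sign = 0 ∨
      ∑ c ∈ univ.filter (fun c => t ≤ r c), (μ c).sign = -1 := by
  classical
  set T := ∑ c ∈ univ.filter (fun c => t ≤ r c), (μ c).sign with hT
  -- a value just below `t`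
  obtain ⟨t', ht0, htt, hgap⟩ : ∃ t' : ℚ, 0 < t' ∧ t' < t ∧ ∀ c, r c < t → r c < t' := by
    set B : Finset ℚ := insert 0 ((univ.image r).filter (fun s => s < t)) with hB
    have hBn : B.Nonempty := ⟨0, Finset.mem_insert_self _ _⟩
    have h1 : B.max' hBn < t := by
      have h2 : B.max' hBn ∈ insert 0 ((univ.image r).filter (fun s => s < t)) :=
        Finset.max'_mem B hBn
      rw [Finset.mem_insert, Finset.mem_filter] at h2
      rcases h2 with h2 | h2
      · rw [h2]; exact ht
      · exact h2.2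
    have h3 : 0 ≤ B.max' hBn := Finset.le_max' B 0 (Finset.mem_insert_self _ _)
    refine ⟨(B.max' hBn + t) / 2, by linarith, by linarith, fun c hc => ?_⟩
    have h4 : r c ≤ B.max' hBn := by
      refine Finset.le_max' B _ (Finset.mem_insert_of_mem ?_)
      rw [Finset.mem_filter]
      exact ⟨Finset.mem_image_of_mem r (Finset.mem_univ c), hc⟩
    linarith
  have hne1 : (1 : ZMod l) ≠ 0 := by
    have : Fact (1 < l) := ⟨by omega⟩
    exact one_ne_zero
  have hrow : ∀ c, (μ c : ℝ) * (t' : ℝ) + (μ (c - 1) : ℝ) * 1 =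
      (μ c : ℝ) * (((t' - r c : ℚ)) : ℝ) := by
    intro c
    have h1 : (μ c : ℚ) ≠ 0 := by exact_mod_cast hfull c
    have h2 : (μ c : ℚ) * t' + (μ (c - 1) : ℚ) * 1 = (μ c : ℚ) * (t' - r c) := by
      rw [hr c]; field_simp; ring
    have h3 : (((μ c : ℚ) * t' + (μ (c - 1) : ℚ) * 1 : ℚ) : ℝ) =
        (((μ c : ℚ) * (t' - r c) : ℚ) : ℝ) := by rw [h2]
    push_cast at h3 ⊢
    exact h3
  have hcmp : ∀ c, t ≤ r c → t' < r c := fun c hc => htt.trans_le hc
  have hsg : ∀ c, sg ((μ c : ℝ) * (t' : ℝ) + (μ (c - 1) : ℝ) * 1) =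
      if t ≤ r c then -(μ c).sign else (μ c).sign := by
    intro c
    rw [hrow c]
    have hμ := hfull c
    split_ifs with h
    · have h1 : (((t' - r c : ℚ)) : ℝ) < 0 := by
        have := hcmp c h
        exact_mod_cast (by linarith : t' - r c < 0)
      rcases lt_or_gt_of_ne hμ with h2 | h2
      · have h3 : (μ c : ℝ) < 0 := by exact_mod_cast h2
        have h4 := mul_pos_of_neg_of_neg h3 h1
        unfold sg
        rw [if_pos h4, Int.sign_eq_neg_one_of_neg h2]; norm_num
      · have h3 : (0 : ℝ) < (μ c : ℝ) := by exact_mod_cast h2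
        have h4 := mul_neg_of_pos_of_neg h3 h1
        unfold sg
        rw [if_neg (not_lt.2 h4.le), if_pos h4, Int.sign_eq_one_of_pos h2]
    · have h1 : (0 : ℝ) < (((t' - r c : ℚ)) : ℝ) := by
        have := hgap c (not_le.1 h)
        exact_mod_cast (by linarith : 0 < t' - r c)
      rcases lt_or_gt_of_ne hμ with h2 | h2
      · have h3 : (μ c : ℝ) < 0 := by exact_mod_cast h2
        have h4 := mul_neg_of_neg_of_pos h3 h1
        unfold sg
        rw [if_neg (not_lt.2 h4.le), if_pos h4, Int.sign_eq_neg_one_of_neg h2]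
      · have h3 : (0 : ℝ) < (μ c : ℝ) := by exact_mod_cast h2
        have h4 := mul_pos h3 h1
        unfold sg
        rw [if_pos h4, Int.sign_eq_one_of_pos h2]
  have hS : ∑ c, sg ((μ c : ℝ) * (t' : ℝ) + (μ (c - 1) : ℝ) * 1) = 1 - 2 * T := by
    rw [Finset.sum_congr rfl fun c _ => hsg c, hT, Finset.sum_filter, ← he, Finset.mul_sum,
      ← Finset.sum_sub_distrib]
    refine Finset.sum_congr rfl fun c _ => ?_
    split_ifs
    · ring
    · ring
  have hempty : univ.filter (fun c => (fun c => (μ c : ℝ)) c = 0 ∧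
      (fun c => (μ c : ℝ)) (c - 1) = 0) = (∅ : Finset (ZMod l)) := by
    refine Finset.filter_false_of_mem fun c _ h => ?_
    have h1 : (μ c : ℝ) = 0 := h.1
    exact hfull c (by exact_mod_cast h1)
  have hpb := plane_bound (fun c => (μ c : ℝ)) 1 hne1 (t' : ℝ) 1 (by exact_mod_cast ht0.ne')
    one_ne_zero (fun c _ => by
      rw [hrow c]
      refine mul_ne_zero (by exact_mod_cast hfull c) ?_
      rcases le_or_gt t (r c) with h | h
      · have := hcmp c h
        exact_mod_cast (by linarith : t' - r c < 0).ne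
      · have := hgap c h
        exact_mod_cast (by linarith : 0 < t' - r c).ne') 0
    (by rw [hempty]; exact ⟨0, le_rfl, Helper77.KZ.Play.nil⟩)
  beta_reduce at hpb
  rw [hS] at hpb
  have hs1 : sg (t' : ℝ) = 1 := by
    unfold sg
    rw [if_pos (by exact_mod_cast ht0)]
  have hs2 : sg (1 : ℝ) = 1 := by
    unfold sg
    rw [if_pos one_pos]
  rw [hs1, hs2] at hpb
  by_contra hcon
  push Not at hcon
  apply hns
  refine C2_rval_mono ?_ hpb
  have h1 : 2 ≤ |1 + 1 - (1 - 2 * T)| := by
    rcases le_or_gt 1 T with h | h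
    · rw [abs_of_nonneg (by linarith)]; linarith
    · have h2 : T ≤ -2 := by
        rcases hcon with ⟨h3, h4⟩
        omega
      rw [abs_of_nonpos (by linarith)]; linarith
  omega

theorem fan_full {l : ℕ} [NeZero l] (hodd : Odd l) (hl : 3 ≤ l) (μ : ZMod l → ℤ)
    (hfull : ∀ c, μ c ≠ 0) (he : ∑ c, (μ c).sign = 1)
    (hns : ¬ RVal (fun c => (μ c : ℝ)) l) :
    ∃ (Q : ℕ) (a : ℕ → ℚ), Fan μ (fun c => μ (c - 1)) (fun _ => 1) Q a := by
  classical
  set r : ZMod l → ℚ := fun c => -(μ (c - 1) : ℚ) / (μ c : ℚ) with hr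
  have hsh : ∑ c, (μ (c - 1)).sign = 1 := by
    rw [← he]
    exact Equiv.sum_comp (Equiv.subRight (1 : ZMod l)) (fun c => (μ c).sign)
  have hnet : ∀ ρ : ℚ, net μ (fun c => μ (c - 1)) ρ =
      ∑ c ∈ univ.filter (fun c => r c = ρ), (μ c).sign := by
    intro ρ
    unfold net
    refine Finset.sum_congr (Finset.filter_congr fun c _ => ?_) fun _ _ => rfl
    have h1 : (μ c : ℚ) ≠ 0 := by exact_mod_cast hfull c
    rw [hr]
    beta_reduce
    constructor
    · rintro ⟨-, h2⟩
      rw [h2]; field_simp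
    · intro h2
      refine ⟨hfull c, ?_⟩
      rw [← h2]; field_simp
  set A : Finset ℚ := (univ.image r).filter (fun ρ => 0 < ρ ∧
    net μ (fun c => μ (c - 1)) ρ ≠ 0) with hA
  have hAsum : ∀ t : ℚ, 0 < t → ∑ ρ ∈ A.filter (fun ρ => t ≤ ρ), net μ (fun c => μ (c - 1)) ρ =
      ∑ c ∈ univ.filter (fun c => t ≤ r c), (μ c).sign := by
    intro t ht
    rw [← Finset.sum_fiberwise_of_maps_to (s := univ.filter (fun c => t ≤ r c))
      (t := (univ.image r).filter (fun ρ => t ≤ ρ)) (g := r) (fun c hc => by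
        rw [Finset.mem_filter] at hc ⊢
        exact ⟨Finset.mem_image_of_mem r (Finset.mem_univ c), hc.2⟩)]
    have h1 : ∀ ρ ∈ (univ.image r).filter (fun ρ => t ≤ ρ),
        ∑ c ∈ (univ.filter (fun c => t ≤ r c)).filter (fun c => r c = ρ), (μ c).sign =
          net μ (fun c => μ (c - 1)) ρ := by
      intro ρ hρ
      rw [Finset.mem_filter] at hρ
      rw [hnet, Finset.filter_filter]
      refine Finset.sum_congr (Finset.filter_congr fun c _ => ?_) fun _ _ => rfl
      constructor
      · exact fun h => h.2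
      · exact fun h => ⟨by rw [h]; exact hρ.2, h⟩
    rw [Finset.sum_congr rfl h1]
    refine Finset.sum_subset ?_ ?_
    · intro ρ hρ
      rw [hA, Finset.mem_filter, Finset.mem_filter] at hρ
      rw [Finset.mem_filter]
      exact ⟨hρ.1.1, hρ.2⟩
    · intro ρ hρ hρ'
      rw [Finset.mem_filter] at hρ
      by_contra hcon
      apply hρ'
      rw [hA, Finset.mem_filter, Finset.mem_filter]
      exact ⟨⟨hρ.1, ht.trans_le hρ.2, hcon⟩, hρ.2⟩
  have htot : ∑ ρ ∈ A, net μ (fun c => μ (c - 1)) ρ = 0 := by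
    -- below all positive slopes
    obtain ⟨t, ht, htA⟩ : ∃ t : ℚ, 0 < t ∧ ∀ c, 0 < r c → t ≤ r c := by
      set B : Finset ℚ := insert 1 ((univ.image r).filter (fun s => 0 < s)) with hB
      have hBn : B.Nonempty := ⟨1, Finset.mem_insert_self _ _⟩
      refine ⟨B.min' hBn, ?_, fun c hc => ?_⟩
      · have h2 : B.min' hBn ∈ insert 1 ((univ.image r).filter (fun s => 0 < s)) :=
          Finset.min'_mem B hBn
        rw [Finset.mem_insert, Finset.mem_filter] at h2
        rcases h2 with h2 | h2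
        · rw [h2]; norm_num
        · exact h2.2
      · refine Finset.min'_le B _ (Finset.mem_insert_of_mem ?_)
        rw [Finset.mem_filter]
        exact ⟨Finset.mem_image_of_mem r (Finset.mem_univ c), hc⟩
    have h1 := hAsum t ht
    have h2 : A.filter (fun ρ => t ≤ ρ) = A := by
      refine Finset.filter_true_of_mem fun ρ hρ => ?_
      rw [hA, Finset.mem_filter, Finset.mem_image] at hρ
      obtain ⟨⟨c, -, hc⟩, hρ0, -⟩ := hρ
      rw [← hc] at hρ0 ⊢
      exact htA c hρ0
    rw [h2] at h1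
    rw [h1]
    have h3 : ∀ c, 2 * (if t ≤ r c then (μ c).sign else 0) = (μ c).sign - (μ (c - 1)).sign := by
      intro c
      have hc1 := hfull c
      have hc2 := hfull (c - 1)
      have hiff : t ≤ r c ↔ 0 < r c := ⟨fun h => ht.trans_le h, htA c⟩
      rw [hr] at hiff
      rw [hr]
      simp only [hiff]
      rcases lt_or_gt_of_ne hc1 with h4 | h4 <;> rcases lt_or_gt_of_ne hc2 with h5 | h5
      · have h6 : (μ c : ℚ) < 0 := by exact_mod_cast h4
        have h7 : (μ (c - 1) : ℚ) < 0 := by exact_mod_cast h5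
        rw [if_neg (not_lt.2 (div_nonpos_of_nonneg_of_nonpos (by linarith) h6.le)),
          Int.sign_eq_neg_one_of_neg h4, Int.sign_eq_neg_one_of_neg h5]
        norm_num
      · have h6 : (μ c : ℚ) < 0 := by exact_mod_cast h4
        have h7 : (0 : ℚ) < (μ (c - 1) : ℚ) := by exact_mod_cast h5
        rw [if_pos (div_pos_of_neg_of_neg (by linarith) h6),
          Int.sign_eq_neg_one_of_neg h4, Int.sign_eq_one_of_pos h5]
        norm_num
      · have h6 : (0 : ℚ) < (μ c : ℚ) := by exact_mod_cast h4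
        have h7 : (μ (c - 1) : ℚ) < 0 := by exact_mod_cast h5
        rw [if_pos (div_pos (by linarith) h6),
          Int.sign_eq_one_of_pos h4, Int.sign_eq_neg_one_of_neg h5]
        norm_num
      · have h6 : (0 : ℚ) < (μ c : ℚ) := by exact_mod_cast h4
        have h7 : (0 : ℚ) < (μ (c - 1) : ℚ) := by exact_mod_cast h5
        rw [if_neg (not_lt.2 (div_nonpos_of_nonpos_of_nonneg (by linarith) h6.le)),
          Int.sign_eq_one_of_pos h4, Int.sign_eq_one_of_pos h5]
        norm_num
    have h4 : 2 * ∑ c ∈ univ.filter (fun c => t ≤ r c), (μ c).sign = 0 := by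
      rw [Finset.sum_filter, Finset.mul_sum, Finset.sum_congr rfl fun c _ => h3 c,
        Finset.sum_sub_distrib, he, hsh]
      norm_num
    omega
  obtain ⟨Q, a, h1, h2, h3, h4⟩ := list_lemma A (fun ρ hρ => by
      rw [hA, Finset.mem_filter] at hρ; exact hρ.2.1)
    (net μ (fun c => μ (c - 1))) (fun ρ hρ => by
      rw [hA, Finset.mem_filter] at hρ; exact hρ.2.2)
    (fun t ht => by
      rw [hAsum t ht]
      exact C2_part hl μ hfull he hns r (fun c => rfl) t ht) htot
  refine ⟨Q, a, ⟨fun i hi1 hi2 => ?_, h2, h3, fun ρ hρ hne => ?_, he, hsh,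
    fun _ => Or.inl rfl, fun _ => ?_, ?_, ?_⟩⟩
  · have := h1 i hi1 hi2
    rw [hA, Finset.mem_filter] at this
    exact this.2.1
  · by_contra hcon
    have hmem : ρ ∈ A := by
      rw [hA, Finset.mem_filter]
      refine ⟨?_, hρ, hcon⟩
      rw [hnet] at hcon
      obtain ⟨c, hc, -⟩ := Finset.exists_ne_zero_of_sum_ne_zero hcon
      rw [Finset.mem_filter] at hc
      rw [← hc.2]
      exact Finset.mem_image_of_mem r (Finset.mem_univ c)
    obtain ⟨i, hi1, hi2, hi3⟩ := h4 ρ hmem
    exact hne i hi1 hi2 hi3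
  · have : univ.filter (fun c : ZMod l => μ c = 0 ∧ μ (c - 1) = 0) = ∅ :=
      Finset.filter_false_of_mem fun c _ h => hfull c h.1
    rw [this]
    simp
  · rw [← he]
    refine Finset.sum_congr rfl fun c _ => ?_
    unfold r0 sx
    rw [if_neg (hfull c)]
  · rw [← hsh]
    refine Finset.sum_congr rfl fun c _ => ?_
    unfold r0 sx
    rw [if_neg (hfull (c - 1))]

end Pool.Agent.Helper50.FE
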