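import Pool.Agent.Helper50.FE.G1
import Pool.Agent.Helper77.FE.C3

/-!
MP_0aa406_nt, project FE: signs on `ZMod l`, `l` prime, with sum 1, not full support, without a play of value 0.
(helper77: alternating arithmetic progression.)

All nonempty proper subsets have plays of value `0` (`game_one_proper`).  First row: cost `1`; then let `X` be a
minimal nonempty set reachable (`KZ.Reach g univ`) by rows of excess `0` or `2`.  Then all rows meeting `X` have
excess `0, 1, 2` (otherwise `Val g univ 0`), and the rows with excess `0` or `2` cover `X`; `X` is not stuck, so there is one;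
`r = |X|` is even (parity of `EE`), `C` = rows covering `X`, `m = |C| ≥ 1`, `m2` = rows of `C` of excess `2`:
`|X + T| = r + m - 2 m2` (`∑ EE = r`), `C - X ⊆ T`.  If `|X + T| = l` then (Cauchy-Davenport for `C - X`)
`|T| ≥ m + r - 1 ≥ l - 1`, but `|T|` is odd, so `T = univ`: no.  So `r + |T| - 1 ≤ r + m - 2 m2`, `|T| ≥ m + r - 1`:
`r = 2`, `m2 = 0`, `|T| = m + 1`, `T = C - X`, `X = {x, x + s}`: `C` is a progression of difference `s`, so is `T`, and
consecutive signs of `T` are opposite.
-/

set_option autoImplicit false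

namespace Pool.Agent.Helper50.FE

open Finset Pool.Agent.Helper21.FC Pool.Agent.Helper21.FD
open scoped Pointwise

theorem alt_ap {l : ℕ} [NeZero l] (hl : l.Prime) (hodd : Odd l) (g : ZMod l → ℤ)
    (hg : Helper77.KZ.IsSign g) (he : ∑ i, g i = 1) (hT : Helper77.KZ.TT g ≠ univ)
    (hT2 : 2 ≤ (Helper77.KZ.TT g).card) (hv : ¬ Helper77.KZ.Val g univ 0) :
    ∃ (t0 s : ZMod l) (L : ℕ), s ≠ 0 ∧ Odd L ∧ 3 ≤ L ∧ L + 2 ≤ l ∧
      (∀ j : ℕ, j < L → g (t0 + j * s) = (-1) ^ j) ∧
      (∀ i, (∀ j : ℕ, j < L → i ≠ t0 + j * s) → g i = 0) := by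
  haveI := Fact.mk hl
  exact Pool.Agent.Helper77.FE.alt_ap hodd hg he hT2 hT hv

end Pool.Agent.Helper50.FE
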