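import Pool.Agent.Helper50.FE.C1

/-!
MP_0aa406_nt, project FE: alternating progressions.

`supp μ = {t0 + j s : j < L}` with signs `(-1) ^ j`, `L` odd, `3 ≤ L ≤ l - 2`, `l` prime.  Rows `c = t0 + i s`, `i < l`: `i = 0`: only `μ c ≠ 0`;
`1 ≤ i ≤ L - 1`: both, opposite signs; `i = L`: only `μ (c - s) ≠ 0`; `L < i < l`: none (`U`), `|U| = l - 1 - L` is odd.
NETS: `game_one_proper` for `g = fun t => sg (μ (-t))` and `U ≠ univ`, `val_parity`: `Val g U 1`; `plane_bound` with `F = 1` and `¬ RVal μ l`: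
`|2 - S(x, y)| ≤ 0` for all `x, y > 0` which are not on a line of a slope: `S(x, 1) = ∑ c, sg (μ c x + μ (c - s)) = 2`. Crossing the slope `r > 0` changes
`S` by `2 net r` (compare `x = r + ε` and `x = r - ε`, `ε` small): `net r = 0` for all `r > 0`.
FAN with `Q = 0`: `ρ (t0 + i s) = (-1) ^ (i + 1)` (`i < l`). `r0 (t0 + i s) = (-1) ^ i` for `i < L`, `(-1) ^ (i + 1)` for `L ≤ i < l`; sum `1 + 0`.
`r1 (t0 + i s)`: `i = 0`: `1`; `1 ≤ i < l`: `(-1) ^ (i - 1)`; so `r1 (t0 + i s) = r0 (t0 + (i + L - 1) s)` (for `i + L - 1 ≥ l` subtract `l`, odd):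
`j = - (L - 1) s ≠ 0`.  `∑ sign μ = 1` (`L` odd).
-/

set_option autoImplicit false

namespace Pool.Agent.Helper50.FE

open Finset Pool.Agent.Helper21.FC Pool.Agent.Helper21.FD

private lemma C4_sg_int (n : ℤ) : sg (n : ℝ) = n.sign := by
  unfold sg
  rcases lt_trichotomy n 0 with h | h | h
  · have h2 : (n : ℝ) < 0 := by exact_mod_cast h
    have h1 : ¬ (0 : ℝ) < n := not_lt.mpr h2.le
    rw [if_neg h1, if_pos h2, Int.sign_eq_neg_one_of_neg h]
  · subst h; simp
  · have h2 : (0 : ℝ) < n := by exact_mod_cast h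
    rw [if_pos h2, Int.sign_eq_one_of_pos h]

private lemma C4_sg_pos_mul (a x : ℝ) (hx : 0 < x) : sg (a * x) = sg a := by
  unfold sg
  rcases lt_trichotomy a 0 with h | h | h
  · have h2 : a * x < 0 := mul_neg_of_neg_of_pos h hx
    rw [if_neg (not_lt.mpr h2.le), if_pos h2, if_neg (not_lt.mpr h.le), if_pos h]
  · subst h; simp
  · have h2 : 0 < a * x := mul_pos h hx
    rw [if_pos h2, if_pos h]

private lemma C4_sg_neg (a : ℝ) : sg (-a) = - sg a := by
  unfold sg
  rcases lt_trichotomy a 0 with h | h | h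
  · rw [if_pos (by linarith), if_neg (not_lt.mpr h.le), if_pos h]; rfl
  · subst h; simp
  · rw [if_neg (by linarith), if_pos (by linarith), if_pos h]

private lemma C4_sg_near (D a e : ℝ) (h : |e * a| < |D|) : sg (D + e * a) = sg D ∧ D + e * a ≠ 0 := by
  unfold sg
  rcases lt_trichotomy D 0 with hD | hD | hD
  · rw [abs_of_neg hD] at h
    have h1 := (abs_lt.mp h).2
    have h3 : D + e * a < 0 := by linarith
    rw [if_neg (not_lt.mpr h3.le), if_pos h3, if_neg (not_lt.mpr hD.le), if_pos hD]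
    exact ⟨rfl, h3.ne⟩
  · subst hD
    rw [abs_zero] at h
    exact absurd h (not_lt.mpr (abs_nonneg _))
  · rw [abs_of_pos hD] at h
    have h1 := (abs_lt.mp h).1
    have h3 : 0 < D + e * a := by linarith
    rw [if_pos h3, if_pos hD]
    exact ⟨rfl, h3.ne'⟩

private lemma C4_inj {l : ℕ} [NeZero l] (hl : l.Prime) (t0 s : ZMod l) (hs : s ≠ 0) (a b : ℕ)
    (ha : a < l) (hb : b < l) (hab : t0 + (a : ZMod l) * s = t0 + (b : ZMod l) * s) : a = b := by
  have : Fact l.Prime := ⟨hl⟩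
  have h1 : (a : ZMod l) = b := by
    have h0 : (a : ZMod l) * s = b * s := add_left_cancel hab
    exact mul_right_cancel₀ hs h0
  have h2 := (ZMod.natCast_eq_natCast_iff' a b l).mp h1
  rwa [Nat.mod_eq_of_lt ha, Nat.mod_eq_of_lt hb] at h2

private lemma C4_idx {l : ℕ} [NeZero l] (hl : l.Prime) (t0 s : ZMod l) (hs : s ≠ 0) (c : ZMod l) :
    t0 + ((((c - t0) * s⁻¹).val : ℕ) : ZMod l) * s = c := by
  have : Fact l.Prime := ⟨hl⟩
  rw [ZMod.natCast_zmod_val, mul_assoc, inv_mul_cancel₀ hs]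
  ring

private lemma C4_sum_ap {l : ℕ} [NeZero l] (hl : l.Prime) (t0 s : ZMod l) (hs : s ≠ 0)
    (f : ZMod l → ℤ) : ∑ c, f c = ∑ i ∈ range l, f (t0 + (i : ZMod l) * s) := by
  symm
  refine Finset.sum_bij (fun i _ => t0 + (i : ZMod l) * s) (fun _ _ => mem_univ _) ?_ ?_
    (fun _ _ => rfl)
  · intro a ha b hb hab
    exact C4_inj hl t0 s hs a b (mem_range.mp ha) (mem_range.mp hb) hab
  · intro c _
    exact ⟨((c - t0) * s⁻¹).val, mem_range.mpr (ZMod.val_lt _), C4_idx hl t0 s hs c⟩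

private lemma C4_sum_alt (n : ℕ) : ∑ i ∈ range (2 * n), (-1 : ℤ) ^ i = 0 := by
  induction n with
  | zero => simp
  | succ n ih =>
    rw [show 2 * (n + 1) = 2 * n + 1 + 1 by ring, sum_range_succ, sum_range_succ, ih, pow_succ]
    ring

private lemma C4_eps {ι : Type} [Fintype ι] (D a : ι → ℝ) (r : ℝ) (hr : 0 < r) :
    ∃ e : ℝ, 0 < e ∧ e < r ∧ ∀ c, D c ≠ 0 → |e * a c| < |D c| := by
  have h1 : ∀ᶠ e in nhdsWithin (0 : ℝ) (Set.Ioi 0), e < r :=
    (eventually_nhdsWithin_of_eventually_nhds (eventually_lt_nhds hr))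
  have h2 : ∀ᶠ e in nhdsWithin (0 : ℝ) (Set.Ioi 0), ∀ c, D c ≠ 0 → |e * a c| < |D c| := by
    rw [Filter.eventually_all]
    intro c
    by_cases hc : D c = 0
    · exact Filter.Eventually.of_forall (fun e h => absurd hc h)
    · have h3 : Filter.Tendsto (fun e : ℝ => |e * a c|) (nhds 0) (nhds |0 * a c|) := by
        have h4 : Continuous (fun e : ℝ => |e * a c|) := by fun_prop
        exact h4.tendsto 0
      rw [zero_mul, abs_zero] at h3
      have h5 := h3.eventually (eventually_lt_nhds (abs_pos.mpr hc))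
      exact (eventually_nhdsWithin_of_eventually_nhds h5).mono (fun e h _ => h)
  have h3 : ∀ᶠ e in nhdsWithin (0 : ℝ) (Set.Ioi 0), 0 < e := eventually_mem_nhdsWithin
  obtain ⟨e, he1, he2, he3⟩ := (h1.and (h2.and h3)).exists
  exact ⟨e, he3, he1, he2⟩

private lemma C4_net {ι : Type} [Fintype ι] (α β : ι → ℤ) (r : ℚ) (hr : 0 < r)
    (hS : ∀ x : ℝ, 0 < x → (∀ c, ¬ ((α c : ℝ) = 0 ∧ (β c : ℝ) = 0) → (α c : ℝ) * x + β c ≠ 0) →
      ∑ c, sg ((α c : ℝ) * x + β c) = 2) : net α β r = 0 := by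
  classical
  have hr' : (0 : ℝ) < (r : ℝ) := by exact_mod_cast hr
  obtain ⟨e, he, her, hc⟩ := C4_eps (fun c => (α c : ℝ) * r + β c) (fun c => (α c : ℝ)) (r : ℝ) hr'
  have hm : ∀ c, |(-e) * (α c : ℝ)| = |e * (α c : ℝ)| := by
    intro c
    rw [neg_mul, abs_neg]
  have key : ∀ c, (α c : ℝ) * r + β c = 0 → (β c : ℚ) = - r * α c := by
    intro c h
    have h1 : (β c : ℝ) = - r * α c := by linarith
    exact_mod_cast h1
  have key' : ∀ c, (β c : ℚ) = - r * α c → (α c : ℝ) * r + β c = 0 := by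
    intro c h
    have h1 : (β c : ℝ) = - r * α c := by exact_mod_cast h
    rw [h1]; ring
  -- the two points
  have hp : ∑ c, sg ((α c : ℝ) * (r + e) + β c) = 2 := by
    refine hS _ (by linarith) ?_
    intro c hcc
    by_cases hD : (α c : ℝ) * r + β c = 0
    · have h1 : (α c : ℝ) * (r + e) + β c = α c * e := by
        rw [show (α c : ℝ) * (r + e) + β c = (α c * r + β c) + α c * e by ring, hD, zero_add]
      rw [h1]
      refine mul_ne_zero ?_ he.ne'
      intro h0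
      apply hcc
      refine ⟨h0, ?_⟩
      rw [h0, zero_mul, zero_add] at hD
      exact hD
    · have h1 := (C4_sg_near ((α c : ℝ) * r + β c) (α c) e (hc c hD)).2
      rwa [show (α c : ℝ) * (r + e) + β c = (α c * r + β c) + e * α c by ring]
  have hq : ∑ c, sg ((α c : ℝ) * (r - e) + β c) = 2 := by
    refine hS _ (by linarith) ?_
    intro c hcc
    by_cases hD : (α c : ℝ) * r + β c = 0
    · have h1 : (α c : ℝ) * (r - e) + β c = - (α c * e) := by
        rw [show (α c : ℝ) * (r - e) + β c = (α c * r + β c) - α c * e by ring, hD, zero_sub]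
      rw [h1]
      refine neg_ne_zero.mpr (mul_ne_zero ?_ he.ne')
      intro h0
      apply hcc
      refine ⟨h0, ?_⟩
      rw [h0, zero_mul, zero_add] at hD
      exact hD
    · have h1 := (C4_sg_near ((α c : ℝ) * r + β c) (α c) (-e) (by rw [hm]; exact hc c hD)).2
      rwa [show (α c : ℝ) * (r - e) + β c = (α c * r + β c) + (-e) * α c by ring]
  have hdiff : ∀ c, sg ((α c : ℝ) * (r + e) + β c) - sg ((α c : ℝ) * (r - e) + β c) =
      2 * (if α c ≠ 0 ∧ (β c : ℚ) = - r * α c then (α c).sign else 0) := by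
    intro c
    by_cases hD : (α c : ℝ) * r + β c = 0
    · have h1 : (α c : ℝ) * (r + e) + β c = α c * e := by
        rw [show (α c : ℝ) * (r + e) + β c = (α c * r + β c) + α c * e by ring, hD, zero_add]
      have h2 : (α c : ℝ) * (r - e) + β c = - (α c * e) := by
        rw [show (α c : ℝ) * (r - e) + β c = (α c * r + β c) - α c * e by ring, hD, zero_sub]
      rw [h1, h2, C4_sg_neg, C4_sg_pos_mul _ _ he, C4_sg_int]
      by_cases h0 : α c = 0
      · rw [h0]; simp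
      · rw [if_pos ⟨h0, key c hD⟩]; ring
    · have h1 := (C4_sg_near ((α c : ℝ) * r + β c) (α c) e (hc c hD)).1
      have h2 := (C4_sg_near ((α c : ℝ) * r + β c) (α c) (-e) (by rw [hm]; exact hc c hD)).1
      rw [show (α c : ℝ) * (r + e) + β c = (α c * r + β c) + e * α c by ring,
        show (α c : ℝ) * (r - e) + β c = (α c * r + β c) + (-e) * α c by ring, h1, h2,
        if_neg (fun h => hD (key' c h.2))]
      ring
  have hfin : 2 * net α β r = 0 := by
    unfold net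
    rw [sum_filter, mul_sum, ← sum_congr rfl (fun c _ => hdiff c), sum_sub_distrib, hp, hq]
    ring
  omega

theorem fan_ap {l : ℕ} [NeZero l] (hl : l.Prime) (hodd : Odd l) (μ : ZMod l → ℤ)
    (t0 s : ZMod l) (L : ℕ) (hs : s ≠ 0) (hL : Odd L) (hL3 : 3 ≤ L) (hLl : L + 2 ≤ l)
    (hg : ∀ j : ℕ, j < L → (μ (t0 + j * s)).sign = (-1) ^ j)
    (hz : ∀ i, (∀ j : ℕ, j < L → i ≠ t0 + j * s) → μ i = 0)
    (hns : ¬ RVal (fun c => (μ c : ℝ)) l) :
    ∃ (ρ : ZMod l → ℤ) (a : ℕ → ℚ) (j : ZMod l), j ≠ 0 ∧ Fan μ (fun c => μ (c - s)) ρ 0 a ∧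
      ∀ c, r0 (fun c => μ (c - s)) μ ρ c = r0 μ (fun c => μ (c - s)) ρ (c - j) := by
  have : Fact l.Prime := ⟨hl⟩
  have hLl' : L < l := by omega
  -- signs of `μ` on the progression
  have hA : ∀ i : ℕ, i < L → (μ (t0 + (i : ZMod l) * s)).sign = (-1) ^ i := hg
  have hA0 : ∀ i : ℕ, L ≤ i → i < l → μ (t0 + (i : ZMod l) * s) = 0 := by
    intro i hi hil
    apply hz
    intro j hj h
    have := C4_inj hl t0 s hs i j hil (by omega) h
    omega
  have hAn : ∀ i : ℕ, i < L → μ (t0 + (i : ZMod l) * s) ≠ 0 := by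
    intro i hi h
    have h1 := hA i hi
    rw [h, Int.sign_zero] at h1
    exact absurd h1.symm (pow_ne_zero _ (by norm_num))
  -- the shifted function
  have hsh : ∀ i : ℕ, 1 ≤ i → t0 + (i : ZMod l) * s - s = t0 + ((i - 1 : ℕ) : ZMod l) * s := by
    intro i hi
    obtain ⟨k, rfl⟩ : ∃ k, i = k + 1 := ⟨i - 1, by omega⟩
    rw [Nat.add_sub_cancel]
    push_cast
    ring
  have hB : ∀ i : ℕ, 1 ≤ i → i ≤ L → (μ (t0 + (i : ZMod l) * s - s)).sign = (-1) ^ (i - 1) := by
    intro i h1 h2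
    rw [hsh i h1]
    exact hA (i - 1) (by omega)
  have hB0 : ∀ i : ℕ, L < i → i < l → μ (t0 + (i : ZMod l) * s - s) = 0 := by
    intro i h1 h2
    rw [hsh i (by omega)]
    exact hA0 (i - 1) (by omega) (by omega)
  have hB1 : μ (t0 + ((0 : ℕ) : ZMod l) * s - s) = 0 := by
    have h1 : t0 + ((0 : ℕ) : ZMod l) * s - s = t0 + ((l - 1 : ℕ) : ZMod l) * s := by
      rw [Nat.cast_sub (by omega : 1 ≤ l), ZMod.natCast_self]
      push_cast
      ring
    rw [h1]
    exact hA0 (l - 1) (by omega) (by omega)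
  have hBn : ∀ i : ℕ, 1 ≤ i → i ≤ L → μ (t0 + (i : ZMod l) * s - s) ≠ 0 := by
    intro i h1 h2
    rw [hsh i h1]
    exact hAn (i - 1) (by omega)
  -- sums of signs
  have hsum : ∑ c, (μ c).sign = 1 := by
    rw [C4_sum_ap hl t0 s hs]
    obtain ⟨k, hk⟩ := hL
    obtain ⟨w, hw⟩ : ∃ w, l = L + w := ⟨l - L, by omega⟩
    have h1 : ∑ i ∈ range l, (μ (t0 + (i : ZMod l) * s)).sign
        = ∑ i ∈ range L, (μ (t0 + (i : ZMod l) * s)).sign := by
      symm
      apply sum_subset (range_subset_range.mpr hLl'.le)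
      intro i hi hi2
      rw [mem_range] at hi hi2
      rw [hA0 i (by omega) hi, Int.sign_zero]
    rw [h1, sum_congr rfl (fun i hi => hA i (mem_range.mp hi)), hk, sum_range_succ, C4_sum_alt,
      zero_add, pow_mul]
    norm_num
  have hsum' : ∑ c, (μ (c - s)).sign = 1 := by
    rw [← hsum]
    exact (Equiv.subRight s).sum_comp (fun c => (μ c).sign)
  -- the fan
  set ρ : ZMod l → ℤ := fun c => (-1) ^ (((c - t0) * s⁻¹).val + 1) with hρ
  have hρi : ∀ i : ℕ, i < l → ρ (t0 + (i : ZMod l) * s) = (-1) ^ (i + 1) := by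
    intro i hi
    have h1 := C4_inj hl t0 s hs (((t0 + (i : ZMod l) * s - t0) * s⁻¹).val) i (ZMod.val_lt _) hi
      (C4_idx hl t0 s hs _)
    show (-1 : ℤ) ^ (((t0 + (i : ZMod l) * s - t0) * s⁻¹).val + 1) = _
    rw [h1]
  have hr0 : ∀ i : ℕ, i < l → r0 μ (fun c => μ (c - s)) ρ (t0 + (i : ZMod l) * s) =
      if i < L then (-1) ^ i else (-1) ^ (i + 1) := by
    intro i hi
    show sx (μ (t0 + (i : ZMod l) * s)) (sx (μ (t0 + (i : ZMod l) * s - s)) (ρ _)) = _
    by_cases h1 : i < L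
    · rw [if_pos h1]
      unfold sx
      rw [if_neg (hAn i h1), hA i h1]
    · rw [if_neg h1]
      unfold sx
      rw [if_pos (hA0 i (by omega) hi)]
      by_cases h2 : i = L
      · rw [if_neg (hBn i (by omega) (by omega)), hB i (by omega) (by omega)]
        obtain ⟨k, rfl⟩ : ∃ k, i = k + 1 := ⟨i - 1, by omega⟩
        rw [Nat.add_sub_cancel, pow_succ, pow_succ]
        ring
      · rw [if_pos (hB0 i (by omega) hi), hρi i hi]
  have hr1 : ∀ i : ℕ, i < l → r0 (fun c => μ (c - s)) μ ρ (t0 + (i : ZMod l) * s) =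
      if i = 0 then 1 else (-1) ^ (i + 1) := by
    intro i hi
    show sx (μ (t0 + (i : ZMod l) * s - s)) (sx (μ (t0 + (i : ZMod l) * s)) (ρ _)) = _
    by_cases h1 : i = 0
    · rw [if_pos h1]
      unfold sx
      subst h1
      rw [if_pos hB1, if_neg (hAn 0 (by omega)), hA 0 (by omega), pow_zero]
    · rw [if_neg h1]
      unfold sx
      by_cases h2 : i ≤ L
      · rw [if_neg (hBn i (by omega) h2), hB i (by omega) h2]
        obtain ⟨k, rfl⟩ : ∃ k, i = k + 1 := ⟨i - 1, by omega⟩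
        rw [Nat.add_sub_cancel, pow_succ, pow_succ]
        ring
      · rw [if_pos (hB0 i (by omega) hi), if_pos (hA0 i (by omega) hi), hρi i hi]
  have hs0 : ∑ c, r0 μ (fun c => μ (c - s)) ρ c = 1 := by
    rw [C4_sum_ap hl t0 s hs, sum_congr rfl (fun i hi => hr0 i (mem_range.mp hi))]
    obtain ⟨k, hk⟩ := hL
    obtain ⟨w, hw⟩ := hodd
    have h1 : ∀ i ∈ range L, (if i < L then (-1 : ℤ) ^ i else (-1) ^ (i + 1)) = (-1) ^ i := by
      intro i hi
      rw [if_pos (mem_range.mp hi)]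
    have h2 : ∑ i ∈ range l, (if i < L then (-1 : ℤ) ^ i else (-1) ^ (i + 1)) =
        ∑ i ∈ range L, (-1 : ℤ) ^ i + ∑ i ∈ range (l - L), (-1 : ℤ) ^ i := by
      rw [← sum_congr rfl h1]
      conv_lhs => rw [show l = L + (l - L) by omega, sum_range_add]
      congr 1
      apply sum_congr rfl
      intro i _
      rw [if_neg (by omega), hk, show 2 * k + 1 + i + 1 = 2 * (k + 1) + i by ring, pow_add, pow_mul]
      norm_num
    rw [h2, show l - L = 2 * (w - k) by omega, C4_sum_alt, hk, sum_range_succ, C4_sum_alt,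
      zero_add, pow_mul]
    norm_num
  have hj : (-(((L - 1 : ℕ) : ZMod l) * s)) ≠ 0 := by
    refine neg_ne_zero.mpr (mul_ne_zero ?_ hs)
    intro h
    have h1 := C4_inj hl t0 s hs (L - 1) 0 (by omega) (by omega) (by rw [h]; simp)
    omega
  have hshift : ∀ c, r0 (fun c => μ (c - s)) μ ρ c =
      r0 μ (fun c => μ (c - s)) ρ (c - (-(((L - 1 : ℕ) : ZMod l) * s))) := by
    intro c
    obtain ⟨i, hi, rfl⟩ : ∃ i : ℕ, i < l ∧ c = t0 + (i : ZMod l) * s :=
      ⟨((c - t0) * s⁻¹).val, ZMod.val_lt _, (C4_idx hl t0 s hs c).symm⟩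
    rw [hr1 i hi]
    obtain ⟨k, hk⟩ := hL
    obtain ⟨w, hw⟩ := hodd
    have e1 : t0 + (i : ZMod l) * s - (-(((L - 1 : ℕ) : ZMod l) * s)) =
        t0 + ((i + (L - 1) : ℕ) : ZMod l) * s := by
      push_cast
      ring
    rw [e1]
    by_cases h0 : i = 0
    · subst h0
      rw [if_pos rfl, hr0 _ (by omega), if_pos (by omega), show 0 + (L - 1) = 2 * k by omega,
        pow_mul]
      norm_num
    · rw [if_neg h0]
      by_cases h1 : i + (L - 1) < l
      · rw [hr0 _ h1, if_neg (by omega), show i + (L - 1) + 1 = 2 * k + (i + 1) by omega,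
          pow_add (-1 : ℤ) (2 * k), pow_mul, neg_one_sq, one_pow, one_mul]
      · have e2 : ((i + (L - 1) : ℕ) : ZMod l) = ((i + (L - 1) - l : ℕ) : ZMod l) := by
          rw [Nat.cast_sub (by omega : l ≤ i + (L - 1)), ZMod.natCast_self, sub_zero]
        rw [e2, hr0 _ (by omega), if_pos (by omega)]
        obtain ⟨d, hd⟩ : ∃ d, i + (L - 1) = d + l := ⟨i + (L - 1) - l, by omega⟩
        rw [hd, Nat.add_sub_cancel]
        have e3 : (-1 : ℤ) ^ (2 * k + (i + 1)) = (-1) ^ (2 * (w + 1) + d) := by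
          rw [show 2 * k + (i + 1) = 2 * (w + 1) + d by omega]
        rw [pow_add, pow_mul, neg_one_sq, one_pow, one_mul, pow_add (-1 : ℤ) (2 * (w + 1)) d,
          pow_mul, neg_one_sq, one_pow, one_mul] at e3
        exact e3
  -- the game
  have hg0 : Helper77.KZ.IsSign (fun t : ZMod l => sg ((fun c => (μ c : ℝ)) (-t))) := by
    intro t
    show sg _ = 0 ∨ sg _ = 1 ∨ sg _ = -1
    unfold sg
    split_ifs
    · exact Or.inr (Or.inl rfl)
    · exact Or.inr (Or.inr rfl)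
    · exact Or.inl rfl
  have he0 : ∑ t : ZMod l, sg ((fun c => (μ c : ℝ)) (-t)) = 1 := by
    rw [← hsum]
    calc ∑ t : ZMod l, sg ((fun c => (μ c : ℝ)) (-t)) = ∑ t : ZMod l, (μ (-t)).sign :=
          sum_congr rfl (fun t _ => C4_sg_int _)
      _ = ∑ c, (μ c).sign := Fintype.sum_equiv (Equiv.neg (ZMod l)) _ _ (fun t => rfl)
  have hgen : Gen (fun t : ZMod l => sg ((fun c => (μ c : ℝ)) (-t)) ≠ 0) := by
    intro q hq hql
    have hql' : q = l := (Nat.prime_dvd_prime_iff_eq hq hl).mp hql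
    subst hql'
    have hpr : ∀ c : ZMod q, pr q c = c := fun c => ZMod.natCast_zmod_val c
    refine ⟨-(t0 + ((0 : ℕ) : ZMod q) * s), -(t0 + ((1 : ℕ) : ZMod q) * s), ?_, ?_, ?_⟩
    · show sg ((μ (- -(t0 + ((0 : ℕ) : ZMod q) * s)) : ℤ) : ℝ) ≠ 0
      rw [C4_sg_int, neg_neg, hA 0 (by omega)]
      norm_num
    · show sg ((μ (- -(t0 + ((1 : ℕ) : ZMod q) * s)) : ℤ) : ℝ) ≠ 0
      rw [C4_sg_int, neg_neg, hA 1 (by omega)]
      norm_num
    · rw [hpr, hpr]
      intro h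
      have h1 := C4_inj hl t0 s hs 0 1 (by omega) (by omega) (neg_injective h)
      omega
  have hUi : ∀ i : ℕ, i < l → (((fun c => (μ c : ℝ)) (t0 + (i : ZMod l) * s) = 0 ∧
      (fun c => (μ c : ℝ)) (t0 + (i : ZMod l) * s - s) = 0) ↔ L < i) := by
    intro i hi
    constructor
    · rintro ⟨h1, h2⟩
      by_contra h3
      have h1' : ((μ (t0 + (i : ZMod l) * s) : ℤ) : ℝ) = 0 := h1
      have h2' : ((μ (t0 + (i : ZMod l) * s - s) : ℤ) : ℝ) = 0 := h2
      by_cases h4 : i < L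
      · exact hAn i h4 (by exact_mod_cast h1')
      · exact hBn i (by omega) (by omega) (by exact_mod_cast h2')
    · intro h
      refine ⟨?_, ?_⟩
      · show ((μ _ : ℤ) : ℝ) = 0
        rw [hA0 i (by omega) hi, Int.cast_zero]
      · show ((μ _ : ℤ) : ℝ) = 0
        rw [hB0 i h hi, Int.cast_zero]
  have hUne : (univ.filter (fun c => (fun c => (μ c : ℝ)) c = 0 ∧
      (fun c => (μ c : ℝ)) (c - s) = 0)) ≠ (univ : Finset (ZMod l)) := by
    intro h
    have h1 : t0 + ((0 : ℕ) : ZMod l) * s ∈ (univ.filter (fun c => (fun c => (μ c : ℝ)) c = 0 ∧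
      (fun c => (μ c : ℝ)) (c - s) = 0)) := by
      rw [h]; exact mem_univ _
    rw [mem_filter] at h1
    have := (hUi 0 (by omega)).mp h1.2
    omega
  have hUodd : Odd (univ.filter (fun c => (fun c => (μ c : ℝ)) c = 0 ∧
      (fun c => (μ c : ℝ)) (c - s) = 0)).card := by
    have h1 : (Ioo L l).card = (univ.filter (fun c => (fun c => (μ c : ℝ)) c = 0 ∧
      (fun c => (μ c : ℝ)) (c - s) = 0)).card := by
      refine Finset.card_bij (fun i _ => t0 + (i : ZMod l) * s) ?_ ?_ ?_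
      · intro i hi
        rw [mem_Ioo] at hi
        exact mem_filter.mpr ⟨mem_univ _, (hUi i hi.2).mpr hi.1⟩
      · intro a ha b hb hab
        exact C4_inj hl t0 s hs a b (mem_Ioo.mp ha).2 (mem_Ioo.mp hb).2 hab
      · intro c hc
        obtain ⟨i, hi, rfl⟩ : ∃ i : ℕ, i < l ∧ c = t0 + (i : ZMod l) * s :=
          ⟨((c - t0) * s⁻¹).val, ZMod.val_lt _, (C4_idx hl t0 s hs c).symm⟩
        rw [mem_filter] at hc
        exact ⟨i, mem_Ioo.mpr ⟨(hUi i hi).mp hc.2, hi⟩, rfl⟩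
    rw [← h1, Nat.card_Ioo]
    obtain ⟨k, hk⟩ := hL
    obtain ⟨w, hw⟩ := hodd
    exact ⟨w - k - 1, by omega⟩
  have hv := val_parity hg0 (game_one_proper hg0 he0 hgen _ hUne) hUodd
  have hS : ∀ x : ℝ, 0 < x → (∀ c, ¬ ((μ c : ℝ) = 0 ∧ (μ (c - s) : ℝ) = 0) →
      (μ c : ℝ) * x + μ (c - s) ≠ 0) → ∑ c, sg ((μ c : ℝ) * x + μ (c - s)) = 2 := by
    intro x hx hrow
    by_contra hne
    have h1 := plane_bound (fun c => (μ c : ℝ)) s hs x 1 hx.ne' one_ne_zero
      (fun c hc => by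
        show (μ c : ℝ) * x + (μ (c - s) : ℝ) * 1 ≠ 0
        rw [mul_one]
        exact hrow c hc) 1 hv
    apply hns
    refine rval_mono ?_ h1
    have h2 : sg x = 1 := by
      unfold sg; rw [if_pos hx]
    have h3 : sg (1 : ℝ) = 1 := by
      unfold sg; rw [if_pos one_pos]
    have h4 : ∑ c, sg ((fun c => (μ c : ℝ)) c * x + (fun c => (μ c : ℝ)) (c - s) * 1) =
        ∑ c, sg ((μ c : ℝ) * x + μ (c - s)) :=
      sum_congr rfl (fun c _ => by rw [mul_one])
    rw [h4, h2, h3]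
    have h5 : (1 : ℤ) ≤ |1 + 1 - ∑ c, sg ((μ c : ℝ) * x + μ (c - s))| :=
      Int.one_le_abs (by intro h; apply hne; omega)
    omega
  refine ⟨ρ, fun _ => 0, -(((L - 1 : ℕ) : ZMod l) * s), hj, ?_, hshift⟩
  refine ⟨?_, ?_, ?_, ?_, hsum, hsum', ?_, ?_, hs0, ?_⟩
  · intro i h1 h2; omega
  · intro i h1 h2; omega
  · intro i h1 h2; omega
  · intro r hr _
    exact C4_net μ (fun c => μ (c - s)) r hr hS
  · intro c
    exact neg_one_pow_eq_or ℤ _
  · intro h
    exact absurd h (lt_irrefl 0)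
  · rw [sum_congr rfl (fun c _ => hshift c), ← hs0]
    exact (Equiv.subRight (-(((L - 1 : ℕ) : ZMod l) * s))).sum_comp
      (fun c => r0 μ (fun c => μ (c - s)) ρ c)

end Pool.Agent.Helper50.FE
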