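import Pool.Agent.Helper50.FE.X5
import Pool.Agent.Helper21.FC.A1

/-!
MP_0aa406_nt, project FE: exactness by reversal.

`gain_of_loop`.  There are plays from `s` to its translate `sh j s` (`j ≠ 0`, `l` prime) of effect `E`, and
back of effect `E'`, with `0 ≤ E + E'`.  If `0 ≤ E`: iterate `K` times, where `K j = -1` in `ZMod l`
(`Stage.shift`, `Stage.trans`: plays from `s` to `sh (K j) s` of effect `K E`), then `gain_of_stage` for
all `M > K R D` (and `κ M > 0`; here `0 < κ`), `gain_mono`.  Otherwise `0 ≤ E'`: the plays back, translated by `-j`,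
lead from `s` to `sh (-j) s`; the same with `K (-j) = -1`.
-/

set_option autoImplicit false

namespace Pool.Agent.Helper50.FE

open Finset Pool.Agent.Helper21.FC Pool.Agent.Helper21.FD

private theorem X6_sh_sh {l : ℕ} (a b : ZMod l) (s : St l) : sh a (sh b s) = sh (a + b) s := by
  unfold sh
  simp only [sub_sub]

private theorem X6_sh_zero {l : ℕ} (s : St l) : sh 0 s = s := by
  unfold sh
  simp only [sub_zero]

private theorem X6_iter {p D h κ l : ℕ} [NeZero l] {μ : ZMod l → ℤ} {s : St l} {j : ZMod l} {R : ℕ}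
    {E : ℝ} (h1 : Stage p D h κ μ s (sh j s) R E) (K : ℕ) :
    Stage p D h κ μ s (sh ((K : ZMod l) * j) s) (K * R) ((K : ℝ) * E) := by
  induction K with
  | zero =>
    rw [Nat.cast_zero, Nat.cast_zero, zero_mul, zero_mul, zero_mul, X6_sh_zero]
    exact Stage.nil s
  | succ K ih =>
    have h2 := h1.shift ((K : ZMod l) * j)
    rw [X6_sh_sh] at h2
    have h3 := ih.trans h2
    have e1 : (K : ZMod l) * j + j = ((K + 1 : ℕ) : ZMod l) * j := by push_cast; ring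
    have e2 : K * R + R = (K + 1) * R := by ring
    have e3 : (K : ℝ) * E + E = ((K + 1 : ℕ) : ℝ) * E := by push_cast; ring
    rw [e1, e2, e3] at h3
    exact h3

private theorem X6_one {p D h κ l : ℕ} [NeZero l] {μ : ZMod l → ℤ} (hp : 2 ≤ p) (hh : 0 < h)
    (hl : l.Prime) (hκ : 0 < κ) {s : St l} {j : ZMod l} (hj : j ≠ 0) {R : ℕ} {E : ℝ}
    (h1 : Stage p D h κ μ s (sh j s) R E) (hE : 0 ≤ E) (hok : Ok s) (ht : Tight κ s)
    (hs1 : ∃ i, s.1 i = 1) (hs2 : ∃ u, s.2 u = 1) :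
    ∃ M0 : ℕ, ∀ M : ℕ, M0 ≤ M → ∀ (d : ℤ) (r : ℕ),
      NN p (l * M) ∣ (h : ℤ) * d - (p : ℤ) ^ r * ∑ c : ZMod l, μ c * ((p : ℤ) ^ M) ^ c.val →
      Gain p (l * M) d ((κ : ℝ) * M) := by
  have : Fact l.Prime := ⟨hl⟩
  set K : ℕ := (-j⁻¹ : ZMod l).val with hK
  have hKj : (K : ZMod l) * j = -1 := by
    rw [hK, ZMod.natCast_zmod_val, neg_mul, inv_mul_cancel₀ hj]
  have hS := X6_iter h1 K
  rw [hKj] at hS
  refine ⟨K * R * D + 1, fun M hM d r hd => ?_⟩
  have hM0 : (0 : ℝ) < M := by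
    have : 0 < M := by omega
    exact_mod_cast this
  have hκ0 : (0 : ℝ) < κ := by exact_mod_cast hκ
  have hKE : 0 ≤ (K : ℝ) * E := mul_nonneg (Nat.cast_nonneg K) hE
  have hpos : 0 < (κ : ℝ) * M + (K : ℝ) * E := by
    have := mul_pos hκ0 hM0
    linarith
  exact gain_mono (by linarith) (gain_of_stage hp hh hS hok ht rfl hs1 hs2 (by omega) hpos d r hd)

theorem gain_of_loop {p D h κ l : ℕ} [NeZero l] {μ : ZMod l → ℤ} (hp : 2 ≤ p) (hh : 0 < h)
    (hl : l.Prime) (hκ : 0 < κ) {s : St l} {j : ZMod l} (hj : j ≠ 0) {R R' : ℕ} {E E' : ℝ}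
    (h1 : Stage p D h κ μ s (sh j s) R E) (h2 : Stage p D h κ μ (sh j s) s R' E')
    (hE : 0 ≤ E + E') (hok : Ok s) (ht : Tight κ s) (hs1 : ∃ i, s.1 i = 1)
    (hs2 : ∃ u, s.2 u = 1) :
    ∃ M0 : ℕ, ∀ M : ℕ, M0 ≤ M → ∀ (d : ℤ) (r : ℕ),
      NN p (l * M) ∣ (h : ℤ) * d - (p : ℤ) ^ r * ∑ c : ZMod l, μ c * ((p : ℤ) ^ M) ^ c.val →
      Gain p (l * M) d ((κ : ℝ) * M) := by
  rcases le_or_gt 0 E with hE0 | hE0
  · exact X6_one hp hh hl hκ hj h1 hE0 hok ht hs1 hs2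
  · have h3 := h2.shift (-j)
    rw [X6_sh_sh, neg_add_cancel, X6_sh_zero] at h3
    exact X6_one hp hh hl hκ (neg_ne_zero.2 hj) h3 (by linarith) hok ht hs1 hs2

end Pool.Agent.Helper50.FE
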