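import Pool.Agent.Helper50.FE.X7

/-!
MP_0aa406_nt, project FE: the sum of the effects of a sequence of plays and of its reverse.

Sum `rev_one` over the rows (`x g = cv μ (v g) u`) and over the coordinates (`x g = h v g i`;
`sx (h v) = sx v`; `cv μ (-v) = - cv μ v`).  The terms with `D`: for each `g < R`,
`∑ rows (1 - (s + t') / 2) - ∑ coordinates (1 - (s + t') / 2) - 2 κ`
`= (∑ coordinates s - ∑ rows s) / 2 + (∑ coordinates t' - ∑ rows t') / 2 - 2 κ = 0` by `Tight` of `st g` and `bt (g + 1)`.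
-/

set_option autoImplicit false

namespace Pool.Agent.Helper50.FE

open Finset Pool.Agent.Helper21.FC Pool.Agent.Helper21.FD

theorem X8_cv_neg {l : ℕ} [NeZero l] (μ v : ZMod l → ℤ) (u : ZMod l) :
    cv μ (fun i => -v i) u = -cv μ v u := by
  simp [cv]

theorem X8_sx_mul {h : ℕ} (hh : 0 < h) (x s : ℤ) : sx ((h : ℤ) * x) s = sx x s := by
  have h1 : (0 : ℤ) < h := by exact_mod_cast hh
  by_cases hx : x = 0
  · rw [hx, mul_zero]
  · rw [X7_sx_ne hx, X7_sx_ne (mul_ne_zero h1.ne' hx), Int.sign_mul, Int.sign_eq_one_of_pos h1,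
      one_mul]

theorem X8_tight {l : ℕ} [NeZero l] {κ : ℕ} (D : ℕ) {s t : St l} (h1 : Tight κ s)
    (h2 : Tight κ t) :
    ∑ u, (D : ℝ) * (1 - ((s.2 u + t.2 u : ℤ) : ℝ) / 2) -
      ∑ i, (D : ℝ) * (1 - ((s.1 i + t.1 i : ℤ) : ℝ) / 2) = 2 * κ * D := by
  have e1 : (∑ i, (s.1 i : ℝ)) - ∑ u, (s.2 u : ℝ) = 2 * κ := by
    have := h1
    unfold Tight at this
    exact_mod_cast this
  have e2 : (∑ i, (t.1 i : ℝ)) - ∑ u, (t.2 u : ℝ) = 2 * κ := by
    have := h2
    unfold Tight at this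
    exact_mod_cast this
  rw [← mul_sum, ← mul_sum, ← mul_sub]
  push_cast
  rw [sum_sub_distrib, sum_sub_distrib, ← sum_div, ← sum_div, sum_add_distrib, sum_add_distrib]
  have e3 : (∑ _x : ZMod l, (1 : ℝ)) - ((∑ u, (s.2 u : ℝ)) + ∑ u, (t.2 u : ℝ)) / 2 -
      ((∑ _x : ZMod l, (1 : ℝ)) - ((∑ i, (s.1 i : ℝ)) + ∑ i, (t.1 i : ℝ)) / 2) = 2 * κ := by
    linarith
  rw [e3]
  ring

theorem rev_sum {p D h κ l R : ℕ} [NeZero l] {μ : ZMod l → ℤ} (hp : p.Prime) (hh : 0 < h)
    (v : ℕ → ZMod l → ℤ) (st bt : ℕ → St l) (hfit : ∀ g < R, Fit p D h μ (v g))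
    (hst : ∀ g < R, st (g + 1) = nxt μ (st g) (v g))
    (hbt : ∀ g < R, bt g = nxt μ (bt (g + 1)) (fun i => -v g i))
    (h0 : bt 0 = st 0) (hR : bt R = st R) (hok : Ok (st 0))
    (ht1 : ∀ g ≤ R, Tight κ (st g)) (ht2 : ∀ g ≤ R, Tight κ (bt g)) :
    ∑ g ∈ range R, eff p D h κ μ (st g) (v g) +
      ∑ g ∈ range R, eff p D h κ μ (bt (g + 1)) (fun i => -v g i) =
    ∑ i, ls p R (fun g => (h : ℤ) * v g i) (fun g => (st g).1 i) (fun g => (bt g).1 i) -
      ∑ u, ls p R (fun g => cv μ (v g) u) (fun g => (st g).2 u) (fun g => (bt g).2 u) := by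
  have hrow : ∀ u, ∑ g ∈ range R, (om p D (cv μ (v g) u) ((st g).2 u) +
      om p D (-cv μ (v g) u) ((bt (g + 1)).2 u)) =
      ∑ g ∈ range R, (D : ℝ) * (1 - (((st g).2 u + (bt (g + 1)).2 u : ℤ) : ℝ) / 2) -
        ls p R (fun g => cv μ (v g) u) (fun g => (st g).2 u) (fun g => (bt g).2 u) := by
    intro u
    refine rev_one hp (fun g => cv μ (v g) u) (fun g => (st g).2 u) (fun g => (bt g).2 u)
      (fun g hg => (hfit g hg).2 u) (fun g hg => ?_) (fun g hg => ?_) ?_ ?_ (hok.2 u)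
    · have := congrArg (fun q : St l => q.2 u) (hst g hg)
      exact this
    · have := congrArg (fun q : St l => q.2 u) (hbt g hg)
      have h2 : (nxt μ (bt (g + 1)) (fun i => -v g i)).2 u =
          sx (-cv μ (v g) u) ((bt (g + 1)).2 u) := by
        rw [← X8_cv_neg]
        rfl
      exact this.trans h2
    · exact congrArg (fun q : St l => q.2 u) h0
    · exact congrArg (fun q : St l => q.2 u) hR
  have hcol : ∀ i, ∑ g ∈ range R, (om p D ((h : ℤ) * v g i) ((st g).1 i) +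
      om p D (-((h : ℤ) * v g i)) ((bt (g + 1)).1 i)) =
      ∑ g ∈ range R, (D : ℝ) * (1 - (((st g).1 i + (bt (g + 1)).1 i : ℤ) : ℝ) / 2) -
        ls p R (fun g => (h : ℤ) * v g i) (fun g => (st g).1 i) (fun g => (bt g).1 i) := by
    intro i
    refine rev_one hp (fun g => (h : ℤ) * v g i) (fun g => (st g).1 i) (fun g => (bt g).1 i)
      (fun g hg => (hfit g hg).1 i) (fun g hg => ?_) (fun g hg => ?_) ?_ ?_ (hok.1 i)
    · have := congrArg (fun q : St l => q.1 i) (hst g hg)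
      have h2 : (nxt μ (st g) (v g)).1 i = sx ((h : ℤ) * v g i) ((st g).1 i) := by
        rw [X8_sx_mul hh]
        rfl
      exact this.trans h2
    · have := congrArg (fun q : St l => q.1 i) (hbt g hg)
      have h2 : (nxt μ (bt (g + 1)) (fun i => -v g i)).1 i =
          sx (-((h : ℤ) * v g i)) ((bt (g + 1)).1 i) := by
        rw [← mul_neg, X8_sx_mul hh]
        rfl
      exact this.trans h2
    · exact congrArg (fun q : St l => q.1 i) h0
    · exact congrArg (fun q : St l => q.1 i) hR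
  have hL : ∑ g ∈ range R, eff p D h κ μ (st g) (v g) +
      ∑ g ∈ range R, eff p D h κ μ (bt (g + 1)) (fun i => -v g i) =
      ∑ g ∈ range R, (∑ u, (om p D (cv μ (v g) u) ((st g).2 u) +
          om p D (-cv μ (v g) u) ((bt (g + 1)).2 u)) -
        ∑ i, (om p D ((h : ℤ) * v g i) ((st g).1 i) +
          om p D (-((h : ℤ) * v g i)) ((bt (g + 1)).1 i)) - 2 * κ * D) := by
    rw [← sum_add_distrib]
    refine sum_congr rfl fun g _ => ?_
    have e1 : ∀ u, cv μ (fun i => -v g i) u = -cv μ (v g) u := X8_cv_neg μ (v g)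
    have e2 : ∀ i, (h : ℤ) * -v g i = -((h : ℤ) * v g i) := fun i => by ring
    unfold eff
    simp only [e1, e2, sum_add_distrib]
    ring
  have hT : ∑ g ∈ range R, (∑ u, (D : ℝ) * (1 - (((st g).2 u + (bt (g + 1)).2 u : ℤ) : ℝ) / 2) -
      ∑ i, (D : ℝ) * (1 - (((st g).1 i + (bt (g + 1)).1 i : ℤ) : ℝ) / 2)) =
      ∑ g ∈ range R, (2 * κ * D : ℝ) := by
    refine sum_congr rfl fun g hg => ?_
    have hg' := mem_range.1 hg
    exact X8_tight D (ht1 g (by omega)) (ht2 (g + 1) (by omega))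
  rw [hL, sum_sub_distrib, sum_sub_distrib, sum_comm (s := range R) (t := univ),
    sum_comm (s := range R) (t := univ), sum_congr rfl (fun u _ => hrow u),
    sum_congr rfl (fun i _ => hcol i), sum_sub_distrib, sum_sub_distrib]
  rw [sum_sub_distrib, sum_comm (s := range R) (t := univ),
    sum_comm (s := range R) (t := univ)] at hT
  linarith

end Pool.Agent.Helper50.FE
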