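import Pool.Agent.Helper50.FE.F3
import Pool.Agent.Helper50.FE.X8
import Pool.Agent.Helper50.FE.X6

/-!
MP_0aa406_nt, project FE: exactness from a fan.

The plays: `v g = (-1)^(g+1) (x g e_0 + y g e_δ)`, `(x g, y g) = fv Q a g`, `g < 2 Q + 4`; `cv μ (v g) u = fz μ (μ (· - δ)) Q a g u`.
Coordinate signs before the play `g`: `fc g i` = `1` for `i ≠ 0, δ`; for `i = 0`: `(-1)^g` if `g ≤ 2 Q + 2`, `1` if
`g ≥ 2 Q + 2`; for `i = δ`: `1` if `g ≤ 2`, `(-1)^g` if `2 ≤ g`. (Forward and backward signs of the coordinates agree: every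
nonzero value flips.) `st g = (fc g, fs .. g)`, `bt g = (fc g, bs .. g)`.
Tight: `∑ fc g = l - 1 + tau Q g` (`g` even: `l`; `g = 1, 2 Q + 3`: `l - 2`; other odd `g`: `l - 4`), `l = 2 κ + 1`.
Choose `D` with `h |v g i| , |cv μ (v g) u| < p ^ D` for all `g < 2 Q + 4` (finitely many numbers).
Forward stage: `Stage.of_seq` with `st`. Backward stage: `Stage.of_seq` with `g ↦ bt (2 Q + 4 - g)` and the plays
`g ↦ - v (2 Q + 3 - g)` (reindex the sum). `E + E' = 0` by `rev_sum`, `flip_zero` (coordinates), `fan_loss` (rows).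
`st 0 = (1, r0)`, `st (2 Q + 4) = (1, r0 β α ρ) = sh j (st 0)` by `hj`.  Then `gain_of_loop`.
-/

set_option autoImplicit false

namespace Pool.Agent.Helper50.FE

open Finset Pool.Agent.Helper21.FC Pool.Agent.Helper21.FD

/-- the play `g` of the fan in the plane of the coordinates `0` and `δ` -/
private def F4_v {l : ℕ} (Q : ℕ) (a : ℕ → ℚ) (δ : ZMod l) (g : ℕ) (i : ZMod l) : ℤ :=
  (-1) ^ (g + 1) * ((if i = 0 then (fv Q a g).1 else 0) + (if i = δ then (fv Q a g).2 else 0))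

/-- the signs of the coordinates before the play `g` -/
private def F4_fc {l : ℕ} (Q : ℕ) (δ : ZMod l) (g : ℕ) (i : ZMod l) : ℤ :=
  if i = 0 then (if g ≤ 2 * Q + 2 then (-1) ^ g else 1)
  else if i = δ then (if g ≤ 2 then 1 else (-1) ^ g) else 1

private theorem F4_cv {l : ℕ} [NeZero l] (μ : ZMod l → ℤ) (Q : ℕ) (a : ℕ → ℚ) (δ : ZMod l) (g : ℕ)
    (u : ZMod l) : cv μ (F4_v Q a δ g) u = fz μ (fun c => μ (c - δ)) Q a g u := by
  unfold cv F4_v fz
  have h1 : ∀ i : ZMod l, μ (u - i) * ((-1) ^ (g + 1) * ((if i = 0 then (fv Q a g).1 else 0) +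
      (if i = δ then (fv Q a g).2 else 0))) =
      (if i = 0 then μ (u - i) * ((-1) ^ (g + 1) * (fv Q a g).1) else 0) +
        (if i = δ then μ (u - i) * ((-1) ^ (g + 1) * (fv Q a g).2) else 0) := by
    intro i
    split_ifs <;> ring
  rw [sum_congr rfl fun i _ => h1 i, sum_add_distrib, sum_ite_eq' univ (0 : ZMod l),
    sum_ite_eq' univ δ, if_pos (mem_univ _), if_pos (mem_univ _), sub_zero]
  ring

private theorem F4_cv_neg {l : ℕ} [NeZero l] (μ v : ZMod l → ℤ) (u : ZMod l) :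
    cv μ (fun i => -v i) u = -cv μ v u := by
  unfold cv
  rw [← sum_neg_distrib]
  exact sum_congr rfl fun i _ => by ring

private theorem F4_sign_pow (g : ℕ) : ((-1 : ℤ) ^ g).sign = (-1) ^ g := by
  rcases neg_one_pow_eq_or ℤ g with h | h <;> rw [h] <;> rfl

private theorem F4_fv1_pos {ι : Type} [Fintype ι] {α β ρ : ι → ℤ} {Q : ℕ} {a : ℕ → ℚ}
    (F : Fan α β ρ Q a) {g : ℕ} (hg : g < 2 * Q + 2) : 0 < (fv Q a g).1 := by
  unfold fv
  by_cases h1 : g < 2
  · rw [if_pos h1]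
    norm_num
  · rw [if_neg h1, if_pos hg]
    exact Rat.num_pos.2 (F.hpos (g - 1) (by omega) (by omega))

private theorem F4_fv1_zero {Q : ℕ} {a : ℕ → ℚ} {g : ℕ} (hg : 2 * Q + 2 ≤ g) :
    (fv Q a g).1 = 0 := by
  unfold fv
  rw [if_neg (by omega), if_neg (by omega)]

private theorem F4_fv2_pos {Q : ℕ} {a : ℕ → ℚ} {g : ℕ} (hg : 2 ≤ g) : 0 < (fv Q a g).2 := by
  unfold fv
  rw [if_neg (by omega)]
  split_ifs
  · show (0 : ℤ) < ((a (g - 1)).den : ℤ)
    exact_mod_cast (a (g - 1)).den_pos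
  · norm_num

private theorem F4_fv2_zero {Q : ℕ} {a : ℕ → ℚ} {g : ℕ} (hg : g < 2) : (fv Q a g).2 = 0 := by
  unfold fv
  rw [if_pos hg]

/-- every nonzero entry of the play flips the sign of its coordinate -/
private theorem F4_flip {l : ℕ} {ι : Type} [Fintype ι] {α β ρ : ι → ℤ} {Q : ℕ} {a : ℕ → ℚ}
    (F : Fan α β ρ Q a) {δ : ZMod l} (hδ : δ ≠ 0) (g : ℕ) (i : ZMod l) :
    (F4_v Q a δ g i = 0 ∧ F4_fc Q δ (g + 1) i = F4_fc Q δ g i) ∨
      (F4_v Q a δ g i ≠ 0 ∧ (F4_v Q a δ g i).sign = F4_fc Q δ (g + 1) i ∧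
        F4_fc Q δ g i = -(F4_v Q a δ g i).sign) := by
  have hpow : ((-1 : ℤ)) ^ (g + 1) = -(-1) ^ g := by rw [pow_succ]; ring
  have hne : ((-1 : ℤ)) ^ (g + 1) ≠ 0 := pow_ne_zero _ (by norm_num)
  unfold F4_v F4_fc
  by_cases h0 : i = 0
  · subst h0
    simp only [if_true, if_neg (Ne.symm hδ), add_zero]
    by_cases hg : g < 2 * Q + 2
    · right
      have hx := F4_fv1_pos F hg
      refine ⟨mul_ne_zero hne hx.ne', ?_, ?_⟩
      · rw [Int.sign_mul, Int.sign_eq_one_of_pos hx, mul_one, F4_sign_pow, if_pos (by omega)]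
      · rw [Int.sign_mul, Int.sign_eq_one_of_pos hx, mul_one, F4_sign_pow, if_pos (by omega), hpow]
        ring
    · left
      rw [F4_fv1_zero (by omega)]
      refine ⟨by ring, ?_⟩
      rw [if_neg (by omega)]
      by_cases hg2 : g ≤ 2 * Q + 2
      · have : g = 2 * Q + 2 := by omega
        rw [if_pos hg2, this]
        exact (Even.neg_one_pow ⟨Q + 1, by ring⟩).symm
      · rw [if_neg hg2]
  · by_cases h1 : i = δ
    · subst h1
      simp only [if_neg h0, if_true, zero_add]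
      by_cases hg : g < 2
      · left
        rw [F4_fv2_zero hg]
        refine ⟨by ring, ?_⟩
        rw [if_pos (by omega), if_pos (by omega)]
      · right
        have hy : 0 < (fv Q a g).2 := F4_fv2_pos (by omega)
        refine ⟨mul_ne_zero hne hy.ne', ?_, ?_⟩
        · rw [Int.sign_mul, Int.sign_eq_one_of_pos hy, mul_one, F4_sign_pow, if_neg (by omega)]
        · rw [Int.sign_mul, Int.sign_eq_one_of_pos hy, mul_one, F4_sign_pow, hpow, neg_neg]
          by_cases hg2 : g ≤ 2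
          · have : g = 2 := by omega
            rw [if_pos hg2, this]
            norm_num
          · rw [if_neg hg2]
    · left
      simp [h0, h1]

private theorem F4_step {l : ℕ} {ι : Type} [Fintype ι] {α β ρ : ι → ℤ} {Q : ℕ} {a : ℕ → ℚ}
    (F : Fan α β ρ Q a) {δ : ZMod l} (hδ : δ ≠ 0) (g : ℕ) (i : ZMod l) :
    F4_fc Q δ (g + 1) i = sx (F4_v Q a δ g i) (F4_fc Q δ g i) := by
  unfold sx
  rcases F4_flip F hδ g i with ⟨h1, h2⟩ | ⟨h1, h2, h3⟩
  · rw [if_pos h1, h2]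
  · rw [if_neg h1, h2]

private theorem F4_back {l : ℕ} {ι : Type} [Fintype ι] {α β ρ : ι → ℤ} {Q : ℕ} {a : ℕ → ℚ}
    (F : Fan α β ρ Q a) {δ : ZMod l} (hδ : δ ≠ 0) (g : ℕ) (i : ZMod l) :
    F4_fc Q δ g i = sx (-F4_v Q a δ g i) (F4_fc Q δ (g + 1) i) := by
  unfold sx
  rcases F4_flip F hδ g i with ⟨h1, h2⟩ | ⟨h1, h2, h3⟩
  · rw [if_pos (by rw [h1, neg_zero]), h2]
  · rw [if_neg (neg_ne_zero.2 h1), Int.sign_neg, h3]

private theorem F4_sum {l : ℕ} [NeZero l] (Q : ℕ) {δ : ZMod l} (hδ : δ ≠ 0) (g : ℕ)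
    (hg : g ≤ 2 * Q + 4) : ∑ i, F4_fc Q δ g i = (l : ℤ) - 1 + tau Q g := by
  have h1 : ∀ i : ZMod l, F4_fc Q δ g i =
      1 + (if i = 0 then (if g ≤ 2 * Q + 2 then (-1) ^ g else 1) - 1 else 0) +
        (if i = δ then (if g ≤ 2 then 1 else (-1) ^ g) - 1 else 0) := by
    intro i
    unfold F4_fc
    by_cases h0 : i = 0
    · subst h0
      simp only [if_true, if_neg (Ne.symm hδ)]
      ring
    · by_cases h2 : i = δ
      · subst h2
        simp only [if_neg h0, if_true]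
        ring
      · simp only [if_neg h0, if_neg h2]
        ring
  rw [sum_congr rfl fun i _ => h1 i, sum_add_distrib, sum_add_distrib,
    sum_ite_eq' univ (0 : ZMod l), sum_ite_eq' univ δ, if_pos (mem_univ _), if_pos (mem_univ _),
    sum_const, card_univ, ZMod.card, nsmul_eq_mul, mul_one]
  unfold tau
  by_cases hev : Even g
  · rw [if_pos hev, hev.neg_one_pow]
    simp only [ite_self]
    ring
  · have hodd : (-1 : ℤ) ^ g = -1 := (Nat.not_even_iff_odd.1 hev).neg_one_pow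
    rw [if_neg hev, hodd]
    by_cases h3 : g = 1
    · rw [if_pos (Or.inl h3), if_pos (by omega), if_pos (by omega)]
      ring
    · by_cases h4 : g = 2 * Q + 3
      · rw [if_pos (Or.inr h4), if_neg (by omega), if_neg (by omega)]
        ring
      · obtain ⟨k, hk⟩ := Nat.not_even_iff_odd.1 hev
        rw [if_pos (show g ≤ 2 * Q + 2 by omega), if_neg (show ¬ g ≤ 2 by omega),
          if_neg (show ¬ (g = 1 ∨ g = 2 * Q + 3) by omega)]
        ring

private theorem F4_fit {p : ℕ} (hp : 2 ≤ p) (h : ℕ) {l : ℕ} [NeZero l] (μ : ZMod l → ℤ)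
    (v : ℕ → ZMod l → ℤ) (R : ℕ) : ∃ D : ℕ, ∀ g < R, Fit p D h μ (v g) := by
  set D : ℕ := ∑ g ∈ range R, (∑ i, ((h : ℤ) * v g i).natAbs + ∑ u, (cv μ (v g) u).natAbs) with hD
  refine ⟨D, fun g hg => ?_⟩
  have h1 : ∑ i, ((h : ℤ) * v g i).natAbs + ∑ u, (cv μ (v g) u).natAbs ≤ D :=
    single_le_sum (f := fun g => ∑ i, ((h : ℤ) * v g i).natAbs + ∑ u, (cv μ (v g) u).natAbs)
      (fun _ _ => Nat.zero_le _) (mem_range.2 hg)
  have h2 : D < p ^ D := Nat.lt_pow_self (by omega)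
  have key : ∀ x : ℤ, x.natAbs ≤ D → |x| < (p : ℤ) ^ D := by
    intro x hx
    rw [Int.abs_eq_natAbs]
    exact_mod_cast hx.trans_lt h2
  refine ⟨fun i => key _ ?_, fun u => key _ ?_⟩
  · have h3 : ((h : ℤ) * v g i).natAbs ≤ ∑ i, ((h : ℤ) * v g i).natAbs :=
      single_le_sum (f := fun i => ((h : ℤ) * v g i).natAbs) (fun _ _ => Nat.zero_le _)
        (mem_univ i)
    omega
  · have h3 : (cv μ (v g) u).natAbs ≤ ∑ u, (cv μ (v g) u).natAbs :=
      single_le_sum (f := fun u => (cv μ (v g) u).natAbs) (fun _ _ => Nat.zero_le _)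
        (mem_univ u)
    omega

theorem gain_of_fan {p h κ l : ℕ} [NeZero l] (hp : p.Prime) (hh : 0 < h) (hl : l.Prime)
    (hκ : l = 2 * κ + 1) (μ : ZMod l → ℤ) (δ : ZMod l) (hδ : δ ≠ 0) (ρ : ZMod l → ℤ) (Q : ℕ)
    (a : ℕ → ℚ) (F : Fan μ (fun c => μ (c - δ)) ρ Q a) (j : ZMod l) (hj0 : j ≠ 0)
    (hj : ∀ c, r0 (fun c => μ (c - δ)) μ ρ c = r0 μ (fun c => μ (c - δ)) ρ (c - j)) :
    ∃ M0 : ℕ, ∀ M : ℕ, M0 ≤ M → ∀ (d : ℤ) (r : ℕ),
      NN p (l * M) ∣ (h : ℤ) * d - (p : ℤ) ^ r * ∑ c : ZMod l, μ c * ((p : ℤ) ^ M) ^ c.val →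
      Gain p (l * M) d ((κ : ℝ) * M) := by
  set β : ZMod l → ℤ := fun c => μ (c - δ) with hβ
  set R : ℕ := 2 * Q + 4 with hR
  set v : ℕ → ZMod l → ℤ := F4_v Q a δ with hv
  set fc : ℕ → ZMod l → ℤ := F4_fc Q δ with hfc
  set st : ℕ → St l := fun g => (fc g, fs μ β ρ Q a g) with hst
  set bt : ℕ → St l := fun g => (fc g, bs μ β ρ Q a g) with hbt
  have hcv : ∀ g u, cv μ (v g) u = fz μ β Q a g u := fun g u => F4_cv μ Q a δ g u
  obtain ⟨D, hfit⟩ := F4_fit hp.two_le h μ v R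
  have hfit' : ∀ g < R, Fit p D h μ (fun i => -v g i) := by
    intro g hg
    refine ⟨fun i => ?_, fun u => ?_⟩
    · rw [mul_neg, abs_neg]
      exact (hfit g hg).1 i
    · rw [F4_cv_neg, abs_neg]
      exact (hfit g hg).2 u
  have hst1 : ∀ g < R, st (g + 1) = nxt μ (st g) (v g) := by
    intro g _
    refine Prod.ext (funext fun i => F4_step F hδ g i) (funext fun u => ?_)
    show fs μ β ρ Q a (g + 1) u = sx (cv μ (v g) u) (fs μ β ρ Q a g u)
    rw [hcv]
    rfl
  have hbt1 : ∀ g < R, bt g = nxt μ (bt (g + 1)) (fun i => -v g i) := by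
    intro g hg
    refine Prod.ext (funext fun i => F4_back F hδ g i) (funext fun u => ?_)
    show bs μ β ρ Q a g u = sx (cv μ (fun i => -v g i) u) (bs μ β ρ Q a (g + 1) u)
    rw [F4_cv_neg, hcv]
    exact bs_succ F g hg u
  have hb0 : bt 0 = st 0 := Prod.ext rfl (funext fun c => bs_zero F c)
  have hbR : bt R = st R := Prod.ext rfl (funext fun c => bs_last F c)
  have hfc0 : ∀ i, fc 0 i = 1 := by
    intro i
    simp only [hfc, F4_fc]
    split_ifs <;> simp
  have hfcR : ∀ i, fc R i = 1 := by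
    intro i
    simp only [hfc, F4_fc, hR]
    rw [if_neg (show ¬ 2 * Q + 4 ≤ 2 * Q + 2 by omega), if_neg (show ¬ 2 * Q + 4 ≤ 2 by omega),
      Even.neg_one_pow ⟨Q + 2, by ring⟩]
    split_ifs <;> rfl
  have hok : Ok (st 0) := ⟨fun i => Or.inl (hfc0 i), fun u => fan_pm F 0 u⟩
  have ht1 : ∀ g ≤ R, Tight κ (st g) := by
    intro g hg
    show ∑ i, fc g i - ∑ u, fs μ β ρ Q a g u = 2 * (κ : ℤ)
    rw [F4_sum Q hδ g hg, fan_sum F g hg, hκ]
    push_cast
    ring
  have ht2 : ∀ g ≤ R, Tight κ (bt g) := by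
    intro g hg
    show ∑ i, fc g i - ∑ u, bs μ β ρ Q a g u = 2 * (κ : ℤ)
    rw [F4_sum Q hδ g hg, bs_sum F g hg, hκ]
    push_cast
    ring
  have hκ0 : 0 < κ := by
    rcases Nat.eq_zero_or_pos κ with h0 | h0
    · exfalso
      rw [h0] at hκ
      rw [hκ] at hl
      exact Nat.not_prime_one hl
    · exact h0
  -- the end of the forward stage
  have hend : st R = sh j (st 0) := by
    refine Prod.ext (funext fun i => ?_) (funext fun c => ?_)
    · show fc R i = fc 0 (i - j)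
      rw [hfcR, hfc0]
    · show fs μ β ρ Q a R c = fs μ β ρ Q a 0 (c - j)
      rw [hR, fan_end F c]
      exact hj c
  -- the two stages
  have hS1 : Stage p D h κ μ (st 0) (st R) R (∑ g ∈ range R, eff p D h κ μ (st g) (v g)) :=
    Stage.of_seq R v st hst1 hfit
  have hS2 : Stage p D h κ μ (st R) (st 0) R
      (∑ g ∈ range R, eff p D h κ μ (bt (g + 1)) (fun i => -v g i)) := by
    have h1 := Stage.of_seq (p := p) (D := D) (h := h) (κ := κ) (μ := μ) R
      (fun g i => -v (R - 1 - g) i) (fun g => bt (R - g))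
      (fun g hg => by
        have h2 := hbt1 (R - 1 - g) (by omega)
        have e1 : R - 1 - g + 1 = R - g := by omega
        have e2 : R - 1 - g = R - (g + 1) := by omega
        rw [e1] at h2
        rw [← e2]
        exact h2)
      (fun g hg => hfit' (R - 1 - g) (by omega))
    have h2 : ∑ g ∈ range R, eff p D h κ μ (bt (R - g)) (fun i => -v (R - 1 - g) i) =
        ∑ g ∈ range R, eff p D h κ μ (bt (g + 1)) (fun i => -v g i) := by
      rw [← sum_range_reflect (fun g => eff p D h κ μ (bt (g + 1)) (fun i => -v g i)) R]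
      refine sum_congr rfl fun g hg => ?_
      have hg' := mem_range.1 hg
      have e1 : R - 1 - g + 1 = R - g := by omega
      show eff p D h κ μ (bt (R - g)) (fun i => -v (R - 1 - g) i) =
        eff p D h κ μ (bt (R - 1 - g + 1)) (fun i => -v (R - 1 - g) i)
      rw [e1]
    rw [h2, Nat.sub_zero, Nat.sub_self, hbR, hb0] at h1
    exact h1
  have hE : ∑ g ∈ range R, eff p D h κ μ (st g) (v g) +
      ∑ g ∈ range R, eff p D h κ μ (bt (g + 1)) (fun i => -v g i) = 0 := by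
    rw [rev_sum hp hh v st bt hfit hst1 hbt1 hb0 hbR hok ht1 ht2]
    have h1 : ∑ i, ls p R (fun g => (h : ℤ) * v g i) (fun g => (st g).1 i)
        (fun g => (bt g).1 i) = 0 := by
      refine sum_eq_zero fun i _ => ?_
      have hhz : (0 : ℤ) < h := by exact_mod_cast hh
      have hsx : ∀ x s : ℤ, sx ((h : ℤ) * x) s = sx x s := by
        intro x s
        unfold sx
        by_cases h0 : x = 0
        · rw [if_pos (by rw [h0, mul_zero]), if_pos h0]
        · rw [if_neg (mul_ne_zero hhz.ne' h0), if_neg h0, Int.sign_mul,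
            Int.sign_eq_one_of_pos hhz, one_mul]
      refine flip_zero _ _ _ (fun g _ => ?_) (fun g _ => ?_) rfl (fun g _ h0 => ?_)
      · show fc (g + 1) i = sx ((h : ℤ) * v g i) (fc g i)
        rw [hsx]
        exact F4_step F hδ g i
      · show fc g i = sx (-((h : ℤ) * v g i)) (fc (g + 1) i)
        rw [← mul_neg, hsx]
        exact F4_back F hδ g i
      · show fc g i = -((h : ℤ) * v g i).sign
        rw [Int.sign_mul, Int.sign_eq_one_of_pos hhz, one_mul]
        rcases F4_flip F hδ g i with ⟨h1, -⟩ | ⟨-, -, h3⟩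
        · exact absurd (show (h : ℤ) * v g i = 0 by
            rw [show v g i = 0 from h1, mul_zero]) h0
        · exact h3
    have h2 : ∑ u, ls p R (fun g => cv μ (v g) u) (fun g => (st g).2 u)
        (fun g => (bt g).2 u) = 0 := by
      have h3 := fan_loss hp F
      rw [← h3]
      refine sum_congr rfl fun u _ => ?_
      have h4 : (fun g => cv μ (v g) u) = fun g => fz μ β Q a g u := funext fun g => hcv g u
      rw [h4]
    rw [h1, h2, sub_zero]
  have hex : ∃ u, (st 0).2 u = 1 := by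
    by_contra hcon
    push Not at hcon
    have h1 : ∀ u, r0 μ β ρ u = -1 := by
      intro u
      rcases fan_pm F 0 u with h2 | h2
      · exact absurd h2 (hcon u)
      · exact h2
    have h2 := F.hr0
    rw [sum_congr rfl fun u _ => h1 u, sum_const, card_univ, ZMod.card] at h2
    have h3 : (0 : ℤ) ≤ (l : ℤ) := Int.natCast_nonneg l
    rw [nsmul_eq_mul] at h2
    linarith
  rw [hend] at hS1 hS2
  exact gain_of_loop hp.two_le hh hl hκ0 hj0 hS1 hS2 hE.ge hok (ht1 0 (Nat.zero_le _))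
    ⟨0, hfc0 0⟩ hex

end Pool.Agent.Helper50.FE
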