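import Pool.Agent.Helper50.FE.C2
import Pool.Agent.Helper50.FE.C3
import Pool.Agent.Helper50.FE.C4
import Pool.Agent.Helper50.FE.F4

/-!
MP_0aa406_nt, project FE: exactness on `ZMod l` (helper50).
-/

set_option autoImplicit false

namespace Pool.Agent.Helper50.FE

open Finset Pool.Agent.Helper21.FC Pool.Agent.Helper21.FD

private theorem C5_sx {x s : ℤ} (h : x ≠ 0) : sx x s = x.sign := if_neg h

private theorem C5_sg_isSign {m : ℕ} (f : ZMod m → ℝ) :
    Helper77.KZ.IsSign (fun t => sg (f t)) := by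
  intro i
  dsimp only
  unfold sg
  split_ifs
  · exact Or.inr (Or.inl rfl)
  · exact Or.inr (Or.inr rfl)
  · exact Or.inl rfl

theorem exact_e1 {p h κ l : ℕ} [NeZero l] (hp : p.Prime) (hh : 0 < h) (hl : l.Prime)
    (hκ : l = 2 * κ + 1) (μ : ZMod l → ℤ) (he : ∑ c, (μ c).sign = 1)
    (h2 : ∃ c c', c ≠ c' ∧ μ c ≠ 0 ∧ μ c' ≠ 0) (hns : ¬ RVal (fun c => (μ c : ℝ)) l) :
    ∃ M0 : ℕ, ∀ M : ℕ, M0 ≤ M → ∀ (d : ℤ) (r : ℕ),
      NN p (l * M) ∣ (h : ℤ) * d - (p : ℤ) ^ r * ∑ c : ZMod l, μ c * ((p : ℤ) ^ M) ^ c.val →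
      Gain p (l * M) d ((κ : ℝ) * M) := by
  classical
  have hodd : Odd l := ⟨κ, hκ⟩
  have hl3 : 3 ≤ l := by
    have h1 := hl.two_le
    omega
  have h10 : (1 : ZMod l) ≠ 0 := by
    have : Fact (1 < l) := ⟨by omega⟩
    exact one_ne_zero
  by_cases hfull : ∀ c, μ c ≠ 0
  · obtain ⟨Q, a, F⟩ := fan_full hodd hl3 μ hfull he hns
    refine gain_of_fan hp hh hl hκ μ 1 h10 (fun _ => 1) Q a F 1 h10 (fun c => ?_)
    unfold r0
    rw [C5_sx (hfull (c - 1)), C5_sx (hfull (c - 1))]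
  · push Not at hfull
    obtain ⟨z, hz⟩ := hfull
    -- the sign pattern
    set g : ZMod l → ℤ := fun t => sg (((μ (-t) : ℤ) : ℝ)) with hgdef
    have hgs : ∀ t, g t = (μ (-t)).sign := fun t => sg_int _
    have hg : Helper77.KZ.IsSign g := C5_sg_isSign (fun t => ((μ (-t) : ℤ) : ℝ))
    have hge : ∑ i, g i = 1 := by
      rw [← he]
      refine Fintype.sum_equiv (Equiv.neg (ZMod l)) _ _ (fun t => ?_)
      rw [hgs]
      rfl
    have hg0 : ∀ t, g t = 0 ↔ μ (-t) = 0 := by
      intro t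
      rw [hgs, Int.sign_eq_zero_iff_zero]
    have hT : Helper77.KZ.TT g ≠ univ := by
      intro hu
      have h3 : -z ∈ Helper77.KZ.TT g := by rw [hu]; exact mem_univ _
      unfold Helper77.KZ.TT at h3
      rw [mem_filter] at h3
      apply h3.2
      rw [hg0, neg_neg]
      exact hz
    have hT2 : 2 ≤ (Helper77.KZ.TT g).card := by
      obtain ⟨c, c', hne, hc, hc'⟩ := h2
      have h3 : ({-c, -c'} : Finset (ZMod l)) ⊆ Helper77.KZ.TT g := by
        intro t ht
        rw [mem_insert, mem_singleton] at ht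
        unfold Helper77.KZ.TT
        rw [mem_filter]
        refine ⟨mem_univ _, fun h0 => ?_⟩
        rw [hg0] at h0
        rcases ht with rfl | rfl
        · rw [neg_neg] at h0; exact hc h0
        · rw [neg_neg] at h0; exact hc' h0
      have h4 : ({-c, -c'} : Finset (ZMod l)).card = 2 :=
        card_pair (fun h5 => hne (neg_injective h5))
      rw [← h4]
      exact card_le_card h3
    have hv : ¬ Helper77.KZ.Val g univ 0 := by
      intro hv
      apply hns
      have h3 := rval_of_val (fun c => (μ c : ℝ)) 0 hv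
      rwa [add_zero] at h3
    obtain ⟨t0, s, L, hs, hL, hL3, hLl, hga, hgz⟩ := alt_ap hl hodd g hg hge hT hT2 hv
    obtain ⟨ρ, a, j, hj0, F, hj⟩ := fan_ap hl hodd μ (-t0) (-s) L (neg_ne_zero.2 hs) hL hL3 hLl
      (fun j hj => by
        have h3 := hga j hj
        rw [hgs] at h3
        rw [show -t0 + (j : ZMod l) * -s = -(t0 + j * s) by ring]
        exact h3)
      (fun i hi => by
        have h3 := hgz (-i) (fun j hj h4 => hi j hj (by
          rw [show -t0 + (j : ZMod l) * -s = -(t0 + j * s) by ring, ← h4, neg_neg]))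
        rw [hg0, neg_neg] at h3
        exact h3) hns
    exact gain_of_fan hp hh hl hκ μ (-s) (neg_ne_zero.2 hs) ρ 0 a F j hj0 hj

end Pool.Agent.Helper50.FE
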