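import Pool.Agent.Helper50.FE.Defs
import Pool.Agent.Helper21.FD.G6

/-!
MP_0aa406_nt, project FE: domination along a breadth first search.

`m ∣ k`, at most one entry of `qt m a` is not zero; `T' = pr m (supp a)`; `t0 ∈ T'` is the index of the nonzero entry of
`qt m a` if there is one (it is in `T'`), otherwise any element of `T'`.  The elements `t - t0` (`t ∈ T'`) generate `ZMod m`
(`hgen`: for every prime `q ∣ m` two entries of `supp a` differ modulo `q`), so every `x : ZMod m` is reached from `0`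
by steps `x → x + (t - t0)` (a submonoid of a finite group is a subgroup); let `J x` be the distance from `0`. For `x ≠ 0` there is
`t ∈ T'` with `J (x - (t - t0)) < J x`.  Rank `rk x = J x * m + x.val` (injective).
DIRECTION `y i = L ^ (R - rk (pr m i)) (Δ + ε v i)`, `v i > 0` generic (`FD.generic`, `G6_b ≠ 0` where it should), `Δ` large,
`L` much larger, `ε = 1` or `-1`, as in `FD/G6.lean` (`G6_row`, `G6_lower`, `G6_upper`, `G6_sg_cancel`): the row `u`, `x = pr m u - t0`: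
`Δ w(x) qt m a t0 + ε ∑_g w g G6_b u g`, where `G6_b u g ≠ 0` iff `pr m u - g ∈ T'` (generic), so among these `g` there is one with
`rk g < rk x` unless `x = 0`: the second sum dominates and the signs for `ε = 1`, `-1` cancel. Only the `k / m` rows
with `pr m u = t0` are lost (sign at most `1`). So one of the two `ε` has `∑ rows ≤ k / m`, all `y i > 0`: value `≥ k - k / m`.
(Here everything is real: choose `L`, `Δ` large, no bounds are needed.)
-/

set_option autoImplicit false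

namespace Pool.Agent.Helper50.FE

open Finset Pool.Agent.Helper21.FC Pool.Agent.Helper21.FD

/-- a set with differences outside of every maximal subgroup generates -/
private theorem V3_top {m : ℕ} [NeZero m] (S : Set (ZMod m))
    (hS : ∀ q : ℕ, q.Prime → q ∣ m → ∃ s ∈ S, ¬ q ∣ s.val) :
    AddSubgroup.closure S = ⊤ := by
  have hm : m ≠ 0 := NeZero.ne m
  obtain ⟨b, hb⟩ := Int.subgroup_cyclic
    ((AddSubgroup.closure S).comap (Int.castAddHom (ZMod m)))
  have hmem : ∀ z : ℤ, ((z : ZMod m) ∈ AddSubgroup.closure S) ↔ b ∣ z := by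
    intro z
    have h1 : z ∈ (AddSubgroup.closure S).comap (Int.castAddHom (ZMod m)) ↔
        z ∈ AddSubgroup.closure ({b} : Set ℤ) := by rw [hb]
    rw [AddSubgroup.mem_comap, Int.coe_castAddHom, AddSubgroup.mem_closure_singleton] at h1
    rw [h1]
    constructor
    · rintro ⟨n, hn⟩
      exact ⟨n, by rw [← hn, smul_eq_mul, mul_comm]⟩
    · rintro ⟨n, hn⟩
      exact ⟨n, by rw [hn, smul_eq_mul, mul_comm]⟩
  have hbm : b.natAbs ∣ m := by
    have h1 : b ∣ (m : ℤ) := (hmem m).1 (by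
      rw [Int.cast_natCast, ZMod.natCast_self]
      exact zero_mem _)
    exact Int.natAbs_dvd_natAbs.2 h1 |>.trans (by rw [Int.natAbs_natCast])
  have hb1 : b.natAbs = 1 := by
    by_contra hne
    have hq : (Nat.minFac b.natAbs).Prime := Nat.minFac_prime hne
    obtain ⟨s, hs, hs'⟩ := hS _ hq ((Nat.minFac_dvd _).trans hbm)
    apply hs'
    have h1 : b ∣ (s.val : ℤ) := (hmem _).1 (by
      rw [Int.cast_natCast, ZMod.natCast_zmod_val]
      exact AddSubgroup.subset_closure hs)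
    have h2 : b.natAbs ∣ s.val := by
      have := Int.natAbs_dvd_natAbs.2 h1
      rwa [Int.natAbs_natCast] at this
    exact (Nat.minFac_dvd _).trans h2
  rw [eq_top_iff]
  intro x _
  have h1 : ((x.val : ℤ) : ZMod m) ∈ AddSubgroup.closure S := (hmem _).2
    (Int.natAbs_dvd_natAbs.1 (by rw [hb1]; exact one_dvd _))
  rwa [Int.cast_natCast, ZMod.natCast_zmod_val] at h1

private theorem V3_prval {m q : ℕ} [NeZero m] (hq : q ∣ m) (t t' : ZMod m)
    (h : q ∣ (t - t').val) : pr q t = pr q t' := by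
  have h1 : pr q (t - t') = pr q t - pr q t' := pr_sub hq t t'
  have h2 : pr q (t - t') = 0 := by
    unfold pr
    exact (ZMod.natCast_eq_zero_iff _ _).2 h
  exact sub_eq_zero.1 (h1.symm.trans h2)

/-- distance in the Cayley graph: every nonzero element has a predecessor of smaller distance -/
theorem bfs_dist {m : ℕ} [NeZero m] (T : Finset (ZMod m)) (t0 : ZMod m) (ht0 : t0 ∈ T)
    (hgen : ∀ q : ℕ, q.Prime → q ∣ m → ∃ t ∈ T, ∃ t' ∈ T, pr q t ≠ pr q t') :
    ∃ J : ZMod m → ℕ, ∀ x, x ≠ 0 → ∃ t ∈ T, J (x - (t - t0)) < J x := by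
  classical
  obtain ⟨S, hS⟩ : ∃ S : Set (ZMod m), ∀ y, y ∈ S ↔ ∃ t ∈ T, y = t - t0 :=
    ⟨{y | ∃ t ∈ T, y = t - t0}, fun _ => Iff.rfl⟩
  have htop : AddSubgroup.closure S = ⊤ := by
    apply V3_top
    intro q hq hqm
    by_contra hcon
    push Not at hcon
    have hall : ∀ t ∈ T, pr q t = pr q t0 := by
      intro t ht
      exact V3_prval hqm t t0 (hcon _ ((hS _).2 ⟨t, ht, rfl⟩))
    obtain ⟨t, ht, t', ht', hne⟩ := hgen q hq hqm
    exact hne ((hall t ht).trans (hall t' ht').symm)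
  have hex : ∀ x : ZMod m, ∃ n : ℕ, ∃ l : List (ZMod m), l.length = n ∧ (∀ y ∈ l, y ∈ S) ∧
      l.sum = x := by
    intro x
    have h1 : x ∈ (AddSubgroup.closure S).toAddSubmonoid := by
      rw [htop]
      trivial
    rw [AddSubgroup.closure_toAddSubmonoid_of_isOfFinAddOrder
      (fun x _ => isOfFinAddOrder_of_finite x)] at h1
    obtain ⟨l, hl, hl'⟩ := AddSubmonoid.exists_list_of_mem_closure h1
    exact ⟨l.length, l, rfl, hl, hl'⟩
  refine ⟨fun x => Nat.find (hex x), fun x hx => ?_⟩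
  obtain ⟨l, hl, hlS, hls⟩ := Nat.find_spec (hex x)
  cases l with
  | nil =>
    exact absurd hls.symm (by simpa using hx)
  | cons y l' =>
    obtain ⟨t, ht, hyt⟩ := (hS y).1 (hlS y (by simp))
    refine ⟨t, ht, ?_⟩
    have h1 : l'.sum = x - (t - t0) := by
      rw [← hls, List.sum_cons, hyt]
      ring
    have h2 : Nat.find (hex (x - (t - t0))) ≤ l'.length :=
      Nat.find_min' _ ⟨l', rfl, fun z hz => hlS z (by simp [hz]), h1⟩
    have h3 : l'.length + 1 = Nat.find (hex x) := by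
      rw [← hl]
      rfl
    show Nat.find (hex (x - (t - t0))) < Nat.find (hex x)
    omega

/-- bounds for finitely many real numbers -/
private theorem V3_bd {ι : Type} [Fintype ι] (f : ι → ℝ) :
    ∃ β M : ℝ, 0 < β ∧ 0 ≤ M ∧ (∀ i, |f i| ≤ M) ∧ ∀ i, f i ≠ 0 → β ≤ |f i| := by
  classical
  obtain ⟨M, hM⟩ : ∃ M : ℝ, M = ∑ i, |f i| := ⟨_, rfl⟩
  have hMle : ∀ i, |f i| ≤ M := fun i => by
    rw [hM]
    exact Finset.single_le_sum (f := fun i => |f i|) (fun j _ => abs_nonneg _) (Finset.mem_univ i)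
  have hM0 : 0 ≤ M := by
    rw [hM]
    exact Finset.sum_nonneg fun i _ => abs_nonneg _
  by_cases hne : (univ.filter (fun i => f i ≠ 0)).Nonempty
  · obtain ⟨i0, hi0, hmin⟩ := Finset.exists_min_image _ (fun i => |f i|) hne
    refine ⟨|f i0|, M, abs_pos.2 (by simpa using hi0), hM0, hMle, fun i hi => ?_⟩
    exact hmin i (by simpa using hi)
  · refine ⟨1, M, one_pos, hM0, hMle, fun i hi => ?_⟩
    exact absurd ⟨i, by simpa using hi⟩ hne

private theorem V3_core {m k : ℕ} [NeZero m] [NeZero k] (hmk : m ∣ k) (a v : ZMod k → ℝ)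
    (t0 : ZMod m) (h0 : ∀ t, t ≠ t0 → qt m a t = 0) (rk : ZMod m → ℕ)
    (hinj : Function.Injective rk) (R : ℕ) (hrkR : ∀ g, rk g < R)
    (hstep : ∀ x, x ≠ 0 → ∃ c, a c ≠ 0 ∧ rk (x - (pr m c - t0)) < rk x)
    (hc0 : ∃ c, a c ≠ 0 ∧ pr m c = t0)
    (hv : ∀ i, 0 < v i)
    (hgen : ∀ u : ZMod k, ∀ i : ZMod k, a (u - i) ≠ 0 → G6_b m a v u (pr m i) ≠ 0)
    (β M Δ L : ℝ) (hL : 1 ≤ L)
    (hbM : ∀ u g, |G6_b m a v u g| ≤ M) (hbβ : ∀ u g, G6_b m a v u g ≠ 0 → β ≤ |G6_b m a v u g|)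
    (hAM : |qt m a t0| ≤ M) (hAβ : qt m a t0 ≠ 0 → β ≤ |qt m a t0|)
    (hΔ : m * M < Δ * β) (hΔv : ∀ i, v i < Δ) (hLΔ : (m + Δ) * M < L * β) :
    RVal a ((k : ℤ) - ((k / m : ℕ) : ℤ)) := by
  classical
  have hL0 : 0 < L := lt_of_lt_of_le one_pos hL
  have hM0 : 0 ≤ M := le_trans (abs_nonneg _) hAM
  have hΔ0 : 0 < Δ := lt_trans (hv 0) (hΔv 0)
  obtain ⟨y, hy⟩ : ∃ y : ℝ → ZMod k → ℝ, ∀ ε i, y ε i = L ^ (R - rk (pr m i)) * (Δ + ε * v i) :=
    ⟨_, fun _ _ => rfl⟩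
  have hy' : ∀ ε, (fun i => L ^ (R - rk (pr m i)) * (Δ + ε * v i)) = y ε := by
    intro ε
    funext i
    rw [hy]
  obtain ⟨P, hP⟩ : ∃ P : ZMod k → ℝ, ∀ u, P u =
    Δ * (L ^ (R - rk (pr m u - t0)) * qt m a t0) := ⟨_, fun _ => rfl⟩
  obtain ⟨S, hS⟩ : ∃ S : ZMod k → ℝ, ∀ u, S u =
    ∑ g, L ^ (R - rk g) * G6_b m a v u g := ⟨_, fun _ => rfl⟩
  have hrow : ∀ ε u, act a (y ε) u = P u + ε * S u := by
    intro ε u
    rw [← hy', G6_row hmk a v (fun g => L ^ (R - rk g)) Δ ε t0 h0 u, hP, hS]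
  -- elements of the support of a row
  have hmem : ∀ u c, a c ≠ 0 → G6_b m a v u (pr m u - t0 - (pr m c - t0)) ≠ 0 := by
    intro u c hc
    have h1 := hgen u (u - c) (by rwa [sub_sub_cancel])
    rw [pr_sub hmk] at h1
    rwa [show pr m u - t0 - (pr m c - t0) = pr m u - pr m c by ring]
  have hmem0 : ∀ u, G6_b m a v u (pr m u - t0) ≠ 0 := by
    intro u
    obtain ⟨c, hc, hct⟩ := hc0
    have h1 := hmem u c hc
    rwa [hct, sub_self, sub_zero] at h1
  have hlead : ∀ u, ∃ g0, G6_b m a v u g0 ≠ 0 ∧ ∀ g, G6_b m a v u g ≠ 0 → rk g0 ≤ rk g := by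
    intro u
    obtain ⟨g0, hg0, hmin⟩ := Finset.exists_min_image
      (univ.filter (fun g => G6_b m a v u g ≠ 0)) rk ⟨pr m u - t0, by simpa using hmem0 u⟩
    refine ⟨g0, by simpa using hg0, fun g hg => hmin g (by simpa using hg)⟩
  have hcard : (Fintype.card (ZMod m) : ℝ) = m := by rw [ZMod.card]
  have hPabs : ∀ u, |P u| = Δ * (L ^ (R - rk (pr m u - t0)) * |qt m a t0|) := by
    intro u
    rw [hP, abs_mul, abs_mul, abs_of_pos hΔ0, abs_of_pos (pow_pos hL0 _)]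
  -- domination by the second part
  have hdom : ∀ u, ∀ g0, G6_b m a v u g0 ≠ 0 → (∀ g, G6_b m a v u g ≠ 0 → rk g0 ≤ rk g) →
      rk g0 < rk (pr m u - t0) → |P u| < |S u| := by
    intro u g0 hg0 hmin hlt
    have h1 := G6_lower (G6_b m a v u) rk hinj L β M R hL (hbM u) g0 (hrkR g0) (hbβ u g0 hg0) hmin
    rw [hcard, ← hS] at h1
    refine lt_of_lt_of_le ?_ h1
    have hT : 0 < L ^ (R - rk g0 - 1) := pow_pos hL0 _
    rw [hPabs]
    calc Δ * (L ^ (R - rk (pr m u - t0)) * |qt m a t0|)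
        ≤ Δ * (L ^ (R - rk g0 - 1) * M) := by
          refine mul_le_mul_of_nonneg_left ?_ hΔ0.le
          exact mul_le_mul (pow_le_pow_right₀ hL (by omega)) hAM (abs_nonneg _) hT.le
      _ = L ^ (R - rk g0 - 1) * (Δ * M) := by ring
      _ < L ^ (R - rk g0 - 1) * (L * β - m * M) := by
          refine mul_lt_mul_of_pos_left ?_ hT
          linarith
  have hone : ∀ u, pr m u ≠ t0 → |P u| < |S u| := by
    intro u hu
    obtain ⟨g0, hg0, hmin⟩ := hlead u
    obtain ⟨c, hc, hlt⟩ := hstep (pr m u - t0) (sub_ne_zero.2 hu)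
    exact hdom u g0 hg0 hmin (lt_of_le_of_lt (hmin _ (hmem u c hc)) hlt)
  have hne : ∀ u, |P u| ≠ |S u| := by
    intro u
    obtain ⟨g0, hg0, hmin⟩ := hlead u
    rcases lt_or_eq_of_le (hmin _ (hmem0 u)) with h1 | h1
    · exact (hdom u g0 hg0 hmin h1).ne
    · by_cases hA : qt m a t0 = 0
      · have h2 := G6_lower (G6_b m a v u) rk hinj L β M R hL (hbM u) g0 (hrkR g0)
          (hbβ u g0 hg0) hmin
        rw [hcard, ← hS] at h2
        have hT : 0 < L ^ (R - rk g0 - 1) := pow_pos hL0 _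
        have h3 : 0 < L * β - m * M := by
          have : 0 ≤ Δ * M := mul_nonneg hΔ0.le hM0
          linarith
        rw [hPabs, hA, abs_zero, mul_zero, mul_zero]
        exact (lt_of_lt_of_le (mul_pos hT h3) h2).ne
      · have h2 := G6_upper (G6_b m a v u) rk L M R hL (hbM u) g0 hmin
        rw [hcard, ← hS, h1] at h2
        have hT : 0 < L ^ (R - rk (pr m u - t0)) := pow_pos hL0 _
        refine (lt_of_le_of_lt h2 ?_).ne'
        rw [hPabs]
        calc L ^ (R - rk (pr m u - t0)) * (m * M)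
            < L ^ (R - rk (pr m u - t0)) * (Δ * β) := mul_lt_mul_of_pos_left hΔ hT
          _ ≤ L ^ (R - rk (pr m u - t0)) * (Δ * |qt m a t0|) :=
              mul_le_mul_of_nonneg_left (mul_le_mul_of_nonneg_left (hAβ hA) hΔ0.le) hT.le
          _ = Δ * (L ^ (R - rk (pr m u - t0)) * |qt m a t0|) := by ring
  have hpos : ∀ ε : ℝ, (ε = 1 ∨ ε = -1) → ∀ i, 0 < y ε i := by
    intro ε hε i
    rw [hy]
    refine mul_pos (pow_pos hL0 _) ?_
    have h1 := hv i
    have h2 := hΔv i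
    rcases hε with h | h <;> rw [h] <;> linarith
  have hrow1 : ∀ u, act a (y 1) u = P u + S u := fun u => by rw [hrow, one_mul]
  have hrow2 : ∀ u, act a (y (-1)) u = P u - S u := fun u => by rw [hrow]; ring
  have hsgy : ∀ ε : ℝ, (ε = 1 ∨ ε = -1) → ∑ i, sg (y ε i) = (k : ℤ) := by
    intro ε hε
    rw [Finset.sum_congr rfl fun i _ => G6_sg_pos (hpos ε hε i), Finset.sum_const, Finset.card_univ,
      ZMod.card]
    simp
  have hsum : ∑ u, sg (act a (y 1) u) + ∑ u, sg (act a (y (-1)) u) ≤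
      2 * ((k / m : ℕ) : ℤ) := by
    rw [← Finset.sum_add_distrib, ← card_fibre hmk t0]
    calc ∑ u, (sg (act a (y 1) u) + sg (act a (y (-1)) u))
        ≤ ∑ u : ZMod k, (if pr m u = t0 then (2 : ℤ) else 0) := by
          refine Finset.sum_le_sum fun u _ => ?_
          rw [hrow1, hrow2]
          by_cases hu : pr m u = t0
          · rw [if_pos hu]
            have h1 := G6_sg_le (P u + S u)
            have h2 := G6_sg_le (P u - S u)
            linarith
          · rw [if_neg hu, G6_sg_cancel (hone u hu)]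
      _ = _ := by
          rw [← Finset.sum_filter, Finset.sum_const, nsmul_eq_mul, mul_comm]
  by_cases hV : (k : ℤ) - ((k / m : ℕ) : ℤ) ≤ ∑ i, sg (y 1 i) - ∑ u, sg (act a (y 1) u)
  · exact ⟨y 1, fun i => (hpos 1 (Or.inl rfl) i).ne',
      fun u => by rw [hrow1]; exact (G6_ne (hne u)).1, hV⟩
  · refine ⟨y (-1), fun i => (hpos (-1) (Or.inr rfl) i).ne',
      fun u => by rw [hrow2]; exact (G6_ne (hne u)).2, ?_⟩
    rw [hsgy 1 (Or.inl rfl)] at hV
    rw [hsgy (-1) (Or.inr rfl)]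
    push Not at hV
    linarith

theorem rval_bfs {m k : ℕ} [NeZero m] [NeZero k] (hmk : m ∣ k) (a : ZMod k → ℝ)
    (hnot : ¬ Two (qt m a)) (hne : ∃ c, a c ≠ 0)
    (hgen : ∀ q : ℕ, q.Prime → q ∣ m → ∃ c c', a c ≠ 0 ∧ a c' ≠ 0 ∧ pr q c ≠ pr q c') :
    RVal a ((k : ℤ) - ((k / m : ℕ) : ℤ)) := by
  classical
  have hm : 0 < m := Nat.pos_of_ne_zero (NeZero.ne m)
  obtain ⟨c, hc⟩ := hne
  obtain ⟨t0, h0, hc0⟩ : ∃ t0, (∀ t, t ≠ t0 → qt m a t = 0) ∧ ∃ c, a c ≠ 0 ∧ pr m c = t0 := by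
    by_cases hA : ∃ t, qt m a t ≠ 0
    · obtain ⟨t, ht⟩ := hA
      refine ⟨t, fun t' ht' => ?_, ?_⟩
      · by_contra h
        exact hnot ⟨t', t, ht', h, ht⟩
      · unfold qt at ht
        obtain ⟨d, hd, hd1⟩ := Finset.exists_ne_zero_of_sum_ne_zero ht
        exact ⟨d, hd1, by simpa using hd⟩
    · push Not at hA
      exact ⟨pr m c, fun t _ => hA t, c, hc, rfl⟩
  obtain ⟨J, hJ⟩ := bfs_dist ((univ.filter (fun c : ZMod k => a c ≠ 0)).image (pr m)) t0
    (by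
      obtain ⟨d, hd, hd1⟩ := hc0
      exact Finset.mem_image.2 ⟨d, by simpa using hd, hd1⟩)
    (fun q hq hqm => by
      obtain ⟨d, d', hd, hd', hne⟩ := hgen q hq hqm
      refine ⟨pr m d, Finset.mem_image.2 ⟨d, by simpa using hd, rfl⟩,
        pr m d', Finset.mem_image.2 ⟨d', by simpa using hd', rfl⟩, ?_⟩
      rw [pr_pr hqm hmk, pr_pr hqm hmk]
      exact hne)
  obtain ⟨rk, hrk⟩ : ∃ rk : ZMod m → ℕ, ∀ g, rk g = J g * m + g.val := ⟨_, fun _ => rfl⟩
  have hval : ∀ g : ZMod m, g.val < m := fun g => ZMod.val_lt g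
  have hinj : Function.Injective rk := by
    intro g g' hg
    rw [hrk, hrk] at hg
    have h1 : (J g * m + g.val) % m = (J g' * m + g'.val) % m := by rw [hg]
    rw [Nat.mul_add_mod', Nat.mul_add_mod', Nat.mod_eq_of_lt (hval g),
      Nat.mod_eq_of_lt (hval g')] at h1
    exact ZMod.val_injective m h1
  obtain ⟨R, hR⟩ : ∃ R : ℕ, ∀ g, rk g < R := by
    refine ⟨∑ g, rk g + 1, fun g => Nat.lt_succ_of_le ?_⟩
    exact Finset.single_le_sum (fun j _ => Nat.zero_le _) (Finset.mem_univ g)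
  have hstep : ∀ x, x ≠ 0 → ∃ c, a c ≠ 0 ∧ rk (x - (pr m c - t0)) < rk x := by
    intro x hx
    obtain ⟨t, ht, hlt⟩ := hJ x hx
    obtain ⟨d, hd, rfl⟩ := Finset.mem_image.1 ht
    refine ⟨d, by simpa using hd, ?_⟩
    rw [hrk, hrk]
    have h3 := hval (x - (pr m d - t0))
    have h5 : (J (x - (pr m d - t0)) + 1) * m ≤ J x * m := Nat.mul_le_mul_right m hlt
    rw [Nat.add_mul, one_mul] at h5
    omega
  -- a generic point
  obtain ⟨s0, hs1, -, hs3⟩ :=
    generic (F := {f : ZMod k × ZMod m // ∃ i, pr m i = f.2 ∧ a (f.1 - i) ≠ 0})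
      (fun f i => if pr m i = f.1.2 then a (f.1.1 - i) else 0) (fun f => by
        obtain ⟨i, hi, hi'⟩ := f.2
        exact ⟨i, by rw [if_pos hi]; exact hi'⟩)
  obtain ⟨v, hv⟩ : ∃ v : ZMod k → ℝ, ∀ i, v i = (s0 : ℝ) ^ i.val := ⟨_, fun _ => rfl⟩
  have hvpos : ∀ i, 0 < v i := by
    intro i
    rw [hv]
    exact pow_pos (by exact_mod_cast hs1) _
  have hgenv : ∀ u : ZMod k, ∀ i : ZMod k, a (u - i) ≠ 0 → G6_b m a v u (pr m i) ≠ 0 := by
    intro u i hi
    have h1 := hs3 ⟨(u, pr m i), i, rfl, hi⟩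
    unfold G6_b
    simp only [hv]
    exact h1
  obtain ⟨β, M, hβ, hM0, hM, hβ'⟩ := V3_bd
    (fun z : (ZMod k × ZMod m) ⊕ Unit => Sum.elim (fun w => G6_b m a v w.1 w.2)
      (fun _ => qt m a t0) z)
  obtain ⟨Δ, hΔ⟩ : ∃ Δ : ℝ, Δ = m * M / β + ∑ i, v i + 1 := ⟨_, rfl⟩
  obtain ⟨L, hL⟩ : ∃ L : ℝ, L = (m + Δ) * M / β + 1 := ⟨_, rfl⟩
  have hsum0 : 0 ≤ ∑ i, v i := Finset.sum_nonneg fun i _ => (hvpos i).le
  have hq0 : 0 ≤ m * M / β := div_nonneg (mul_nonneg (Nat.cast_nonneg _) hM0) hβ.le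
  have hΔ0 : 0 ≤ Δ := by rw [hΔ]; linarith
  have hq1 : 0 ≤ (m + Δ) * M / β :=
    div_nonneg (mul_nonneg (add_nonneg (Nat.cast_nonneg _) hΔ0) hM0) hβ.le
  refine V3_core hmk a v t0 h0 rk hinj R hR hstep hc0 hvpos hgenv β M Δ L (by rw [hL]; linarith)
    (fun u g => hM (Sum.inl (u, g))) (fun u g h => hβ' (Sum.inl (u, g)) h)
    (hM (Sum.inr ())) (fun h => hβ' (Sum.inr ()) h) ?_ ?_ ?_
  · have h1 : m * M / β * β = m * M := div_mul_cancel₀ _ hβ.ne'
    have h2 : m * M / β < Δ := by rw [hΔ]; linarith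
    calc (m : ℝ) * M = m * M / β * β := h1.symm
      _ < Δ * β := mul_lt_mul_of_pos_right h2 hβ
  · intro i
    have h1 : v i ≤ ∑ i, v i :=
      Finset.single_le_sum (fun j _ => (hvpos j).le) (Finset.mem_univ i)
    rw [hΔ]
    linarith
  · have h1 : (m + Δ) * M / β * β = (m + Δ) * M := div_mul_cancel₀ _ hβ.ne'
    have h2 : (m + Δ) * M / β < L := by rw [hL]; linarith
    calc ((m : ℝ) + Δ) * M = (m + Δ) * M / β * β := h1.symm
      _ < L * β := mul_lt_mul_of_pos_right h2 hβ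

end Pool.Agent.Helper50.FE
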