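import Pool.Agent.Helper50.FE.Defs
import Pool.Agent.Helper21.FD.G4
import Pool.Agent.Helper21.FD.G3

/-!
MP_0aa406_nt, project FE: the inverse of a circulant with two positive entries.

`l` odd prime, `A t0, A t1 > 0`, other entries `0`, `act A A' u = C [u = u0]`, `C > 0`. With `s = t1 - t0 ≠ 0` (`FD.G4_act`):
`A t0 A' (i + s) + A t1 A' i = C [i + t1 = u0]`. So along `i0 + s, i0 + 2 s, .., i0 + l s = i0` (`i0 = u0 - t1`) the entries of `A'` alternate:
`A' (i + s) = - (A t1 / A t0) A' i` for `i ≠ i0`. If `A' (i0 + s) = 0` all are zero, contradiction with `C > 0`. The `l` entries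
alternate in sign, `l` odd: first `A' (i0 + s)` and last `A' (i0)` have the same sign, and `A t0 A' (i0 + s) + A t1 A' i0 = C > 0`: both are positive.
So all entries are nonzero and the sum of the signs is `1`.
-/

set_option autoImplicit false

namespace Pool.Agent.Helper50.FE

open Finset Pool.Agent.Helper21.FC Pool.Agent.Helper21.FD

theorem inv_pair {l : ℕ} [NeZero l] (hl : l.Prime) (hodd : Odd l) (A A' : ZMod l → ℝ)
    (t0 t1 : ZMod l) (hne : t0 ≠ t1) (h0 : 0 < A t0) (h1 : 0 < A t1)
    (hz : ∀ t, t ≠ t0 → t ≠ t1 → A t = 0) (u0 : ZMod l) (C : ℝ) (hC : 0 < C)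
    (hinv : ∀ u, act A A' u = if u = u0 then C else 0) :
    (∀ t, A' t ≠ 0) ∧ ∑ t, sg (A' t) = 1 := by
  have : Fact l.Prime := ⟨hl⟩
  set s : ZMod l := t1 - t0 with hs
  have hs0 : s ≠ 0 := fun h => hne (sub_eq_zero.1 h).symm
  set i0 : ZMod l := u0 - t1 with hi0
  have hrec : ∀ i, A t0 * A' (i + s) + A t1 * A' i = if i = i0 then C else 0 := by
    intro i
    rw [← G4_act A A' t0 t1 hne hz i, hinv]
    have : (i + t1 = u0) ↔ (i = i0) := by rw [hi0, eq_sub_iff_add_eq]
    simp only [this]
  set r : ℝ := A t1 / A t0 with hr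
  have hr0 : 0 < r := div_pos h1 h0
  have hA1 : A t1 = r * A t0 := by rw [hr]; field_simp
  have hstep : ∀ i, i ≠ i0 → A' (i + s) = - r * A' i := by
    intro i hi
    have h := hrec i
    rw [if_neg hi, hA1] at h
    have h2 : A t0 * (A' (i + s) + r * A' i) = 0 := by linarith
    rcases mul_eq_zero.1 h2 with h3 | h3
    · exact absurd h3 h0.ne'
    · linarith
  set b : ℝ := A' (i0 + s) with hb
  have hval : ∀ k : ℕ, k < l → A' (i0 + ((k : ZMod l) + 1) * s) = (- r) ^ k * b := by
    intro k
    induction k with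
    | zero => intro _; simp [hb]
    | succ k ih =>
      intro hk
      have h := ih (by omega)
      have hne' : i0 + ((k : ZMod l) + 1) * s ≠ i0 := by
        intro h2
        have h3 : ((k : ZMod l) + 1) * s = 0 := by simpa using h2
        rcases mul_eq_zero.1 h3 with h4 | h4
        · have h5 : ((k + 1 : ℕ) : ZMod l) = 0 := by push_cast; exact h4
          rw [ZMod.natCast_eq_zero_iff] at h5
          exact absurd (Nat.le_of_dvd (by omega) h5) (by omega)
        · exact hs0 h4
      have h2 := hstep _ hne'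
      have e : i0 + (((k + 1 : ℕ) : ZMod l) + 1) * s = i0 + ((k : ZMod l) + 1) * s + s := by
        push_cast; ring
      rw [e, h2, h, pow_succ]; ring
  have hl1 : 0 < l := hl.pos
  have hlast : A' i0 = r ^ (l - 1) * b := by
    have h := hval (l - 1) (by omega)
    have e : ((l - 1 : ℕ) : ZMod l) + 1 = 0 := by
      have : (((l - 1 : ℕ) : ZMod l) + 1) = ((l - 1 + 1 : ℕ) : ZMod l) := by push_cast; ring
      rw [this, Nat.sub_add_cancel hl1]; simp
    rw [e, zero_mul, add_zero] at h
    have hev : Even (l - 1) := by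
      obtain ⟨m, hm⟩ := hodd
      exact ⟨m, by omega⟩
    rw [h, hev.neg_pow]
  have hb0 : 0 < b := by
    have h := hrec i0
    rw [if_pos rfl, hlast] at h
    have h2 : (A t0 + A t1 * r ^ (l - 1)) * b = C := by rw [← h, ← hb]; ring
    have h3 : 0 < A t0 + A t1 * r ^ (l - 1) := by positivity
    by_contra h4
    have h5 : (A t0 + A t1 * r ^ (l - 1)) * b ≤ 0 := mul_nonpos_of_nonneg_of_nonpos h3.le (not_lt.1 h4)
    linarith
  have hsurj : ∀ t : ZMod l, ∃ x : ZMod l, i0 + (x + 1) * s = t := by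
    intro t
    refine ⟨(t - i0) / s - 1, ?_⟩
    field_simp
    ring
  have hx : ∀ x : ZMod l, A' (i0 + (x + 1) * s) = (- r) ^ x.val * b := by
    intro x
    have h := hval x.val (ZMod.val_lt x)
    rwa [ZMod.natCast_zmod_val] at h
  refine ⟨?_, ?_⟩
  · intro t
    obtain ⟨x, rfl⟩ := hsurj t
    rw [hx]
    exact mul_ne_zero (pow_ne_zero _ (neg_ne_zero.2 hr0.ne')) hb0.ne'
  · have hbij : Function.Bijective (fun x : ZMod l => i0 + (x + 1) * s) :=
      (Finite.injective_iff_bijective).1 (by
        intro x y h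
        simpa [hs0] using h)
    rw [← hbij.sum_comp (fun t => sg (A' t))]
    have hsg : ∀ x : ZMod l, sg (A' (i0 + (x + 1) * s)) = (-1 : ℤ) ^ x.val := by
      intro x
      rw [hx]
      rcases Nat.even_or_odd x.val with he | ho
      · have : 0 < (- r) ^ x.val * b := mul_pos (he.pow_pos (neg_ne_zero.2 hr0.ne')) hb0
        rw [he.neg_one_pow, sg, if_pos this]
      · have : (- r) ^ x.val * b < 0 := mul_neg_of_neg_of_pos (ho.pow_neg (neg_lt_zero.2 hr0)) hb0
        rw [ho.neg_one_pow, sg, if_neg (not_lt.2 this.le), if_pos this]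
    simp only [hsg]
    obtain ⟨n, rfl⟩ : ∃ n, l = n + 1 := ⟨l - 1, by omega⟩
    have h := Fin.sum_univ_eq_sum_range (fun k => (-1 : ℤ) ^ k) (n + 1)
    rw [neg_one_geom_sum, if_neg (Nat.not_even_iff_odd.2 hodd)] at h
    exact h

end Pool.Agent.Helper50.FE
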