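import Pool.Agent.Helper50.FE.Defs
import Pool.Agent.Helper21.FD.K1
import Pool.Agent.Helper21.FD.K7
import Pool.Agent.Helper21.FD.G8

/-!
MP_0aa406_nt, project FE: folding.

`k = k1 t`, `n = n1 t`: fibre sums `fold μ c = ∑_{pr k1 c' = c} μ c'`. `tn n c = t tn n1 (pr k1 c)`, `cy n a b = cy n1 (pr a) (pr b)`,
`ps n c = ps n1 (pr k1 c) + n1 j` where `c.val = (pr k1 c).val + k1 j`. So `fold (rmul p n μ x) = rmul p n1 (fold μ) (fold x)`,
`NN p n1 ∣ ev p n μ - ev p n1 (fold μ)` (`NN p n1 ∣ p ^ n1 - 1`), `NN p n1 ∣ NN p n` (`FD.NN_dvd`), and `OneClass` folds, with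
`|fold μ| ≤ t p ^ B ≤ p ^ (B + t)`.
-/

set_option autoImplicit false

namespace Pool.Agent.Helper50.FE

open Finset Pool.Agent.Helper21.FC Pool.Agent.Helper21.FD

/-- fibre sums -/
def fold (k1 : ℕ) {k : ℕ} [NeZero k] (μ : ZMod k → ℤ) (c : ZMod k1) : ℤ :=
  ∑ c' ∈ univ.filter (fun c' : ZMod k => pr k1 c' = c), μ c'

/-- `tn` as a remainder -/
theorem V8_tn_eq {k : ℕ} [NeZero k] (n : ℕ) (c : ZMod k) :
    ((tn n c : ℕ) : ℤ) = (-((c.val : ℤ) * n)) % (k : ℤ) := by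
  unfold tn
  have h : (-(c * (n : ZMod k))) = (((-((c.val : ℤ) * n)) : ℤ) : ZMod k) := by
    push_cast
    rw [ZMod.natCast_zmod_val]
  rw [h, ZMod.val_intCast]

theorem V8_pr_val {k1 k : ℕ} (c : ZMod k) : (pr k1 c).val = c.val % k1 := by
  unfold pr
  rw [ZMod.val_natCast]

theorem V8_tn {n k k1 n1 t : ℕ} [NeZero k] [NeZero k1] (hk : k = k1 * t) (hn : n = n1 * t)
    (c : ZMod k) : tn n c = t * tn n1 (pr k1 c) := by
  have h1 := V8_tn_eq n c
  have h2 := V8_tn_eq n1 (pr k1 c)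
  rw [V8_pr_val] at h2
  have h3 : (-(((c.val % k1 : ℕ) : ℤ) * n1)) % (k1 : ℤ) = (-((c.val : ℤ) * n1)) % (k1 : ℤ) := by
    push_cast
    exact ((Int.mod_modEq (c.val : ℤ) (k1 : ℤ)).mul_right (n1 : ℤ)).neg
  rw [h3] at h2
  have h4 : (-((c.val : ℤ) * n)) % (k : ℤ) = (t : ℤ) * ((-((c.val : ℤ) * n1)) % (k1 : ℤ)) := by
    have e1 : (-((c.val : ℤ) * n)) = (t : ℤ) * (-((c.val : ℤ) * n1)) := by
      rw [hn]; push_cast; ring
    have e2 : (k : ℤ) = (t : ℤ) * k1 := by rw [hk]; push_cast; ring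
    rw [e1, e2, Int.mul_emod_mul_of_pos]
    have hk0 : 0 < k := Nat.pos_of_ne_zero (NeZero.ne k)
    rw [hk] at hk0
    exact_mod_cast Nat.pos_of_mul_pos_left hk0
  have h5 : ((tn n c : ℕ) : ℤ) = ((t * tn n1 (pr k1 c) : ℕ) : ℤ) := by
    rw [h1, h4, ← h2]; push_cast; ring
  exact_mod_cast h5

theorem V8_div {k k1 t : ℕ} (hk : k = k1 * t) (ht : 0 < t) (X : ℕ) : t * X / k = X / k1 := by
  rw [hk, mul_comm k1 t]
  exact Nat.mul_div_mul_left _ _ ht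

theorem V8_cy {n k k1 n1 t : ℕ} [NeZero k] [NeZero k1] (hk : k = k1 * t) (hn : n = n1 * t)
    (ht : 0 < t) (a b : ZMod k) : cy n a b = cy n1 (pr k1 a) (pr k1 b) := by
  unfold cy
  rw [V8_tn hk hn, V8_tn hk hn, ← mul_add]
  exact V8_div hk ht _

theorem V8_ps {n k k1 n1 t : ℕ} [NeZero k] [NeZero k1] (hk : k = k1 * t) (hn : n = n1 * t)
    (ht : 0 < t) (c : ZMod k) : ps n c = ps n1 (pr k1 c) + n1 * (c.val / k1) := by
  unfold ps
  rw [V8_tn hk hn, V8_pr_val]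
  have e1 : c.val * n + t * tn n1 (pr k1 c) = t * (c.val * n1 + tn n1 (pr k1 c)) := by
    rw [hn]; ring
  rw [e1]
  rw [V8_div hk ht]
  have e3 : c.val * n1 + tn n1 (pr k1 c) =
      (c.val % k1 * n1 + tn n1 (pr k1 c)) + k1 * (n1 * (c.val / k1)) := by
    conv_lhs => rw [← Nat.mod_add_div c.val k1]
    ring
  rw [e3, Nat.add_mul_div_left _ _ (Nat.pos_of_ne_zero (NeZero.ne k1))]

theorem V8_dvd_k {k k1 t : ℕ} (hk : k = k1 * t) : k1 ∣ k := ⟨t, hk⟩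

/-- shifting a fibre sum -/
theorem V8_shift {k k1 : ℕ} [NeZero k] [NeZero k1] (h : k1 ∣ k) (μ : ZMod k → ℤ) (i : ZMod k)
    (v : ZMod k1) :
    ∑ u ∈ univ.filter (fun u : ZMod k => pr k1 u = v), μ (u - i) = fold k1 μ (v - pr k1 i) := by
  unfold fold
  refine Finset.sum_bij' (fun u _ => u - i) (fun u _ => u + i) ?_ ?_ ?_ ?_ ?_
  · intro u hu
    simp only [mem_filter, mem_univ, true_and] at hu ⊢
    rw [pr_sub h, hu]
  · intro u hu
    simp only [mem_filter, mem_univ, true_and] at hu ⊢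
    rw [pr_add h, hu, sub_add_cancel]
  · intro u _
    exact sub_add_cancel u i
  · intro u _
    exact add_sub_cancel_right u i
  · intro u _
    rfl

/-- the fibre sums form a ring homomorphism -/
theorem V8_rmul {p n k k1 n1 t : ℕ} [NeZero k] [NeZero k1] (hk : k = k1 * t) (hn : n = n1 * t)
    (ht : 0 < t) (μ x : ZMod k → ℤ) (v : ZMod k1) :
    fold k1 (rmul p n μ x) v = rmul p n1 (fold k1 μ) (fold k1 x) v := by
  have h := V8_dvd_k hk
  have e1 : fold k1 (rmul p n μ x) v =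
      ∑ i : ZMod k, x i * (p : ℤ) ^ cy n1 (v - pr k1 i) (pr k1 i) * fold k1 μ (v - pr k1 i) := by
    have e2 : fold k1 (rmul p n μ x) v =
        ∑ u ∈ univ.filter (fun u : ZMod k => pr k1 u = v),
          ∑ i : ZMod k, μ (u - i) * x i * (p : ℤ) ^ cy n1 (v - pr k1 i) (pr k1 i) := by
      unfold fold rmul
      refine Finset.sum_congr rfl (fun u hu => ?_)
      refine Finset.sum_congr rfl (fun i _ => ?_)
      rw [V8_cy hk hn ht, pr_sub h, (mem_filter.1 hu).2]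
    rw [e2, Finset.sum_comm]
    refine Finset.sum_congr rfl (fun i _ => ?_)
    rw [← V8_shift h μ i v, Finset.mul_sum]
    refine Finset.sum_congr rfl (fun u _ => ?_)
    ring
  rw [e1]
  unfold rmul
  rw [← Finset.sum_fiberwise_of_maps_to (g := fun i : ZMod k => pr k1 i)
    (fun i _ => mem_univ (pr k1 i))]
  refine Finset.sum_congr rfl (fun j _ => ?_)
  have e3 : fold k1 x j = ∑ i ∈ univ.filter (fun i : ZMod k => pr k1 i = j), x i := rfl
  rw [e3, Finset.mul_sum, Finset.sum_mul]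
  refine Finset.sum_congr rfl (fun i hi => ?_)
  rw [(mem_filter.1 hi).2]
  ring

theorem V8_single {k k1 : ℕ} [NeZero k] (c : ZMod k) (A : ℤ) (v : ZMod k1) :
    fold k1 (Pi.single c A : ZMod k → ℤ) v = (Pi.single (pr k1 c) A : ZMod k1 → ℤ) v := by
  unfold fold
  by_cases h : pr k1 c = v
  · subst h
    rw [Pi.single_eq_same, Finset.sum_eq_single c]
    · rw [Pi.single_eq_same]
    · intro b _ hb
      rw [Pi.single_eq_of_ne hb]
    · intro hc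
      exact absurd (by simp) hc
  · rw [Pi.single_eq_of_ne (Ne.symm h)]
    refine Finset.sum_eq_zero (fun b hb => ?_)
    rw [Pi.single_eq_of_ne]
    rintro rfl
    exact h (mem_filter.1 hb).2

theorem V8_ev {p n k k1 n1 t : ℕ} [NeZero k] [NeZero k1] (hk : k = k1 * t) (hn : n = n1 * t)
    (ht : 0 < t) (μ : ZMod k → ℤ) : NN p n1 ∣ ev p n μ - ev p n1 (fold k1 μ) := by
  have e1 : ev p n1 (fold k1 μ) = ∑ c : ZMod k, μ c * (p : ℤ) ^ ps n1 (pr k1 c) := by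
    unfold ev
    rw [← Finset.sum_fiberwise_of_maps_to (g := fun i : ZMod k => pr k1 i)
      (fun i _ => mem_univ (pr k1 i)) (fun c : ZMod k => μ c * (p : ℤ) ^ ps n1 (pr k1 c))]
    refine Finset.sum_congr rfl (fun j _ => ?_)
    unfold fold
    rw [Finset.sum_mul]
    refine Finset.sum_congr rfl (fun i hi => ?_)
    rw [(mem_filter.1 hi).2]
  rw [e1]
  unfold ev
  rw [← Finset.sum_sub_distrib]
  refine Finset.dvd_sum (fun c _ => ?_)
  rw [V8_ps hk hn ht, ← mul_sub, pow_add, pow_mul]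
  apply Dvd.dvd.mul_left
  have h := sub_dvd_pow_sub_pow ((p : ℤ) ^ n1) 1 (c.val / k1)
  rw [one_pow] at h
  have h2 : (p : ℤ) ^ ps n1 (pr k1 c) * ((p : ℤ) ^ n1) ^ (c.val / k1) - (p : ℤ) ^ ps n1 (pr k1 c) =
      (p : ℤ) ^ ps n1 (pr k1 c) * (((p : ℤ) ^ n1) ^ (c.val / k1) - 1) := by ring
  rw [h2]
  exact Dvd.dvd.mul_left h _

theorem V8_bound {p k k1 t B : ℕ} [NeZero k] [NeZero k1] (hp : 2 ≤ p) (hk : k = k1 * t)
    (μ : ZMod k → ℤ) (hμ : ∀ c, |μ c| ≤ (p : ℤ) ^ B) (v : ZMod k1) :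
    |fold k1 μ v| ≤ (p : ℤ) ^ (B + t) := by
  have h := V8_dvd_k hk
  have hkt : k / k1 = t := by
    rw [hk]; exact Nat.mul_div_cancel_left t (Nat.pos_of_ne_zero (NeZero.ne k1))
  have h1 : |fold k1 μ v| ≤ (t : ℤ) * (p : ℤ) ^ B := by
    unfold fold
    refine (Finset.abs_sum_le_sum_abs _ _).trans ?_
    refine (Finset.sum_le_card_nsmul _ _ _ (fun c _ => hμ c)).trans ?_
    rw [card_fibre h v, hkt, nsmul_eq_mul]
  refine h1.trans ?_
  have h2 : (t : ℤ) ≤ (p : ℤ) ^ t := by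
    have h3 : t < 2 ^ t := Nat.lt_two_pow_self
    have h4 : 2 ^ t ≤ p ^ t := Nat.pow_le_pow_left hp t
    exact_mod_cast h3.le.trans h4
  rw [pow_add, mul_comm]
  exact mul_le_mul_of_nonneg_left h2 (by positivity)

theorem oneClass_fold {p n k k1 n1 t B h h' : ℕ} [NeZero k] [NeZero k1] (hp : 2 ≤ p)
    (hk : k = k1 * t) (hn : n = n1 * t) (ht : 0 < t) (μ μ' : ZMod k → ℤ) (d d' : ℤ)
    (hone : OneClass p n B h h' μ μ' d d') :
    OneClass p n1 (B + t) h h' (fold k1 μ) (fold k1 μ') d d' := by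
  obtain ⟨hμ, hμ', ⟨α, β, c, hα, hβ, hrel⟩, hdd, ⟨r, hr⟩, ⟨r', hr'⟩⟩ := hone
  have hNN : NN p n1 ∣ NN p n := by rw [hn]; exact NN_dvd p n1 t
  have key : ∀ (H : ℕ) (D : ℤ) (s : ℕ) (ν : ZMod k → ℤ),
      NN p n ∣ H * D - (p : ℤ) ^ s * ev p n ν →
      NN p n1 ∣ H * D - (p : ℤ) ^ s * ev p n1 (fold k1 ν) := by
    intro H D s ν hs
    have h1 := hNN.trans hs
    have h2 := (V8_ev (p := p) hk hn ht ν).mul_left ((p : ℤ) ^ s)
    have h3 := dvd_add h1 h2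
    have e : (H * D - (p : ℤ) ^ s * ev p n ν) + (p : ℤ) ^ s * (ev p n ν - ev p n1 (fold k1 ν)) =
        H * D - (p : ℤ) ^ s * ev p n1 (fold k1 ν) := by ring
    rwa [e] at h3
  refine ⟨V8_bound hp hk μ hμ, V8_bound hp hk μ' hμ', ⟨α, β, pr k1 c, by omega, by omega, ?_⟩,
    hNN.trans hdd, ⟨r, key _ _ _ _ hr⟩, ⟨r', key _ _ _ _ hr'⟩⟩
  intro u
  rw [← V8_rmul hk hn ht, ← V8_single]
  unfold fold
  rw [Finset.mul_sum]
  exact Finset.sum_congr rfl (fun i _ => hrel i)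

end Pool.Agent.Helper50.FE
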