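import Pool.Agent.Helper50.FE.E2
import Pool.Agent.Helper50.FE.V3
import Pool.Agent.Helper50.FE.V7
import Pool.Agent.Helper50.FE.V8
import Pool.Agent.Helper21.FD.H1
import Pool.Agent.Helper21.FD.K3
import Pool.Agent.Helper21.FD.K4
import Pool.Agent.Helper21.FD.K5
import Pool.Agent.Helper21.FD.K7

/-!
MP_0aa406_nt, project FE: one class of positions, exactly (helper50).
-/

set_option autoImplicit false

namespace Pool.Agent.Helper50.FE

open Finset Pool.Agent.Helper21.FC Pool.Agent.Helper21.FD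

private theorem E0_pow_mono {p : ℕ} (hp : 2 ≤ p) {B B' : ℕ} (hB : B ≤ B') {x : ℤ}
    (hx : |x| ≤ (p : ℤ) ^ B) : |x| ≤ (p : ℤ) ^ B' :=
  hx.trans (pow_le_pow_right₀ (by exact_mod_cast (le_trans (by norm_num) hp : 1 ≤ p)) hB)

private theorem E0_mono {p n B B' h h' k : ℕ} [NeZero k] (hp : 2 ≤ p) (hB : B ≤ B')
    {μ μ' : ZMod k → ℤ} {d d' : ℤ} (hone : OneClass p n B h h' μ μ' d d') :
    OneClass p n B' h h' μ μ' d d' := by
  obtain ⟨h1, h2, ⟨α, β, c, hα, hβ, hrel⟩, h3, h4, h5⟩ := hone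
  exact ⟨fun t => E0_pow_mono hp hB (h1 t), fun t => E0_pow_mono hp hB (h2 t),
    ⟨α, β, c, hα.trans hB, hβ.trans hB, hrel⟩, h3, h4, h5⟩

private theorem E0_rmul_comm {p n k : ℕ} [NeZero k] (μ x : ZMod k → ℤ) (u : ZMod k) :
    rmul p n μ x u = rmul p n x μ u := by
  unfold rmul
  refine Fintype.sum_equiv (Equiv.subLeft u) _ _ (fun i => ?_)
  rw [Equiv.subLeft_apply, sub_sub_cancel, cy_comm]
  ring

private theorem E0_swap {p n B h h' k : ℕ} [NeZero k]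
    {μ μ' : ZMod k → ℤ} {d d' : ℤ} (hone : OneClass p n B h h' μ μ' d d') :
    OneClass p n B h' h μ' μ d' d := by
  obtain ⟨h1, h2, ⟨α, β, c, hα, hβ, hrel⟩, h3, h4, h5⟩ := hone
  refine ⟨h2, h1, ⟨α, β, c, hα, hβ, fun u => ?_⟩, by rwa [mul_comm d' d], h5, h4⟩
  rw [E0_rmul_comm, hrel, mul_comm h' h]

/-- the inverse of `d` is not a power of `p` either -/
private theorem E0_nondeg {p n : ℕ} (hn : 1 ≤ n) {d d' : ℤ}
    (hdd : NN p n ∣ d * d' - 1) (hnd : ∀ j : ℕ, ¬ NN p n ∣ d - (p : ℤ) ^ j) (j : ℕ) :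
    ¬ NN p n ∣ d' - (p : ℤ) ^ j := by
  intro hj
  apply hnd (n * j - j)
  have hjn : j ≤ n * j := Nat.le_mul_of_pos_left _ hn
  have h1 : NN p n ∣ (p : ℤ) ^ (n * j) - 1 := by
    unfold NN
    rw [pow_mul]
    have := sub_dvd_pow_sub_pow ((p : ℤ) ^ n) 1 j
    rwa [one_pow] at this
  have h2 : (p : ℤ) ^ j * (p : ℤ) ^ (n * j - j) = (p : ℤ) ^ (n * j) := by
    rw [← pow_add]
    congr 1
    omega
  obtain ⟨x, hx⟩ := hdd
  obtain ⟨y, hy⟩ := hj
  obtain ⟨z, hz⟩ := h1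
  refine ⟨-d * z + (p : ℤ) ^ (n * j - j) * (x - d * y), ?_⟩
  linear_combination (-d) * hz + (p : ℤ) ^ (n * j - j) * hx - (p : ℤ) ^ (n * j - j) * d * hy -
    d * h2

private theorem E0_descend {p n B h h' k f q : ℕ} [NeZero k] [NeZero f] (hp : 2 ≤ p)
    (hk : k = f * q) (hn : k ≤ n) (hh : 0 < h) (hh' : 0 < h') {μ μ' : ZMod k → ℤ} {d d' : ℤ}
    (hone : OneClass p n B h h' μ μ' d d') (c0 : ZMod k)
    (hsup : ∀ t, μ t ≠ 0 → pr q t = pr q c0) :
    ∃ ν ν' : ZMod f → ℤ, OneClass p n (B + 4) h h' ν ν' d d' := by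
  obtain ⟨hμ, hμ', ⟨α, β, c, hα, hβ, hrel⟩, hdd, ⟨r, hr⟩, ⟨r', hr'⟩⟩ := hone
  obtain ⟨ν, ν', β', c', hν, hν', hβ', hrel', hx, hx'⟩ := descend p n hp k f q B hk hn μ μ'
    hμ hμ' (h * h') (Nat.mul_pos hh hh') α β c hβ hrel c0 hsup
  obtain ⟨s, hs⟩ := hx _ r hr
  obtain ⟨s', hs'⟩ := hx' _ r' hr'
  exact ⟨ν, ν', hν, hν', ⟨α, β', c', hα.trans (by omega), hβ', hrel'⟩, hdd, ⟨s, hs⟩, ⟨s', hs'⟩⟩

private theorem E0_ne {p n B h h' k : ℕ} [NeZero k] (hp : 2 ≤ p) (hh : 0 < h) (hh' : 0 < h')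
    {μ μ' : ZMod k → ℤ} {d d' : ℤ} (hone : OneClass p n B h h' μ μ' d d') :
    ∃ c0, μ c0 ≠ 0 := by
  obtain ⟨hμ, hμ', ⟨α, β, c, hα, hβ, hrel⟩, hdd, ⟨r, hr⟩, ⟨r', hr'⟩⟩ := hone
  by_contra hall
  push Not at hall
  have h1 := hrel c
  have h2 : rmul p n μ μ' c = 0 := by
    unfold rmul
    apply Finset.sum_eq_zero
    intro i _
    rw [hall]
    ring
  rw [h2, mul_zero, Pi.single_eq_same] at h1
  have h3 : (0 : ℤ) < ((h * h' : ℕ) : ℤ) * (p : ℤ) ^ β := by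
    have : 0 < h * h' := Nat.mul_pos hh hh'
    have h4 : (0 : ℤ) < ((h * h' : ℕ) : ℤ) := by exact_mod_cast this
    have h5 : (0 : ℤ) < (p : ℤ) := by exact_mod_cast (by omega : 0 < p)
    positivity
  omega

private theorem E0_ci {p n k : ℕ} [NeZero k] (hp : 2 ≤ p) (μ : ZMod k → ℤ) (c : ZMod k) :
    ci p n μ c ≠ 0 ↔ μ c ≠ 0 := by
  unfold ci
  have h1 : rho p k ^ tn n c ≠ 0 := by
    apply pow_ne_zero
    unfold rho
    have : (0 : ℝ) < p := by exact_mod_cast (by omega : 0 < p)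
    positivity
  rw [mul_ne_zero_iff]
  constructor
  · rintro ⟨h2, _⟩
    exact_mod_cast h2
  · intro h2
    exact ⟨by exact_mod_cast h2, h1⟩

private theorem E0_lin {n l k C X : ℝ} (hl : 0 < l) (hk : 1 ≤ k) (hX : C ≤ X) (hX0 : 0 ≤ X)
    (hn : 2 * l * k * X ≤ n) : (1 / 2 - 1 / (2 * l)) * n ≤ n / 2 - C := by
  have h1 : 2 * l * X ≤ n := by
    refine le_trans ?_ hn
    have : 0 ≤ 2 * l * X * (k - 1) := by
      have : 0 ≤ k - 1 := by linarith
      positivity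
    nlinarith
  have h2 : X ≤ n / (2 * l) := by
    rw [le_div_iff₀ (by positivity)]
    linarith
  have h3 : (1 / 2 - 1 / (2 * l)) * n = n / 2 - n / (2 * l) := by ring
  rw [h3]
  linarith

/-- the statement for `k` -/
def St0 (p l k : ℕ) : Prop := ∀ h h' B : ℕ, 0 < h → 0 < h' → ∃ N : ℕ, ∀ _ : NeZero k,
    ∀ n : ℕ, N ≤ n → (∀ q : ℕ, q.Prime → q ≠ 2 → q ∣ n → l ≤ q) →
    ∀ (μ μ' : ZMod k → ℤ) (d d' : ℤ), OneClass p n B h h' μ μ' d d' →
    (∀ j : ℕ, ¬ NN p n ∣ d - (p : ℤ) ^ j) →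
      Gain p n d ((1 / 2 - 1 / (2 * (l : ℝ))) * n)

private theorem E0_step (p l : ℕ) (hp : p.Prime) (hl : l.Prime) (hl2 : l ≠ 2) (k : ℕ)
    (ih : ∀ f, f < k → St0 p l f) : St0 p l k := by
  classical
  intro h h' B hh hh'
  rcases Nat.eq_zero_or_pos k with hk0 | hk0
  · exact ⟨0, fun hne => absurd hk0 hne.ne⟩
  have : NeZero k := ⟨hk0.ne'⟩
  have : NeZero l := ⟨hl.ne_zero⟩
  have hp2 : 2 ≤ p := hp.two_le
  have hlpos : (0 : ℝ) < l := by exact_mod_cast hl.pos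
  have hkR : (1 : ℝ) ≤ k := by exact_mod_cast hk0
  obtain ⟨B', hB'⟩ : ∃ B', B' = B + k + 4 := ⟨_, rfl⟩
  have hA : ∀ f, ∃ N : ℕ, f < k → ∀ _ : NeZero f,
      ∀ n : ℕ, N ≤ n → (∀ q : ℕ, q.Prime → q ≠ 2 → q ∣ n → l ≤ q) →
      ∀ (μ μ' : ZMod f → ℤ) (d d' : ℤ), OneClass p n B' h h' μ μ' d d' →
      (∀ j : ℕ, ¬ NN p n ∣ d - (p : ℤ) ^ j) →
        Gain p n d ((1 / 2 - 1 / (2 * (l : ℝ))) * n) := by
    intro f
    by_cases hf : f < k
    · obtain ⟨N, hN⟩ := ih f hf h h' B' hh hh'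
      exact ⟨N, fun _ => hN⟩
    · exact ⟨0, fun h0 => absurd h0 hf⟩
  have hAs : ∀ f, ∃ N : ℕ, f < k → ∀ _ : NeZero f,
      ∀ n : ℕ, N ≤ n → (∀ q : ℕ, q.Prime → q ≠ 2 → q ∣ n → l ≤ q) →
      ∀ (μ μ' : ZMod f → ℤ) (d d' : ℤ), OneClass p n B' h' h μ μ' d d' →
      (∀ j : ℕ, ¬ NN p n ∣ d - (p : ℤ) ^ j) →
        Gain p n d ((1 / 2 - 1 / (2 * (l : ℝ))) * n) := by
    intro f
    by_cases hf : f < k
    · obtain ⟨N, hN⟩ := ih f hf h' h B' hh' hh
      exact ⟨N, fun _ => hN⟩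
    · exact ⟨0, fun h0 => absurd h0 hf⟩
  choose NA hNA using hA
  choose NB hNB using hAs
  have hmid : ∀ h : ℕ, 0 < h → ∃ N : ℕ, k = k / l * l → k / l < l → ∀ n n' : ℕ, N ≤ n →
      n = l * n' → Nat.Coprime (k / l) n' → ∀ μ : ZMod k → ℤ, (∀ t, |μ t| ≤ (p : ℤ) ^ B) →
      Gen (fun c => μ c ≠ 0) → ∑ t, sg (qt l (ci p n μ) t) = 1 → ∀ (d : ℤ) (r : ℕ),
      NN p n ∣ h * d - (p : ℤ) ^ r * ev p n μ →
        Gain p n d ((1 / 2 - 1 / (2 * (l : ℝ))) * n) := by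
    intro h hh
    by_cases h1 : k = k / l * l ∧ k / l < l
    · obtain ⟨N, hN⟩ := mid p l (k / l) k B h hp hl hl2 h1.1 h1.2 hh
      exact ⟨N, fun _ _ => hN⟩
    · exact ⟨0, fun h2 h3 => absurd ⟨h2, h3⟩ h1⟩
  obtain ⟨C1, N1, h1⟩ := K7_one k h h' B hh hh'
  obtain ⟨C2, N2, h2⟩ := domain_case k h h' B hh hh'
  obtain ⟨N3, h3⟩ := nondegenerate k h B hh
  obtain ⟨C4, N4, h4⟩ := K7_tower k h B hh
  obtain ⟨B5, h5⟩ := loc_one k B
  obtain ⟨C6, N6, h6⟩ := gain_of_dval k h (max B B5) hh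
  obtain ⟨N7, h7⟩ := strict_gain p k h B l hp hh hl.one_lt.le
  obtain ⟨N8, h8⟩ := hmid h hh
  obtain ⟨N9, h9⟩ := hmid h' hh'
  obtain ⟨X, hX⟩ := exists_nat_ge (|C1| + |C2| + |C4| + |C6|)
  obtain ⟨S, hS⟩ : ∃ S, S = ∑ f ∈ range k, (NA f + NB f) := ⟨_, rfl⟩
  have hSA : ∀ f, f < k → NA f + NB f ≤ S := by
    intro f hf
    rw [hS]
    exact Finset.single_le_sum (f := fun f => NA f + NB f) (fun _ _ => Nat.zero_le _)
      (mem_range.2 hf)
  refine ⟨N1 + N2 + N3 + N4 + N6 + N7 + N8 + N9 + k * S + k + 2 * l * k * X + 1, ?_⟩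
  intro _ n hn hpr μ μ' d d' hone hnd
  have hkS : S ≤ k * S := Nat.le_mul_of_pos_left _ hk0
  have hn1 : 1 ≤ n := by omega
  have hkn : k ≤ n := by omega
  have hnX : 2 * (l : ℝ) * k * X ≤ n := by
    have : 2 * l * k * X ≤ n := by omega
    exact_mod_cast this
  have hC1 := abs_nonneg C1
  have hC2 := abs_nonneg C2
  have hC4 := abs_nonneg C4
  have hC6 := abs_nonneg C6
  have hX0 : (0 : ℝ) ≤ X := Nat.cast_nonneg X
  obtain ⟨hμ, hμ', ⟨α, β, c, hα, hβ, hrel⟩, hdd, ⟨r, hr⟩, ⟨r', hr'⟩⟩ := id hone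
  -- (a)
  by_cases ha : ∃ c c', c ≠ c' ∧ μ c ≠ 0 ∧ μ c' ≠ 0
  swap
  · refine gain_mono (E0_lin hlpos hkR (C := C1) ?_ hX0 hnX)
      (h1 p hp n (by omega) μ μ' d d' hone ha hnd)
    linarith [le_abs_self C1]
  -- (b)
  by_cases hb : Gen (fun c => μ c ≠ 0)
  swap
  · unfold Gen at hb
    push Not at hb
    obtain ⟨q, hq, ⟨f, hf⟩, hqf⟩ := hb
    obtain ⟨c0, _, _, hc0, _⟩ := ha
    have hf0 : 0 < f := by
      rcases Nat.eq_zero_or_pos f with h0 | h0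
      · rw [h0, mul_zero] at hf
        omega
      · exact h0
    have hfk : f < k := by
      rw [hf]
      have := hq.two_le
      nlinarith
    have : NeZero f := ⟨hf0.ne'⟩
    obtain ⟨ν, ν', hν⟩ := E0_descend (f := f) (q := q) hp2 (by rw [hf, mul_comm]) hkn hh hh'
      hone c0 (fun t ht => hqf t c0 ht hc0)
    have hS1 := hSA f hfk
    exact hNA f hfk inferInstance n (by omega) hpr ν ν' d d'
      (E0_mono hp2 (by omega) hν) hnd
  by_cases hb' : Gen (fun c => μ' c ≠ 0)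
  swap
  · unfold Gen at hb'
    push Not at hb'
    obtain ⟨q, hq, ⟨f, hf⟩, hqf⟩ := hb'
    have hsw := E0_swap hone
    obtain ⟨c0, hc0⟩ := E0_ne hp2 hh' hh hsw
    have hf0 : 0 < f := by
      rcases Nat.eq_zero_or_pos f with h0 | h0
      · rw [h0, mul_zero] at hf
        omega
      · exact h0
    have hfk : f < k := by
      rw [hf]
      have := hq.two_le
      nlinarith
    have : NeZero f := ⟨hf0.ne'⟩
    obtain ⟨ν, ν', hν⟩ := E0_descend (f := f) (q := q) hp2 (by rw [hf, mul_comm]) hkn hh' hh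
      hsw c0 (fun t ht => hqf t c0 ht hc0)
    have hS1 := hSA f hfk
    exact gain_inv hp2 hn1 hdd (hNB f hfk inferInstance n (by omega) hpr ν ν' d' d
      (E0_mono hp2 (by omega) hν) (E0_nondeg hn1 hdd hnd))
  -- (c)
  by_cases hg1 : Nat.gcd k n = 1
  · refine gain_mono (E0_lin hlpos hkR (C := C2) ?_ hX0 hnX)
      (h2 p hp n (by omega) μ μ' hμ hμ' α β c hα hβ hrel d d' r r' hdd ?_ hr hr')
    · linarith [le_abs_self C2]
    · rw [hg1, Nat.div_one]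
      exact hnd
  -- (d)
  by_cases hfold : ∃ t : ℕ, t.Prime ∧ t ∣ k ∧ t ∣ n ∧ ∀ j : ℕ, ¬ NN p (n / t) ∣ d - (p : ℤ) ^ j
  · obtain ⟨t, ht, ⟨k1, hk1⟩, ⟨n1, hn1'⟩, htd⟩ := hfold
    have hk1' : k = k1 * t := by rw [hk1, mul_comm]
    have hn1'' : n = n1 * t := by rw [hn1', mul_comm]
    have hk10 : 0 < k1 := by
      rcases Nat.eq_zero_or_pos k1 with h0 | h0
      · rw [h0, mul_zero] at hk1
        omega
      · exact h0
    have hk1k : k1 < k := by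
      rw [hk1]
      have := ht.two_le
      nlinarith
    have htk : t ≤ k := Nat.le_of_dvd hk0 ⟨k1, hk1⟩
    have : NeZero k1 := ⟨hk10.ne'⟩
    have hdiv : n / t = n1 := by
      rw [hn1']
      exact Nat.mul_div_cancel_left _ ht.pos
    rw [hdiv] at htd
    have hS1 := hSA k1 hk1k
    have hNn1 : NA k1 ≤ n1 := by
      have h10 : t * NA k1 ≤ k * S := Nat.mul_le_mul htk (by omega)
      have h11 : t * NA k1 ≤ t * n1 := by
        rw [← hn1']
        omega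
      exact Nat.le_of_mul_le_mul_left h11 ht.pos
    have hn10 : 1 ≤ n1 := by
      rcases Nat.eq_zero_or_pos n1 with h0 | h0
      · rw [h0, mul_zero] at hn1'
        omega
      · exact h0
    have hg := hNA k1 hk1k inferInstance n1 hNn1
      (fun q hq hq2 hqn => hpr q hq hq2 (hqn.trans ⟨t, hn1''⟩)) _ _ d d'
      (E0_mono hp2 (by omega) (oneClass_fold hp2 hk1' hn1'' ht.pos μ μ' d d' hone)) htd
    have hgl := gain_lift hp2 hn10 ht.pos d _ hg
    rw [← hn1''] at hgl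
    refine gain_mono (le_of_eq ?_) hgl
    rw [hn1'']
    push_cast
    ring
  -- (e)
  push Not at hfold
  have hnot : ∀ t : ℕ, t.Prime → t ∣ k → t ∣ n → ¬ Two (qt (k / t) (ci p n μ)) := by
    intro t ht htk htn htwo
    obtain ⟨j, hj⟩ := hfold t ht htk htn
    exact h3 p hp n (by omega) t htk htn μ hμ htwo d r hr j hj
  by_cases h2kn : 2 ∣ k ∧ 2 ∣ n
  · refine gain_mono (E0_lin hlpos hkR (C := C4) ?_ hX0 hnX)
      (h4 p hp n (by omega) 1 (by rw [pow_one]; exact h2kn.1) μ hμ ha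
        (by rw [pow_one]; exact hnot 2 Nat.prime_two h2kn.1 h2kn.2) d r hr)
    linarith [le_abs_self C4]
  -- (f)
  by_cases hbig : ∃ t : ℕ, t.Prime ∧ l < t ∧ t ∣ k
  · obtain ⟨t, ht, hlt, htk⟩ := hbig
    have htodd : Odd t := ht.odd_of_ne_two (by
      have := hl.two_le
      omega)
    obtain ⟨c1, c2, hc1, hc2, hc12⟩ := hb t ht htk
    have hdv := h5 p hp n μ hμ t htk htodd ⟨c1, c2, hc1, hc2, hc12⟩ t ht.one_lt.le
      (fun q hq hqt => le_of_eq ((Nat.prime_dvd_prime_iff_eq hq ht).1 hqt).symm)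
    have hdv' := K7_dval_mono hp2 (le_max_right B B5) hdv
    have htk' : (t : ℝ) ≤ k := by exact_mod_cast Nat.le_of_dvd hk0 htk
    have htl : (l : ℝ) + 1 ≤ t := by exact_mod_cast hlt
    have hlR : (2 : ℝ) ≤ l := by exact_mod_cast hl.two_le
    have ht0 : (0 : ℝ) < t := by linarith
    have hc1' : (1 : ℝ) ≤ (k : ℝ) - k / t := by
      have : (k : ℝ) / t ≤ k / 3 := by
        apply div_le_div_of_nonneg_left (by linarith) (by norm_num) (by linarith)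
      linarith
    have hg := h6 p hp2 n (by omega) μ (fun t => E0_pow_mono hp2 (le_max_left B B5) (hμ t)) _
      hc1' hdv' d r hr
    refine gain_mono ?_ hg
    have hn0 : (0 : ℝ) ≤ n := Nat.cast_nonneg n
    have e : ((k : ℝ) - k / t) * n / (2 * k) = (1 / 2 - 1 / (2 * t)) * n := by
      have : (k : ℝ) ≠ 0 := by linarith
      field_simp
    rw [e]
    have e2 : (1 / 2 - 1 / (2 * (t : ℝ))) * n - (1 / 2 - 1 / (2 * (l : ℝ))) * n =
        n * ((t - l) / (2 * l * t)) := by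
      field_simp
      ring
    have e3 : (X : ℝ) ≤ n * ((t - l) / (2 * l * t)) := by
      have e4 : 1 / (2 * (l : ℝ) * k) ≤ (t - l) / (2 * l * t) := by
        rw [div_le_div_iff₀ (by positivity) (by positivity)]
        have : (t : ℝ) ≤ (t - l) * k := by nlinarith
        nlinarith
      calc (X : ℝ) = 2 * (l : ℝ) * k * X * (1 / (2 * (l : ℝ) * k)) := by
            field_simp
        _ ≤ n * (1 / (2 * (l : ℝ) * k)) :=
            mul_le_mul_of_nonneg_right hnX (by positivity)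
        _ ≤ n * ((t - l) / (2 * l * t)) := mul_le_mul_of_nonneg_left e4 hn0
    linarith [le_abs_self C6]
  push Not at hbig
  -- the primes of `gcd k n` are equal to `l`
  have hprl : ∀ t : ℕ, t.Prime → t ∣ k → t ∣ n → t = l := by
    intro t ht htk htn
    have ht2 : t ≠ 2 := by
      rintro rfl
      exact h2kn ⟨htk, htn⟩
    have h10 := hpr t ht ht2 htn
    by_contra hne
    exact hbig t ht (by omega) htk
  obtain ⟨t, ht, htg⟩ := Nat.exists_prime_and_dvd hg1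
  have htk := htg.trans (Nat.gcd_dvd_left k n)
  have htn := htg.trans (Nat.gcd_dvd_right k n)
  have htl := hprl t ht htk htn
  subst htl
  have hlk' : k = k / t * t := (Nat.div_mul_cancel htk).symm
  have hln : n = t * (n / t) := (Nat.mul_div_cancel' htn).symm
  have hgena : Gen (fun c => ci p n μ c ≠ 0) := by
    intro q hq hqk
    obtain ⟨c1, c2, hc1, hc2, hne⟩ := hb q hq hqk
    exact ⟨c1, c2, (E0_ci hp2 μ c1).2 hc1, (E0_ci hp2 μ c2).2 hc2, hne⟩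
  have hkz : (k : ℤ) = (k / t : ℕ) * t := by exact_mod_cast hlk'
  rcases lt_trichotomy k (t * t) with hcase | hcase | hcase
  · -- `k < l ^ 2`
    have hk'l : k / t < t := (Nat.div_lt_iff_lt_mul ht.pos).2 hcase
    have hk'0 : 0 < k / t := Nat.div_pos (Nat.le_of_dvd hk0 htk) ht.pos
    have hco : Nat.Coprime (k / t) (n / t) := by
      by_contra hnc
      obtain ⟨q, hq, hqg⟩ := Nat.exists_prime_and_dvd hnc
      have hq1 := hqg.trans (Nat.gcd_dvd_left (k / t) (n / t))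
      have hq2 := hqg.trans (Nat.gcd_dvd_right (k / t) (n / t))
      have hq3 : q = t := hprl q hq (hq1.trans (Nat.div_dvd_of_dvd htk))
        (hq2.trans (Nat.div_dvd_of_dvd htn))
      have := Nat.le_of_dvd hk'0 hq1
      omega
    have hlk'' : ¬ t ∣ k / t := fun h0 => by
      have := Nat.le_of_dvd hk'0 h0
      omega
    obtain ⟨c1, c2, hc1, hc2, hne⟩ := hb t ht htk
    have hA1 := supp_fibre hp ht hlk' hlk'' hln hco μ c1 hc1
    have hA2 := supp_fibre hp ht hlk' hlk'' hln hco μ c2 hc2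
    rcases trich ht hl2 (qt t (ci p n μ)) ⟨_, _, hne, hA1, hA2⟩ with htri | htri | htri
    · -- a direction of full value
      have hlift := rval_lift htk (ci p n μ) _ htri
      refine h7 n (by omega) μ hμ _ ?_ hlift d r hr
      rw [← hkz]
      have : (0 : ℤ) < k := by exact_mod_cast hk0
      linarith
    · exact h8 hlk' hk'l n (n / t) (by omega) hln hco μ hμ hb htri d r hr
    · obtain ⟨t0, t1, hne01, hp0, hp1, hz⟩ := htri
      obtain ⟨u0, C, hC, hinv⟩ := qt_inv hp hh hh' htk μ μ' d d' hone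
      obtain ⟨_, he'⟩ := inv_pair ht (ht.odd_of_ne_two hl2) _ _ t0 t1 hne01 hp0 hp1 hz u0 C hC
        hinv
      exact gain_inv hp2 hn1 hdd
        (h9 hlk' hk'l n (n / t) (by omega) hln hco μ' hμ' hb' he' d' r' hr')
  · -- `k = l ^ 2`
    obtain ⟨c1, hc1, hr1⟩ := strict_sq ht hl2 hcase (ci p n μ) hgena
    exact h7 n (by omega) μ hμ c1 hc1 hr1 d r hr
  · -- `k > l ^ 2`
    have hk'0 : 0 < k / t := Nat.div_pos (Nat.le_of_dvd hk0 htk) ht.pos
    have : NeZero (k / t) := ⟨hk'0.ne'⟩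
    have hmk : k / t ∣ k := Nat.div_dvd_of_dvd htk
    have hkk : k / (k / t) = t := Nat.div_div_self htk hk0.ne'
    obtain ⟨c0, _, _, hc0, _⟩ := ha
    have hbfs := rval_bfs hmk (ci p n μ) (hnot t ht htk htn) ⟨c0, (E0_ci hp2 μ c0).2 hc0⟩
      (fun q hq hqm => hgena q hq (hqm.trans hmk))
    rw [hkk] at hbfs
    refine h7 n (by omega) μ hμ _ ?_ hbfs d r hr
    have h10 : ((t * t : ℕ) : ℤ) < k := by exact_mod_cast hcase
    push_cast at h10
    nlinarith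

theorem exact_class (p l : ℕ) (hp : p.Prime) (hl : l.Prime) (hl2 : l ≠ 2) (k : ℕ) [NeZero k]
    (h h' B : ℕ) (hh : 0 < h) (hh' : 0 < h') : ∃ N : ℕ, ∀ n : ℕ, N ≤ n →
    (∀ q : ℕ, q.Prime → q ≠ 2 → q ∣ n → l ≤ q) →
    ∀ (μ μ' : ZMod k → ℤ) (d d' : ℤ), OneClass p n B h h' μ μ' d d' →
    (∀ j : ℕ, ¬ NN p n ∣ d - (p : ℤ) ^ j) →
      Gain p n d ((1 / 2 - 1 / (2 * (l : ℝ))) * n) := by
  have key : St0 p l k := by
    induction k using Nat.strong_induction_on with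
    | _ k ih => exact E0_step p l hp hl hl2 k (fun f hf => by
        rcases Nat.eq_zero_or_pos f with h0 | h0
        · intro h h' B _ _
          exact ⟨0, fun hne => absurd h0 hne.ne⟩
        · have : NeZero f := ⟨h0.ne'⟩
          exact ih f hf)
  obtain ⟨N, hN⟩ := key h h' B hh hh'
  exact ⟨N, hN inferInstance⟩

end Pool.Agent.Helper50.FE
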