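import Pool.Agent.Helper50.FE.G1

/-!
MP_0aa406_nt, project FE: values of the sign pattern game (part 2).

As `FD.game_odd` (Helper21/FD/G1.lean), with `L = m.minFac + 1` in `KZ.claim`.  `3 ≤ ∑ g`: `KZ.val_three` (`q = 0`).
`∑ g ≤ 0`: a nonempty stuck set has `|Y + TT g| = |Y| ∑ g ≤ 0`, impossible.  `∑ g = 1`: `stuck_univ`, so
`|Y + TT g| = m ≥ m.minFac + 1` (here `m.minFac < m`), no small atoms.  `∑ g = 2`: there is an entry `-1` (otherwise `|TT g| = 2`);
an atom `Y` has `|Y + TT g| = 2 |Y|` even, `m.minFac` is odd, so `|Y + TT g| < m.minFac + 1` implies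
`|Y + TT g| < m.minFac` (it is not equal), `KZ.core2`.
-/

set_option autoImplicit false

namespace Pool.Agent.Helper50.FE

open Finset Pool.Agent.Helper21.FC Pool.Agent.Helper21.FD
open scoped Pointwise

theorem game_sq {m : ℕ} [NeZero m] (hodd : Odd m) (hm : m ≠ 1) {g : ZMod m → ℤ}
    (hg : Helper77.KZ.IsSign g) (hgen : Gen (fun i => g i ≠ 0))
    (hneg : (∃ i, g i = -1) ∨ 3 ≤ (univ.filter (fun i => g i ≠ 0)).card)
    (he : ∑ i, g i ≠ 1 ∨ m.minFac < m) :
    ∃ q : ℕ, Helper77.KZ.Val g univ (-(q : ℤ)) ∧ (m.minFac + 1) * q ≤ m := by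
  classical
  refine Helper21.FE.game_sq hodd hm hg ?_ hgen ?_ he
  · obtain ⟨c, c', hc, hc', hne⟩ := hgen m.minFac (Nat.minFac_prime hm) (Nat.minFac_dvd m)
    have h1 : c ≠ c' := fun h => hne (by rw [h])
    have h2 : ({c, c'} : Finset (ZMod m)) ⊆ Helper77.KZ.TT g := by
      intro x hx
      unfold Helper77.KZ.TT
      rcases Finset.mem_insert.1 hx with h | h
      · rw [h]; simpa using hc
      · rw [Finset.mem_singleton.1 h]; simpa using hc'
    have h3 := Finset.card_le_card h2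
    rwa [Finset.card_pair h1] at h3
  · unfold Helper77.KZ.TT
    exact hneg

end Pool.Agent.Helper50.FE
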