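import Pool.Agent.Helper50.FE.Defs
import Pool.Agent.Helper21.FD.S4
import Pool.Agent.Helper21.FD.R2

/-!
MP_0aa406_nt, project FE: from real directions to the gain; everything is finite, no uniformity is needed.

(1) `dval_of_rval`: `y` real with `y i ≠ 0`, `act (ci p n μ) y u ≠ 0`. For `Λ > 0` large put
`w i = round (Λ y i / ρ ^ tn n i)`, `ρ = rho p k`. Then `w i ρ ^ tn n i = Λ y i + O(1)`, and
`rmul p n μ w u ρ ^ tn n u = act (ci p n μ) (fun i => w i ρ ^ tn n i) u` (see the proof of `FD.dval_of_aval` in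
Helper21/FD/R1.lean, R2.lean; `tn (u-i) + tn i = tn u + k cy`, `ρ ^ k = p`), `= Λ act (ci p n μ) y u + O(1)`: the
signs agree for `Λ` large (`sg (w : ℝ) = Int.sign w`). The bound `B'` exists since `w` has finitely many entries.
(2) `strict_gain`: `p, k, h, B, l` are fixed.  `ci p n μ` depends only on `n % k` (and `μ`), also `rmul p n μ w`
(`tn`, `cy` depend on `(n : ZMod k)`), and there are finitely many `μ` with `|μ t| ≤ p ^ B` and finitely many
`c ≤ 2 k` (a value is `≤ 2 k`). So there is one bound `B'` with `DVal p n B' μ c` in all cases where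
`RVal (ci p n μ) c`; `FD.gain_of_dval k h (max B B')` gives `Gain (c n / (2 k) - C)`, and
`c n / (2 k) - C ≥ (1/2 - 1/(2 l)) n` once `n ≥ 2 k l C`, because `l c ≥ l k - k + 1`.
-/

set_option autoImplicit false

namespace Pool.Agent.Helper50.FE

open Finset Pool.Agent.Helper21.FC Pool.Agent.Helper21.FD

/-- finitely many positive lower bounds have a common power of `p` below them -/
private theorem V1_low {ι : Type*} [Fintype ι] {p : ℕ} (hp : 2 ≤ p) (f : ι → ℝ)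
    (hf : ∀ i, 0 < f i) : ∃ B : ℕ, ∀ i, ((p : ℝ) ^ B)⁻¹ ≤ f i := by
  have hp1 : (1 : ℝ) < p := by exact_mod_cast (by omega : 1 < p)
  have h1 : ∀ i, ∃ B : ℕ, (f i)⁻¹ < (p : ℝ) ^ B := fun i => pow_unbounded_of_one_lt _ hp1
  choose g hg using h1
  refine ⟨∑ i, g i, fun i => ?_⟩
  have h2 : g i ≤ ∑ i, g i := Finset.single_le_sum (fun _ _ => Nat.zero_le _) (Finset.mem_univ i)
  have h3 : (p : ℝ) ^ g i ≤ (p : ℝ) ^ (∑ i, g i) := pow_le_pow_right₀ hp1.le h2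
  exact inv_le_of_inv_le₀ (hf i) ((hg i).le.trans h3)

/-- finitely many numbers have a common power of `p` above them -/
private theorem V1_up {ι : Type*} [Fintype ι] {p : ℕ} (hp : 2 ≤ p) (f : ι → ℝ) :
    ∃ B : ℕ, ∀ i, f i ≤ (p : ℝ) ^ B := by
  have hp1 : (1 : ℝ) < p := by exact_mod_cast (by omega : 1 < p)
  have h1 : ∀ i, ∃ B : ℕ, f i < (p : ℝ) ^ B := fun i => pow_unbounded_of_one_lt _ hp1
  choose g hg using h1
  refine ⟨∑ i, g i, fun i => ?_⟩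
  have h2 : g i ≤ ∑ i, g i := Finset.single_le_sum (fun _ _ => Nat.zero_le _) (Finset.mem_univ i)
  exact (hg i).le.trans (pow_le_pow_right₀ hp1.le h2)

theorem dval_of_rval {p n k : ℕ} [NeZero k] (hp : p.Prime) (μ : ZMod k → ℤ) (c : ℤ)
    (h : RVal (ci p n μ) c) : ∃ B' : ℕ, DVal p n B' μ c := by
  obtain ⟨y, hy, ha, hc⟩ := h
  have hp2 := hp.two_le
  have hp1 : (1 : ℝ) ≤ p := by exact_mod_cast hp.one_le
  obtain ⟨B, hB⟩ := V1_up hp2 (fun t => |(μ t : ℝ)|)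
  obtain ⟨b1, hb1⟩ := V1_low hp2 (fun i => |y i|) (fun i => abs_pos.mpr (hy i))
  obtain ⟨b2, hb2⟩ := V1_up hp2 (fun i => |y i|)
  obtain ⟨b3, hb3⟩ := V1_low hp2 (fun u => |act (ci p n μ) y u|) (fun u => abs_pos.mpr (ha u))
  have hinv : ∀ D : ℕ, D ≤ b1 + b2 + b3 → ((p : ℝ) ^ (b1 + b2 + b3))⁻¹ ≤ ((p : ℝ) ^ D)⁻¹ := by
    intro D hD
    have h5 : (0 : ℝ) < (p : ℝ) ^ D := by positivity
    exact inv_anti₀ h5 (pow_le_pow_right₀ hp1 hD)
  obtain ⟨B1, hB1⟩ := rounding k B (b1 + b2 + b3)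
  obtain ⟨w, hw1, hw2, hw3⟩ := hB1 p hp2 n y (fun i =>
    ⟨(hinv b1 (by omega)).trans (hb1 i),
      (hb2 i).trans (pow_le_pow_right₀ hp1 (by omega))⟩)
  have hμ : ∀ t, |μ t| ≤ (p : ℤ) ^ B := fun t => by
    have := hB t
    exact_mod_cast this
  have hr : ∀ u, sg (act (ci p n μ) y u) = Int.sign (rmul p n μ w u) ∧ rmul p n μ w u ≠ 0 := by
    intro u
    have h6 := hw3 μ hμ u ((hinv b3 (by omega)).trans (hb3 u))
    exact R2_sg _ _ (ha u) h6.1 h6.2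
  have hy' : ∀ i, sg (y i) = Int.sign (w i) ∧ w i ≠ 0 := fun i =>
    R2_sg _ _ (hy i) (hw2 i).1 (hw2 i).2
  refine ⟨B1, w, hw1, fun i => (hy' i).2, fun u => (hr u).2, ?_⟩
  rw [← Finset.sum_congr rfl (fun i _ => (hy' i).1), ← Finset.sum_congr rfl (fun u _ => (hr u).1)]
  exact_mod_cast hc

private theorem V1_tn {k : ℕ} [NeZero k] (n : ℕ) (c : ZMod k) : tn n c = tn (n % k) c := by
  unfold tn
  rw [ZMod.natCast_mod]

private theorem V1_ci {p k : ℕ} [NeZero k] (n : ℕ) (μ : ZMod k → ℤ) :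
    ci p n μ = ci p (n % k) μ := by
  funext t
  unfold ci
  rw [V1_tn]

private theorem V1_rmul {p k : ℕ} [NeZero k] (n : ℕ) (μ w : ZMod k → ℤ) (u : ZMod k) :
    rmul p n μ w u = rmul p (n % k) μ w u := by
  unfold rmul
  refine Finset.sum_congr rfl fun i _ => ?_
  have : cy n (u - i) i = cy (n % k) (u - i) i := by
    unfold cy
    rw [V1_tn n (u - i), V1_tn n i]
  rw [this]

private theorem V1_dval {p k B : ℕ} [NeZero k] (n : ℕ) (μ : ZMod k → ℤ) (c : ℝ)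
    (h : DVal p (n % k) B μ c) : DVal p n B μ c := by
  obtain ⟨w, h1, h2, h3, h4⟩ := h
  refine ⟨w, h1, h2, fun u => by rw [V1_rmul]; exact h3 u, ?_⟩
  have : ∑ u, Int.sign (rmul p n μ w u) = ∑ u, Int.sign (rmul p (n % k) μ w u) :=
    Finset.sum_congr rfl fun u _ => by rw [V1_rmul]
  rw [this]
  exact h4

private theorem V1_sg (x : ℝ) : -1 ≤ sg x ∧ sg x ≤ 1 := by
  unfold sg
  split_ifs <;> constructor <;> norm_num

private theorem V1_rval {k : ℕ} [NeZero k] (a : ZMod k → ℝ) (c : ℤ) (h : RVal a c) :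
    c ≤ 2 * (k : ℤ) := by
  obtain ⟨y, -, -, hc⟩ := h
  have h1 : ∑ i : ZMod k, sg (y i) ≤ ∑ _i : ZMod k, (1 : ℤ) :=
    Finset.sum_le_sum fun i _ => (V1_sg (y i)).2
  have h2 : ∑ _u : ZMod k, (-1 : ℤ) ≤ ∑ u : ZMod k, sg (act a y u) :=
    Finset.sum_le_sum fun u _ => (V1_sg (act a y u)).1
  rw [Finset.sum_const, Finset.card_univ, ZMod.card, nsmul_eq_mul] at h1 h2
  linarith

/-- one bound for all cases -/
private theorem V1_unif (p k B : ℕ) [NeZero k] (hp : p.Prime) : ∃ B' : ℕ, ∀ n : ℕ,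
    ∀ μ : ZMod k → ℤ, (∀ t, |μ t| ≤ (p : ℤ) ^ B) → ∀ c : ℤ, 1 ≤ c → RVal (ci p n μ) c →
    DVal p n B' μ c := by
  classical
  have hk : 0 < k := NeZero.pos k
  have H : ∀ x : ℕ × (ZMod k → ℤ) × ℤ, ∃ B' : ℕ,
      RVal (ci p x.1 x.2.1) x.2.2 → DVal p x.1 B' x.2.1 x.2.2 := by
    intro x
    by_cases h : RVal (ci p x.1 x.2.1) x.2.2
    · obtain ⟨B', hB'⟩ := dval_of_rval hp x.2.1 x.2.2 h
      exact ⟨B', fun _ => hB'⟩
    · exact ⟨0, fun h' => absurd h' h⟩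
  choose g hg using H
  set S : Finset (ℕ × (ZMod k → ℤ) × ℤ) :=
    (Finset.range k) ×ˢ ((Fintype.piFinset fun _ : ZMod k =>
      Finset.Icc (-(p : ℤ) ^ B) ((p : ℤ) ^ B)) ×ˢ (Finset.Icc 1 (2 * (k : ℤ)))) with hS
  refine ⟨∑ x ∈ S, g x, fun n μ hμ c hc1 hc => ?_⟩
  have hc2 := V1_rval _ c hc
  have hx : (n % k, μ, c) ∈ S := by
    rw [hS, Finset.mem_product, Finset.mem_product, Finset.mem_range, Fintype.mem_piFinset,
      Finset.mem_Icc]
    refine ⟨Nat.mod_lt _ hk, fun t => ?_, hc1, hc2⟩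
    rw [Finset.mem_Icc]
    exact abs_le.mp (hμ t)
  have h1 : g (n % k, μ, c) ≤ ∑ x ∈ S, g x :=
    Finset.single_le_sum (f := g) (fun _ _ => Nat.zero_le _) hx
  rw [V1_ci] at hc
  have h2 := hg (n % k, μ, c) hc
  exact V1_dval n μ c (DVal.mono hp.two_le h1 le_rfl h2)

theorem strict_gain (p k h B l : ℕ) [NeZero k] (hp : p.Prime) (hh : 0 < h) (hl : 1 ≤ l) :
    ∃ N1 : ℕ, ∀ n : ℕ, N1 ≤ n → ∀ μ : ZMod k → ℤ, (∀ t, |μ t| ≤ (p : ℤ) ^ B) → ∀ c : ℤ,
    (l : ℤ) * k - k < l * c → RVal (ci p n μ) c → ∀ (d : ℤ) (r : ℕ),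
    NN p n ∣ h * d - (p : ℤ) ^ r * ev p n μ → Gain p n d ((1 / 2 - 1 / (2 * (l : ℝ))) * n) := by
  obtain ⟨B', hB'⟩ := V1_unif p k B hp
  obtain ⟨C, N0, H⟩ := gain_of_dval k h (B + B') hh
  have hk : 0 < k := NeZero.pos k
  have hp1 : (1 : ℤ) ≤ p := by exact_mod_cast hp.one_le
  have hk0 : (0 : ℝ) < k := by exact_mod_cast hk
  have hl0 : (0 : ℝ) < l := by exact_mod_cast (by omega : 0 < l)
  refine ⟨max N0 ⌈2 * (k : ℝ) * l * C⌉₊, fun n hn μ hμ c hc hR d r hd => ?_⟩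
  have hn0 : N0 ≤ n := (le_max_left _ _).trans hn
  have hn1 : 2 * (k : ℝ) * l * C ≤ n := by
    have h1 : ⌈2 * (k : ℝ) * l * C⌉₊ ≤ n := (le_max_right _ _).trans hn
    exact (Nat.le_ceil _).trans (by exact_mod_cast h1)
  have hc1 : 1 ≤ c := by
    by_contra hcon
    have hc0 : c ≤ 0 := by omega
    have hlz : (1 : ℤ) ≤ l := by exact_mod_cast hl
    have hkz : (0 : ℤ) ≤ k := by positivity
    have h1 : (l : ℤ) * c ≤ 0 := mul_nonpos_of_nonneg_of_nonpos (by omega) hc0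
    have h2 : (k : ℤ) ≤ l * k := by nlinarith
    linarith
  have hD := hB' n μ hμ c hc1 hR
  have hD' : DVal p n (B + B') μ c := DVal.mono hp.two_le (by omega) le_rfl hD
  have hG := H p hp.two_le n hn0 μ (fun t => (hμ t).trans (pow_le_pow_right₀ hp1 (by omega)))
    (c : ℝ) (by exact_mod_cast hc1) hD' d r hd
  obtain ⟨a, ha1, ha2⟩ := hG
  refine ⟨a, ha1, le_trans ?_ ha2⟩
  have hc' : (l : ℝ) * k - k + 1 ≤ l * c := by
    have : (l : ℤ) * k - k + 1 ≤ l * c := by omega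
    exact_mod_cast this
  have hnn : (0 : ℝ) ≤ n := by positivity
  have h3 : (1 / 2 - 1 / (2 * (l : ℝ))) * n + C ≤ c * n / (2 * k) := by
    have h4 : ((1 / 2 - 1 / (2 * (l : ℝ))) * n + C) = ((l * k - k) * n + 2 * k * l * C) / (2 * k * l) := by
      field_simp
    have h5 : (c : ℝ) * n / (2 * k) = (l * c * n) / (2 * k * l) := by
      field_simp
    rw [h4, h5]
    apply div_le_div_of_nonneg_right _ (by positivity)
    nlinarith
  linarith

end Pool.Agent.Helper50.FE
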