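import Pool.Agent.Helper50.FE.Defs
import Pool.Agent.Helper21.FD.G2
import Pool.Agent.Helper21.FD.G8

/-!
MP_0aa406_nt, project FE: real directions, basic facts.

(1) `dir_of_val`: `FD.play_real` with `c u i = a (u - i)` (`sg (a (-(i - u))) = g (i - u)`), `b` the least nonzero
`|a t|` (or `1`), `B` the largest, `Λ` large.
(2) `rval_of_val`: `U = univ`.
(3) `rval_lift`: `y (pr m i)`, see `FD.aval_lift` (`act_lift`, `card_fibre`).
(4) `rval_mono`.
-/

set_option autoImplicit false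

namespace Pool.Agent.Helper50.FE

open Finset Pool.Agent.Helper21.FC Pool.Agent.Helper21.FD

private theorem V2_low {m : ℕ} [NeZero m] (a : ZMod m → ℝ) :
    ∃ b : ℝ, 0 < b ∧ ∀ t, a t ≠ 0 → b ≤ |a t| := by
  classical
  by_cases h : ∃ t, a t ≠ 0
  · obtain ⟨t0, ht0⟩ := h
    obtain ⟨s, hs, hmin⟩ := Finset.exists_min_image (univ.filter (fun t => a t ≠ 0))
      (fun t => |a t|) ⟨t0, Finset.mem_filter.2 ⟨mem_univ _, ht0⟩⟩
    exact ⟨|a s|, abs_pos.2 (Finset.mem_filter.1 hs).2,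
      fun t ht => hmin t (Finset.mem_filter.2 ⟨mem_univ _, ht⟩)⟩
  · exact ⟨1, one_pos, fun t ht => absurd ⟨t, ht⟩ h⟩

theorem rval_mono {m : ℕ} [NeZero m] {a : ZMod m → ℝ} {c c' : ℤ} (hc : c' ≤ c) (h : RVal a c) :
    RVal a c' := by
  obtain ⟨y, h1, h2, h3⟩ := h
  exact ⟨y, h1, h2, hc.trans h3⟩

theorem dir_of_val {m : ℕ} [NeZero m] (a : ZMod m → ℝ) (U : Finset (ZMod m)) (F : ℤ)
    (hF : Helper77.KZ.Val (fun t => sg (a (-t))) U F) :
    ∃ w : ZMod m → ℝ, (∀ i, w i ≠ 0) ∧ (∀ u ∈ U, act a w u ≠ 0) ∧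
      (m : ℤ) + F ≤ ∑ i, sg (w i) - ∑ u ∈ U, sg (act a w u) := by
  obtain ⟨F', hFF', hplay⟩ := hF
  obtain ⟨b, hb, hb'⟩ := V2_low a
  obtain ⟨B, hBdef⟩ : ∃ B : ℝ, B = ∑ t, |a t| := ⟨_, rfl⟩
  have hB : ∀ t, |a t| ≤ B := by
    intro t
    rw [hBdef]
    exact Finset.single_le_sum (f := fun t => |a t|) (fun i _ => abs_nonneg _) (mem_univ t)
  obtain ⟨N, hN⟩ := exists_nat_gt ((m : ℝ) * B / b)
  have hΛ : (m : ℝ) * B < b * (((N : ℤ) + 1 : ℤ) : ℝ) := by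
    rw [div_lt_iff₀ hb] at hN
    push_cast
    nlinarith
  obtain ⟨w, hw0, _, hwr, hwv⟩ := play_real (fun t => sg (a (-t))) (fun u i => a (u - i))
    (fun u i => by simp only [neg_sub]) b B hb (fun u i => hB _) (fun u i h => hb' _ h)
    ((N : ℤ) + 1) (by omega) hΛ U F' hplay
  refine ⟨fun i => (w i : ℝ), fun i => Int.cast_ne_zero.2 (hw0 i), fun u hu => hwr u hu, ?_⟩
  have h2 : ∑ i, sg (w i : ℝ) = ∑ i, Int.sign (w i) :=
    Finset.sum_congr rfl fun i _ => sg_int (w i)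
  rw [h2]
  unfold act
  linarith

theorem rval_of_val {m : ℕ} [NeZero m] (a : ZMod m → ℝ) (F : ℤ)
    (hF : Helper77.KZ.Val (fun t => sg (a (-t))) univ F) : RVal a (m + F) := by
  obtain ⟨w, h1, h2, h3⟩ := dir_of_val a univ F hF
  exact ⟨w, h1, fun u => h2 u (mem_univ u), h3⟩

private theorem V2_sum_int {m k : ℕ} [NeZero m] [NeZero k] (h : m ∣ k) (f : ZMod m → ℤ) :
    ∑ c : ZMod k, f (pr m c) = ((k / m : ℕ) : ℤ) * ∑ t : ZMod m, f t := by
  rw [← Finset.sum_fiberwise_of_maps_to (g := fun c : ZMod k => pr m c)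
    (fun c _ => mem_univ (pr m c)) (fun c => f (pr m c)), Finset.mul_sum]
  refine Finset.sum_congr rfl (fun t _ => ?_)
  rw [Finset.sum_congr rfl (g := fun _ => f t)
    (fun c hc => by rw [(mem_filter.1 hc).2]), Finset.sum_const, card_fibre h t, nsmul_eq_mul]

theorem rval_lift {m k : ℕ} [NeZero m] [NeZero k] (h : m ∣ k) (a : ZMod k → ℝ) (c : ℤ)
    (ha : RVal (qt m a) c) : RVal a (((k / m : ℕ) : ℤ) * c) := by
  obtain ⟨y, h2, h3, h4⟩ := ha
  refine ⟨fun i => y (pr m i), fun i => h2 _, fun u => ?_, ?_⟩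
  · rw [act_lift h]
    exact h3 _
  · have e1 : (∑ i : ZMod k, sg (y (pr m i))) = ((k / m : ℕ) : ℤ) * ∑ t : ZMod m, sg (y t) :=
      V2_sum_int h (fun t => sg (y t))
    have e2 : (∑ u : ZMod k, sg (act a (fun i => y (pr m i)) u)) =
        ((k / m : ℕ) : ℤ) * ∑ t : ZMod m, sg (act (qt m a) y t) := by
      rw [Finset.sum_congr rfl (fun u _ => by rw [act_lift h])]
      exact V2_sum_int h (fun t => sg (act (qt m a) y t))
    rw [e1, e2, ← mul_sub]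
    exact mul_le_mul_of_nonneg_left h4 (Int.natCast_nonneg _)

end Pool.Agent.Helper50.FE
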