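import Pool.Agent.Helper50.FE.Defs
import Pool.Agent.Helper21.FD.G4

/-!
MP_0aa406_nt, project FE: two positive entries.

`a t0, a t1 > 0`, the other entries are `0`, `s = t1 - t0` generates `ZMod m`, `m` odd.  Row `u = i + t1`:
`a t0 y (i + s) + a t1 y i` (`FD.G4_act`).  Number `ZMod m` as `0, s, 2 s, ..`: `i = j s`, `j < m`; put `y = 1` for `j` even, `y = - Λ` for
`j` odd, `Λ` large.  Coordinates: `(m + 1) / 2 - (m - 1) / 2 = 1`. Rows: all rows contain a negative coordinate except the one of
`j = m - 1`, `j + 1 = 0`: `-(m - 1) + 1`.  Value `1 + m - 2 = m - 1`.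
-/

set_option autoImplicit false

namespace Pool.Agent.Helper50.FE

open Finset Pool.Agent.Helper21.FC Pool.Agent.Helper21.FD

theorem rval_pair {m : ℕ} [NeZero m] (hodd : Odd m) (a : ZMod m → ℝ) (t0 t1 : ZMod m)
    (hs : addOrderOf (t1 - t0) = m) (h0 : 0 < a t0) (h1 : 0 < a t1)
    (hz : ∀ t, t ≠ t0 → t ≠ t1 → a t = 0) : RVal a ((m : ℤ) - 1) := by
  by_cases hne : t0 = t1
  · -- the group is trivial
    have hm1 : m = 1 := by
      rw [← hs, hne, sub_self, addOrderOf_zero]
    subst hm1
    have hact : ∀ u, act a (fun _ => (1 : ℝ)) u = a t0 := by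
      intro u
      unfold act
      rw [Fintype.sum_eq_single (0 : ZMod 1) (fun x hx => absurd (Subsingleton.elim x 0) hx), mul_one]
      congr 1
      exact Subsingleton.elim _ _
    refine ⟨fun _ => 1, fun _ => one_ne_zero, fun u => ?_, ?_⟩
    · rw [hact]; exact h0.ne'
    · simp only [hact, G4_sg_pos h0, G4_sg_pos one_pos]
      simp
  · obtain ⟨L, hL1, hLa, hLb⟩ : ∃ L : ℝ, 1 ≤ L ∧ a t1 < L * a t0 ∧ a t0 < L * a t1 := by
      refine ⟨1 + a t1 / a t0 + a t0 / a t1, ?_, ?_, ?_⟩
      · have e1 : 0 ≤ a t1 / a t0 := (div_pos h1 h0).le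
        have e2 : 0 ≤ a t0 / a t1 := (div_pos h0 h1).le
        linarith
      · have e2 : 0 < a t0 / a t1 := div_pos h0 h1
        have e3 : a t1 / a t0 * a t0 = a t1 := div_mul_cancel₀ _ h0.ne'
        have e4 : 0 < a t0 / a t1 * a t0 := mul_pos e2 h0
        nlinarith
      · have e1 : 0 < a t1 / a t0 := div_pos h1 h0
        have e3 : a t0 / a t1 * a t1 = a t0 := div_mul_cancel₀ _ h1.ne'
        have e4 : 0 < a t1 / a t0 * a t1 := mul_pos e1 h1
        nlinarith
    set s := t1 - t0 with hsdef
    obtain ⟨J, hJ1, hJ2, hJ3, hJ4⟩ := chain_coord s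
    rw [hs] at hJ1 hJ2 hJ3 hJ4
    have hmpos : 0 < m := Nat.pos_of_ne_zero (NeZero.ne m)
    let y : ZMod m → ℝ := fun i => if Odd (J i) then -L else 1
    have hyo : ∀ i, Odd (J i) → y i = -L := fun i h => if_pos h
    have hye : ∀ i, ¬ Odd (J i) → y i = 1 := fun i h => if_neg h
    have hrow : ∀ i, act a y (i + t1) = a t0 * y (i + s) + a t1 * y i :=
      fun i => G4_act a y t0 t1 hne hz i
    -- the sign of the rows
    have hpos : ∀ i, J i + 1 = m → 0 < act a y (i + t1) ∧ y i = 1 ∧ y (i + s) = 1 := by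
      intro i hi
      have e1 : ¬ Odd (J i) := by
        intro h
        have h2 : Even m := by rw [← hi]; exact h.add_one
        exact (Nat.not_even_iff_odd.2 hodd) h2
      have e2 : ¬ Odd (J (i + s)) := by rw [hJ3 i hi]; decide
      refine ⟨?_, hye i e1, hye _ e2⟩
      rw [hrow, hye i e1, hye _ e2]
      linarith
    have hneg : ∀ i, J i + 1 ≠ m → act a y (i + t1) < 0 ∧
        ((y i = 1 ∧ y (i + s) = -L) ∨ (y i = -L ∧ y (i + s) = 1)) := by
      intro i hi
      have hlt : J i + 1 < m := lt_of_le_of_ne (hJ1 i) hi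
      have e := hJ2 i hlt
      by_cases h : Odd (J i)
      · have e2 : ¬ Odd (J (i + s)) := by
          rw [e, Nat.not_odd_iff_even]; exact h.add_one
        refine ⟨?_, Or.inr ⟨hyo i h, hye _ e2⟩⟩
        rw [hrow, hyo i h, hye _ e2]
        linarith
      · have e2 : Odd (J (i + s)) := by
          rw [e]
          rw [Nat.not_odd_iff_even] at h
          exact h.add_one
        refine ⟨?_, Or.inl ⟨hye i h, hyo _ e2⟩⟩
        rw [hrow, hye i h, hyo _ e2]
        linarith
    set S := univ.filter (fun i => J i + 1 = m) with hS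
    have hScard : S.card = 1 := by
      have h2 := hJ4 (m - 1) (by omega)
      have e : S = univ.filter (fun i => J i = m - 1) := by
        rw [hS]
        refine Finset.filter_congr (fun i _ => ?_)
        omega
      rw [← e] at h2
      exact Nat.eq_of_mul_eq_mul_right hmpos (by rw [h2, one_mul])
    have hsy : ∑ i, sg (y i) = 1 := by
      have e1 : ∑ i, sg (y (i + s)) = ∑ i, sg (y i) :=
        Equiv.sum_comp (Equiv.addRight s) (fun i => sg (y i))
      have e2 : ∑ i, (sg (y i) + sg (y (i + s))) =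
          ∑ i, (if J i + 1 = m then (2 : ℤ) else 0) := by
        refine Finset.sum_congr rfl (fun i _ => ?_)
        by_cases h : J i + 1 = m
        · obtain ⟨_, h2, h3⟩ := hpos i h
          rw [if_pos h, h2, h3, G4_sg_pos one_pos]
          norm_num
        · rw [if_neg h]
          obtain ⟨_, ⟨h2, h3⟩ | ⟨h2, h3⟩⟩ := hneg i h
          · rw [h2, h3, G4_sg_pos one_pos, G4_sg_neg (by linarith)]
            norm_num
          · rw [h2, h3, G4_sg_pos one_pos, G4_sg_neg (by linarith)]
            norm_num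
      rw [Finset.sum_add_distrib, e1, ← Finset.sum_filter, Finset.sum_const, nsmul_eq_mul] at e2
      rw [← hS, hScard] at e2
      push_cast at e2
      omega
    have hsr : ∑ u, sg (act a y u) = 2 - m := by
      rw [← Equiv.sum_comp (Equiv.addRight t1) (fun u => sg (act a y u))]
      have e2 : ∑ i, sg (act a y (Equiv.addRight t1 i)) =
          ∑ i, (if J i + 1 = m then (2 : ℤ) else 0) - ∑ _i : ZMod m, (1 : ℤ) := by
        rw [← Finset.sum_sub_distrib]
        refine Finset.sum_congr rfl (fun i _ => ?_)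
        show sg (act a y (i + t1)) = _
        by_cases h : J i + 1 = m
        · rw [if_pos h, G4_sg_pos (hpos i h).1]
          norm_num
        · rw [if_neg h, G4_sg_neg (hneg i h).1]
          norm_num
      rw [e2, ← Finset.sum_filter, Finset.sum_const, Finset.sum_const, Finset.card_univ,
        ZMod.card, ← hS, hScard]
      simp
    refine ⟨y, fun i => ?_, fun u => ?_, ?_⟩
    · by_cases h : Odd (J i)
      · rw [hyo i h]; linarith
      · rw [hye i h]; exact one_ne_zero
    · have e : u = (u - t1) + t1 := by abel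
      rw [e]
      by_cases h : J (u - t1) + 1 = m
      · exact (hpos _ h).1.ne'
      · exact (hneg _ h).1.ne
    · rw [hsy, hsr]
      omega

end Pool.Agent.Helper50.FE
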