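import Pool.Agent.Helper50.FE.C5
import Pool.Agent.Helper50.FE.G2
import Pool.Agent.Helper50.FE.V1
import Pool.Agent.Helper50.FE.V2
import Pool.Agent.Helper50.FE.V4

/-!
MP_0aa406_nt, project FE: the sign pattern game and real directions (helper50).
-/

set_option autoImplicit false

namespace Pool.Agent.Helper50.FE

open Finset Pool.Agent.Helper21.FC Pool.Agent.Helper21.FD

theorem E1_isSign {m : ℕ} (f : ZMod m → ℝ) : Helper77.KZ.IsSign (fun t => sg (f t)) := by
  intro i
  dsimp only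
  unfold sg
  split_ifs
  · exact Or.inr (Or.inl rfl)
  · exact Or.inr (Or.inr rfl)
  · exact Or.inl rfl

theorem E1_sg_zero {x : ℝ} : sg x = 0 ↔ x = 0 := by
  unfold sg
  constructor
  · intro h
    by_contra hx
    rcases lt_or_gt_of_ne hx with h1 | h1
    · rw [if_neg (not_lt.2 h1.le), if_pos h1] at h
      omega
    · rw [if_pos h1] at h
      omega
  · rintro rfl
    simp

theorem E1_sg_neg {x : ℝ} : sg x = -1 ↔ x < 0 := by
  unfold sg
  constructor
  · intro h
    by_contra hx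
    rcases lt_or_eq_of_le (not_lt.1 hx) with h1 | h1
    · rw [if_pos h1] at h
      omega
    · rw [← h1] at h
      simp at h
  · intro h1
    rw [if_neg (not_lt.2 h1.le), if_pos h1]

theorem E1_sum {m : ℕ} [NeZero m] (a : ZMod m → ℝ) :
    ∑ t, sg (a (-t)) = ∑ t, sg (a t) :=
  Fintype.sum_equiv (Equiv.neg (ZMod m)) _ _ (fun _ => rfl)

theorem E1_gen {m : ℕ} [NeZero m] (a : ZMod m → ℝ) (h : Gen (fun c => a c ≠ 0)) :
    Gen (fun t => sg (a (-t)) ≠ 0) := by
  intro q hq hqm
  obtain ⟨c, c', hc, hc', hne⟩ := h q hq hqm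
  have : NeZero q := ⟨hq.ne_zero⟩
  refine ⟨-c, -c', ?_, ?_, ?_⟩
  · dsimp only
    rw [neg_neg]
    exact fun h0 => hc (E1_sg_zero.1 h0)
  · dsimp only
    rw [neg_neg]
    exact fun h0 => hc' (E1_sg_zero.1 h0)
  · intro h0
    apply hne
    have h1 := pr_sub hqm (-c) (-c')
    have h2 := pr_sub hqm c' c
    rw [h0, sub_self, show -c - -c' = c' - c by ring, h2] at h1
    exact (sub_eq_zero.1 h1).symm

/-- at most two entries, none negative -/
theorem E1_pair {m : ℕ} [NeZero m] (a : ZMod m → ℝ) (t0 t1 : ZMod m) (hne : t0 ≠ t1)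
    (h0 : a t0 ≠ 0) (h1 : a t1 ≠ 0)
    (hno : ¬ ((∃ i, sg (a (-i)) = -1) ∨
      3 ≤ (univ.filter (fun i => sg (a (-i)) ≠ 0)).card)) :
    0 < a t0 ∧ 0 < a t1 ∧ ∀ t, t ≠ t0 → t ≠ t1 → a t = 0 := by
  classical
  push Not at hno
  obtain ⟨hn, hc⟩ := hno
  have hpos : ∀ t, a t ≠ 0 → 0 < a t := by
    intro t ht
    rcases lt_or_gt_of_ne ht with h2 | h2
    · exfalso
      apply hn (-t)
      rw [neg_neg]
      exact E1_sg_neg.2 h2
    · exact h2
  refine ⟨hpos t0 h0, hpos t1 h1, fun t ht0 ht1 => ?_⟩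
  by_contra ht
  have h3 : ({-t0, -t1, -t} : Finset (ZMod m)) ⊆ univ.filter (fun i => sg (a (-i)) ≠ 0) := by
    intro x hx
    rw [mem_insert, mem_insert, mem_singleton] at hx
    rw [mem_filter]
    refine ⟨mem_univ _, fun h4 => ?_⟩
    rw [E1_sg_zero] at h4
    rcases hx with rfl | rfl | rfl
    · rw [neg_neg] at h4; exact h0 h4
    · rw [neg_neg] at h4; exact h1 h4
    · rw [neg_neg] at h4; exact ht h4
  have h4 : ({-t0, -t1, -t} : Finset (ZMod m)).card = 3 := by
    rw [card_insert_of_notMem, card_insert_of_notMem, card_singleton]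
    · rw [mem_singleton]
      exact fun h5 => ht1 (neg_injective h5).symm
    · rw [mem_insert, mem_singleton]
      rintro (h5 | h5)
      · exact hne (neg_injective h5)
      · exact ht0 (neg_injective h5).symm
  have h5 := card_le_card h3
  omega

/-- `ZMod l`, `l` an odd prime: three cases -/
theorem trich {l : ℕ} [NeZero l] (hl : l.Prime) (hl2 : l ≠ 2) (A : ZMod l → ℝ)
    (h2 : ∃ t t', t ≠ t' ∧ A t ≠ 0 ∧ A t' ≠ 0) :
    RVal A l ∨ ∑ t, sg (A t) = 1 ∨
      ∃ t0 t1, t0 ≠ t1 ∧ 0 < A t0 ∧ 0 < A t1 ∧ ∀ t, t ≠ t0 → t ≠ t1 → A t = 0 := by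
  classical
  by_cases he : ∑ t, sg (A t) = 1
  · exact Or.inr (Or.inl he)
  obtain ⟨t0, t1, hne, h0, h1⟩ := h2
  by_cases hno : (∃ i, sg (A (-i)) = -1) ∨
      3 ≤ (univ.filter (fun i => sg (A (-i)) ≠ 0)).card
  · left
    have hgen : Gen (fun t => sg (A (-t)) ≠ 0) := by
      apply E1_gen
      intro q hq hql
      rw [Nat.prime_dvd_prime_iff_eq hq hl] at hql
      subst hql
      refine ⟨t0, t1, h0, h1, ?_⟩
      unfold pr
      rw [ZMod.natCast_zmod_val, ZMod.natCast_zmod_val]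
      exact hne
    obtain ⟨q, hq1, hq2⟩ := game_sq (hl.odd_of_ne_two hl2) hl.one_lt.ne' (E1_isSign _) hgen hno
      (Or.inl (by rw [E1_sum]; exact he))
    rw [hl.minFac_eq] at hq2
    have hq0 : q = 0 := by
      rcases Nat.eq_zero_or_pos q with h3 | h3
      · exact h3
      · exfalso
        have : l + 1 ≤ (l + 1) * q := Nat.le_mul_of_pos_right _ h3
        omega
    subst hq0
    have h3 := rval_of_val A (-((0 : ℕ) : ℤ)) hq1
    simpa using h3
  · right
    right
    obtain ⟨h3, h4, h5⟩ := E1_pair A t0 t1 hne h0 h1 hno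
    exact ⟨t0, t1, hne, h3, h4, h5⟩

/-- `ZMod (l * l)` -/
theorem strict_sq {k l : ℕ} [NeZero k] (hl : l.Prime) (hl2 : l ≠ 2) (hk : k = l * l)
    (a : ZMod k → ℝ) (hgen : Gen (fun c => a c ≠ 0)) :
    ∃ c : ℤ, (l : ℤ) * k - k < l * c ∧ RVal a c := by
  classical
  have : NeZero l := ⟨hl.ne_zero⟩
  have hl1 := hl.two_le
  have hoddl : Odd l := hl.odd_of_ne_two hl2
  have hodd : Odd k := by rw [hk]; exact hoddl.mul hoddl
  have hlk : l ∣ k := ⟨l, hk⟩
  have hlltk : l < k := by
    rw [hk]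
    nlinarith
  have hmin : k.minFac = l := by
    have h1 : k.minFac ∣ l * l := by
      rw [← hk]
      exact Nat.minFac_dvd k
    have h2 : (k.minFac).Prime := Nat.minFac_prime (by omega)
    have h3 : k.minFac ∣ l := by
      rcases (h2.dvd_mul).1 h1 with h4 | h4 <;> exact h4
    exact (Nat.prime_dvd_prime_iff_eq h2 hl).1 h3
  by_cases hno : (∃ i, sg (a (-i)) = -1) ∨
      3 ≤ (univ.filter (fun i => sg (a (-i)) ≠ 0)).card
  · obtain ⟨q, hq1, hq2⟩ := game_sq hodd (by omega) (E1_isSign _) (E1_gen a hgen) hno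
      (Or.inr (by rw [hmin]; exact hlltk))
    rw [hmin] at hq2
    refine ⟨(k : ℤ) + -(q : ℤ), ?_, rval_of_val a _ hq1⟩
    have hql : q < l := by
      by_contra h3
      push Not at h3
      have h4 : (l + 1) * l ≤ (l + 1) * q := Nat.mul_le_mul_left _ h3
      have h5 : (l + 1) * l = l * l + l := by ring
      omega
    have h6 : (l : ℤ) * q < k := by
      have h7 : l * q < l * l := Nat.mul_lt_mul_of_pos_left hql (by omega)
      rw [← hk] at h7
      exact_mod_cast h7
    linarith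
  · obtain ⟨t0, t1, h0, h1, hpr⟩ := hgen l hl hlk
    have hne : t0 ≠ t1 := by
      rintro rfl
      exact hpr rfl
    obtain ⟨h3, h4, h5⟩ := E1_pair a t0 t1 hne h0 h1 hno
    have hord : addOrderOf (t1 - t0) = k := by
      have h6 : addOrderOf (t1 - t0) ∣ l ^ 2 := by
        rw [pow_two, ← hk]
        have := addOrderOf_dvd_card (x := t1 - t0)
        rwa [ZMod.card] at this
      obtain ⟨i, hi, h7⟩ := (Nat.dvd_prime_pow hl).1 h6
      by_contra hne2
      have hi1 : i ≤ 1 := by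
        by_contra h8
        have h9 : i = 2 := by omega
        rw [h9, pow_two, ← hk] at h7
        exact hne2 h7
      have h8 : addOrderOf (t1 - t0) ∣ l := by
        rw [h7]
        interval_cases i
        · simp
        · simp
      have h9 : (l : ℕ) • (t1 - t0) = 0 := addOrderOf_dvd_iff_nsmul_eq_zero.1 h8
      apply hpr
      have h10 : pr l (t1 - t0) = 0 := by
        have h11 : ((l * (t1 - t0).val : ℕ) : ZMod k) = 0 := by
          push_cast
          rw [ZMod.natCast_zmod_val, ← nsmul_eq_mul]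
          exact h9
        rw [ZMod.natCast_eq_zero_iff] at h11
        have hkk : l * l ∣ k := ⟨1, by rw [mul_one]; exact hk⟩
        have h12 : l ∣ (t1 - t0).val := Nat.dvd_of_mul_dvd_mul_left hl.pos (hkk.trans h11)
        unfold pr
        rw [ZMod.natCast_eq_zero_iff]
        exact h12
      rw [pr_sub hlk] at h10
      exact (sub_eq_zero.1 h10).symm
    refine ⟨(k : ℤ) - 1, ?_, rval_pair hodd a t0 t1 hord h3 h4 h5⟩
    have : (l : ℤ) < k := by exact_mod_cast hlltk
    linarith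

end Pool.Agent.Helper50.FE
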