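import Pool.Agent.Helper50.FE.V2
import Pool.Agent.Helper21.FD.G9
import Pool.Agent.Helper21.FD.G6

/-!
MP_0aa406_nt, project FE: mixture.

`A = qt l a`, `A (pr l c) ≠ 0` whenever `a c ≠ 0`; `w` is a direction for the rows `u` with `A u = 0`.  Direction on `ZMod k`:
  `y i = w (pr l i) + Λ s2 v i [pr l i = 0] + Λ ^ 2 s1 [i = 0]`,   `s1, s2 = 1 or -1`, `v` generic (`FD.generic`), `Λ` large.
Rows `u`: (1) `a u ≠ 0`: sign `s1 sg (a u)`. (2) `a u = 0`, `A (pr l u) ≠ 0`: some `a c ≠ 0` with `pr l c = pr l u`, so the row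
`R u = ∑_{pr l i = 0} a (u - i) v i` is not the zero functional (in the coordinates `i ≠ 0`), generic: `R u ≠ 0`; sign `s2 sg (R u)`.
(3) `A (pr l u) = 0`: `a (u - i) = 0` whenever `pr l i = 0` (contrapositive of `hsup`), so the row is `act A w (pr l u)` (`act_lift`).
Coordinates: `i = 0`: `s1`; `pr l i = 0`, `i ≠ 0`: `s2 sg (v i)` (`v i ≠ 0`); `pr l i ≠ 0`: `sg (w (pr l i))`.
Value `= s1 (1 - e) + s2 (V - ∑_(2) sg (R u)) + (k / l) (∑_{j ≠ 0} sg (w j) - ∑_{A u = 0} sg (act A w u))`, `e = ∑ sg (a c) ≠ 1`; choose `s1, s2`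
such that the first two terms are `|1 - e| ≥ 1` and `≥ 0`; the bracket is `≥ l - sg (w 0) ≥ l - 1` (`card_fibre`: fibres have `k / l` elements).
-/

set_option autoImplicit false

namespace Pool.Agent.Helper50.FE

open Finset Pool.Agent.Helper21.FC Pool.Agent.Helper21.FD

private theorem V5_zero : sg (0 : ℝ) = 0 := by
  unfold sg
  rw [if_neg (lt_irrefl _), if_neg (lt_irrefl _)]

private theorem V5_add {x y : ℝ} (h : |x| < |y|) : sg (x + y) = sg y := by
  rcases lt_trichotomy y 0 with hy | hy | hy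
  · rw [abs_of_neg hy] at h
    have := (abs_lt.1 h).2
    rw [G6_sg_neg hy, G6_sg_neg (by linarith)]
  · rw [hy, abs_zero] at h
    exact absurd h (not_lt.2 (abs_nonneg x))
  · rw [abs_of_pos hy] at h
    have := (abs_lt.1 h).1
    rw [G6_sg_pos hy, G6_sg_pos (by linarith)]

private theorem V5_mul {t y : ℝ} (ht : 0 < t) : sg (t * y) = sg y := by
  rcases lt_trichotomy y 0 with hy | hy | hy
  · rw [G6_sg_neg hy, G6_sg_neg (mul_neg_of_pos_of_neg ht hy)]
  · rw [hy, mul_zero]
  · rw [G6_sg_pos hy, G6_sg_pos (mul_pos ht hy)]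

private theorem V5_sgn {s : ℤ} (hs : s = 1 ∨ s = -1) (x : ℝ) : sg ((s : ℝ) * x) = s * sg x := by
  rcases hs with rfl | rfl
  · simp
  · rcases lt_trichotomy x 0 with hx | hx | hx
    · rw [G6_sg_neg hx, G6_sg_pos (by push_cast; linarith)]
      norm_num
    · rw [hx, mul_zero, V5_zero, mul_zero]
    · rw [G6_sg_pos hx, G6_sg_neg (by push_cast; linarith)]
      norm_num

private theorem V5_ev (A B C : ℝ) : ∀ᶠ t : ℝ in Filter.atTop,
    sg (A + t * B + t ^ 2 * C) = if C ≠ 0 then sg C else if B ≠ 0 then sg B else sg A := by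
  by_cases hC : C ≠ 0
  · rw [if_pos hC]
    filter_upwards [Filter.eventually_gt_atTop ((|A| + |B|) / |C|),
      Filter.eventually_ge_atTop (1 : ℝ)] with t h1 h2
    have hC' : 0 < |C| := abs_pos.2 hC
    rw [div_lt_iff₀ hC'] at h1
    have ht : 0 < t := by linarith
    have h3 : |A + t * B| < |t ^ 2 * C| := by
      rw [abs_mul, abs_of_pos (by positivity : (0 : ℝ) < t ^ 2)]
      calc |A + t * B| ≤ |A| + |t * B| := abs_add_le _ _
        _ = |A| + t * |B| := by rw [abs_mul, abs_of_pos ht]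
        _ ≤ t * (|A| + |B|) := by nlinarith [abs_nonneg A, abs_nonneg B]
        _ < t * (t * |C|) := mul_lt_mul_of_pos_left h1 ht
        _ = t ^ 2 * |C| := by ring
    rw [V5_add h3, V5_mul (by positivity)]
  · rw [if_neg hC]
    rw [not_not] at hC
    by_cases hB : B ≠ 0
    · rw [if_pos hB]
      filter_upwards [Filter.eventually_gt_atTop (|A| / |B|),
        Filter.eventually_ge_atTop (1 : ℝ)] with t h1 h2
      have hB' : 0 < |B| := abs_pos.2 hB
      rw [div_lt_iff₀ hB'] at h1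
      have ht : 0 < t := by linarith
      have h3 : |A| < |t * B| := by
        rw [abs_mul, abs_of_pos ht]
        exact h1
      rw [hC, mul_zero, add_zero, V5_add h3, V5_mul ht]
    · rw [if_neg hB]
      rw [not_not] at hB
      refine Filter.Eventually.of_forall (fun t => ?_)
      rw [hC, hB, mul_zero, mul_zero, add_zero, add_zero]

private theorem V5_fib {l k : ℕ} [NeZero l] [NeZero k] (hlk : l ∣ k) (g : ZMod l → ℤ) :
    ∑ i : ZMod k, g (pr l i) = ((k / l : ℕ) : ℤ) * ∑ j, g j := by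
  have h1 : ∑ i : ZMod k, g (pr l i) =
      ∑ j : ZMod l, ∑ i ∈ univ.filter (fun c : ZMod k => pr l c = j), g (pr l i) :=
    (Finset.sum_fiberwise _ _ _).symm
  rw [h1, Finset.mul_sum]
  refine Finset.sum_congr rfl (fun j _ => ?_)
  rw [Finset.sum_congr rfl (g := fun _ => g j) (fun i hi => by
    rw [(Finset.mem_filter.1 hi).2])]
  rw [Finset.sum_const, card_fibre hlk, nsmul_eq_mul]

theorem rval_mix {l k : ℕ} [NeZero l] [NeZero k] (hlk : l ∣ k) (a : ZMod k → ℝ)
    (hsup : ∀ c, a c ≠ 0 → qt l a (pr l c) ≠ 0) (he : ∑ c, sg (a c) ≠ 1) (w : ZMod l → ℝ)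
    (hw : ∀ i, w i ≠ 0) (hrow : ∀ u, qt l a u = 0 → act (qt l a) w u ≠ 0)
    (hval : (l : ℤ) ≤ ∑ i, sg (w i) -
      ∑ u ∈ univ.filter (fun u => qt l a u = 0), sg (act (qt l a) w u)) :
    RVal a (((k / l : ℕ) : ℤ) * (l - 1) + 1) := by
  classical
  set A := qt l a with hA
  -- generic point
  obtain ⟨s, hs1, -, hs⟩ := generic (F := {u : ZMod k // A (pr l u) ≠ 0})
    (fun f i => if pr l i = 0 then a (f.1 - i) else 0) (by
      intro f
      have h1 : ∃ c ∈ univ.filter (fun c : ZMod k => pr l c = pr l f.1), a c ≠ 0 :=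
        Finset.exists_ne_zero_of_sum_ne_zero f.2
      obtain ⟨c, hc, hc0⟩ := h1
      refine ⟨f.1 - c, ?_⟩
      have h2 : pr l (f.1 - c) = 0 := by
        rw [pr_sub hlk, (Finset.mem_filter.1 hc).2, sub_self]
      rw [if_pos h2, sub_sub_cancel]
      exact hc0)
  have hspos : (0 : ℝ) < s := by exact_mod_cast hs1
  let v : ZMod k → ℝ := fun i => (s : ℝ) ^ i.val
  have hv : ∀ i, 0 < v i := fun i => pow_pos hspos _
  let R : ZMod k → ℝ := fun u => ∑ i : ZMod k, (if pr l i = 0 then a (u - i) else 0) * v i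
  have hR : ∀ u, A (pr l u) ≠ 0 → R u ≠ 0 := fun u hu => hs ⟨u, hu⟩
  have hpr0 : pr l (0 : ZMod k) = 0 := by
    unfold pr
    rw [ZMod.val_zero, Nat.cast_zero]
  have hR0 : ∀ u, A (pr l u) = 0 → R u = 0 := by
    intro u hu
    refine Finset.sum_eq_zero (fun i _ => ?_)
    by_cases hi : pr l i = 0
    · have h1 : a (u - i) = 0 := by
        by_contra h2
        apply hsup _ h2
        rw [pr_sub hlk, hi, sub_zero]
        exact hu
      rw [if_pos hi, h1, zero_mul]
    · rw [if_neg hi, zero_mul]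
  have ha0 : ∀ u, A (pr l u) = 0 → a u = 0 := by
    intro u hu
    by_contra h2
    exact hsup u h2 hu
  -- integers
  let q : ℤ := ((k / l : ℕ) : ℤ)
  let e : ℤ := ∑ c, sg (a c)
  let ρ : ℤ := ∑ u, if a u = 0 ∧ A (pr l u) ≠ 0 then sg (R u) else 0
  obtain ⟨s1, hs1', hs1v⟩ : ∃ s1 : ℤ, (s1 = 1 ∨ s1 = -1) ∧ 1 ≤ s1 * (1 - e) := by
    rcases lt_or_gt_of_ne he with h | h
    · exact ⟨1, Or.inl rfl, by
        have : e < 1 := h
        omega⟩
    · exact ⟨-1, Or.inr rfl, by
        have : 1 < e := h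
        omega⟩
  obtain ⟨s2, hs2', hs2v⟩ : ∃ s2 : ℤ, (s2 = 1 ∨ s2 = -1) ∧ 0 ≤ s2 * ((q - 1) - ρ) := by
    rcases le_total 0 ((q - 1) - ρ) with h | h
    · exact ⟨1, Or.inl rfl, by omega⟩
    · exact ⟨-1, Or.inr rfl, by omega⟩
  have hs10 : (s1 : ℝ) ≠ 0 := by
    rcases hs1' with h | h <;> rw [h] <;> norm_num
  have hs20 : (s2 : ℝ) ≠ 0 := by
    rcases hs2' with h | h <;> rw [h] <;> norm_num
  let y : ℝ → ZMod k → ℝ := fun t i =>
    w (pr l i) + t * (if pr l i = 0 then (s2 : ℝ) * v i else 0) +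
      t ^ 2 * (if i = 0 then (s1 : ℝ) else 0)
  have hact : ∀ t u, act a (y t) u =
      act A w (pr l u) + t * ((s2 : ℝ) * R u) + t ^ 2 * ((s1 : ℝ) * a u) := by
    intro t u
    rw [← act_lift hlk a w u]
    unfold act
    have h3 : (s1 : ℝ) * a u = ∑ i : ZMod k, a (u - i) * (if i = 0 then (s1 : ℝ) else 0) := by
      rw [Finset.sum_eq_single (0 : ZMod k)]
      · rw [if_pos rfl, sub_zero, mul_comm]
      · intro i _ hi
        rw [if_neg hi, mul_zero]
      · intro h
        exact absurd (Finset.mem_univ _) h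
    rw [h3]
    simp only [R]
    rw [Finset.mul_sum, Finset.mul_sum, Finset.mul_sum, ← Finset.sum_add_distrib,
      ← Finset.sum_add_distrib]
    refine Finset.sum_congr rfl (fun i _ => ?_)
    simp only [y]
    by_cases hi : pr l i = 0
    · rw [if_pos hi, if_pos hi]
      ring
    · rw [if_neg hi, if_neg hi]
      ring
  have hev1 : ∀ᶠ t : ℝ in Filter.atTop, ∀ i, sg (y t i) =
      if (if i = 0 then (s1 : ℝ) else 0) ≠ 0 then sg (if i = 0 then (s1 : ℝ) else 0)
      else if (if pr l i = 0 then (s2 : ℝ) * v i else 0) ≠ 0 then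
        sg (if pr l i = 0 then (s2 : ℝ) * v i else 0) else sg (w (pr l i)) :=
    Filter.eventually_all.2 (fun i => V5_ev _ _ _)
  have hev2 : ∀ᶠ t : ℝ in Filter.atTop, ∀ u, sg (act a (y t) u) =
      if (s1 : ℝ) * a u ≠ 0 then sg ((s1 : ℝ) * a u)
      else if (s2 : ℝ) * R u ≠ 0 then sg ((s2 : ℝ) * R u) else sg (act A w (pr l u)) := by
    refine Filter.eventually_all.2 (fun u => ?_)
    filter_upwards [V5_ev (act A w (pr l u)) ((s2 : ℝ) * R u) ((s1 : ℝ) * a u)] with t ht
    rw [hact]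
    exact ht
  obtain ⟨t, ht1, ht2⟩ := (hev1.and hev2).exists
  have hc : ∀ i, sg (y t i) = (if i = 0 then s1 else 0) +
      ((if pr l i = 0 then s2 else 0) - (if i = 0 then s2 else 0)) +
      (if pr l i = 0 then 0 else sg (w (pr l i))) := by
    intro i
    rw [ht1 i]
    by_cases hi : i = 0
    · have h1 : pr l i = 0 := by rw [hi]; exact hpr0
      rw [if_pos hi, if_pos hs10, if_pos h1, if_pos hi, if_pos hi, if_pos h1]
      have := V5_sgn hs1' 1
      rw [mul_one, G6_sg_pos one_pos, mul_one] at this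
      rw [this]
      ring
    · rw [if_neg hi, if_neg (not_not.2 rfl), if_neg hi, if_neg hi]
      by_cases h1 : pr l i = 0
      · rw [if_pos h1, if_pos (mul_ne_zero hs20 (hv i).ne'), if_pos h1, if_pos h1, V5_sgn hs2',
          G6_sg_pos (hv i)]
        ring
      · rw [if_neg h1, if_neg (not_not.2 rfl), if_neg h1, if_neg h1]
        ring
  have hr : ∀ u, sg (act a (y t) u) = s1 * sg (a u) +
      s2 * (if a u = 0 ∧ A (pr l u) ≠ 0 then sg (R u) else 0) +
      (if A (pr l u) = 0 then sg (act A w (pr l u)) else 0) := by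
    intro u
    rw [ht2 u]
    by_cases hu : A (pr l u) = 0
    · have h1 := ha0 u hu
      have h2 := hR0 u hu
      rw [h1, h2, mul_zero, mul_zero, if_neg (not_not.2 rfl), if_neg (not_not.2 rfl), V5_zero,
        if_neg (fun h => h.2 hu), if_pos hu]
      ring
    · by_cases h1 : a u = 0
      · rw [h1, mul_zero, if_neg (not_not.2 rfl), if_pos (mul_ne_zero hs20 (hR u hu)),
          V5_sgn hs2', V5_zero, if_pos ⟨rfl, hu⟩, if_neg hu]
        ring
      · rw [if_pos (mul_ne_zero hs10 h1), V5_sgn hs1', if_neg (fun h => h1 h.1), if_neg hu]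
        ring
  have hsg0 : ∀ x : ℝ, sg x ≠ 0 → x ≠ 0 := by
    intro x hx h0
    rw [h0, V5_zero] at hx
    exact hx rfl
  have hsgne : ∀ x : ℝ, x ≠ 0 → sg x ≠ 0 := by
    intro x hx
    rcases lt_or_gt_of_ne hx with h | h
    · rw [G6_sg_neg h]
      norm_num
    · rw [G6_sg_pos h]
      norm_num
  have hs1z : s1 ≠ 0 := by rcases hs1' with h | h <;> rw [h] <;> norm_num
  have hs2z : s2 ≠ 0 := by rcases hs2' with h | h <;> rw [h] <;> norm_num
  refine ⟨y t, fun i => hsg0 _ ?_, fun u => hsg0 _ ?_, ?_⟩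
  · rw [hc i]
    by_cases hi : i = 0
    · have h1 : pr l i = 0 := by rw [hi]; exact hpr0
      rw [if_pos hi, if_pos h1, if_pos hi, if_pos h1]
      simpa using hs1z
    · rw [if_neg hi, if_neg hi]
      by_cases h1 : pr l i = 0
      · rw [if_pos h1, if_pos h1]
        simpa using hs2z
      · rw [if_neg h1, if_neg h1]
        simpa using hsgne _ (hw (pr l i))
  · rw [hr u]
    by_cases hu : A (pr l u) = 0
    · rw [ha0 u hu, V5_zero, if_neg (fun h => h.2 hu), if_pos hu]
      simpa using hsgne _ (hrow _ hu)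
    · by_cases h1 : a u = 0
      · rw [h1, V5_zero, if_pos ⟨rfl, hu⟩, if_neg hu]
        simpa using ⟨hs2z, hsgne _ (hR u hu)⟩
      · rw [if_neg (fun h => h1 h.1), if_neg hu]
        simpa using ⟨hs1z, hsgne _ h1⟩
  · have hS1 : ∑ i, sg (y t i) = s1 + (q * s2 - s2) + q * (∑ j, sg (w j) - sg (w 0)) := by
      rw [Finset.sum_congr rfl (fun i _ => hc i), Finset.sum_add_distrib, Finset.sum_add_distrib,
        Finset.sum_sub_distrib, Finset.sum_ite_eq' univ (0 : ZMod k) (fun _ => s1),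
        Finset.sum_ite_eq' univ (0 : ZMod k) (fun _ => s2), if_pos (mem_univ _),
        if_pos (mem_univ _), V5_fib hlk (fun j => if j = 0 then s2 else 0),
        V5_fib hlk (fun j => if j = 0 then 0 else sg (w j)),
        Finset.sum_ite_eq' univ (0 : ZMod l) (fun _ => s2), if_pos (mem_univ _)]
      congr 2
      have h1 : ∀ j : ZMod l, (if j = 0 then (0 : ℤ) else sg (w j)) =
          sg (w j) - (if j = 0 then sg (w j) else 0) := by
        intro j
        by_cases hj : j = 0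
        · rw [if_pos hj, if_pos hj, sub_self]
        · rw [if_neg hj, if_neg hj, sub_zero]
      rw [Finset.sum_congr rfl (fun j _ => h1 j), Finset.sum_sub_distrib,
        Finset.sum_ite_eq' univ (0 : ZMod l) (fun j => sg (w j)), if_pos (mem_univ _)]
    have hS2 : ∑ u, sg (act a (y t) u) = s1 * e + s2 * ρ +
        q * ∑ u ∈ univ.filter (fun u => A u = 0), sg (act A w u) := by
      rw [Finset.sum_congr rfl (fun u _ => hr u), Finset.sum_add_distrib, Finset.sum_add_distrib,
        ← Finset.mul_sum, ← Finset.mul_sum,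
        V5_fib hlk (fun j => if A j = 0 then sg (act A w j) else 0), Finset.sum_filter]
    rw [hS1, hS2]
    have hq : 0 ≤ q := Int.natCast_nonneg _
    have hw0 : sg (w 0) ≤ 1 := G6_sg_le _
    have h5 : q * ((l : ℤ) - 1) ≤ q * (∑ j, sg (w j) - sg (w 0) -
        ∑ u ∈ univ.filter (fun u => A u = 0), sg (act A w u)) :=
      mul_le_mul_of_nonneg_left (by linarith) hq
    show q * ((l : ℤ) - 1) + 1 ≤ _
    nlinarith [h5, hs1v, hs2v]

end Pool.Agent.Helper50.FE
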