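import Pool.Agent.Helper50.FE.Defs
import Pool.Agent.Helper21.FD.Q1
import Pool.Agent.Helper21.FD.G8
import Pool.Agent.Helper21.FD.K7
import Pool.Agent.Helper21.FC.P1a

/-!
MP_0aa406_nt, project FE: the fibres of `ZMod (k' l) → ZMod l`.

(1) `supp_fibre`: `k = k' l`, `l` prime not dividing `k'`, `n = l n'`, `gcd (k', n') = 1`. For `c` in a fibre of `pr l`,
`tn n c = (-(c n)).val = l * ((-(c n')) mod k')`, and on a fibre the `k'` residues `c mod k'` are all different (CRT), so are the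
`tn n c / l < k'`. `rho p k ^ l = p ^ (1 / k')` is a root of the Eisenstein polynomial `X ^ k' - p`, so its powers `0 .. k' - 1` are
linearly independent over `ℚ` (compare the proofs in FC/P1*.lean, FC/A4.lean, FD/L2.lean or K2: `liouville`; or
`X_pow_sub_C_irreducible..`, `Polynomial.IsEisensteinAt`, `minpoly`): `qt l (ci p n μ) t = 0` iff `μ c = 0` for all `c` over `t`.
(2) `qt_mul`: fibre sums of the circulant of `rmul p n μ μ'` are the circular convolution of the fibre sums:
`ci p n (rmul p n μ x) = convolution of ci p n μ and ci p n x` (`tn (u-i) + tn i = tn u + k cy`, `rho ^ k = p`), and `qt` is additive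
(`pr_add`).  So from the relation in `OneClass`: `act (qt l (ci p n μ)) (qt l (ci p n μ')) u = C` if `u = pr l c`, else `0`, `C > 0`.
-/

set_option autoImplicit false

namespace Pool.Agent.Helper50.FE

open Finset Pool.Agent.Helper21.FC Pool.Agent.Helper21.FD

/-! ### the residues on a fibre -/

private theorem V6_cast_pr {q k : ℕ} [NeZero k] (e : ZMod k) : pr q e = ((e.val : ℕ) : ZMod q) := rfl

/-- the residue `- e n'` modulo `k'` -/
private def V6_f (k' n' : ℕ) {k : ℕ} (e : ZMod k) : ZMod k' :=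
  -(pr k' e * (n' : ZMod k'))

private theorem V6_tn {n k l k' n' : ℕ} [NeZero k] [NeZero k'] (hl : 0 < l)
    (hk : k = k' * l) (hn : n = l * n') (e : ZMod k) :
    tn n e = l * (V6_f k' n' e).val := by
  set x := (V6_f k' n' e).val with hx
  have hxlt : x < k' := ZMod.val_lt _
  have h0 : ((x + e.val * n' : ℕ) : ZMod k') = 0 := by
    rw [Nat.cast_add, Nat.cast_mul, hx, ZMod.natCast_zmod_val]
    unfold V6_f
    rw [V6_cast_pr]
    ring
  rw [ZMod.natCast_eq_zero_iff] at h0
  have h1 : k ∣ l * x + e.val * n := by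
    obtain ⟨m, hm⟩ := h0
    refine ⟨m, ?_⟩
    calc l * x + e.val * n = l * (x + e.val * n') := by rw [hn]; ring
      _ = k * m := by rw [hm, hk]; ring
  have h2 : ((l * x + e.val * n : ℕ) : ZMod k) = 0 := (ZMod.natCast_eq_zero_iff _ _).2 h1
  rw [Nat.cast_add, Nat.cast_mul e.val, ZMod.natCast_zmod_val] at h2
  have h3 : -(e * (n : ZMod k)) = ((l * x : ℕ) : ZMod k) := (eq_neg_of_add_eq_zero_left h2).symm
  unfold tn
  rw [h3, ZMod.val_natCast]
  apply Nat.mod_eq_of_lt
  calc l * x < l * k' := Nat.mul_lt_mul_of_pos_left hxlt hl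
    _ = k := by rw [hk, Nat.mul_comm]

private theorem V6_inj {k l k' n' : ℕ} [NeZero k] (hl : l.Prime)
    (hk : k = k' * l) (hlk' : ¬ l ∣ k') (hco : Nat.Coprime k' n') {e e' : ZMod k}
    (h1 : pr l e = pr l e') (h2 : V6_f k' n' e = V6_f k' n' e') : e = e' := by
  have hu : IsUnit (n' : ZMod k') := (ZMod.isUnit_iff_coprime n' k').2 hco.symm
  have h3 : pr k' e = pr k' e' := by
    unfold V6_f at h2
    exact hu.mul_right_cancel (neg_injective h2)
  rw [V6_cast_pr, V6_cast_pr, ZMod.natCast_eq_natCast_iff] at h1 h3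
  have hcop : Nat.Coprime k' l := ((Nat.Prime.coprime_iff_not_dvd hl).2 hlk').symm
  have h4 : e.val ≡ e'.val [MOD k' * l] :=
    (Nat.modEq_and_modEq_iff_modEq_mul hcop).1 ⟨h3, h1⟩
  rw [← hk] at h4
  have h5 : e.val = e'.val := Nat.ModEq.eq_of_lt_of_lt h4 (ZMod.val_lt _) (ZMod.val_lt _)
  exact ZMod.val_injective k h5

private theorem V6_rho {p k l k' : ℕ} (hl : 0 < l) (hk' : 0 < k') (hk : k = k' * l) :
    rho p k ^ l = (p : ℝ) ^ ((1 : ℝ) / k') := by
  unfold rho
  rw [← Real.rpow_natCast, ← Real.rpow_mul (Nat.cast_nonneg p)]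
  congr 1
  have h1 : (l : ℝ) ≠ 0 := Nat.cast_ne_zero.2 hl.ne'
  have h2 : (k' : ℝ) ≠ 0 := Nat.cast_ne_zero.2 hk'.ne'
  rw [hk, Nat.cast_mul]
  field_simp

/-! ### fibre sums of products -/

private theorem V6_qt_act {k l : ℕ} [NeZero k] [NeZero l] (hlk : l ∣ k) (a b : ZMod k → ℝ)
    (t : ZMod l) : act (qt l a) (qt l b) t = qt l (act a b) t := by
  classical
  have e1 : act (qt l a) (qt l b) t =
      ∑ d : ZMod k, (∑ c ∈ univ.filter (fun c : ZMod k => pr l c = t - pr l d), a c) * b d := by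
    unfold act qt
    have h1 : ∀ j : ZMod l,
        (∑ c ∈ univ.filter (fun c : ZMod k => pr l c = t - j), a c) *
          (∑ d ∈ univ.filter (fun d : ZMod k => pr l d = j), b d) =
        ∑ d ∈ univ.filter (fun d : ZMod k => pr l d = j),
          (∑ c ∈ univ.filter (fun c : ZMod k => pr l c = t - pr l d), a c) * b d := by
      intro j
      rw [Finset.mul_sum]
      refine Finset.sum_congr rfl fun d hd => ?_
      rw [mem_filter] at hd
      rw [hd.2]
    rw [Finset.sum_congr rfl (fun j _ => h1 j)]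
    exact Finset.sum_fiberwise_of_maps_to (fun c _ => mem_univ (pr l c)) _
  have e2 : qt l (act a b) t =
      ∑ d : ZMod k, (∑ e ∈ univ.filter (fun e : ZMod k => pr l e = t), a (e - d)) * b d := by
    unfold act qt
    rw [Finset.sum_comm]
    refine Finset.sum_congr rfl fun d _ => ?_
    rw [Finset.sum_mul]
  rw [e1, e2]
  refine Finset.sum_congr rfl fun d _ => ?_
  congr 1
  refine Finset.sum_bij' (fun c _ => c + d) (fun e _ => e - d) ?_ ?_ ?_ ?_ ?_
  · intro c hc
    simp only [mem_filter, mem_univ, true_and] at hc ⊢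
    rw [pr_add hlk, hc, sub_add_cancel]
  · intro e he
    simp only [mem_filter, mem_univ, true_and] at he ⊢
    rw [pr_sub hlk, he]
  · intro c _
    exact add_sub_cancel_right c d
  · intro e _
    exact sub_add_cancel e d
  · intro c _
    rw [add_sub_cancel_right]

theorem supp_fibre {p n k l k' n' : ℕ} [NeZero k] (hp : p.Prime) (hl : l.Prime)
    (hk : k = k' * l) (hlk' : ¬ l ∣ k') (hn : n = l * n') (hco : Nat.Coprime k' n')
    (μ : ZMod k → ℤ) (c : ZMod k) (hc : μ c ≠ 0) : qt l (ci p n μ) (pr l c) ≠ 0 := by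
  classical
  have hk0 : k ≠ 0 := NeZero.ne k
  have hk'0 : k' ≠ 0 := by
    rintro rfl
    exact hk0 (by rw [hk, Nat.zero_mul])
  haveI : NeZero k' := ⟨hk'0⟩
  set t := pr l c with ht
  set v : ZMod k' → ℤ := fun s =>
    ∑ e ∈ univ.filter (fun e : ZMod k => pr l e = t ∧ V6_f k' n' e = s), μ e with hv
  have hsum : qt l (ci p n μ) t = rev p v := by
    unfold qt rev
    have h1 : ∀ e : ZMod k, ci p n μ e =
        (μ e : ℝ) * ((p : ℝ) ^ ((1 : ℝ) / k')) ^ (V6_f k' n' e).val := by
      intro e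
      unfold ci
      rw [V6_tn hl.pos hk hn e, pow_mul, V6_rho hl.pos (Nat.pos_of_ne_zero hk'0) hk]
    have h2 : ∀ s : ZMod k', (v s : ℝ) * ((p : ℝ) ^ ((1 : ℝ) / k')) ^ s.val =
        ∑ e ∈ (univ.filter (fun e : ZMod k => pr l e = t)).filter (fun e => V6_f k' n' e = s),
          ci p n μ e := by
      intro s
      rw [Finset.filter_filter, hv]
      push_cast
      rw [Finset.sum_mul]
      refine Finset.sum_congr rfl fun e he => ?_
      rw [mem_filter] at he
      rw [h1 e, he.2.2]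
    rw [Finset.sum_congr rfl (fun s _ => h2 s)]
    exact (Finset.sum_fiberwise_of_maps_to (fun e _ => mem_univ (V6_f k' n' e)) _).symm
  rw [hsum]
  intro h0
  have hv0 := rev_eq_zero p k' hp v h0
  have hvc : v (V6_f k' n' c) = μ c := by
    simp only [hv]
    rw [Finset.sum_eq_single c]
    · intro e he hne
      rw [mem_filter] at he
      exact absurd (V6_inj hl hk hlk' hco he.2.1 he.2.2) hne
    · intro hnot
      exact absurd (mem_filter.2 ⟨mem_univ _, rfl, rfl⟩) hnot
  apply hc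
  rw [← hvc, hv0, Pi.zero_apply]

theorem qt_inv {p n k l B h h' : ℕ} [NeZero k] [NeZero l] (hp : p.Prime) (hh : 0 < h)
    (hh' : 0 < h') (hlk : l ∣ k) (μ μ' : ZMod k → ℤ) (d d' : ℤ)
    (hone : OneClass p n B h h' μ μ' d d') :
    ∃ (u0 : ZMod l) (C : ℝ), 0 < C ∧
      ∀ u, act (qt l (ci p n μ)) (qt l (ci p n μ')) u = if u = u0 then C else 0 := by
  classical
  obtain ⟨-, -, ⟨α, β, c, -, -, hrel⟩, -⟩ := hone
  have hp0 : (0 : ℝ) < p := by exact_mod_cast hp.pos
  have hρ : 0 < rho p k := Real.rpow_pos_of_pos hp0 _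
  have hprod : ∀ e : ZMod k, act (ci p n μ) (ci p n μ') e =
      if e = c then ((h * h' : ℕ) : ℝ) * (p : ℝ) ^ β / (p : ℝ) ^ α * rho p k ^ tn n c else 0 := by
    intro e
    have h1 := act_ci p n μ μ' e
    have h2 : (fun i => (μ' i : ℝ) * rho p k ^ tn n i) = ci p n μ' := rfl
    rw [h2] at h1
    rw [h1]
    have h3 := hrel e
    have hpa : (p : ℝ) ^ α ≠ 0 := (pow_pos hp0 α).ne'
    have h4 : (p : ℝ) ^ α * (rmul p n μ μ' e : ℝ) =
        (((Pi.single c (((h * h' : ℕ) : ℤ) * (p : ℤ) ^ β) : ZMod k → ℤ) e : ℤ) : ℝ) := by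
      rw [← h3]
      push_cast
      ring
    by_cases hec : e = c
    · rw [if_pos hec, hec]
      rw [hec, Pi.single_eq_same] at h4
      have h5 : (rmul p n μ μ' c : ℝ) = ((h * h' : ℕ) : ℝ) * (p : ℝ) ^ β / (p : ℝ) ^ α := by
        rw [eq_div_iff hpa, mul_comm, h4]
        push_cast
        ring
      rw [h5]
    · rw [if_neg hec]
      rw [Pi.single_eq_of_ne hec, Int.cast_zero] at h4
      rcases mul_eq_zero.1 h4 with h5 | h5
      · exact absurd h5 hpa
      · rw [h5, zero_mul]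
  refine ⟨pr l c, ((h * h' : ℕ) : ℝ) * (p : ℝ) ^ β / (p : ℝ) ^ α * rho p k ^ tn n c, ?_, ?_⟩
  · have h1 : (0 : ℝ) < ((h * h' : ℕ) : ℝ) := by exact_mod_cast Nat.mul_pos hh hh'
    positivity
  · intro u
    rw [V6_qt_act hlk]
    unfold qt
    rw [Finset.sum_congr rfl (fun e _ => hprod e), Finset.sum_ite_eq']
    simp only [mem_filter, mem_univ, true_and]
    by_cases hu : u = pr l c
    · rw [if_pos hu, if_pos hu.symm]
    · rw [if_neg hu, if_neg (fun h' => hu h'.symm)]

end Pool.Agent.Helper50.FE
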