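import Pool.Agent.Helper50.FE.E1
import Pool.Agent.Helper50.FE.V5
import Pool.Agent.Helper50.FE.V6

/-!
MP_0aa406_nt, project FE: `k = k' l` with `k' < l` and sum of signs 1 (helper50).
-/

set_option autoImplicit false

namespace Pool.Agent.Helper50.FE

open Finset Pool.Agent.Helper21.FC Pool.Agent.Helper21.FD

/-- there are finitely many bounded vectors -/
theorem E2_finite (k : ℕ) [NeZero k] (X : ℤ) : {μ : ZMod k → ℤ | ∀ t, |μ t| ≤ X}.Finite := by
  have h1 : (Set.pi Set.univ (fun _ : ZMod k => Set.Icc (-X) X)).Finite :=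
    Set.Finite.pi' (fun _ => Set.finite_Icc _ _) |>.subset (by
      intro f hf
      rw [Set.mem_pi] at hf
      exact fun i => hf i (Set.mem_univ i))
  refine h1.subset (fun μ hμ => ?_)
  rw [Set.mem_pi]
  intro t _
  rw [Set.mem_Icc]
  exact abs_le.1 (hμ t)

theorem E2_tn {l M : ℕ} [NeZero l] (c : ZMod l) : tn (l * M) c = 0 := by
  unfold tn
  have h1 : ((l * M : ℕ) : ZMod l) = 0 := by
    push_cast
    rw [ZMod.natCast_self, zero_mul]
  rw [h1, mul_zero, neg_zero, ZMod.val_zero]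

theorem E2_ps {l M : ℕ} [NeZero l] (c : ZMod l) : ps (l * M) c = M * c.val := by
  unfold ps
  rw [E2_tn, add_zero, show c.val * (l * M) = l * (M * c.val) by ring]
  exact Nat.mul_div_cancel_left _ (Nat.pos_of_ne_zero (NeZero.ne l))

theorem E2_ci {p l M : ℕ} [NeZero l] (μ : ZMod l → ℤ) :
    ci p (l * M) μ = fun c => (μ c : ℝ) := by
  funext c
  unfold ci
  rw [E2_tn, pow_zero, mul_one]

theorem E2_ev {p l M : ℕ} [NeZero l] (μ : ZMod l → ℤ) :
    ev p (l * M) μ = ∑ c : ZMod l, μ c * ((p : ℤ) ^ M) ^ c.val := by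
  unfold ev
  refine Finset.sum_congr rfl (fun c _ => ?_)
  rw [E2_ps, pow_mul]

/-- `k = l` -/
theorem mid_l (p l B h : ℕ) [NeZero l] (hp : p.Prime) (hl : l.Prime) (hl2 : l ≠ 2)
    (hh : 0 < h) : ∃ N : ℕ, ∀ M : ℕ, N ≤ l * M →
    ∀ μ : ZMod l → ℤ, (∀ t, |μ t| ≤ (p : ℤ) ^ B) → Gen (fun c => μ c ≠ 0) →
    ∑ t, (μ t).sign = 1 → ∀ (d : ℤ) (r : ℕ),
    NN p (l * M) ∣ h * d - (p : ℤ) ^ r * ev p (l * M) μ →
      Gain p (l * M) d ((1 / 2 - 1 / (2 * (l : ℝ))) * ((l * M : ℕ) : ℝ)) := by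
  classical
  obtain ⟨κ, hκ⟩ := hl.odd_of_ne_two hl2
  obtain ⟨N1, hN1⟩ := strict_gain p l h B l hp hh hl.one_lt.le
  have hlpos : (0 : ℝ) < l := by exact_mod_cast hl.pos
  -- exact cases
  have key : ∀ μ : ZMod l → ℤ, ∃ M0 : ℕ, Gen (fun c => μ c ≠ 0) → ∑ t, (μ t).sign = 1 →
      ¬ RVal (fun c => (μ c : ℝ)) l → ∀ M : ℕ, M0 ≤ M → ∀ (d : ℤ) (r : ℕ),
      NN p (l * M) ∣ (h : ℤ) * d - (p : ℤ) ^ r * ∑ c : ZMod l, μ c * ((p : ℤ) ^ M) ^ c.val →
      Gain p (l * M) d ((κ : ℝ) * M) := by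
    intro μ
    by_cases h3 : Gen (fun c => μ c ≠ 0) ∧ ∑ t, (μ t).sign = 1 ∧ ¬ RVal (fun c => (μ c : ℝ)) l
    · obtain ⟨hg, he, hns⟩ := h3
      obtain ⟨c, c', hc, hc', hne⟩ := hg l hl dvd_rfl
      obtain ⟨M0, hM0⟩ := exact_e1 hp hh hl hκ μ he ⟨c, c', by rintro rfl; exact hne rfl, hc, hc'⟩
        hns
      exact ⟨M0, fun _ _ _ => hM0⟩
    · exact ⟨0, fun h1 h2 h4 => absurd ⟨h1, h2, h4⟩ h3⟩
  choose M0 hM0 using key
  have hfin := E2_finite l ((p : ℤ) ^ B)
  refine ⟨max N1 (l * ∑ μ ∈ hfin.toFinset, M0 μ), ?_⟩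
  intro M hM μ hμ hgen he d r hd
  by_cases hs : RVal (fun c => (μ c : ℝ)) l
  · rw [← E2_ci (p := p) (M := M) μ] at hs
    refine hN1 (l * M) ((le_max_left _ _).trans hM) μ hμ l ?_ hs d r hd
    have : (0 : ℤ) < l := by exact_mod_cast hl.pos
    linarith
  · have h1 : M0 μ ≤ ∑ μ ∈ hfin.toFinset, M0 μ := by
      refine Finset.single_le_sum (f := M0) (fun _ _ => Nat.zero_le _) ?_
      rw [Set.Finite.mem_toFinset]
      exact hμ
    have h2 : l * M0 μ ≤ l * M :=
      (Nat.mul_le_mul_left _ h1).trans ((le_max_right _ _).trans hM)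
    have h3 : M0 μ ≤ M := Nat.le_of_mul_le_mul_left h2 hl.pos
    rw [E2_ev] at hd
    have h4 := hM0 μ hgen he hs M h3 d r hd
    refine gain_mono (le_of_eq ?_) h4
    push_cast
    have hlr : (l : ℝ) = 2 * κ + 1 := by exact_mod_cast hκ
    field_simp
    rw [hlr]
    ring

theorem mid (p l k' k B h : ℕ) [NeZero l] [NeZero k] (hp : p.Prime) (hl : l.Prime)
    (hl2 : l ≠ 2) (hk : k = k' * l) (hk'l : k' < l) (hh : 0 < h) : ∃ N : ℕ, ∀ n n' : ℕ, N ≤ n →
    n = l * n' → Nat.Coprime k' n' → ∀ μ : ZMod k → ℤ, (∀ t, |μ t| ≤ (p : ℤ) ^ B) →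
    Gen (fun c => μ c ≠ 0) → ∑ t, sg (qt l (ci p n μ) t) = 1 → ∀ (d : ℤ) (r : ℕ),
    NN p n ∣ h * d - (p : ℤ) ^ r * ev p n μ →
      Gain p n d ((1 / 2 - 1 / (2 * (l : ℝ))) * n) := by
  classical
  have hk0 : 0 < k := Nat.pos_of_ne_zero (NeZero.ne k)
  have hk'0 : 0 < k' := by
    rcases Nat.eq_zero_or_pos k' with h0 | h0
    · rw [h0, zero_mul] at hk
      omega
    · exact h0
  rcases Nat.lt_or_ge k' 2 with hk2 | hk2
  · -- `k = l`
    have hk1 : k' = 1 := by omega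
    subst hk1
    rw [one_mul] at hk
    subst hk
    obtain ⟨N, hN⟩ := mid_l p k B h hp hl hl2 hh
    refine ⟨N, ?_⟩
    intro n n' hn hnn _ μ hμ hgen he d r hd
    subst hnn
    refine hN n' hn μ hμ hgen ?_ d r hd
    rw [qt_self, E2_ci] at he
    rw [← he]
    exact Finset.sum_congr rfl (fun t _ => (sg_int _).symm)
  · -- `2 ≤ k'`
    obtain ⟨N1, hN1⟩ := strict_gain p k h B l hp hh hl.one_lt.le
    refine ⟨N1, ?_⟩
    intro n n' hn hnn hco μ hμ hgen he d r hd
    have hlk : l ∣ k := ⟨k', by rw [hk, mul_comm]⟩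
    have hlk' : ¬ l ∣ k' := fun h0 => by
      have := Nat.le_of_dvd hk'0 h0
      omega
    have hkl : k / l = k' := by
      rw [hk]
      exact Nat.mul_div_cancel _ hl.pos
    obtain ⟨a, ha⟩ : ∃ a, a = ci p n μ := ⟨_, rfl⟩
    rw [← ha] at he
    have hrho : ∀ c, a c ≠ 0 ↔ μ c ≠ 0 := by
      intro c
      rw [ha]
      unfold ci
      have h1 : rho p k ^ tn n c ≠ 0 := by
        apply pow_ne_zero
        unfold rho
        have : (0 : ℝ) < p := by exact_mod_cast hp.pos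
        positivity
      rw [mul_ne_zero_iff]
      constructor
      · rintro ⟨h2, _⟩
        exact_mod_cast h2
      · intro h2
        exact ⟨by exact_mod_cast h2, h1⟩
    have hgena : Gen (fun c => a c ≠ 0) := by
      intro q hq hqk
      obtain ⟨c, c', hc, hc', hne⟩ := hgen q hq hqk
      exact ⟨c, c', (hrho c).2 hc, (hrho c').2 hc', hne⟩
    have hlltk : (l : ℤ) < k := by
      have : l < k := by
        rw [hk]
        nlinarith [hl.pos]
      exact_mod_cast this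
    have hkz : (k : ℤ) = k' * l := by exact_mod_cast hk
    by_cases hea : ∑ c, sg (a c) = 1
    · -- the game on `ZMod k`
      have h1 := game_one (E1_isSign (fun t => a (-t))) (by rw [E1_sum]; exact hea)
        (E1_gen a hgena)
      have h2 := rval_of_val a _ h1
      rw [ha] at h2
      refine hN1 n hn μ hμ _ ?_ h2 d r hd
      linarith
    · -- the mixture
      have hsup : ∀ c, a c ≠ 0 → qt l a (pr l c) ≠ 0 := by
        intro c hc
        rw [ha]
        exact supp_fibre hp hl hk hlk' hnn hco μ c ((hrho c).1 hc)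
      obtain ⟨c, c', hc, hc', hne⟩ := hgena l hl hlk
      have hgenA : Gen (fun t => qt l a t ≠ 0) := by
        intro q hq hql
        rw [Nat.prime_dvd_prime_iff_eq hq hl] at hql
        subst hql
        refine ⟨pr q c, pr q c', hsup c hc, hsup c' hc', ?_⟩
        have h1 : ∀ x : ZMod q, pr q x = x := by
          intro x
          unfold pr
          exact ZMod.natCast_zmod_val x
        rw [h1, h1]
        exact hne
      obtain ⟨w, hw1, hw2, hw3⟩ := dir_of_val (qt l a) (univ.filter (fun u => qt l a u = 0)) 0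
        (game_one_proper (E1_isSign _) (by rw [E1_sum]; exact he) (E1_gen _ hgenA) _ (by
          intro h1
          have h2 : pr l c ∈ univ.filter (fun u => qt l a u = 0) := by
            rw [h1]
            exact mem_univ _
          rw [mem_filter] at h2
          exact hsup c hc h2.2))
      have h3 := rval_mix hlk a hsup hea w hw1 (fun u hu => hw2 u (by
        rw [mem_filter]
        exact ⟨mem_univ _, hu⟩)) (by rw [add_zero] at hw3; exact hw3)
      rw [hkl, ha] at h3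
      refine hN1 n hn μ hμ _ ?_ h3 d r hd
      have : (0 : ℤ) < l := by exact_mod_cast hl.pos
      rw [hkz]
      nlinarith

end Pool.Agent.Helper50.FE
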