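import Pool.Agent.Helper50.FE.Defs

/-!
MP_0aa406_nt, project FE: fans, forward signs.

Rows `c` with integers `α c, β c`; slope `r c = - β c / α c`.  The vectors `fv` are `(1,0), (1,0), a 1, ..,`
`a (2 Q), (0,1), (0,1)`: slopes `∞, ∞, a 1 > ... > a (2 Q) > 0, 0, 0`.  Values `fz g c = (-1)^(g+1) (α x + β y)`.
CLOSED FORM (`fs_mid`), for `2 ≤ g ≤ 2 Q + 2` (after the first two plays, before the last two): put
`b = a (g - 2)` if `3 ≤ g`, `b = ∞` if `g = 2`. Then `fs g c =`
 * `(-1)^g sign (α c)` if `α c ≠ 0` and not `r c ≥ b`,  `-(-1)^g sign (α c)` if `α c ≠ 0` and `r c ≥ b`;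
 * `(-1)^g sign (β c)` if `α c = 0`, `β c ≠ 0`;  * `ρ c` if `α c = β c = 0`.
(`r c ≥ b` is: `β c / α c ≤ - b`; sign of `α x + β y` at the slope `x / y = b` is `sign α` if `r c < b`, `- sign α` if
`r c > b`, and for `r c = b` the value is `0` and the old sign `(-1)^(g-1) sign α` is kept.)
Induction on `g`, from `fs 0 = fs 2 = r0` (`fs 1`: `- sign α`, or `r0` if `α = 0`).
SUMS (`fan_sum`): `g` even: `∑ fs g c = ∑ r0 - 2 ∑_{r c ≥ b} sign α`, and `∑_{r c ≥ b} sign α = ∑_{i ≤ g - 2} net (a i)`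
(all other classes of slope `> 0` have net zero) `= ∑_{i ≤ g-2} (-1)^i = 0`.  `g` odd (then `Q > 0` if
`3 ≤ g ≤ 2 Q + 1`, so `∑ ρ = 0` over the rows `α = β = 0`): `∑ fs g c = - (∑ r0 - 2 (-1)) = -3`.  `g = 1`: the first
play is `-α c`: `∑ = - ∑ sign α + ∑_{α = 0} r0`, where `∑ sign α = 1` and `∑ r0 = 1`, so `∑_{α=0} r0 = 0`: total `-1`.
`g = 2 Q + 3`: the play is `- β c`: `∑ = - ∑ sign β + ∑_{β = 0} (old sign)`, old sign `= r0 β α ρ`, total `-1`.
`g = 2 Q + 4`: `fs = r0 β α ρ` (`fan_end`).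
(Checked by computer.)
-/

set_option autoImplicit false
set_option linter.all false

namespace Pool.Agent.Helper50.FE

open Finset

variable {ι : Type} [Fintype ι] {α β ρ : ι → ℤ} {Q : ℕ} {a : ℕ → ℚ}

private theorem F1_sx_zero (s : ℤ) : sx 0 s = s := by simp [sx]

private theorem F1_sx_ne {x : ℤ} (h : x ≠ 0) (s : ℤ) : sx x s = x.sign := by simp [sx, h]

private theorem F1_sgn_pow (k : ℕ) (z : ℤ) : ((-1 : ℤ) ^ k * z).sign = (-1) ^ k * z.sign := by
  rcases neg_one_pow_eq_or ℤ k with h | h <;> simp [h]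

private theorem F1_pow_ne (k : ℕ) {z : ℤ} : (-1 : ℤ) ^ k * z ≠ 0 ↔ z ≠ 0 := by
  rcases neg_one_pow_eq_or ℤ k with h | h <;> simp [h]

private theorem F1_sx_pow (k : ℕ) {z : ℤ} (h : z ≠ 0) (s : ℤ) :
    sx ((-1) ^ k * z) s = (-1) ^ k * z.sign := by
  rw [F1_sx_ne ((F1_pow_ne k).2 h), F1_sgn_pow]

private theorem F1_sign_pm {x : ℤ} (h : x ≠ 0) : x.sign = 1 ∨ x.sign = -1 := by
  rcases lt_or_gt_of_ne h with h | h
  · exact Or.inr (Int.sign_eq_neg_one_of_neg h)
  · exact Or.inl (Int.sign_eq_one_of_pos h)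

private theorem F1_sx_pm {x s : ℤ} (h : s = 1 ∨ s = -1) : sx x s = 1 ∨ sx x s = -1 := by
  by_cases hx : x = 0
  · rw [hx, F1_sx_zero]; exact h
  · rw [F1_sx_ne hx]; exact F1_sign_pm hx

private theorem F1_sign_of_pos {z w : ℤ} {q : ℚ} (hq : 0 < q) (h : (z : ℚ) = w * q) :
    z.sign = w.sign := by
  rcases lt_trichotomy w 0 with hw | hw | hw
  · have : z < 0 := by
      have h1 : (z : ℚ) < 0 := by
        rw [h]; exact mul_neg_of_neg_of_pos (by exact_mod_cast hw) hq
      exact_mod_cast h1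
    rw [Int.sign_eq_neg_one_of_neg this, Int.sign_eq_neg_one_of_neg hw]
  · subst hw
    have : z = 0 := by
      have h1 : (z : ℚ) = 0 := by rw [h]; simp
      exact_mod_cast h1
    rw [this]
  · have : 0 < z := by
      have h1 : (0 : ℚ) < z := by
        rw [h]; exact mul_pos (by exact_mod_cast hw) hq
      exact_mod_cast h1
    rw [Int.sign_eq_one_of_pos this, Int.sign_eq_one_of_pos hw]

private theorem F1_sign_of_neg {z w : ℤ} {q : ℚ} (hq : q < 0) (h : (z : ℚ) = w * q) :
    z.sign = -w.sign := by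
  have := F1_sign_of_pos (z := -z) (w := w) (q := -q) (neg_pos.2 hq) (by push_cast; rw [h]; ring)
  rw [Int.sign_neg] at this
  omega

private theorem F1_val {x y : ℤ} (b : ℚ) (hx : x ≠ 0) :
    ((x * b.num + y * (b.den : ℤ) : ℤ) : ℚ) = x * ((b.den : ℚ) * (b + (y : ℚ) / x)) := by
  have hx' : (x : ℚ) ≠ 0 := by exact_mod_cast hx
  have h1 : (b.num : ℚ) = b.den * b := (Rat.den_mul_eq_num b).symm
  push_cast
  rw [h1]
  field_simp

private theorem F1_den (b : ℚ) : (0 : ℚ) < b.den := by exact_mod_cast b.den_pos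

/-- the value at the slope `b` of a row of larger slope -/
private theorem F1_lt {x y : ℤ} {b : ℚ} (hx : x ≠ 0) (h : (y : ℚ) / x < -b) :
    (x * b.num + y * (b.den : ℤ)).sign = -x.sign :=
  F1_sign_of_neg (mul_neg_of_pos_of_neg (F1_den b) (by linarith)) (F1_val b hx)

private theorem F1_gt {x y : ℤ} {b : ℚ} (hx : x ≠ 0) (h : -b < (y : ℚ) / x) :
    (x * b.num + y * (b.den : ℤ)).sign = x.sign :=
  F1_sign_of_pos (mul_pos (F1_den b) (by linarith)) (F1_val b hx)

private theorem F1_eq {x y : ℤ} {b : ℚ} (hx : x ≠ 0) (h : (y : ℚ) / x = -b) :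
    x * b.num + y * (b.den : ℤ) = 0 := by
  have := F1_val (y := y) b hx
  rw [h, add_neg_cancel, mul_zero, mul_zero] at this
  exact_mod_cast this

private theorem F1_ne {x : ℤ} (h : x.sign = 1 ∨ x.sign = -1) : x ≠ 0 := by
  rintro rfl
  simp at h

private theorem F1_anti (F : Fan α β ρ Q a) (i j : ℕ) (hi : 1 ≤ i) (hij : i < j)
    (hj : j ≤ 2 * Q) : a j < a i := by
  induction j, hij using Nat.le_induction with
  | base => exact F.hdec i hi (by omega)
  | succ j hij ih => exact (F.hdec j (by omega) (by omega)).trans (ih (by omega))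

private theorem F1_anti_le (F : Fan α β ρ Q a) (i j : ℕ) (hi : 1 ≤ i) (hij : i ≤ j)
    (hj : j ≤ 2 * Q) : a j ≤ a i := by
  rcases hij.eq_or_lt with h | h
  · rw [h]
  · exact (F1_anti F i j hi h hj).le

private theorem F1_fz_lt (g : ℕ) (hg : g < 2) (c : ι) :
    fz α β Q a g c = (-1) ^ (g + 1) * α c := by
  simp [fz, fv, hg]

private theorem F1_fz_mid (g : ℕ) (h2 : 2 ≤ g) (hg : g < 2 * Q + 2) (c : ι) :
    fz α β Q a g c =
      (-1) ^ (g + 1) * (α c * (a (g - 1)).num + β c * ((a (g - 1)).den : ℤ)) := by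
  simp [fz, fv, hg, not_lt.2 h2]

private theorem F1_fz_ge (g : ℕ) (hg : 2 * Q + 2 ≤ g) (c : ι) :
    fz α β Q a g c = (-1) ^ (g + 1) * β c := by
  have h1 : ¬ g < 2 := by omega
  have h2 : ¬ g < 2 * Q + 2 := by omega
  simp [fz, fv, h1, h2]

private theorem F1_zero (c : ι) : fs α β ρ Q a 0 c = r0 α β ρ c := rfl

private theorem F1_succ (g : ℕ) (c : ι) :
    fs α β ρ Q a (g + 1) c = sx (fz α β Q a g c) (fs α β ρ Q a g c) := rfl

theorem fan_pm (F : Fan α β ρ Q a) (g : ℕ) (c : ι) :
    fs α β ρ Q a g c = 1 ∨ fs α β ρ Q a g c = -1 := by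
  induction g with
  | zero => exact F1_sx_pm (F1_sx_pm (F.hρ c))
  | succ g ih => exact F1_sx_pm ih

private theorem F1_one (c : ι) :
    fs α β ρ Q a 1 c = if α c = 0 then r0 α β ρ c else -(α c).sign := by
  rw [F1_succ, F1_fz_lt 0 (by norm_num), F1_zero]
  split_ifs with h
  · rw [h, mul_zero, F1_sx_zero]
  · rw [F1_sx_pow _ h]; ring

private theorem F1_two (c : ι) : fs α β ρ Q a 2 c = r0 α β ρ c := by
  rw [F1_succ, F1_fz_lt 1 (by norm_num), F1_one]
  split_ifs with h
  · rw [h, mul_zero, F1_sx_zero]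
  · rw [F1_sx_pow _ h, r0, F1_sx_ne h]; ring

theorem fs_mid (F : Fan α β ρ Q a) (g : ℕ) (h2 : 2 ≤ g) (h3 : g ≤ 2 * Q + 2) (c : ι) :
    fs α β ρ Q a g c =
      if α c ≠ 0 then
        (if 3 ≤ g ∧ (β c : ℚ) / α c ≤ - a (g - 2) then -(-1) ^ g * (α c).sign
          else (-1) ^ g * (α c).sign)
      else if β c ≠ 0 then (-1) ^ g * (β c).sign else ρ c := by
  induction g, h2 using Nat.le_induction with
  | base =>
    rw [F1_two, r0]
    by_cases hα : α c = 0
    · rw [hα, F1_sx_zero]
      by_cases hβ : β c = 0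
      · simp [hβ, F1_sx_zero]
      · simp [hβ, F1_sx_ne hβ]
    · rw [F1_sx_ne hα]
      simp [hα]
  | succ g h2 ih =>
    have ih := ih (by omega)
    have hb : 0 < a (g - 1) := F.hpos _ (by omega) (by omega)
    rw [F1_succ, F1_fz_mid g h2 (by omega)]
    have e1 : g + 1 - 2 = g - 1 := by omega
    by_cases hα : α c = 0
    · rw [if_neg (not_not.2 hα)]
      by_cases hβ : β c = 0
      · rw [if_neg (not_not.2 hβ), hα, hβ, zero_mul, zero_mul, add_zero, mul_zero, F1_sx_zero, ih,
          if_neg (not_not.2 hα), if_neg (not_not.2 hβ)]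
      · rw [if_pos hβ, hα, zero_mul, zero_add]
        have hd : (0 : ℤ) < ((a (g - 1)).den : ℤ) := by exact_mod_cast (a (g - 1)).den_pos
        rw [F1_sx_pow _ (mul_ne_zero hβ hd.ne'), Int.sign_mul, Int.sign_eq_one_of_pos hd, mul_one]
    · rw [if_pos hα, e1]
      rcases lt_trichotomy ((β c : ℚ) / α c) (-a (g - 1)) with h | h | h
      · rw [if_pos ⟨by omega, h.le⟩]
        have hs := F1_lt hα h
        have hne : α c * (a (g - 1)).num + β c * ((a (g - 1)).den : ℤ) ≠ 0 := by
          refine F1_ne ?_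
          rw [hs]
          rcases F1_sign_pm hα with h | h <;> simp [h]
        rw [F1_sx_pow _ hne, hs]
        ring
      · rw [if_pos ⟨by omega, h.le⟩, F1_eq hα h, mul_zero, F1_sx_zero, ih, if_pos hα, if_neg, pow_succ]
        · ring
        · rintro ⟨h3g, h4⟩
          have := F1_anti F (g - 2) (g - 1) (by omega) (by omega) (by omega)
          linarith
      · rw [if_neg (fun h' => absurd h'.2 (not_le.2 h))]
        have hs := F1_gt hα h
        have hne : α c * (a (g - 1)).num + β c * ((a (g - 1)).den : ℤ) ≠ 0 := by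
          refine F1_ne ?_
          rw [hs]
          exact F1_sign_pm hα
        rw [F1_sx_pow _ hne, hs]

private theorem F1_even (Q : ℕ) : (-1 : ℤ) ^ (2 * Q + 2) = 1 := by
  rw [show 2 * Q + 2 = 2 * (Q + 1) from by ring, pow_mul]
  simp

/-- after the slopes -/
private theorem F1_last (F : Fan α β ρ Q a) (c : ι) (hβ : β c = 0) :
    fs α β ρ Q a (2 * Q + 2) c = r0 β α ρ c := by
  rw [fs_mid F (2 * Q + 2) (by omega) le_rfl, r0, hβ, F1_sx_zero, F1_even]
  by_cases hα : α c = 0
  · rw [if_neg (not_not.2 hα), hα, F1_sx_zero]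
    simp
  · rw [if_pos hα, F1_sx_ne hα, if_neg, one_mul]
    rintro ⟨h1, h2⟩
    have := F.hpos (2 * Q + 2 - 2) (by omega) (by omega)
    simp only [Int.cast_zero, zero_div] at h2
    linarith

private theorem F1_end1 (F : Fan α β ρ Q a) (c : ι) :
    fs α β ρ Q a (2 * Q + 3) c = if β c = 0 then r0 β α ρ c else -(β c).sign := by
  rw [show 2 * Q + 3 = 2 * Q + 2 + 1 from rfl, F1_succ, F1_fz_ge _ le_rfl]
  split_ifs with h
  · rw [h, mul_zero, F1_sx_zero, F1_last F c h]
  · rw [F1_sx_pow _ h, pow_succ, F1_even]; ring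

theorem fan_end (F : Fan α β ρ Q a) (c : ι) :
    fs α β ρ Q a (2 * Q + 4) c = r0 β α ρ c := by
  rw [show 2 * Q + 4 = 2 * Q + 3 + 1 from rfl, F1_succ, F1_fz_ge _ (by omega), F1_end1 F]
  split_ifs with h
  · rw [h, mul_zero, F1_sx_zero]
  · rw [F1_sx_pow _ h, r0, F1_sx_ne h, show 2 * Q + 3 + 1 = 2 * Q + 2 + 2 from rfl, pow_add, F1_even]
    ring

/-- the net sum of the rows of slope at least `a m` -/
private theorem F1_net (F : Fan α β ρ Q a) (m : ℕ) (h1 : 1 ≤ m) (hm : m ≤ 2 * Q) :
    ∑ c ∈ univ.filter (fun c => α c ≠ 0 ∧ (β c : ℚ) / α c ≤ -a m), (α c).sign =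
      ∑ i ∈ Icc 1 m, (-1 : ℤ) ^ i := by
  classical
  set S := univ.filter (fun c => α c ≠ 0 ∧ (β c : ℚ) / α c ≤ -a m) with hS
  set T := (Icc 1 m).image a with hT
  set U := S.image (fun c => -((β c : ℚ) / α c)) ∪ T with hU
  have hUm : ∀ t ∈ U, a m ≤ t := by
    intro t ht
    rcases Finset.mem_union.1 ht with h | h
    · obtain ⟨c, hc, rfl⟩ := Finset.mem_image.1 h
      have := (Finset.mem_filter.1 hc).2.2
      linarith
    · obtain ⟨i, hi, rfl⟩ := Finset.mem_image.1 h
      have := Finset.mem_Icc.1 hi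
      exact F1_anti_le F i m this.1 this.2 hm
  have e1 : ∑ c ∈ S, (α c).sign =
      ∑ t ∈ U, ∑ c ∈ S.filter (fun c => -((β c : ℚ) / α c) = t), (α c).sign := by
    refine (Finset.sum_fiberwise_of_maps_to (g := fun c => -((β c : ℚ) / α c)) ?_ _).symm
    intro c hc
    exact Finset.mem_union_left _ (Finset.mem_image_of_mem _ hc)
  have e2 : ∀ t ∈ U, ∑ c ∈ S.filter (fun c => -((β c : ℚ) / α c) = t), (α c).sign = net α β t := by
    intro t ht
    unfold net
    refine Finset.sum_congr ?_ fun _ _ => rfl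
    ext c
    simp only [hS, Finset.mem_filter, Finset.mem_univ, true_and]
    constructor
    · rintro ⟨⟨hα, _⟩, hc⟩
      refine ⟨hα, ?_⟩
      have hα' : (α c : ℚ) ≠ 0 := by exact_mod_cast hα
      rw [← hc]
      field_simp
    · rintro ⟨hα, hc⟩
      have hα' : (α c : ℚ) ≠ 0 := by exact_mod_cast hα
      have h3 : (β c : ℚ) / α c = -t := by
        rw [hc]; field_simp
      refine ⟨⟨hα, ?_⟩, by rw [h3, neg_neg]⟩
      rw [h3]
      exact neg_le_neg (hUm t ht)
  have e3 : ∑ t ∈ U, net α β t = ∑ t ∈ T, net α β t := by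
    symm
    refine Finset.sum_subset Finset.subset_union_right ?_
    intro t ht htT
    refine F.hzero t ((F.hpos m h1 hm).trans_le (hUm t ht)) ?_
    rintro i hi1 hi2 rfl
    rcases le_or_gt i m with h | h
    · exact htT (Finset.mem_image_of_mem _ (Finset.mem_Icc.2 ⟨hi1, h⟩))
    · exact absurd (hUm _ ht) (not_le.2 (F1_anti F m i h1 h hi2))
  rw [e1, Finset.sum_congr rfl e2, e3, hT, Finset.sum_image]
  · refine Finset.sum_congr rfl fun i hi => ?_
    have := Finset.mem_Icc.1 hi
    exact F.hnet i this.1 (this.2.trans hm)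
  · intro i hi j hj hij
    have h3 := Finset.mem_Icc.1 (Finset.mem_coe.1 hi)
    have h4 := Finset.mem_Icc.1 (Finset.mem_coe.1 hj)
    rcases lt_trichotomy i j with h | h | h
    · exact absurd hij (F1_anti F i j h3.1 h (h4.2.trans hm)).ne'
    · exact h
    · exact absurd hij (F1_anti F j i h4.1 h (h3.2.trans hm)).ne

private theorem F1_alt (m : ℕ) : ∑ i ∈ Icc 1 m, (-1 : ℤ) ^ i = if Even m then 0 else -1 := by
  induction m with
  | zero => simp
  | succ m ih =>
    rw [Finset.sum_Icc_succ_top (by omega), ih]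
    rcases Nat.even_or_odd m with h | h
    · rw [if_pos h, if_neg (by rw [Nat.even_add_one]; exact not_not.2 h), h.add_one.neg_one_pow]
      ring
    · rw [if_neg (Nat.not_even_iff_odd.2 h), if_pos h.add_one, h.add_one.neg_one_pow]
      ring

/-- the sum over the rows of slope at least `b` -/
private theorem F1_S (F : Fan α β ρ Q a) (g : ℕ) (h2 : 2 ≤ g) (h3 : g ≤ 2 * Q + 2) :
    ∑ c, (if α c ≠ 0 ∧ 3 ≤ g ∧ (β c : ℚ) / α c ≤ - a (g - 2) then (α c).sign else 0) =
      if Even g then 0 else -1 := by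
  rcases h2.eq_or_lt with h | h
  · subst h
    simp
  · have h1 : 3 ≤ g := h
    have e : ∀ c : ι, (if α c ≠ 0 ∧ 3 ≤ g ∧ (β c : ℚ) / α c ≤ - a (g - 2) then (α c).sign else 0) =
        if α c ≠ 0 ∧ (β c : ℚ) / α c ≤ - a (g - 2) then (α c).sign else 0 := by
      intro c
      simp only [h1, true_and]
    rw [Finset.sum_congr rfl fun c _ => e c, ← Finset.sum_filter,
      F1_net F (g - 2) (by omega) (by omega), F1_alt]
    have : Even (g - 2) ↔ Even g := by
      rw [Nat.even_sub h2]
      simp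
    simp only [this]

theorem fan_sum (F : Fan α β ρ Q a) (g : ℕ) (hg : g ≤ 2 * Q + 4) :
    ∑ c, fs α β ρ Q a g c = tau Q g := by
  have hsg0 : ∀ c : ι, r0 α β ρ c = if α c ≠ 0 then (α c).sign
      else if β c ≠ 0 then (β c).sign else ρ c := by
    intro c
    unfold r0
    by_cases hα : α c = 0
    · by_cases hβ : β c = 0
      · simp [hα, hβ, F1_sx_zero]
      · simp [hα, hβ, F1_sx_zero, F1_sx_ne hβ]
    · simp [hα, F1_sx_ne hα]
  rcases Nat.lt_or_ge g 2 with h | h
  · obtain rfl | rfl : g = 0 ∨ g = 1 := by omega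
    · have : tau Q 0 = 1 := by simp [tau]
      rw [this, ← F.hr0]
      rfl
    · have : tau Q 1 = -1 := by simp [tau]
      have e : ∀ c : ι, fs α β ρ Q a 1 c = r0 α β ρ c - 2 * (α c).sign := by
        intro c
        rw [F1_one]
        split_ifs with hα
        · simp [hα]
        · rw [r0, F1_sx_ne hα]; ring
      rw [this, Finset.sum_congr rfl fun c _ => e c, Finset.sum_sub_distrib, ← Finset.mul_sum,
        F.hr0, F.hα]
      norm_num
  rcases Nat.lt_or_ge (2 * Q + 2) g with h' | h'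
  · obtain rfl | rfl : g = 2 * Q + 3 ∨ g = 2 * Q + 4 := by omega
    · have : tau Q (2 * Q + 3) = -1 := by
        have h1 : ¬ Even (2 * Q + 3) := by
          rw [Nat.even_add_one]
          exact not_not.2 ⟨Q + 1, by ring⟩
        simp [tau, h1]
      have e : ∀ c : ι, fs α β ρ Q a (2 * Q + 3) c = r0 β α ρ c - 2 * (β c).sign := by
        intro c
        rw [F1_end1 F]
        split_ifs with hβ
        · simp [hβ]
        · rw [r0, F1_sx_ne hβ]; ring
      rw [this, Finset.sum_congr rfl fun c _ => e c, Finset.sum_sub_distrib, ← Finset.mul_sum,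
        F.hr1, F.hβ]
      norm_num
    · have : tau Q (2 * Q + 4) = 1 := by
        have h1 : Even (2 * Q + 4) := ⟨Q + 2, by ring⟩
        simp [tau, h1]
      rw [this, Finset.sum_congr rfl fun c _ => fan_end F c, F.hr1]
  · have hS := F1_S F g h h'
    rcases Nat.even_or_odd g with he | ho
    · have : tau Q g = 1 := by simp [tau, he]
      have e : ∀ c : ι, fs α β ρ Q a g c = r0 α β ρ c -
          2 * (if α c ≠ 0 ∧ 3 ≤ g ∧ (β c : ℚ) / α c ≤ - a (g - 2) then (α c).sign else 0) := by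
        intro c
        rw [fs_mid F g h h', hsg0, he.neg_one_pow]
        by_cases hα : α c = 0
        · simp [hα]
        · simp only [ne_eq, hα, not_false_eq_true, if_true, true_and]
          split_ifs <;> ring
      rw [if_pos he] at hS
      rw [this, Finset.sum_congr rfl fun c _ => e c, Finset.sum_sub_distrib, ← Finset.mul_sum,
        F.hr0, hS]
      norm_num
    · have hQ : 0 < Q := by
        by_contra hQ
        have : Q = 0 := by omega
        subst this
        have : g = 2 := by omega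
        subst this
        exact absurd ho (by decide)
      have h1 : g ≠ 1 := by omega
      have h3 : g ≠ 2 * Q + 3 := by omega
      have : tau Q g = -3 := by simp [tau, Nat.not_even_iff_odd.2 ho, h1, h3]
      have e : ∀ c : ι, fs α β ρ Q a g c = - r0 α β ρ c +
          2 * (if α c ≠ 0 ∧ 3 ≤ g ∧ (β c : ℚ) / α c ≤ - a (g - 2) then (α c).sign else 0) +
          2 * (if α c = 0 ∧ β c = 0 then ρ c else 0) := by
        intro c
        rw [fs_mid F g h h', hsg0, ho.neg_one_pow]
        by_cases hα : α c = 0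
        · by_cases hβ : β c = 0
          · simp [hα, hβ]; ring
          · simp [hα, hβ]
        · simp only [ne_eq, hα, not_false_eq_true, if_true, true_and, false_and, if_false]
          split_ifs <;> ring
      rw [if_neg (Nat.not_even_iff_odd.2 ho)] at hS
      rw [this, Finset.sum_congr rfl fun c _ => e c, Finset.sum_add_distrib,
        Finset.sum_add_distrib, ← Finset.mul_sum, ← Finset.mul_sum, Finset.sum_neg_distrib,
        F.hr0, hS, ← Finset.sum_filter, F.hρ0 hQ]
      norm_num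

/-- rows which flip at every play where their value is not zero: all rows whose slope is not one of
the slopes of net zero -/
theorem fan_flip (F : Fan α β ρ Q a) (c : ι)
    (hc : α c = 0 ∨ 0 ≤ (β c : ℚ) / α c ∨ ∃ i, 1 ≤ i ∧ i ≤ 2 * Q ∧ (β c : ℚ) = - a i * α c)
    (g : ℕ) (hg : g < 2 * Q + 4) (hz : fz α β Q a g c ≠ 0) :
    fs α β ρ Q a g c = -(fz α β Q a g c).sign := by
  -- the third alternative in terms of the slope
  have hc' : α c ≠ 0 → (0 ≤ (β c : ℚ) / α c ∨
      ∃ i, 1 ≤ i ∧ i ≤ 2 * Q ∧ (β c : ℚ) / α c = - a i) := by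
    intro hα
    rcases hc with h | h | ⟨i, h1, h2, h3⟩
    · exact absurd h hα
    · exact Or.inl h
    · refine Or.inr ⟨i, h1, h2, ?_⟩
      have hα' : (α c : ℚ) ≠ 0 := by exact_mod_cast hα
      rw [h3]
      field_simp
  rcases Nat.lt_or_ge g 2 with h | h
  · rw [F1_fz_lt g h] at hz ⊢
    have hα := (F1_pow_ne _).1 hz
    obtain rfl | rfl : g = 0 ∨ g = 1 := by omega
    · rw [F1_sgn_pow, F1_zero, r0, F1_sx_ne hα]; ring
    · rw [F1_sgn_pow, F1_one, if_neg hα]; ring
  rcases Nat.lt_or_ge g (2 * Q + 2) with h' | h'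
  · rw [F1_fz_mid g h h'] at hz ⊢
    have hne := (F1_pow_ne _).1 hz
    rw [F1_sgn_pow, fs_mid F g h h'.le]
    by_cases hα : α c = 0
    · have hβ : β c ≠ 0 := by
        intro hβ
        rw [hα, hβ] at hne
        simp at hne
      have hd : (0 : ℤ) < ((a (g - 1)).den : ℤ) := by exact_mod_cast (a (g - 1)).den_pos
      rw [if_neg (not_not.2 hα), if_pos hβ, hα, zero_mul, zero_add, Int.sign_mul,
        Int.sign_eq_one_of_pos hd, pow_succ]
      ring
    · rw [if_pos hα]
      have hb : 0 < a (g - 1) := F.hpos _ (by omega) (by omega)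
      rcases hc' hα with h5 | ⟨i, hi1, hi2, h5⟩
      · rw [if_neg, F1_gt hα (by linarith), pow_succ]
        · ring
        · rintro ⟨h6, h7⟩
          have := F.hpos (g - 2) (by omega) (by omega)
          linarith
      · rcases lt_trichotomy i (g - 1) with h6 | h6 | h6
        · have h7 := F1_anti F i (g - 1) hi1 h6 (by omega)
          have h8 := F1_anti_le F i (g - 2) hi1 (by omega) (by omega)
          rw [if_pos ⟨by omega, by rw [h5]; linarith⟩, F1_lt hα (by rw [h5]; linarith), pow_succ]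
          ring
        · exact absurd (F1_eq hα (by rw [h5, h6])) hne
        · have h7 := F1_anti F (g - 1) i (by omega) h6 hi2
          rw [if_neg, F1_gt hα (by rw [h5]; linarith), pow_succ]
          · ring
          · rintro ⟨h8, h9⟩
            have := F1_anti F (g - 2) (g - 1) (by omega) (by omega) (by omega)
            rw [h5] at h9
            linarith
  · rw [F1_fz_ge g h'] at hz ⊢
    have hβ := (F1_pow_ne _).1 hz
    rw [F1_sgn_pow]
    obtain rfl | rfl : g = 2 * Q + 2 ∨ g = 2 * Q + 3 := by omega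
    · rw [fs_mid F _ h le_rfl, pow_succ (-1 : ℤ) (2 * Q + 2), F1_even]
      by_cases hα : α c = 0
      · rw [if_neg (not_not.2 hα), if_pos hβ]; ring
      · rw [if_pos hα]
        have hα' : (α c : ℚ) ≠ 0 := by exact_mod_cast hα
        have hβ' : (β c : ℚ) ≠ 0 := by exact_mod_cast hβ
        have hval : ((β c : ℤ) : ℚ) = α c * ((β c : ℚ) / α c) := by field_simp
        rcases hc' hα with h5 | ⟨i, hi1, hi2, h5⟩
        · have h6 : 0 < (β c : ℚ) / α c := lt_of_le_of_ne h5 (div_ne_zero hβ' hα').symm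
          rw [if_neg, F1_sign_of_pos h6 hval]
          · ring
          · rintro ⟨h7, h8⟩
            have := F.hpos (2 * Q + 2 - 2) (by omega) (by omega)
            linarith
        · have h6 := F.hpos i hi1 hi2
          have h7 := F1_anti_le F i (2 * Q + 2 - 2) hi1 (by omega) (by omega)
          rw [if_pos ⟨by omega, by rw [h5]; linarith⟩,
            F1_sign_of_neg (z := β c) (w := α c) (by rw [h5]; linarith) hval]
          ring
    · rw [F1_end1 F, if_neg hβ, show 2 * Q + 3 + 1 = 2 * Q + 2 + 2 from rfl, pow_add, F1_even]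
      ring

end Pool.Agent.Helper50.FE
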