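import Pool.Agent.Helper50.FE.F1

/-!
MP_0aa406_nt, project FE: the reversed fan.

(1) `fan_swap`: `ra i = 1 / a (2 Q + 1 - i)`.  For `r > 0` the class `β = - r α` (`α ≠ 0`) is the class
`α = - (1/r) β` (`β ≠ 0`), and there `sign β = - sign α`: `net β α (1 / r) = - net α β r`; and
`-(-1) ^ (2 Q + 1 - i) = (-1) ^ i`.
(2) `fz_swap`: `fv Q (ra Q a) (2 Q + 3 - g)` is `fv Q a g` with the components exchanged (num and den of the inverse
of a positive rational), and `(-1) ^ (2 Q + 4 - g) = - (-1) ^ (g + 1)`.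
(3) `bs_succ`: definition of `fs` and (2).
(4) `bs_zero`, `bs_last`: `fan_end` for the reversed fan; `fs 0 = r0`.
(5) `bs_sum`: `fan_sum` for the reversed fan; `tau Q (2 Q + 4 - g) = tau Q g`.
-/

set_option autoImplicit false

namespace Pool.Agent.Helper50.FE

open Finset

variable {ι : Type} [Fintype ι] {α β ρ : ι → ℤ} {Q : ℕ} {a : ℕ → ℚ}

private theorem F2_net_inv {r : ℚ} (hr : 0 < r) : net β α r⁻¹ = -net α β r := by
  unfold net
  rw [← Finset.sum_neg_distrib]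
  have hset : (univ.filter fun c => β c ≠ 0 ∧ (α c : ℚ) = -r⁻¹ * β c) =
      univ.filter fun c => α c ≠ 0 ∧ (β c : ℚ) = -r * α c := by
    ext c
    simp only [mem_filter, mem_univ, true_and]
    constructor
    · rintro ⟨h1, h2⟩
      refine ⟨?_, ?_⟩
      · intro h3
        rw [h3, Int.cast_zero] at h2
        have h4 : (β c : ℚ) ≠ 0 := by exact_mod_cast h1
        have h5 : -r⁻¹ ≠ 0 := neg_ne_zero.2 (inv_ne_zero hr.ne')
        exact (mul_ne_zero h5 h4) h2.symm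
      · rw [h2]
        field_simp
    · rintro ⟨h1, h2⟩
      refine ⟨?_, ?_⟩
      · intro h3
        rw [h3, Int.cast_zero] at h2
        have h4 : (α c : ℚ) ≠ 0 := by exact_mod_cast h1
        have h5 : -r ≠ 0 := neg_ne_zero.2 hr.ne'
        exact (mul_ne_zero h5 h4) h2.symm
      · rw [h2]
        field_simp
  rw [hset]
  refine Finset.sum_congr rfl fun c hc => ?_
  obtain ⟨h1, h2⟩ := (mem_filter.1 hc).2
  rcases lt_or_gt_of_ne h1 with h3 | h3
  · have h4 : (α c : ℚ) < 0 := by exact_mod_cast h3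
    have h5 : (0 : ℚ) < β c := by
      rw [h2, neg_mul]
      exact neg_pos.2 (mul_neg_of_pos_of_neg hr h4)
    have h6 : 0 < β c := by exact_mod_cast h5
    rw [Int.sign_eq_one_of_pos h6, Int.sign_eq_neg_one_of_neg h3]
    rfl
  · have h4 : (0 : ℚ) < α c := by exact_mod_cast h3
    have h5 : (β c : ℚ) < 0 := by
      rw [h2, neg_mul]
      exact neg_neg_of_pos (mul_pos hr h4)
    have h6 : β c < 0 := by exact_mod_cast h5
    rw [Int.sign_eq_neg_one_of_neg h6, Int.sign_eq_one_of_pos h3]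

private theorem F2_sign {m i : ℕ} (h : i ≤ 2 * m + 1) :
    -(-1 : ℤ) ^ (2 * m + 1 - i) = (-1) ^ i := by
  have h1 : (-1 : ℤ) ^ (2 * m + 1 - i) * (-1) ^ i = -1 := by
    rw [← pow_add, Nat.sub_add_cancel h, pow_succ, pow_mul]
    norm_num
  have h2 : ((-1 : ℤ) ^ i) * (-1) ^ i = 1 := by
    rw [← mul_pow]
    norm_num
  calc -(-1 : ℤ) ^ (2 * m + 1 - i) = -((-1 : ℤ) ^ (2 * m + 1 - i) * ((-1 : ℤ) ^ i * (-1) ^ i)) := by
        rw [h2, mul_one]
    _ = -(((-1 : ℤ) ^ (2 * m + 1 - i) * (-1) ^ i) * (-1) ^ i) := by rw [mul_assoc]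
    _ = (-1) ^ i := by rw [h1]; ring

theorem fan_swap (F : Fan α β ρ Q a) : Fan β α ρ Q (ra Q a) := by
  refine ⟨?_, ?_, ?_, ?_, F.hβ, F.hα, F.hρ, ?_, F.hr1, F.hr0⟩
  · intro i h1 h2
    exact inv_pos.2 (F.hpos _ (by omega) (by omega))
  · intro i h1 h2
    have h3 := F.hdec (2 * Q - i) (by omega) (by omega)
    have h4 : 2 * Q - i + 1 = 2 * Q + 1 - i := by omega
    have h5 : 2 * Q + 1 - (i + 1) = 2 * Q - i := by omega
    rw [h4] at h3
    unfold ra
    rw [h5]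
    exact inv_strictAnti₀ (F.hpos _ (by omega) (by omega)) h3
  · intro i h1 h2
    unfold ra
    rw [F2_net_inv (F.hpos _ (by omega) (by omega)), F.hnet _ (by omega) (by omega)]
    exact F2_sign (by omega)
  · intro r hr hne
    have h1 : r = (r⁻¹)⁻¹ := (inv_inv r).symm
    rw [h1, F2_net_inv (inv_pos.2 hr), F.hzero r⁻¹ (inv_pos.2 hr), neg_zero]
    intro i h2 h3 h4
    refine hne (2 * Q + 1 - i) (by omega) (by omega) ?_
    unfold ra
    have h5 : 2 * Q + 1 - (2 * Q + 1 - i) = i := by omega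
    rw [h5, ← h4, inv_inv]
  · intro hQ
    have h1 : (univ.filter fun c => β c = 0 ∧ α c = 0) =
        univ.filter fun c => α c = 0 ∧ β c = 0 := by
      ext c
      simp only [mem_filter, mem_univ, true_and]
      exact and_comm
    rw [h1]
    exact F.hρ0 hQ

private theorem F2_fv (F : Fan α β ρ Q a) (g : ℕ) (hg : g < 2 * Q + 4) :
    fv Q (ra Q a) (2 * Q + 3 - g) = ((fv Q a g).2, (fv Q a g).1) := by
  unfold fv
  by_cases h1 : g < 2
  · have h2 : ¬ (2 * Q + 3 - g < 2) := by omega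
    have h3 : ¬ (2 * Q + 3 - g < 2 * Q + 2) := by omega
    rw [if_pos h1, if_neg h2, if_neg h3]
  · by_cases h4 : g < 2 * Q + 2
    · have h2 : ¬ (2 * Q + 3 - g < 2) := by omega
      have h3 : 2 * Q + 3 - g < 2 * Q + 2 := by omega
      rw [if_neg h1, if_pos h4, if_neg h2, if_pos h3]
      have h5 : ra Q a (2 * Q + 3 - g - 1) = (a (g - 1))⁻¹ := by
        unfold ra
        congr 2
        omega
      have h6 : 0 < a (g - 1) := F.hpos _ (by omega) (by omega)
      have h7 : 0 < (a (g - 1)).num := Rat.num_pos.2 h6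
      rw [h5]
      refine Prod.ext ?_ ?_
      · show ((a (g - 1))⁻¹).num = ((a (g - 1)).den : ℤ)
        rw [Rat.num_inv, Int.sign_eq_one_of_pos h7, one_mul]
      · show (((a (g - 1))⁻¹).den : ℤ) = (a (g - 1)).num
        rw [Rat.den_inv_of_ne_zero h6.ne', Int.natAbs_of_nonneg h7.le]
    · have h2 : 2 * Q + 3 - g < 2 := by omega
      rw [if_neg h1, if_neg h4, if_pos h2]

theorem fz_swap (F : Fan α β ρ Q a) (g : ℕ) (hg : g < 2 * Q + 4) (c : ι) :
    fz β α Q (ra Q a) (2 * Q + 3 - g) c = -fz α β Q a g c := by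
  unfold fz
  rw [F2_fv F g hg]
  have h1 : (-1 : ℤ) ^ (2 * Q + 3 - g + 1) = -(-1) ^ (g + 1) := by
    have h2 := F2_sign (m := Q + 2) (i := g + 1) (by omega)
    have h3 : 2 * (Q + 2) + 1 - (g + 1) = 2 * Q + 3 - g + 1 := by omega
    rw [h3] at h2
    rw [← h2, neg_neg]
  rw [h1]
  ring

theorem bs_succ (F : Fan α β ρ Q a) (g : ℕ) (hg : g < 2 * Q + 4) (c : ι) :
    bs α β ρ Q a g c = sx (-fz α β Q a g c) (bs α β ρ Q a (g + 1) c) := by
  unfold bs
  have h1 : 2 * Q + 4 - g = (2 * Q + 3 - g) + 1 := by omega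
  have h2 : 2 * Q + 4 - (g + 1) = 2 * Q + 3 - g := by omega
  rw [h1, h2, ← fz_swap F g hg c]
  rfl

theorem bs_zero (F : Fan α β ρ Q a) (c : ι) : bs α β ρ Q a 0 c = fs α β ρ Q a 0 c := by
  unfold bs
  rw [Nat.sub_zero, fan_end (fan_swap F) c]
  rfl

theorem bs_last (F : Fan α β ρ Q a) (c : ι) :
    bs α β ρ Q a (2 * Q + 4) c = fs α β ρ Q a (2 * Q + 4) c := by
  unfold bs
  rw [Nat.sub_self, fan_end F c]
  rfl

theorem bs_sum (F : Fan α β ρ Q a) (g : ℕ) (hg : g ≤ 2 * Q + 4) :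
    ∑ c, bs α β ρ Q a g c = tau Q g := by
  unfold bs
  rw [fan_sum (fan_swap F) (2 * Q + 4 - g) (by omega)]
  unfold tau
  have h1 : Even (2 * Q + 4 - g) ↔ Even g := by
    rw [Nat.even_sub hg]
    constructor
    · intro h
      exact h.1 ⟨Q + 2, by ring⟩
    · intro h
      exact ⟨fun _ => h, fun _ => ⟨Q + 2, by ring⟩⟩
  have h2 : (2 * Q + 4 - g = 1 ∨ 2 * Q + 4 - g = 2 * Q + 3) ↔ (g = 1 ∨ g = 2 * Q + 3) := by
    omega
  simp only [h1, h2]

end Pool.Agent.Helper50.FE
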