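import Pool.Agent.Helper50.FE.X2

/-!
MP_0aa406_nt, project FE: reversal, one functional.

Values `x g` (`g < R`), forward signs `s g`, backward signs `t g` (`t R = s R`, `t 0 = s 0`).
(1) `rev_one`: by `om_pair` the left side is
   `∑ D (1 - (s g + t (g+1)) / 2) + ∑_{x g ≠ 0} (s g + t (g+1)) / 2 (1 / (p-1) + D - v (x g))`, and
   `∑_{x g ≠ 0} (s g + t (g+1)) = 0` (`rev_tel`): for `x g ≠ 0`, `s (g+1) + t g = 0`; for `x g = 0`,
   `s (g+1) = s g` and `t g = t (g+1)`; in both cases `(if x g = 0 then 0 else s g + t (g+1)) =`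
   `(s g - s (g+1)) + (t (g+1) - t g)`, telescope.
(2) `flip_zero`: if `s g = - sign (x g)` whenever `x g ≠ 0`, then `t g = s g` for all `g ≤ R` (downward
   induction from `t R = s R`), so `s g + t (g+1) = s g + s (g+1) = 0` when `x g ≠ 0`; `ls = 0`.
(3) `class_zero`: a class of functionals `c ∈ C` with `x c g = α c X g` (`X g` rational), `s c 0 = sign (α c)`
   and `∑ sign (α c) = 0`: `S g := sign (α c) s c g` and `T g := sign (α c) t c g` do not depend on `c ∈ C`
   (induction: sign of `α c X g` is `sign (α c) sign (X g)`); `v (x c g) = v (α c) + v (X g)` (`padicValRat`), so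
   `∑_c ls = ∑_{g, X g ≠ 0} (S g + T (g+1)) / 2 ∑_c sign (α c) (v (α c) + v (X g))`
   `= (∑_c sign (α c) v (α c)) ∑_{g, X g ≠ 0} (S g + T (g+1)) / 2 = 0` by `rev_tel` for one `c ∈ C`.
-/

set_option autoImplicit false

namespace Pool.Agent.Helper50.FE

open Finset Pool.Agent.Helper21.FC Pool.Agent.Helper21.FD

theorem X7_sign_pm {x : ℤ} (hx : x ≠ 0) : x.sign = 1 ∨ x.sign = -1 := by
  rcases lt_or_gt_of_ne hx with h | h
  · exact Or.inr (Int.sign_eq_neg_one_of_neg h)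
  · exact Or.inl (Int.sign_eq_one_of_pos h)

theorem X7_sx_zero (s : ℤ) : sx 0 s = s := by simp [sx]

theorem X7_sx_ne {x : ℤ} (hx : x ≠ 0) (s : ℤ) : sx x s = x.sign := by simp [sx, hx]

theorem sx_pm {x s : ℤ} (hs : s = 1 ∨ s = -1) : sx x s = 1 ∨ sx x s = -1 := by
  by_cases hx : x = 0
  · rw [hx, X7_sx_zero]
    exact hs
  · rw [X7_sx_ne hx]
    exact X7_sign_pm hx

theorem X7_down {P : ℕ → Prop} (R : ℕ) (hR : P R) (h : ∀ g < R, P (g + 1) → P g) :
    ∀ g ≤ R, P g := by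
  have key : ∀ k ≤ R, P (R - k) := by
    intro k
    induction k with
    | zero => intro _; simpa using hR
    | succ k ih =>
      intro hk
      refine h (R - (k + 1)) (by omega) ?_
      have h1 := ih (by omega)
      rwa [show R - (k + 1) + 1 = R - k by omega]
  intro g hg
  have := key (R - g) (by omega)
  rwa [show R - (R - g) = g by omega] at this

theorem rev_tel (R : ℕ) (x s t : ℕ → ℤ) (hs : ∀ g < R, s (g + 1) = sx (x g) (s g))
    (ht : ∀ g < R, t g = sx (-x g) (t (g + 1))) (h0 : t 0 = s 0) (hR : t R = s R) :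
    ∑ g ∈ range R, (if x g = 0 then 0 else s g + t (g + 1)) = 0 := by
  have h1 : ∀ g ∈ range R, (if x g = 0 then 0 else s g + t (g + 1)) =
      (s g - s (g + 1)) + (t (g + 1) - t g) := by
    intro g hg
    have hg' := mem_range.1 hg
    rw [hs g hg', ht g hg']
    by_cases hx : x g = 0
    · rw [if_pos hx, hx, neg_zero, X7_sx_zero, X7_sx_zero]
      ring
    · rw [if_neg hx, X7_sx_ne hx, X7_sx_ne (neg_ne_zero.2 hx), Int.sign_neg]
      ring
  rw [sum_congr rfl h1, sum_add_distrib, sum_range_sub', sum_range_sub, h0, hR]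
  ring

theorem X7_s_pm {R : ℕ} {x s : ℕ → ℤ} (hs : ∀ g < R, s (g + 1) = sx (x g) (s g))
    (hpm : s 0 = 1 ∨ s 0 = -1) : ∀ g ≤ R, s g = 1 ∨ s g = -1 := by
  intro g
  induction g with
  | zero => intro _; exact hpm
  | succ g ih =>
    intro hg
    rw [hs g (by omega)]
    exact sx_pm (ih (by omega))

theorem X7_t_pm {R : ℕ} {x t : ℕ → ℤ} (ht : ∀ g < R, t g = sx (-x g) (t (g + 1)))
    (hpm : t R = 1 ∨ t R = -1) : ∀ g ≤ R, t g = 1 ∨ t g = -1 :=
  X7_down R hpm fun g hg h => by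
    rw [ht g hg]
    exact sx_pm h

theorem rev_one {p D R : ℕ} (hp : p.Prime) (x s t : ℕ → ℤ) (hx : ∀ g < R, |x g| < (p : ℤ) ^ D)
    (hs : ∀ g < R, s (g + 1) = sx (x g) (s g)) (ht : ∀ g < R, t g = sx (-x g) (t (g + 1)))
    (h0 : t 0 = s 0) (hR : t R = s R) (hpm : s 0 = 1 ∨ s 0 = -1) :
    ∑ g ∈ range R, (om p D (x g) (s g) + om p D (-x g) (t (g + 1))) =
      ∑ g ∈ range R, (D : ℝ) * (1 - ((s g + t (g + 1) : ℤ) : ℝ) / 2) - ls p R x s t := by
  have hspm := X7_s_pm hs hpm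
  have htpm := X7_t_pm ht (by rw [hR]; exact hspm R le_rfl)
  have h1 : ∀ g ∈ range R, om p D (x g) (s g) + om p D (-x g) (t (g + 1)) =
      ((D : ℝ) * (1 - ((s g + t (g + 1) : ℤ) : ℝ) / 2) -
        (if x g = 0 then 0 else
          ((s g + t (g + 1) : ℤ) : ℝ) / 2 * (padicValInt p (x g) : ℝ))) +
        ((1 / ((p : ℝ) - 1) + D) / 2) *
          (((if x g = 0 then 0 else s g + t (g + 1) : ℤ)) : ℝ) := by
    intro g hg
    have hg' := mem_range.1 hg
    rw [om_pair hp D (x g) (s g) (t (g + 1)) (hx g hg') (hspm g (by omega))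
      (htpm (g + 1) (by omega))]
    by_cases h : x g = 0
    · simp only [h, if_true]
      push_cast
      ring
    · simp only [h, if_false]
      push_cast
      ring
  have h2 := rev_tel R x s t hs ht h0 hR
  have h3 : ∑ g ∈ range R, ((1 / ((p : ℝ) - 1) + D) / 2) *
      (((if x g = 0 then 0 else s g + t (g + 1) : ℤ)) : ℝ) = 0 := by
    rw [← mul_sum, ← Int.cast_sum, h2, Int.cast_zero, mul_zero]
  rw [sum_congr rfl h1, sum_add_distrib, sum_sub_distrib, h3, add_zero]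
  rfl

theorem flip_zero {p R : ℕ} (x s t : ℕ → ℤ)
    (hs : ∀ g < R, s (g + 1) = sx (x g) (s g)) (ht : ∀ g < R, t g = sx (-x g) (t (g + 1)))
    (hR : t R = s R) (hflip : ∀ g < R, x g ≠ 0 → s g = -(x g).sign) : ls p R x s t = 0 := by
  have hts : ∀ g ≤ R, t g = s g := by
    refine X7_down R hR fun g hg h => ?_
    rw [ht g hg, h, hs g hg]
    by_cases hx : x g = 0
    · rw [hx, neg_zero, X7_sx_zero, X7_sx_zero]
    · rw [X7_sx_ne (neg_ne_zero.2 hx), Int.sign_neg, hflip g hg hx]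
  unfold ls
  refine sum_eq_zero fun g hg => ?_
  have hg' := mem_range.1 hg
  by_cases hx : x g = 0
  · rw [if_pos hx]
  · rw [if_neg hx, hts (g + 1) (by omega), hs g hg', X7_sx_ne hx, hflip g hg' hx]
    simp

/-- signs of multiples -/
theorem X7_sx_mul {a : ℤ} (ha : a ≠ 0) {x : ℤ} {q : ℚ} (hx : (x : ℚ) = a * q) (u : ℤ) :
    sx x (a.sign * u) = a.sign * sx q.num u := by
  by_cases hq : q = 0
  · have h1 : x = 0 := by
      rw [hq, mul_zero] at hx
      exact_mod_cast hx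
    rw [h1, hq, Rat.num_zero, X7_sx_zero, X7_sx_zero]
  · have h1 : x * q.den = a * q.num := by
      have h2 : (x : ℚ) * q.den = a * q.num := by
        rw [hx, mul_assoc, Rat.mul_den_eq_num]
      exact_mod_cast h2
    have h3 : q.num ≠ 0 := Rat.num_ne_zero.2 hq
    have h4 : x ≠ 0 := by
      intro h
      rw [h, zero_mul] at h1
      exact (mul_ne_zero ha h3) h1.symm
    have h5 := congrArg Int.sign h1
    rw [Int.sign_mul, Int.sign_mul, Int.sign_eq_one_of_pos (by exact_mod_cast q.den_pos : (0 : ℤ) < q.den),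
      mul_one] at h5
    rw [X7_sx_ne h4, X7_sx_ne h3, h5]

theorem X7_sign_sq {a : ℤ} (ha : a ≠ 0) : a.sign * a.sign = 1 := by
  rcases X7_sign_pm ha with h | h <;> rw [h] <;> norm_num

theorem class_zero {p R : ℕ} (hp : p.Prime) {ι : Type} [DecidableEq ι] (C : Finset ι)
    (x s t : ι → ℕ → ℤ) (α : ι → ℤ) (X : ℕ → ℚ) (hα : ∀ c ∈ C, α c ≠ 0)
    (hx : ∀ c ∈ C, ∀ g < R, (x c g : ℚ) = α c * X g)
    (hs : ∀ c ∈ C, ∀ g < R, s c (g + 1) = sx (x c g) (s c g))
    (ht : ∀ c ∈ C, ∀ g < R, t c g = sx (-x c g) (t c (g + 1)))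
    (h0 : ∀ c ∈ C, t c 0 = s c 0) (hR : ∀ c ∈ C, t c R = s c R)
    (hs0 : ∀ c ∈ C, s c 0 = (α c).sign) (hnet : ∑ c ∈ C, (α c).sign = 0) :
    ∑ c ∈ C, ls p R (x c) (s c) (t c) = 0 := by
  have : Fact p.Prime := ⟨hp⟩
  rcases C.eq_empty_or_nonempty with hC | ⟨c0, hc0⟩
  · rw [hC, sum_empty]
  -- the common signs
  obtain ⟨S, hS⟩ : ∃ S : ℕ → ℤ, ∀ g, S g = (α c0).sign * s c0 g := ⟨_, fun _ => rfl⟩
  obtain ⟨T, hT⟩ : ∃ T : ℕ → ℤ, ∀ g, T g = (α c0).sign * t c0 g := ⟨_, fun _ => rfl⟩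
  have hsq := X7_sign_sq (hα c0 hc0)
  have hS0 : ∀ g, s c0 g = (α c0).sign * S g := by
    intro g
    rw [hS, ← mul_assoc, hsq, one_mul]
  have hT0 : ∀ g, t c0 g = (α c0).sign * T g := by
    intro g
    rw [hT, ← mul_assoc, hsq, one_mul]
  have hSrec : ∀ g < R, S (g + 1) = sx (X g).num (S g) := by
    intro g hg
    rw [hS (g + 1), hs c0 hc0 g hg, hS0 g, X7_sx_mul (hα c0 hc0) (hx c0 hc0 g hg), ← mul_assoc,
      hsq, one_mul]
  have hxneg : ∀ c ∈ C, ∀ g < R, ((-x c g : ℤ) : ℚ) = α c * (-X g) := by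
    intro c hc g hg
    push_cast
    rw [hx c hc g hg]
    ring
  have hTrec : ∀ g < R, T g = sx (-X g).num (T (g + 1)) := by
    intro g hg
    rw [hT g, ht c0 hc0 g hg, hT0 (g + 1), X7_sx_mul (hα c0 hc0) (hxneg c0 hc0 g hg), ← mul_assoc,
      hsq, one_mul]
  have hsS : ∀ c ∈ C, ∀ g ≤ R, s c g = (α c).sign * S g := by
    intro c hc g
    induction g with
    | zero =>
      intro _
      rw [hs0 c hc, hS, hs0 c0 hc0, hsq, mul_one]
    | succ g ih =>
      intro hg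
      rw [hs c hc g (by omega), ih (by omega), X7_sx_mul (hα c hc) (hx c hc g (by omega)),
        hSrec g (by omega)]
  have hTR : T R = S R := by rw [hT, hS, hR c0 hc0]
  have htT : ∀ c ∈ C, ∀ g ≤ R, t c g = (α c).sign * T g := by
    intro c hc
    refine X7_down R ?_ fun g hg h => ?_
    · rw [hR c hc, hsS c hc R le_rfl, hTR]
    · rw [ht c hc g hg, h, X7_sx_mul (hα c hc) (hxneg c hc g hg), ← hTrec g hg]
  have hx0 : ∀ c ∈ C, ∀ g < R, (x c g = 0 ↔ X g = 0) := by
    intro c hc g hg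
    have h1 := hx c hc g hg
    have h2 : (α c : ℚ) ≠ 0 := by exact_mod_cast hα c hc
    constructor
    · intro h
      rw [h, Int.cast_zero] at h1
      exact (mul_eq_zero.1 h1.symm).resolve_left h2
    · intro h
      rw [h, mul_zero] at h1
      exact_mod_cast h1
  have hval : ∀ c ∈ C, ∀ g < R, X g ≠ 0 →
      (padicValInt p (x c g) : ℝ) = (padicValInt p (α c) : ℝ) + ((padicValRat p (X g) : ℤ) : ℝ) := by
    intro c hc g hg hX
    have h2 : (α c : ℚ) ≠ 0 := by exact_mod_cast hα c hc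
    have h3 : ((padicValInt p (x c g) : ℕ) : ℤ) =
        ((padicValInt p (α c) : ℕ) : ℤ) + padicValRat p (X g) := by
      rw [← padicValRat.of_int, ← padicValRat.of_int, hx c hc g hg, padicValRat.mul h2 hX]
    exact_mod_cast h3
  -- the two sums over `g`
  have hA : ∑ g ∈ range R, (if X g = 0 then (0 : ℝ) else ((S g + T (g + 1) : ℤ) : ℝ) / 2) = 0 := by
    have h1 := rev_tel R (x c0) (s c0) (t c0) (hs c0 hc0) (ht c0 hc0) (h0 c0 hc0) (hR c0 hc0)
    have h2 : ∀ g ∈ range R, (if X g = 0 then (0 : ℝ) else ((S g + T (g + 1) : ℤ) : ℝ) / 2) =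
        ((α c0).sign : ℝ) / 2 *
          ((if x c0 g = 0 then 0 else s c0 g + t c0 (g + 1) : ℤ) : ℝ) := by
      intro g hg
      have hg' := mem_range.1 hg
      by_cases h : X g = 0
      · rw [if_pos h, if_pos ((hx0 c0 hc0 g hg').2 h), Int.cast_zero, mul_zero]
      · rw [if_neg h, if_neg (fun h' => h ((hx0 c0 hc0 g hg').1 h')), hS, hT]
        push_cast
        ring
    rw [sum_congr rfl h2, ← mul_sum, ← Int.cast_sum, h1, Int.cast_zero, mul_zero]
  have hterm : ∀ c ∈ C, ls p R (x c) (s c) (t c) =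
      ((α c).sign : ℝ) * (padicValInt p (α c) : ℝ) *
        (∑ g ∈ range R, (if X g = 0 then (0 : ℝ) else ((S g + T (g + 1) : ℤ) : ℝ) / 2)) +
      ((α c).sign : ℝ) * ∑ g ∈ range R, (if X g = 0 then (0 : ℝ) else
        ((S g + T (g + 1) : ℤ) : ℝ) / 2 * ((padicValRat p (X g) : ℤ) : ℝ)) := by
    intro c hc
    unfold ls
    rw [mul_sum, mul_sum, ← sum_add_distrib]
    refine sum_congr rfl fun g hg => ?_
    have hg' := mem_range.1 hg
    by_cases h : X g = 0
    · rw [if_pos h, if_pos ((hx0 c hc g hg').2 h), if_pos h]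
      ring
    · rw [if_neg h, if_neg (fun h' => h ((hx0 c hc g hg').1 h')), if_neg h,
        hsS c hc g (by omega), htT c hc (g + 1) (by omega), hval c hc g hg' h]
      push_cast
      ring
  rw [sum_congr rfl hterm, hA]
  simp only [mul_zero, zero_add]
  rw [← sum_mul, ← Int.cast_sum, hnet, Int.cast_zero, zero_mul]

end Pool.Agent.Helper50.FE
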