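import Pool.Agent.Helper50.FE.F2
import Pool.Agent.Helper50.FE.X7

/-!
MP_0aa406_nt, project FE: the loss of a fan is zero.

Split the rows: (A) rows with `α c ≠ 0`, `β c ≠ 0`, slope `r = - β c / α c > 0` not among the `a i`: group them by `r`
(`Finset.sum_fiberwise` over the finite set of slopes); each group has `∑ sign (α c) = net α β r = 0` (`Fan.hzero`), and
`class_zero` applies with `X g = (-1)^(g+1) (x g - r y g)`, `(x g, y g) = fv Q a g`; `s c 0 = r0 = sign (α c)`.
(B) all other rows flip (`fan_flip`), so their loss is `0` (`flip_zero`).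
-/

set_option autoImplicit false

namespace Pool.Agent.Helper50.FE

open Finset

theorem fan_loss {ι : Type} [Fintype ι] [DecidableEq ι] {α β ρ : ι → ℤ} {Q : ℕ} {a : ℕ → ℚ}
    {p : ℕ} (hp : p.Prime) (F : Fan α β ρ Q a) :
    ∑ c, ls p (2 * Q + 4) (fun g => fz α β Q a g c) (fun g => fs α β ρ Q a g c)
      (fun g => bs α β ρ Q a g c) = 0 := by
  have hs : ∀ c : ι, ∀ g < 2 * Q + 4, fs α β ρ Q a (g + 1) c =
      sx (fz α β Q a g c) (fs α β ρ Q a g c) := fun c g _ => rfl
  have ht : ∀ c : ι, ∀ g < 2 * Q + 4, bs α β ρ Q a g c =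
      sx (-fz α β Q a g c) (bs α β ρ Q a (g + 1) c) := fun c g hg => bs_succ F g hg c
  let L : ι → ℝ := fun c => ls p (2 * Q + 4) (fun g => fz α β Q a g c)
    (fun g => fs α β ρ Q a g c) (fun g => bs α β ρ Q a g c)
  let _ : DecidablePred (fun c : ι => α c ≠ 0 ∧ (β c : ℚ) / α c < 0 ∧
    ∀ i, 1 ≤ i → i ≤ 2 * Q → (β c : ℚ) ≠ - a i * α c) := Classical.decPred _
  let A : Finset ι := univ.filter (fun c => α c ≠ 0 ∧ (β c : ℚ) / α c < 0 ∧
    ∀ i, 1 ≤ i → i ≤ 2 * Q → (β c : ℚ) ≠ - a i * α c)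
  have hB : ∀ c, c ∉ A → L c = 0 := by
    intro c hc
    refine flip_zero (fun g => fz α β Q a g c) (fun g => fs α β ρ Q a g c)
      (fun g => bs α β ρ Q a g c) (hs c) (ht c) (bs_last F c) ?_
    intro g hg hz
    refine fan_flip F c ?_ g hg hz
    by_contra hcon
    push Not at hcon
    exact hc (mem_filter.mpr ⟨mem_univ _, hcon.1, hcon.2.1, fun i h1 h2 => hcon.2.2 i h1 h2⟩)
  have hsum : ∑ c, L c = ∑ c ∈ A, L c :=
    (Finset.sum_subset (subset_univ _) (fun c _ hc => hB c hc)).symm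
  change ∑ c, L c = 0
  rw [hsum, ← Finset.sum_fiberwise_of_maps_to
    (t := A.image (fun c => -((β c : ℚ) / α c))) (g := fun c => -((β c : ℚ) / α c))
    (fun c hc => mem_image_of_mem _ hc)]
  refine Finset.sum_eq_zero fun r hr => ?_
  obtain ⟨c0, hc0, hrc0⟩ := mem_image.mp hr
  obtain ⟨_, hα0, hneg, hne⟩ := mem_filter.mp hc0
  have hα0' : (α c0 : ℚ) ≠ 0 := by exact_mod_cast hα0
  have hrpos : 0 < r := by rw [← hrc0]; linarith
  have hβ0 : (β c0 : ℚ) = -r * α c0 := by
    rw [← hrc0]; field_simp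
  have hrne : ∀ i, 1 ≤ i → i ≤ 2 * Q → r ≠ a i := by
    intro i h1 h2 he
    exact hne i h1 h2 (by rw [← he]; exact hβ0)
  have hC : A.filter (fun c => -((β c : ℚ) / α c) = r) =
      univ.filter (fun c => α c ≠ 0 ∧ (β c : ℚ) = -r * α c) := by
    ext c
    constructor
    · intro h
      obtain ⟨hcA, hcr⟩ := mem_filter.mp h
      obtain ⟨_, h1, -, -⟩ := mem_filter.mp hcA
      have h1' : (α c : ℚ) ≠ 0 := by exact_mod_cast h1
      refine mem_filter.mpr ⟨mem_univ _, h1, ?_⟩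
      rw [← hcr]; field_simp
    · intro h
      obtain ⟨_, h1, h2⟩ := mem_filter.mp h
      have h1' : (α c : ℚ) ≠ 0 := by exact_mod_cast h1
      have h3 : (β c : ℚ) / α c = -r := by rw [h2]; field_simp
      refine mem_filter.mpr ⟨mem_filter.mpr ⟨mem_univ _, h1, ?_, ?_⟩, ?_⟩
      · rw [h3]; linarith
      · intro i hi1 hi2 he
        apply hrne i hi1 hi2
        have h4 : -r * (α c : ℚ) = - a i * α c := by rw [← h2, he]
        have h5 := mul_right_cancel₀ h1' h4
        linarith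
      · rw [h3]; ring
  have hnet : ∑ c ∈ A.filter (fun c => -((β c : ℚ) / α c) = r), (α c).sign = 0 := by
    rw [hC]; exact F.hzero r hrpos hrne
  have hmem : ∀ c ∈ A.filter (fun c => -((β c : ℚ) / α c) = r),
      α c ≠ 0 ∧ (β c : ℚ) = -r * α c := by
    intro c hc
    rw [hC] at hc
    exact (mem_filter.mp hc).2
  refine class_zero hp (A.filter (fun c => -((β c : ℚ) / α c) = r))
    (fun c g => fz α β Q a g c) (fun c g => fs α β ρ Q a g c) (fun c g => bs α β ρ Q a g c) α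
    (fun g => (-1) ^ (g + 1) * (((fv Q a g).1 : ℚ) - r * ((fv Q a g).2 : ℚ)))
    (fun c hc => (hmem c hc).1) ?_ (fun c _ => hs c) (fun c _ => ht c)
    (fun c _ => bs_zero F c) (fun c _ => bs_last F c) ?_ hnet
  · intro c hc g _
    have h2 := (hmem c hc).2
    simp only [fz]
    push_cast
    rw [h2]
    ring
  · intro c hc
    have h1 := (hmem c hc).1
    simp only [fs, r0, sx, if_neg h1]

end Pool.Agent.Helper50.FE
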