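import Pool.Agent.Helper50.FE.E0
import Pool.Agent.Helper21.FD.U1

/-!
MP_0aa406_nt, project FE: fixed characteristic, all large degrees.

Suppose not: for every `ν` there are `n ν ≥ ν` (and `≥ 1`) and `d ν` without the gain.  Copy of the proof of
`FD.no_bad_sequence'` with `p ν = p`, `l ν = l`, `ε = 1 / (2 l)`; in the case of one class `exact_class p l`.
-/

set_option autoImplicit false

namespace Pool.Agent.Helper50.FE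

open Finset Filter Pool.Agent.Helper21.FC Pool.Agent.Helper21.FD

private theorem P1_seq (p l : ℕ) (hp' : p.Prime) (hl : l.Prime) (hl2 : l ≠ 2) (n : ℕ → ℕ)
    (d : ℕ → ℤ) (hn1 : ∀ ν, 1 ≤ n ν) (hn : ∀ ν, ν ≤ n ν)
    (hlq : ∀ ν, ∀ q : ℕ, q.Prime → q ≠ 2 → q ∣ n ν → l ≤ q)
    (hd : ∀ ν, IsCoprime (d ν) (NN p (n ν)))
    (hnd : ∀ ν, ∀ j : ℕ, ¬ NN p (n ν) ∣ d ν - (p : ℤ) ^ j)
    (hbad : ∀ ν, ¬ Gain p (n ν) (d ν) ((1 / 2 - 1 / (2 * (l : ℝ))) * n ν)) : False := by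
  classical
  have hl3 : (3 : ℝ) ≤ l := by
    have h1 := hl.two_le
    have h2 : 3 ≤ l := by omega
    exact_mod_cast h2
  obtain ⟨ε, hεdef⟩ : ∃ ε : ℝ, ε = 1 / (2 * (l : ℝ)) := ⟨_, rfl⟩
  have hε : 0 < ε := by rw [hεdef]; positivity
  have hε2 : ε < 1 / 2 := by
    rw [hεdef, div_lt_div_iff₀ (by positivity) (by norm_num)]
    linarith
  have hbad0 : ∀ ν, ¬ Gain p (n ν) (d ν) ((1 / 2 - ε) * n ν) := by
    intro ν
    rw [hεdef]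
    exact hbad ν
  obtain ⟨P, hPdef⟩ : ∃ P : ℕ → ℕ, P = fun _ => p := ⟨_, rfl⟩
  have hPν : ∀ ν, P ν = p := fun ν => by rw [hPdef]
  have hp : ∀ ν, (P ν).Prime := fun ν => by rw [hPν]; exact hp'
  have hbad0 : ∀ ν, ¬ Gain (P ν) (n ν) (d ν) ((1 / 2 - ε) * n ν) := fun ν => by
    rw [hPν]
    exact hbad0 ν
  have hd : ∀ ν, IsCoprime (d ν) (NN (P ν) (n ν)) := fun ν => by rw [hPν]; exact hd ν
  have hnd : ∀ ν, ∀ j : ℕ, ¬ NN (P ν) (n ν) ∣ d ν - (P ν : ℤ) ^ j := fun ν j => by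
    rw [hPν]
    exact hnd ν j
  have hinv : ∀ ν, ∃ d' : ℤ, NN (P ν) (n ν) ∣ d ν * d' - 1 := by
    intro ν
    obtain ⟨a, b, hab⟩ := hd ν
    refine ⟨a, -b, ?_⟩
    linear_combination hab
  choose d' hd' using hinv
  have hbad' : ∀ ν, ¬ Gain (P ν) (n ν) (d' ν) ((1 / 2 - ε) * n ν) := fun ν hg =>
    hbad0 ν (gain_inv (hp ν).two_le (hn1 ν) (hd' ν) hg)
  obtain ⟨H, K, hHK⟩ := small_multiple ε hε hε2
  have h1 : ∀ ν, ∃ h : ℕ, (1 ≤ h ∧ h ≤ H) ∧ ∃ (q : Fin K → ℕ) (u : Fin K → ℤ),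
      (∀ i, |u i| ≤ P ν) ∧ NN (P ν) (n ν) ∣ (h : ℤ) * d ν - ∑ i, u i * (P ν : ℤ) ^ q i := by
    intro ν
    obtain ⟨h, hh1, hh2, hc⟩ := hHK (P ν) (n ν) (hp ν).two_le (hn1 ν) (d ν) (hbad0 ν)
    obtain ⟨q, u, _, hu, hdv⟩ := telescope (hp ν).two_le (hn1 ν) _ K hc
    exact ⟨h, ⟨hh1, hh2⟩, q, u, hu, hdv⟩
  have h2 : ∀ ν, ∃ h : ℕ, (1 ≤ h ∧ h ≤ H) ∧ ∃ (q : Fin K → ℕ) (u : Fin K → ℤ),
      (∀ i, |u i| ≤ P ν) ∧ NN (P ν) (n ν) ∣ (h : ℤ) * d' ν - ∑ i, u i * (P ν : ℤ) ^ q i := by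
    intro ν
    obtain ⟨h, hh1, hh2, hc⟩ := hHK (P ν) (n ν) (hp ν).two_le (hn1 ν) (d' ν) (hbad' ν)
    obtain ⟨q, u, _, hu, hdv⟩ := telescope (hp ν).two_le (hn1 ν) _ K hc
    exact ⟨h, ⟨hh1, hh2⟩, q, u, hu, hdv⟩
  choose h hh q u hu hrel using h1
  choose h' hh' q' u' hu' hrel' using h2
  let U : Ultrafilter ℕ := hyperfilter ℕ
  have hU : (U : Filter ℕ) ≤ atTop := Nat.hyperfilter_le_atTop
  have hc1 : ∃ h0 ∈ Set.Icc 1 H, ∀ᶠ ν in (U : Filter ℕ), h ν = h0 :=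
    (Ultrafilter.eventually_exists_mem_iff (Set.finite_Icc 1 H)).mp
      (Eventually.of_forall fun ν => ⟨h ν, hh ν, rfl⟩)
  have hc2 : ∃ h0 ∈ Set.Icc 1 H, ∀ᶠ ν in (U : Filter ℕ), h' ν = h0 :=
    (Ultrafilter.eventually_exists_mem_iff (Set.finite_Icc 1 H)).mp
      (Eventually.of_forall fun ν => ⟨h' ν, hh' ν, rfl⟩)
  obtain ⟨h0, hh0, e0⟩ := hc1
  obtain ⟨h0', hh0', e0'⟩ := hc2
  have hpos : 0 < h0 := hh0.1
  have hpos' : 0 < h0' := hh0'.1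
  have hn' : ∀ m : ℕ, ∀ᶠ ν in (U : Filter ℕ), m < n ν := by
    intro m
    filter_upwards [hU (eventually_gt_atTop m)] with ν hν
    exact lt_of_lt_of_le hν (hn ν)
  have hprod : ∀ᶠ ν in (U : Filter ℕ), NN (P ν) (n ν) ∣
      (∑ i, u ν i * (P ν : ℤ) ^ q ν i) * (∑ j, u' ν j * (P ν : ℤ) ^ q' ν j) -
        ((h0 * h0' : ℕ) : ℤ) := by
    filter_upwards [e0, e0'] with ν h1 h2
    obtain ⟨a, ha⟩ := hrel ν
    obtain ⟨b, hb⟩ := hrel' ν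
    obtain ⟨c, hc⟩ := hd' ν
    rw [h1] at ha
    rw [h2] at hb
    refine ⟨h0 * h0' * c - (∑ i, u ν i * (P ν : ℤ) ^ q ν i) * b - h0' * d' ν * a, ?_⟩
    push_cast
    linear_combination (-(h0' : ℤ) * d' ν) * ha -
      (∑ i, u ν i * (P ν : ℤ) ^ q ν i) * hb + (h0 * h0' : ℤ) * hc
  obtain ⟨k, _, B, A, A', a0, b0, r, r', M, M', ha0, hb0, hA, hA', hst⟩ := structure_fd U P n
    (fun ν => (hp ν).two_le) hn' (fun i ν => q ν i) (fun i ν => u ν i) (fun i ν => q' ν i)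
    (fun i ν => u' ν i) (fun i ν => hu ν i) (fun i ν => hu' ν i) (h0 * h0')
    (Nat.mul_pos hpos hpos') hprod
  -- the relation for `d` and for `d'`
  have hrd : ∀ᶠ ν in (U : Filter ℕ), NN (P ν) (n ν) ∣ (h0 : ℤ) * d ν -
      ∑ a ∈ A, (P ν : ℤ) ^ r a ν * ev (P ν) (n ν) (M a ν) := by
    filter_upwards [e0, hst] with ν h3 h4
    have h5 := hrel ν
    rw [h3] at h5
    have h6 := dvd_add h5 h4.2.2.2.2.2.2.2.2.1
    rwa [sub_add_sub_cancel] at h6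
  have hrd' : ∀ᶠ ν in (U : Filter ℕ), NN (P ν) (n ν) ∣ (h0' : ℤ) * d' ν -
      ∑ b ∈ A', (P ν : ℤ) ^ r' b ν * ev (P ν) (n ν) (M' b ν) := by
    filter_upwards [e0', hst] with ν h3 h4
    have h5 := hrel' ν
    rw [h3] at h5
    have h6 := dvd_add h5 h4.2.2.2.2.2.2.2.2.2.1
    rwa [sub_add_sub_cancel] at h6
  have hAc : 1 ≤ A.card := Finset.card_pos.mpr ⟨a0, ha0⟩
  have hAc' : 1 ≤ A'.card := Finset.card_pos.mpr ⟨b0, hb0⟩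
  rcases Nat.lt_or_ge 1 A.card with hA2 | hA1
  · -- at least two classes for `d`
    obtain ⟨Q, D, N1, hmul⟩ := multi_class k (Fin K) h0 B hpos ε hε hε2
    obtain ⟨ν, h3, h4, h5, h6⟩ := (hst.and (hrd.and ((U1_far U n A r hA Q D).and (hn' N1)))).exists
    obtain ⟨g1, g2, g3, g4, g5, g6, g7, g8, g9, g10, g11⟩ := h3
    exact hbad0 ν (hmul (P ν) (hp ν) (n ν) h6.le A a0 (fun a => r a ν) (fun a => M a ν) ha0 hA2 g1
      g3 g7 g5 h5 (d ν) h4)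
  rcases Nat.lt_or_ge 1 A'.card with hA2' | hA1'
  · -- at least two classes for `d'`
    obtain ⟨Q, D, N1, hmul⟩ := multi_class k (Fin K) h0' B hpos' ε hε hε2
    obtain ⟨ν, h3, h4, h5, h6⟩ :=
      (hst.and (hrd'.and ((U1_far U n A' r' hA' Q D).and (hn' N1)))).exists
    obtain ⟨g1, g2, g3, g4, g5, g6, g7, g8, g9, g10, g11⟩ := h3
    exact hbad' ν (hmul (P ν) (hp ν) (n ν) h6.le A' b0 (fun a => r' a ν) (fun a => M' a ν) hb0 hA2'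
      g2 g4 g8 g6 h5 (d' ν) h4)
  -- one class
  have hcA : A.card = 1 := le_antisymm hA1 hAc
  have hcA' : A'.card = 1 := le_antisymm hA1' hAc'
  obtain ⟨x, hx⟩ := Finset.card_eq_one.mp hcA
  obtain ⟨x', hx'⟩ := Finset.card_eq_one.mp hcA'
  have hx0 : x = a0 := by
    rw [hx] at ha0
    exact (Finset.mem_singleton.mp ha0).symm
  have hx0' : x' = b0 := by
    rw [hx'] at hb0
    exact (Finset.mem_singleton.mp hb0).symm
  subst hx0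
  subst hx0'
  obtain ⟨N1, hfin⟩ := exact_class p l hp' hl hl2 k h0 h0' B hpos hpos'
  obtain ⟨ν, h3, h4, h5, h6⟩ := (hst.and (hrd.and (hrd'.and (hn' N1)))).exists
  obtain ⟨g1, g2, g3, g4, g5, g6, g7, g8, g9, g10, g11⟩ := h3
  rw [hx, Finset.sum_singleton] at h4
  rw [hx', Finset.sum_singleton] at h5
  have hone : OneClass (P ν) (n ν) B h0 h0' (M x ν) (M' x' ν) (d ν) (d' ν) :=
    ⟨g1 x ha0, g2 x' hb0, g11 hcA hcA', hd' ν, ⟨_, h4⟩, ⟨_, h5⟩⟩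
  rw [hPν] at hone
  have hnd' := hnd ν
  rw [hPν] at hnd'
  exact hbad ν (hfin (n ν) h6.le (hlq ν) _ _ _ _ hone hnd')

theorem gain_fixed (p l : ℕ) (hp : p.Prime) (hl : l.Prime) (hl2 : l ≠ 2) : ∃ N : ℕ, ∀ n : ℕ,
    N ≤ n → (∀ q : ℕ, q.Prime → q ≠ 2 → q ∣ n → l ≤ q) → ∀ d : ℤ, IsCoprime d (NN p n) →
    (∀ j : ℕ, ¬ NN p n ∣ d - (p : ℤ) ^ j) → Gain p n d ((1 / 2 - 1 / (2 * (l : ℝ))) * n) := by
  by_contra hcon
  push Not at hcon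
  choose n hn hq d hd hnd hbad using fun ν : ℕ => hcon (ν + 1)
  exact P1_seq p l hp hl hl2 n d (fun ν => le_trans (by omega) (hn ν))
    (fun ν => le_trans (by omega) (hn ν)) hq hd hnd hbad

end Pool.Agent.Helper50.FE
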