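import Pool.Agent.Helper50.FE.P1
import Pool.Agent.Helper21.FD.U2
import Pool.Agent.Helper50.UC.Z3

/-!
MP_0aa406_nt, project FE: the theorem.

(1) `fixed_fe`: from `gain_fixed p l` for the degree `m` (`l` = least odd prime factor of `m`): `NN p m ∣ NN p n`, `d` is coprime to `NN p m`
and not a power of `p` modulo it; `FC.digits_of_gain` in degree `m`, then `FC.lift_real` to `n = m t` (compare the proofs of `FD.main_fd`,
`UC.main_uc`).  `m - (1/2 - 1/(2l)) m = (l + 1)/(2 l) m ≤ max .. m`.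
(2) `main_fe`: given `ε`: `P` from `UC.main_uc ε`: done for `p ≥ P`.  For the finitely many primes `p < P`: `L = ⌈2 / ε⌉ + 3`; for
`l ≥ L`: `FD.main_fd (ε / 2)` with constant `C`: bound `(max (1/2 + ε/2) ((l+1)/(2l)) n + C n / m)`, where `(l+1)/(2l) = 1/2 + 1/(2l) ≤ 1/2 + ε/2` (so the
max is `≤ 1/2 + ε/2`) and `C / m ≤ ε / 2` for `m` large: `≤ (1/2 + ε) n`.  For `l < L` (finitely many): `fixed_fe p l`, `m ≥ N(p, l)`.
`N0` := `P ^ (N + 1)` where `N` bounds all the degrees: `N0 ≤ p ^ m` and `p < P` imply `m ≥ N`.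
-/

set_option autoImplicit false

namespace Pool.Agent.Helper50.FE

open Finset Filter Pool.Agent.Helper21.FC Pool.Agent.Helper21.FD

private theorem P2_cast {p n : ℕ} (hp : 2 ≤ p) : ((p ^ n - 1 : ℕ) : ℤ) = NN p n := by
  have h1 : 1 ≤ p ^ n := Nat.one_le_pow _ _ (by omega)
  unfold NN
  rw [Nat.cast_sub h1]
  push_cast
  ring

theorem fixed_fe (p l : ℕ) (hp : p.Prime) (hl : l.Prime) (hl2 : l ≠ 2) : ∃ N : ℕ, ∀ m : ℕ,
    0 < m → N ≤ m → (∀ q : ℕ, q.Prime → q ≠ 2 → q ∣ m → l ≤ q) →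
    ∀ n : ℕ, 0 < n → m ∣ n → ∀ d : ℕ,
      Nat.Coprime d (p ^ n - 1) → (∀ k : ℕ, ¬ d ≡ p ^ k [MOD p ^ m - 1]) →
      ∃ a b : ℕ, 0 < a ∧ a < p ^ n - 1 ∧ b < p ^ n - 1 ∧ (p ^ n - 1) ∣ d * a + b ∧
        (((Nat.digits p a).sum + (Nat.digits p b).sum : ℕ) : ℝ) ≤
          (((l : ℝ) + 1) / (2 * l)) * n * ((p : ℝ) - 1) := by
  obtain ⟨N, hN⟩ := gain_fixed p l hp hl hl2
  refine ⟨N, ?_⟩
  intro m hm hmN hlq n hn hmn d hd hk
  have hp2 : 2 ≤ p := hp.two_le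
  obtain ⟨t, rfl⟩ := hmn
  have ht : 0 < t := Nat.pos_of_ne_zero (by rintro rfl; simp at hn)
  have hdvd : (p ^ m - 1) ∣ (p ^ (m * t) - 1) := by
    have := Nat.sub_dvd_pow_sub_pow (p ^ m) 1 t
    rwa [one_pow, ← pow_mul] at this
  have hdm : Nat.Coprime d (p ^ m - 1) := Nat.Coprime.coprime_dvd_right hdvd hd
  have hcop : IsCoprime (d : ℤ) (NN p m) := by
    rw [← P2_cast hp2]
    exact Nat.isCoprime_iff_coprime.mpr hdm
  have hnd : ∀ j : ℕ, ¬ NN p m ∣ (d : ℤ) - (p : ℤ) ^ j := by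
    intro j hj
    apply hk j
    rw [← P2_cast hp2] at hj
    have h2 : ((p ^ m - 1 : ℕ) : ℤ) ∣ (d : ℤ) - ((p ^ j : ℕ) : ℤ) := by
      push_cast at hj ⊢
      exact hj
    exact (Nat.modEq_iff_dvd.mpr h2).symm
  have hg := hN m hmN hlq (d : ℤ) hcop hnd
  have hl0 : (0 : ℝ) < l := by exact_mod_cast hl.pos
  have hc : ((1 / 2 - 1 / (2 * (l : ℝ))) * m : ℝ) = m - (((l : ℝ) + 1) / (2 * l)) * m := by
    field_simp
    ring
  rw [hc] at hg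
  have h3 := digits_of_gain hp2 hm d hdm hg
  obtain ⟨a, b, h4, h5, h6, h7, h8⟩ := lift_real hp2 m t hm ht d _ h3
  refine ⟨a, b, h4, h5, h6, h7, h8.trans (le_of_eq ?_)⟩
  push_cast
  ring

theorem main_fe (ε : ℝ) (hε : 0 < ε) : ∃ N0 : ℕ, ∀ p : ℕ, p.Prime →
    ∀ m l : ℕ, 0 < m → N0 ≤ p ^ m → l.Prime → l ≠ 2 → l ∣ m →
    (∀ q : ℕ, q.Prime → q ≠ 2 → q ∣ m → l ≤ q) →
    ∀ n : ℕ, 0 < n → m ∣ n → ∀ d : ℕ,
      Nat.Coprime d (p ^ n - 1) → (∀ k : ℕ, ¬ d ≡ p ^ k [MOD p ^ m - 1]) →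
      ∃ a b : ℕ, 0 < a ∧ a < p ^ n - 1 ∧ b < p ^ n - 1 ∧ (p ^ n - 1) ∣ d * a + b ∧
        (((Nat.digits p a).sum + (Nat.digits p b).sum : ℕ) : ℝ) ≤
          max (1 / 2 + ε) (((l : ℝ) + 1) / (2 * l)) * n * ((p : ℝ) - 1) := by
  obtain ⟨P, hP⟩ := Pool.Agent.Helper50.UC.main_uc ε hε
  obtain ⟨C, hC⟩ := main_fd (ε / 2) (by linarith)
  obtain ⟨L, hL⟩ := exists_nat_ge (1 / ε)
  obtain ⟨M1, hM1⟩ := exists_nat_ge (2 * C / ε)
  have key : ∀ x : ℕ × ℕ, ∃ N : ℕ, x.1.Prime → x.2.Prime → x.2 ≠ 2 → ∀ m : ℕ,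
      0 < m → N ≤ m → (∀ q : ℕ, q.Prime → q ≠ 2 → q ∣ m → x.2 ≤ q) →
      ∀ n : ℕ, 0 < n → m ∣ n → ∀ d : ℕ,
      Nat.Coprime d (x.1 ^ n - 1) → (∀ k : ℕ, ¬ d ≡ x.1 ^ k [MOD x.1 ^ m - 1]) →
      ∃ a b : ℕ, 0 < a ∧ a < x.1 ^ n - 1 ∧ b < x.1 ^ n - 1 ∧ (x.1 ^ n - 1) ∣ d * a + b ∧
        (((Nat.digits x.1 a).sum + (Nat.digits x.1 b).sum : ℕ) : ℝ) ≤
          (((x.2 : ℝ) + 1) / (2 * x.2)) * n * ((x.1 : ℝ) - 1) := by
    intro x
    by_cases h : x.1.Prime ∧ x.2.Prime ∧ x.2 ≠ 2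
    · obtain ⟨h1, h2, h3⟩ := h
      obtain ⟨N, hN⟩ := fixed_fe x.1 x.2 h1 h2 h3
      exact ⟨N, fun _ _ _ => hN⟩
    · exact ⟨0, fun h1 h2 h3 => absurd ⟨h1, h2, h3⟩ h⟩
  choose N hN using key
  obtain ⟨M, hM⟩ : ∃ M : ℕ, M = max M1 ((range P ×ˢ range L).sup N) := ⟨_, rfl⟩
  refine ⟨P ^ M + 1, ?_⟩
  intro p hp m l hm hpm hl hl2 hlm hlq n hn hmn d hd hk
  rcases Nat.lt_or_ge p P with hpP | hpP
  swap
  · exact hP p hp hpP m l hm hl hl2 hlm hlq n hn hmn d hd hk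
  have hMm : M ≤ m := by
    by_contra hlt
    have h1 : p ^ m ≤ P ^ m := Nat.pow_le_pow_left hpP.le m
    have h2 : P ^ m ≤ P ^ M := Nat.pow_le_pow_right (by omega) (by omega)
    omega
  have hp1 : (0 : ℝ) ≤ (p : ℝ) - 1 := by
    have : (2 : ℝ) ≤ p := by exact_mod_cast hp.two_le
    linarith
  have hn0 : (0 : ℝ) ≤ (n : ℝ) := Nat.cast_nonneg _
  have hm0 : (0 : ℝ) < m := by exact_mod_cast hm
  have hl0 : (0 : ℝ) < l := by exact_mod_cast hl.pos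
  rcases Nat.lt_or_ge l L with hlL | hlL
  · have h1 : N (p, l) ≤ m := by
      refine le_trans ?_ hMm
      rw [hM]
      refine le_max_of_le_right (Finset.le_sup (f := N) ?_)
      rw [Finset.mem_product, Finset.mem_range, Finset.mem_range]
      exact ⟨hpP, hlL⟩
    obtain ⟨a, b, h2, h3, h4, h5, h6⟩ := hN (p, l) hp hl hl2 m hm h1 hlq n hn hmn d hd hk
    refine ⟨a, b, h2, h3, h4, h5, h6.trans ?_⟩
    exact mul_le_mul_of_nonneg_right (mul_le_mul_of_nonneg_right (le_max_right _ _) hn0) hp1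
  · obtain ⟨a, b, h2, h3, h4, h5, h6⟩ := hC p hp m hm l hl.one_le hlq n hn hmn d hd hk
    refine ⟨a, b, h2, h3, h4, h5, h6.trans ?_⟩
    apply mul_le_mul_of_nonneg_right _ hp1
    have h7 : ((l : ℝ) + 1) / (2 * l) ≤ 1 / 2 + ε / 2 := by
      have h8 : 1 / ε ≤ l := hL.trans (by exact_mod_cast hlL)
      rw [div_le_iff₀ hε] at h8
      rw [div_le_iff₀ (by positivity)]
      nlinarith
    have h9 : max (1 / 2 + ε / 2) (((l : ℝ) + 1) / (2 * l)) ≤ 1 / 2 + ε / 2 :=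
      max_le le_rfl h7
    have h10 : C * ((n : ℝ) / m) ≤ ε / 2 * n := by
      have h11 : (M1 : ℝ) ≤ m := by
        have : M1 ≤ m := le_trans (by rw [hM]; exact le_max_left _ _) hMm
        exact_mod_cast this
      have h12 : 2 * C / ε ≤ m := hM1.trans h11
      rw [div_le_iff₀ hε] at h12
      rw [← mul_div_assoc, div_le_iff₀ hm0]
      nlinarith
    have h13 : max (1 / 2 + ε / 2) (((l : ℝ) + 1) / (2 * l)) * (n : ℝ) ≤ (1 / 2 + ε / 2) * n :=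
      mul_le_mul_of_nonneg_right h9 hn0
    have h14 : (1 / 2 + ε) * (n : ℝ) ≤ max (1 / 2 + ε) (((l : ℝ) + 1) / (2 * l)) * n :=
      mul_le_mul_of_nonneg_right (le_max_left _ _) hn0
    linarith

end Pool.Agent.Helper50.FE
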