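import Pool.Agent.Helper50.FE.Defs
import Pool.Agent.Helper21.FC.A2

/-!
MP_0aa406_nt, project FE: digit sums.

`dw p y` = (sum of the base `p` digits of `y`) / (p - 1) for `0 ≤ y`.
(1) `dw_zero`.  (2) `dw_add`: the digits of `y + p ^ D z` (`0 ≤ y < p ^ D`, `0 ≤ z`) are those of `y`
(padded to length `D`) and those of `z` (`Nat.digits_append_digits`-like lemmas, or use
`FC.A2_digits_sum`: sum of digits of `a < p ^ n` is `∑ j < n, a / p ^ j % p`, and split the range).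
(3) `dw_compl`: the digits of `p ^ D - 1 - y` are `p - 1 - (digits of y)` (length `D`): induction on
`D` with `y = y % p + p (y / p)`, or `A2_digits_sum`.
(4) `dw_pred`: `y = p ^ v * u`, `p ∤ u`: `y - 1 = p ^ v (u - 1) + (p ^ v - 1)`; use (2), (3) and
`dw u = dw (u - 1) + 1 / (p - 1)` for `p ∤ u` (last digit).
-/

set_option autoImplicit false

namespace Pool.Agent.Helper50.FE

open Finset Pool.Agent.Helper21.FC Pool.Agent.Helper21.FD

private theorem X1_S (p x : ℕ) (hp : 2 ≤ p) :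
    (Nat.digits p x).sum = x % p + (Nat.digits p (x / p)).sum := by
  rcases Nat.eq_zero_or_pos x with rfl | hx
  · simp
  · rw [Nat.digits_def' (by omega) hx, List.sum_cons]

private theorem X1_add (p : ℕ) (hp : 2 ≤ p) (b : ℕ) : ∀ (D a : ℕ), a < p ^ D →
    (Nat.digits p (a + p ^ D * b)).sum = (Nat.digits p a).sum + (Nat.digits p b).sum := by
  intro D
  induction D with
  | zero =>
    intro a ha
    rw [pow_zero, Nat.lt_one_iff] at ha
    subst ha
    simp
  | succ D ih =>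
    intro a ha
    have hp0 : 0 < p := by omega
    have h1 : a + p ^ (D + 1) * b = a + p * (p ^ D * b) := by rw [pow_succ]; ring
    have h2 : (a + p ^ (D + 1) * b) % p = a % p := by rw [h1, Nat.add_mul_mod_self_left]
    have h3 : (a + p ^ (D + 1) * b) / p = a / p + p ^ D * b := by
      rw [h1, Nat.add_mul_div_left _ _ hp0]
    have h4 : a / p < p ^ D := by
      rw [Nat.div_lt_iff_lt_mul hp0, ← pow_succ]
      exact ha
    rw [X1_S p _ hp, h2, h3, ih (a / p) h4, X1_S p a hp, add_assoc]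

private theorem X1_compl (p : ℕ) (hp : 2 ≤ p) : ∀ (D a : ℕ), a < p ^ D →
    (Nat.digits p a).sum + (Nat.digits p (p ^ D - 1 - a)).sum = D * (p - 1) := by
  intro D
  induction D with
  | zero =>
    intro a ha
    rw [pow_zero, Nat.lt_one_iff] at ha
    subst ha
    simp
  | succ D ih =>
    intro a ha
    have hp0 : 0 < p := by omega
    have h4 : a / p < p ^ D := by
      rw [Nat.div_lt_iff_lt_mul hp0, ← pow_succ]
      exact ha
    have hr : a % p < p := Nat.mod_lt _ hp0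
    obtain ⟨q, hq⟩ : ∃ q, q = a / p := ⟨_, rfl⟩
    obtain ⟨r, hr'⟩ : ∃ r, r = a % p := ⟨_, rfl⟩
    rw [← hq] at h4
    rw [← hr'] at hr
    have ha' : a = r + p * q := by rw [hq, hr', Nat.mod_add_div]
    obtain ⟨w, hw⟩ : ∃ w, p ^ D = q + 1 + w := ⟨p ^ D - (q + 1), by omega⟩
    obtain ⟨t, ht⟩ : ∃ t, p = r + 1 + t := ⟨p - (r + 1), by omega⟩
    have h5 : p ^ (D + 1) - 1 - a = t + p * w := by
      have e1 : p ^ (D + 1) = p * q + p + p * w := by
        rw [pow_succ, hw]; ring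
      rw [e1, ha']
      omega
    have ht' : t < p := by omega
    have h6 : (p ^ (D + 1) - 1 - a) % p = t := by
      rw [h5, Nat.add_mul_mod_self_left, Nat.mod_eq_of_lt ht']
    have h7 : (p ^ (D + 1) - 1 - a) / p = p ^ D - 1 - q := by
      rw [h5, Nat.add_mul_div_left _ _ hp0, Nat.div_eq_of_lt ht']
      omega
    have h8 := ih q h4
    rw [X1_S p a hp, X1_S p (p ^ (D + 1) - 1 - a) hp, h6, h7, ← hq, ← hr', Nat.succ_mul, ← h8]
    omega

theorem dw_zero (p : ℕ) : dw p 0 = 0 := by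
  unfold dw
  simp

theorem dw_nonneg {p : ℕ} (hp : 2 ≤ p) (y : ℤ) : 0 ≤ dw p y := by
  unfold dw
  have h1 : (2 : ℝ) ≤ p := by exact_mod_cast hp
  exact div_nonneg (Nat.cast_nonneg _) (by linarith)

theorem dw_add {p : ℕ} (hp : 2 ≤ p) (D : ℕ) (y z : ℤ) (hy : 0 ≤ y) (hy' : y < (p : ℤ) ^ D)
    (hz : 0 ≤ z) : dw p (y + (p : ℤ) ^ D * z) = dw p y + dw p z := by
  obtain ⟨a, rfl⟩ := Int.eq_ofNat_of_zero_le hy
  obtain ⟨b, rfl⟩ := Int.eq_ofNat_of_zero_le hz
  have ha : a < p ^ D := by exact_mod_cast hy'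
  have h1 : ((a : ℤ) + (p : ℤ) ^ D * (b : ℤ)).toNat = a + p ^ D * b := by
    have : ((a : ℤ) + (p : ℤ) ^ D * (b : ℤ)) = ((a + p ^ D * b : ℕ) : ℤ) := by push_cast; ring
    rw [this, Int.toNat_natCast]
  unfold dw
  rw [h1, Int.toNat_natCast, Int.toNat_natCast, X1_add p hp b D a ha]
  push_cast
  ring

theorem dw_compl {p : ℕ} (hp : 2 ≤ p) (D : ℕ) (y : ℤ) (hy : 0 ≤ y) (hy' : y < (p : ℤ) ^ D) :
    dw p y + dw p ((p : ℤ) ^ D - 1 - y) = D := by
  obtain ⟨a, rfl⟩ := Int.eq_ofNat_of_zero_le hy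
  have ha : a < p ^ D := by exact_mod_cast hy'
  have h1 : ((p : ℤ) ^ D - 1 - (a : ℤ)).toNat = p ^ D - 1 - a := by
    have h2 : ((p : ℤ) ^ D - 1 - (a : ℤ)) = ((p ^ D - 1 - a : ℕ) : ℤ) := by
      have h3 : a + 1 ≤ p ^ D := ha
      have h4 : p ^ D - 1 - a = p ^ D - (a + 1) := by omega
      rw [h4, Nat.cast_sub h3]
      push_cast
      ring
    rw [h2, Int.toNat_natCast]
  have h5 := X1_compl p hp D a ha
  have h6 : (((Nat.digits p a).sum : ℕ) : ℝ) + (((Nat.digits p (p ^ D - 1 - a)).sum : ℕ) : ℝ) =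
      (D : ℝ) * ((p : ℝ) - 1) := by
    have h7 : ((p - 1 : ℕ) : ℝ) = (p : ℝ) - 1 := by
      rw [Nat.cast_sub (by omega)]
      norm_num
    rw [← h7]
    exact_mod_cast h5
  have h8 : (2 : ℝ) ≤ p := by exact_mod_cast hp
  have h9 : (p : ℝ) - 1 ≠ 0 := by linarith
  unfold dw
  rw [h1, Int.toNat_natCast, ← add_div, h6, mul_div_assoc, div_self h9, mul_one]

theorem dw_pred {p : ℕ} (hp : p.Prime) (y : ℤ) (hy : 0 < y) :
    dw p y - dw p (y - 1) = 1 / ((p : ℝ) - 1) - (padicValInt p y : ℝ) := by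
  obtain ⟨a, rfl⟩ := Int.eq_ofNat_of_zero_le hy.le
  obtain ⟨k, rfl⟩ : ∃ k, a = k + 1 := ⟨a - 1, by omega⟩
  have hf : Fact p.Prime := ⟨hp⟩
  have h1 : (((k + 1 : ℕ) : ℤ) - 1).toNat = k := by
    have : (((k + 1 : ℕ) : ℤ) - 1) = (k : ℤ) := by push_cast; ring
    rw [this, Int.toNat_natCast]
  have e1 := sub_one_mul_padicValNat_factorial (p := p) (k + 1)
  have e2 := sub_one_mul_padicValNat_factorial (p := p) k
  have l1 := Nat.digit_sum_le p (k + 1)
  have l2 := Nat.digit_sum_le p k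
  have e3 : padicValNat p (k + 1).factorial = padicValNat p (k + 1) + padicValNat p k.factorial := by
    rw [Nat.factorial_succ, padicValNat.mul (Nat.succ_ne_zero k) (Nat.factorial_ne_zero k)]
  rw [e3, Nat.mul_add, e2] at e1
  have e4 : (p - 1) * padicValNat p (k + 1) + (Nat.digits p (k + 1)).sum =
      1 + (Nat.digits p k).sum := by omega
  have h7 : ((p - 1 : ℕ) : ℝ) = (p : ℝ) - 1 := by
    rw [Nat.cast_sub hp.one_le]
    norm_num
  have e5 : ((p : ℝ) - 1) * (padicValNat p (k + 1) : ℝ) +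
      (((Nat.digits p (k + 1)).sum : ℕ) : ℝ) = 1 + (((Nat.digits p k).sum : ℕ) : ℝ) := by
    rw [← h7]
    exact_mod_cast e4
  have h8 : (2 : ℝ) ≤ p := by exact_mod_cast hp.two_le
  have h9 : (p : ℝ) - 1 ≠ 0 := by linarith
  have h10 : padicValInt p ((k + 1 : ℕ) : ℤ) = padicValNat p (k + 1) := by
    rw [padicValInt, Int.natAbs_natCast]
  unfold dw
  rw [h1, Int.toNat_natCast, h10]
  field_simp
  linarith

end Pool.Agent.Helper50.FE
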