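import Pool.Agent.Helper50.FE.X1

/-!
MP_0aa406_nt, project FE: weights of windows.

(1) `om_compl`: the residues modulo `p ^ D` of `x - bo s` and of `-x - bo (-s)` add up to `p ^ D - 1`
(because `bo s + bo (-s) = 1`); use `dw_compl`.
(2) `om_diff`: for `0 < |x| < p ^ D`, with `y = x % p ^ D`, `0 < y < p ^ D`:
`om p D x 1 = dw y`, `om p D x (-1) = dw (y - 1)`, and `padicValInt p y = padicValInt p x`; use `dw_pred`.
(3) `om_zero_one`, `om_zero_neg`: `dw 0 = 0`, `dw (p ^ D - 1) = D`.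
(4) `om_pair`: combine (1)-(3) (cases `t = s`, `t = -s`).
-/

set_option autoImplicit false

namespace Pool.Agent.Helper50.FE

open Finset Pool.Agent.Helper21.FC Pool.Agent.Helper21.FD

private theorem X2_emod (M z : ℤ) (hM : 0 < M) : (-z - 1) % M = M - 1 - z % M := by
  have h1 : -z - 1 = (M - 1 - z % M) + M * (-(z / M) - 1) := by
    have h2 := Int.emod_add_mul_ediv z M
    linear_combination h2
  rw [h1, Int.add_mul_emod_self_left]
  have h3 := Int.emod_nonneg z hM.ne'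
  have h4 := Int.emod_lt_of_pos z hM
  exact Int.emod_eq_of_lt (by linarith) (by linarith)

private theorem X2_bo (s : ℤ) (hs : s = 1 ∨ s = -1) : bo s + bo (-s) = 1 := by
  rcases hs with rfl | rfl <;> simp [bo]

private theorem X2_pos {p : ℕ} (hp : 2 ≤ p) (D : ℕ) : (0 : ℤ) < (p : ℤ) ^ D := by
  have : (0 : ℤ) < p := by exact_mod_cast (by omega : 0 < p)
  exact pow_pos this D

theorem om_compl {p : ℕ} (hp : 2 ≤ p) (D : ℕ) (x s : ℤ) (hs : s = 1 ∨ s = -1) :
    om p D x s + om p D (-x) (-s) = D := by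
  have hM := X2_pos hp D
  have h1 : -x - bo (-s) = -(x - bo s) - 1 := by
    have := X2_bo s hs
    linarith
  unfold om
  rw [h1, X2_emod _ _ hM]
  exact dw_compl hp D _ (Int.emod_nonneg _ hM.ne') (Int.emod_lt_of_pos _ hM)

private theorem X2_val {p : ℕ} (hp : p.Prime) (D : ℕ) (x : ℤ) (hx : x ≠ 0)
    (hxD : |x| < (p : ℤ) ^ D) (e : ℤ) :
    padicValInt p (x + (p : ℤ) ^ D * e) = padicValInt p x := by
  have hf : Fact p.Prime := ⟨hp⟩
  have hlt : padicValInt p x < D := by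
    by_contra h
    have h1 : ((p : ℤ) ^ D) ∣ x := (padicValInt_dvd_iff D x).2 (Or.inr (by omega))
    exact hx (Int.eq_zero_of_abs_lt_dvd h1 hxD)
  have hne : x + (p : ℤ) ^ D * e ≠ 0 := by
    intro h
    have h1 : ((p : ℤ) ^ D) ∣ x := ⟨-e, by linarith⟩
    exact hx (Int.eq_zero_of_abs_lt_dvd h1 hxD)
  have key : ∀ n : ℕ, n ≤ D → ((((p : ℤ) ^ n) ∣ x + (p : ℤ) ^ D * e) ↔ ((p : ℤ) ^ n) ∣ x) := by
    intro n hn
    have h1 : ((p : ℤ) ^ n) ∣ (p : ℤ) ^ D * e := Dvd.dvd.mul_right (pow_dvd_pow _ hn) _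
    exact dvd_add_left h1
  apply le_antisymm
  · by_contra h
    have h2 : ((p : ℤ) ^ (padicValInt p x + 1)) ∣ x + (p : ℤ) ^ D * e :=
      (padicValInt_dvd_iff _ _).2 (Or.inr (by omega))
    rw [key _ (by omega)] at h2
    rcases (padicValInt_dvd_iff _ _).1 h2 with h3 | h3
    · exact hx h3
    · omega
  · have h2 : ((p : ℤ) ^ (padicValInt p x)) ∣ x := (padicValInt_dvd_iff _ _).2 (Or.inr le_rfl)
    rw [← key _ (by omega)] at h2
    rcases (padicValInt_dvd_iff _ _).1 h2 with h3 | h3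
    · exact absurd h3 hne
    · exact h3

theorem om_diff {p : ℕ} (hp : p.Prime) (D : ℕ) (x : ℤ) (hx : x ≠ 0) (hxD : |x| < (p : ℤ) ^ D) :
    om p D x 1 - om p D x (-1) = 1 / ((p : ℝ) - 1) - (padicValInt p x : ℝ) := by
  have hM := X2_pos hp.two_le D
  have h0 := Int.emod_nonneg x hM.ne'
  have h1 := Int.emod_lt_of_pos x hM
  have h2 : x % (p : ℤ) ^ D ≠ 0 := by
    intro h
    exact hx (Int.eq_zero_of_abs_lt_dvd (Int.dvd_of_emod_eq_zero h) hxD)
  have h3 : 0 < x % (p : ℤ) ^ D := lt_of_le_of_ne h0 (Ne.symm h2)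
  have h4 : (x - 1) % (p : ℤ) ^ D = x % (p : ℤ) ^ D - 1 := by
    have e1 : x - 1 = (x % (p : ℤ) ^ D - 1) + (p : ℤ) ^ D * (x / (p : ℤ) ^ D) := by
      have e2 := Int.emod_add_mul_ediv x ((p : ℤ) ^ D)
      linarith
    rw [e1, Int.add_mul_emod_self_left]
    exact Int.emod_eq_of_lt (by linarith) (by linarith)
  have h5 : padicValInt p (x % (p : ℤ) ^ D) = padicValInt p x := by
    have e1 : x % (p : ℤ) ^ D = x + (p : ℤ) ^ D * (-(x / (p : ℤ) ^ D)) := by
      have e2 := Int.emod_add_mul_ediv x ((p : ℤ) ^ D)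
      linarith
    rw [e1]
    exact X2_val hp D x hx hxD _
  have h6 := dw_pred hp (x % (p : ℤ) ^ D) h3
  have b1 : bo 1 = 0 := by simp [bo]
  have b2 : bo (-1) = 1 := by simp [bo]
  unfold om
  rw [b1, b2, sub_zero, h4, h6, h5]

theorem om_zero_one {p : ℕ} (hp : 2 ≤ p) (D : ℕ) : om p D 0 1 = 0 := by
  have b1 : bo 1 = 0 := by simp [bo]
  unfold om
  rw [b1, sub_zero, Int.zero_emod, dw_zero]

theorem om_zero_neg {p : ℕ} (hp : 2 ≤ p) (D : ℕ) : om p D 0 (-1) = D := by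
  have h1 := om_compl hp D 0 1 (Or.inl rfl)
  rw [om_zero_one hp, zero_add, neg_zero] at h1
  exact h1

/-- a play and the opposite play -/
theorem om_pair {p : ℕ} (hp : p.Prime) (D : ℕ) (x s t : ℤ) (hxD : |x| < (p : ℤ) ^ D)
    (hs : s = 1 ∨ s = -1) (ht : t = 1 ∨ t = -1) :
    om p D x s + om p D (-x) t = (D : ℝ) * (1 - ((s + t : ℤ) : ℝ) / 2) +
      if x = 0 then 0 else
        ((s + t : ℤ) : ℝ) / 2 * (1 / ((p : ℝ) - 1) + D - (padicValInt p x : ℝ)) := by
  have hc1 := om_compl hp.two_le D x 1 (Or.inl rfl)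
  have hc2 := om_compl hp.two_le D x (-1) (Or.inr rfl)
  rw [neg_neg] at hc2
  by_cases hx : x = 0
  · subst hx
    rw [if_pos rfl, neg_zero]
    rw [neg_zero] at hc1 hc2
    have z1 := om_zero_one hp.two_le D
    have z2 := om_zero_neg hp.two_le D
    rcases hs with rfl | rfl <;> rcases ht with rfl | rfl <;> simp only [z1, z2] <;>
      norm_num <;> ring
  · rw [if_neg hx]
    have h1 := om_diff hp D x hx hxD
    have h2 := om_diff hp D (-x) (neg_ne_zero.2 hx) (by rwa [abs_neg])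
    have h3 : padicValInt p (-x) = padicValInt p x := by
      unfold padicValInt
      rw [Int.natAbs_neg]
    rw [h3] at h2
    rcases hs with rfl | rfl <;> rcases ht with rfl | rfl <;> push_cast <;> linarith

end Pool.Agent.Helper50.FE
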