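import Pool.Agent.Helper50.FE.X1

/-!
MP_0aa406_nt, project FE: digit sums of sums of windows.

(1) `dw_windows`: `R` windows of length `D`: induction on `R`, splitting off the last one and `dw_add`
(the sum of the first `R` windows is `< p ^ (R D)`).
(2) `dw_block`: `R` windows of length `D` and then `M - R D` digits which are all `0` (`f = 0`) or all
`p - 1` (`f = 1`): `dw_add`, `dw_compl` with `y = 0` (`dw (p ^ E - 1) = E`).
-/

set_option autoImplicit false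

namespace Pool.Agent.Helper50.FE

open Finset Pool.Agent.Helper21.FC Pool.Agent.Helper21.FD

theorem dw_windows {p : ℕ} (hp : 2 ≤ p) (D R : ℕ) (y : ℕ → ℤ)
    (hy : ∀ g < R, 0 ≤ y g ∧ y g < (p : ℤ) ^ D) :
    0 ≤ ∑ g ∈ range R, (p : ℤ) ^ (g * D) * y g ∧
    ∑ g ∈ range R, (p : ℤ) ^ (g * D) * y g < (p : ℤ) ^ (R * D) ∧
    dw p (∑ g ∈ range R, (p : ℤ) ^ (g * D) * y g) = ∑ g ∈ range R, dw p (y g) := by
  have hp0 : (0 : ℤ) < (p : ℤ) := by exact_mod_cast (by omega : 0 < p)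
  induction R with
  | zero =>
    refine ⟨by simp, by simp, ?_⟩
    simp [dw_zero]
  | succ R ih =>
    obtain ⟨h1, h2, h3⟩ := ih fun g hg => hy g (by omega)
    obtain ⟨h4, h5⟩ := hy R (by omega)
    have h6 : (0 : ℤ) < (p : ℤ) ^ (R * D) := pow_pos hp0 _
    rw [sum_range_succ, sum_range_succ]
    refine ⟨add_nonneg h1 (mul_nonneg h6.le h4), ?_, ?_⟩
    · have h7 : (p : ℤ) ^ ((R + 1) * D) = (p : ℤ) ^ (R * D) * (p : ℤ) ^ D := by
        rw [← pow_add]; congr 1; ring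
      rw [h7]
      have h8 : y R ≤ (p : ℤ) ^ D - 1 := by omega
      have h9 := mul_le_mul_of_nonneg_left h8 h6.le
      rw [mul_sub, mul_one] at h9
      linarith
    · rw [dw_add hp (R * D) _ (y R) h1 h2 h4, h3]

theorem dw_block {p : ℕ} (hp : 2 ≤ p) (D R M : ℕ) (hM : R * D ≤ M) (y : ℕ → ℤ)
    (hy : ∀ g < R, 0 ≤ y g ∧ y g < (p : ℤ) ^ D) (f : ℤ) (hf : f = 0 ∨ f = 1) :
    0 ≤ ∑ g ∈ range R, (p : ℤ) ^ (g * D) * y g + f * ((p : ℤ) ^ M - (p : ℤ) ^ (R * D)) ∧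
    ∑ g ∈ range R, (p : ℤ) ^ (g * D) * y g + f * ((p : ℤ) ^ M - (p : ℤ) ^ (R * D)) < (p : ℤ) ^ M ∧
    dw p (∑ g ∈ range R, (p : ℤ) ^ (g * D) * y g + f * ((p : ℤ) ^ M - (p : ℤ) ^ (R * D))) =
      ∑ g ∈ range R, dw p (y g) + ((M : ℝ) - R * D) * f := by
  have hp0 : (0 : ℤ) < (p : ℤ) := by exact_mod_cast (by omega : 0 < p)
  obtain ⟨h1, h2, h3⟩ := dw_windows hp D R y hy
  obtain ⟨E, rfl⟩ : ∃ E, M = R * D + E := ⟨M - R * D, by omega⟩
  have h4 : (p : ℤ) ^ (R * D + E) = (p : ℤ) ^ (R * D) * (p : ℤ) ^ E := pow_add _ _ _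
  have h5 : (0 : ℤ) < (p : ℤ) ^ (R * D) := pow_pos hp0 _
  have h6 : (1 : ℤ) ≤ (p : ℤ) ^ E := one_le_pow₀ (by omega)
  rcases hf with rfl | rfl
  · rw [zero_mul, add_zero]
    refine ⟨h1, ?_, ?_⟩
    · rw [h4]
      nlinarith
    · rw [h3]; simp
  · have h7 : ∑ g ∈ range R, (p : ℤ) ^ (g * D) * y g +
        1 * ((p : ℤ) ^ (R * D + E) - (p : ℤ) ^ (R * D)) =
        ∑ g ∈ range R, (p : ℤ) ^ (g * D) * y g + (p : ℤ) ^ (R * D) * ((p : ℤ) ^ E - 1) := by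
      rw [h4]; ring
    rw [h7]
    refine ⟨add_nonneg h1 (mul_nonneg h5.le (by omega)), ?_, ?_⟩
    · rw [h4, mul_sub, mul_one]
      linarith
    · rw [dw_add hp (R * D) _ _ h1 h2 (by omega), h3]
      have h8 := dw_compl hp E 0 le_rfl (by omega)
      rw [dw_zero, zero_add, sub_zero] at h8
      rw [h8]
      push_cast
      ring

end Pool.Agent.Helper50.FE
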