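import Pool.Agent.Helper50.FE.X3
import Pool.Agent.Helper21.FC.A1

/-!
MP_0aa406_nt, project FE: the exact weight of a sum of windows.

`a = ∑ g < R, p ^ (g D) ∑ c, x g c Q ^ c`, `Q = p ^ M`, modulo `p ^ (l M) - 1`; `s g c` = sign of the last
nonzero value before the window `g` of the block `c` (`s R c = s 0 (c + 1)`: the block `c + 1` follows
the block `c`; cyclic, since `Q ^ l = 1`).
PROOF. For `g < R`, with `y g c := (x g c - bo (s g c)) % p ^ D`:
   `x g c - bo (s g c) = y g c - p ^ D bo (s (g + 1) c)`    (as `|x| < p ^ D`, `s g c = 1` or `-1`).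
Hence (telescoping in `g`), block by block,
   `∑ g, p ^ (g D) x g c = bo (s 0 c) + ∑ g, p ^ (g D) y g c - p ^ (R D) bo (s R c)`
   `  = bo (s 0 c) - p ^ M bo (s R c) + b c`,   `b c := ∑ g, p ^ (g D) y g c + bo (s R c) (p ^ M - p ^ (R D))`,
and `∑ c, Q ^ c (bo (s 0 c) - Q bo (s 0 (c + 1))) = 0` modulo `Q ^ l - 1` (cyclic telescoping;
`c.val + 1 = (c + 1).val` unless `c + 1 = 0`). So `a = ∑ c, b c Q ^ c` modulo `p ^ (l M) - 1`, where
`0 ≤ b c < Q` (`dw_block`); apply `dw_windows` once more (with `D := M`, `R := l`, reindexing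
`ZMod l` by `Fin l` / `range l`). The number is `< p ^ (l M) - 1`: the block `c - 1` of the `c` with
`s 0 c = 1` is `< p ^ (R D) < p ^ M`, so it is not `p ^ M - 1` (`R D < M`). Then `FC.W_congr`, `FC.W_digits`
(`W p n a = dw p a` for `0 ≤ a < p ^ n - 1`).
-/

set_option autoImplicit false

namespace Pool.Agent.Helper50.FE

open Finset Pool.Agent.Helper21.FC Pool.Agent.Helper21.FD

private theorem X4_sx {x s : ℤ} (hs : s = 1 ∨ s = -1) : sx x s = 1 ∨ sx x s = -1 := by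
  unfold sx
  split_ifs with h
  · exact hs
  · rcases lt_or_gt_of_ne h with h1 | h1
    · right; exact Int.sign_eq_neg_one_of_neg h1
    · left; exact Int.sign_eq_one_of_pos h1

private theorem X4_bo {s : ℤ} (hs : s = 1 ∨ s = -1) : bo s = 0 ∨ bo s = 1 := by
  unfold bo
  rcases hs with rfl | rfl
  · left; simp
  · right; simp

/-- one window -/
private theorem X4_step (P x s : ℤ) (hs : s = 1 ∨ s = -1) (hx : |x| < P) :
    x - bo s = (x - bo s) % P - P * bo (sx x s) := by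
  have hP : 0 < P := lt_of_le_of_lt (abs_nonneg x) hx
  obtain ⟨h1, h2⟩ := abs_lt.mp hx
  have key : 0 ≤ x - bo s + P * bo (sx x s) ∧ x - bo s + P * bo (sx x s) < P := by
    rcases lt_trichotomy x 0 with h | h | h
    · have e1 : sx x s = -1 := by unfold sx; rw [if_neg h.ne]; exact Int.sign_eq_neg_one_of_neg h
      rw [e1]
      rcases hs with rfl | rfl
      · simp only [bo]; norm_num; constructor <;> linarith
      · simp only [bo]; norm_num; constructor <;> linarith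
    · subst h
      have e1 : sx 0 s = s := by unfold sx; simp
      rw [e1]
      rcases hs with rfl | rfl
      · simp only [bo]; norm_num; linarith
      · simp only [bo]; norm_num; linarith
    · have e1 : sx x s = 1 := by unfold sx; rw [if_neg h.ne']; exact Int.sign_eq_one_of_pos h
      rw [e1]
      rcases hs with rfl | rfl
      · simp only [bo]; norm_num; constructor <;> linarith
      · simp only [bo]; norm_num; constructor <;> linarith
  have h3 : (x - bo s) % P = x - bo s + P * bo (sx x s) := by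
    rw [← Int.add_mul_emod_self_left (x - bo s) P (bo (sx x s))]
    exact Int.emod_eq_of_lt key.1 key.2
  rw [h3]; ring

private theorem X4_sum {M : Type*} [AddCommMonoid M] (l : ℕ) [NeZero l] (F : ZMod l → M) :
    ∑ c : ZMod l, F c = ∑ i ∈ range l, F (i : ZMod l) := by
  refine Finset.sum_bij' (fun c _ => c.val) (fun i _ => (i : ZMod l)) ?_ ?_ ?_ ?_ ?_
  · intro c _; exact mem_range.mpr (ZMod.val_lt c)
  · intro i _; exact mem_univ _
  · intro c _; exact ZMod.natCast_zmod_val c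
  · intro i hi; exact ZMod.val_cast_of_lt (mem_range.mp hi)
  · intro c _; rw [ZMod.natCast_zmod_val]

/-- cyclic telescoping -/
private theorem X4_cyc (l : ℕ) [NeZero l] (Q : ℤ) (β : ZMod l → ℤ) :
    Q ^ l - 1 ∣ ∑ c : ZMod l, Q ^ c.val * (β c - Q * β (c + 1)) := by
  have h1 : ∑ c : ZMod l, Q ^ c.val * β c = ∑ c : ZMod l, Q ^ (c + 1).val * β (c + 1) :=
    (Equiv.sum_comp (Equiv.addRight (1 : ZMod l)) (fun c => Q ^ c.val * β c)).symm
  have h2 : ∑ c : ZMod l, Q ^ c.val * (β c - Q * β (c + 1)) =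
      ∑ c : ZMod l, β (c + 1) * (Q ^ (c + 1).val - Q ^ (c.val + 1)) := by
    have e1 : ∑ c : ZMod l, Q ^ c.val * (β c - Q * β (c + 1)) =
        ∑ c : ZMod l, Q ^ c.val * β c - ∑ c : ZMod l, Q ^ c.val * (Q * β (c + 1)) := by
      rw [← sum_sub_distrib]
      exact sum_congr rfl fun c _ => by ring
    rw [e1, h1, ← sum_sub_distrib]
    exact sum_congr rfl fun c _ => by ring
  rw [h2]
  refine dvd_sum fun c _ => Dvd.dvd.mul_left ?_ _
  have h3 : (c + 1).val = (c.val + 1) % l := by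
    rw [ZMod.val_add, ZMod.val_one_eq_one_mod, Nat.add_mod_mod]
  have h4 := ZMod.val_lt c
  rcases lt_or_eq_of_le (Nat.succ_le_of_lt h4) with h5 | h5
  · have h6 : (c + 1).val = c.val + 1 := by rw [h3]; exact Nat.mod_eq_of_lt h5
    rw [h6, sub_self]
    exact dvd_zero _
  · have h6 : c.val + 1 = l := h5
    have h7 : Q ^ (c + 1).val - Q ^ (c.val + 1) = -(Q ^ l - 1) := by
      rw [h3, h6, Nat.mod_self, pow_zero]; ring
    rw [h7]
    exact (dvd_neg).mpr (dvd_refl _)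

theorem W_windows {p l M D R : ℕ} [NeZero l] (hp : 2 ≤ p) (hM : R * D < M) (x s : ℕ → ZMod l → ℤ)
    (hx : ∀ g < R, ∀ c, |x g c| < (p : ℤ) ^ D)
    (hs : ∀ g < R, ∀ c, s (g + 1) c = sx (x g c) (s g c))
    (h0 : ∀ c, s 0 c = 1 ∨ s 0 c = -1) (hcl : ∀ c, s R c = s 0 (c + 1))
    (hpos : ∃ c, s 0 c = 1) :
    W p (l * M) (∑ g ∈ range R, (p : ℤ) ^ (g * D) * ∑ c : ZMod l, x g c * ((p : ℤ) ^ M) ^ c.val) =
      ∑ g ∈ range R, ∑ c, om p D (x g c) (s g c) +
        ((M : ℝ) - R * D) * ((∑ c, bo (s 0 c) : ℤ) : ℝ) := by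
  have hp0 : (0 : ℤ) < (p : ℤ) := by exact_mod_cast (by omega : 0 < p)
  have hsg : ∀ g, g ≤ R → ∀ c, s g c = 1 ∨ s g c = -1 := by
    intro g
    induction g with
    | zero => intro _ c; exact h0 c
    | succ g ih =>
      intro hg c
      rw [hs g (by omega) c]
      exact X4_sx (ih (by omega) c)
  obtain ⟨y, hy⟩ : ∃ y : ℕ → ZMod l → ℤ, y = fun g c => (x g c - bo (s g c)) % (p : ℤ) ^ D := ⟨_, rfl⟩
  have hPD : (0 : ℤ) < (p : ℤ) ^ D := pow_pos hp0 _
  have hyb : ∀ g c, 0 ≤ y g c ∧ y g c < (p : ℤ) ^ D := by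
    intro g c
    rw [hy]
    exact ⟨Int.emod_nonneg _ hPD.ne', Int.emod_lt_of_pos _ hPD⟩
  have hstep : ∀ g < R, ∀ c, x g c = bo (s g c) + y g c - (p : ℤ) ^ D * bo (s (g + 1) c) := by
    intro g hg c
    have := X4_step ((p : ℤ) ^ D) (x g c) (s g c) (hsg g (by omega) c) (hx g hg c)
    rw [hs g hg c, hy]
    linarith
  have htel : ∀ c, ∀ R' ≤ R, ∑ g ∈ range R', (p : ℤ) ^ (g * D) * x g c =
      bo (s 0 c) - (p : ℤ) ^ (R' * D) * bo (s R' c) + ∑ g ∈ range R', (p : ℤ) ^ (g * D) * y g c := by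
    intro c R'
    induction R' with
    | zero => intro _; simp
    | succ R' ih =>
      intro hR'
      rw [sum_range_succ, sum_range_succ, ih (by omega), hstep R' (by omega) c]
      have : (p : ℤ) ^ ((R' + 1) * D) = (p : ℤ) ^ (R' * D) * (p : ℤ) ^ D := by
        rw [← pow_add]; congr 1; ring
      rw [this]; ring
  obtain ⟨Q, hQ⟩ : ∃ Q : ℤ, Q = (p : ℤ) ^ M := ⟨_, rfl⟩
  obtain ⟨b, hb⟩ : ∃ b : ZMod l → ℤ, b = fun c => ∑ g ∈ range R, (p : ℤ) ^ (g * D) * y g c +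
      bo (s R c) * ((p : ℤ) ^ M - (p : ℤ) ^ (R * D)) := ⟨_, rfl⟩
  have hblk := fun c => dw_block hp D R M hM.le (fun g => y g c) (fun g _ => hyb g c) (bo (s R c))
    (X4_bo (hsg R le_rfl c))
  have hbc : ∀ c, ∑ g ∈ range R, (p : ℤ) ^ (g * D) * x g c = bo (s 0 c) - Q * bo (s 0 (c + 1)) + b c := by
    intro c
    rw [htel c R le_rfl, hb, hQ, ← hcl c]
    ring
  -- the number
  obtain ⟨N, hN⟩ : ∃ N : ℤ, N = ∑ i ∈ range l, (p : ℤ) ^ (i * M) * b (i : ZMod l) := ⟨_, rfl⟩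
  have hN2 : N = ∑ c : ZMod l, Q ^ c.val * b c := by
    rw [hN, X4_sum]
    refine sum_congr rfl fun i hi => ?_
    rw [ZMod.val_cast_of_lt (mem_range.mp hi), hQ, ← pow_mul, Nat.mul_comm]
  have ha : ∑ g ∈ range R, (p : ℤ) ^ (g * D) * ∑ c : ZMod l, x g c * ((p : ℤ) ^ M) ^ c.val =
      ∑ c : ZMod l, Q ^ c.val * (bo (s 0 c) - Q * bo (s 0 (c + 1))) + N := by
    rw [hN2, ← sum_add_distrib]
    have e1 : ∑ g ∈ range R, (p : ℤ) ^ (g * D) * ∑ c : ZMod l, x g c * ((p : ℤ) ^ M) ^ c.val =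
        ∑ c : ZMod l, Q ^ c.val * ∑ g ∈ range R, (p : ℤ) ^ (g * D) * x g c := by
      simp_rw [mul_sum]
      rw [sum_comm]
      refine sum_congr rfl fun c _ => sum_congr rfl fun g _ => ?_
      rw [hQ]; ring
    rw [e1]
    refine sum_congr rfl fun c _ => ?_
    rw [hbc c]; ring
  have hl : 1 ≤ l := Nat.one_le_iff_ne_zero.mpr (NeZero.ne l)
  have hM1 : 1 ≤ M := by omega
  have hn : 1 ≤ l * M := Nat.mul_pos hl hM1
  have hQl : Q ^ l = (p : ℤ) ^ (l * M) := by rw [hQ, ← pow_mul, Nat.mul_comm]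
  have hW1 : W p (l * M) (∑ g ∈ range R, (p : ℤ) ^ (g * D) * ∑ c : ZMod l, x g c * ((p : ℤ) ^ M) ^ c.val) =
      W p (l * M) N := by
    refine W_congr hp hn ?_
    rw [ha, add_sub_cancel_right]
    unfold NN
    rw [← hQl]
    exact X4_cyc l Q (fun c => bo (s 0 c))
  obtain ⟨hw1, hw2, hw3⟩ := dw_windows hp M l (fun i => b (i : ZMod l)) (fun i _ => by
    rw [hb]; exact ⟨(hblk _).1, (hblk _).2.1⟩)
  rw [← hN] at hw1 hw2 hw3
  -- `N < p ^ (l M) - 1`
  have hlt : N < (p : ℤ) ^ (l * M) - 1 := by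
    obtain ⟨c, hc⟩ := hpos
    obtain ⟨c', hc'⟩ : ∃ c' : ZMod l, c' = c - 1 := ⟨_, rfl⟩
    have h1 : s R c' = 1 := by rw [hcl c', hc', sub_add_cancel, hc]
    have h2 : b c' < Q - 1 := by
      have e1 : b c' = ∑ g ∈ range R, (p : ℤ) ^ (g * D) * y g c' := by
        rw [hb]; simp only [h1, bo]; norm_num
      rw [e1]
      have e2 := (dw_windows hp D R (fun g => y g c') (fun g _ => hyb g c')).2.1
      have e3 : (p : ℤ) ^ (R * D) * 2 ≤ Q := by
        rw [hQ]
        obtain ⟨E, hE⟩ : ∃ E, M = R * D + 1 + E := ⟨M - (R * D + 1), by omega⟩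
        rw [hE, pow_add, pow_add, pow_one, mul_assoc]
        have e4 : (0 : ℤ) < (p : ℤ) ^ (R * D) := pow_pos hp0 _
        have e5 : (1 : ℤ) ≤ (p : ℤ) ^ E := one_le_pow₀ (by omega)
        have e6 : (2 : ℤ) ≤ (p : ℤ) := by exact_mod_cast hp
        refine mul_le_mul_of_nonneg_left ?_ e4.le
        nlinarith
      have e7 : (1 : ℤ) ≤ (p : ℤ) ^ (R * D) := one_le_pow₀ (by omega)
      linarith
    have h3 : ∑ c : ZMod l, Q ^ c.val * (Q - 1) = Q ^ l - 1 := by
      rw [X4_sum]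
      have e1 : ∑ i ∈ range l, Q ^ ((i : ZMod l)).val * (Q - 1) = (∑ i ∈ range l, Q ^ i) * (Q - 1) := by
        rw [sum_mul]
        refine sum_congr rfl fun i hi => ?_
        rw [ZMod.val_cast_of_lt (mem_range.mp hi)]
      rw [e1, geom_sum_mul]
    have hQ0 : 0 < Q := by rw [hQ]; exact pow_pos hp0 _
    have h4 : ∑ c : ZMod l, Q ^ c.val * b c < ∑ c : ZMod l, Q ^ c.val * (Q - 1) := by
      refine sum_lt_sum ?_ ⟨c', mem_univ _, ?_⟩
      · intro c _
        refine mul_le_mul_of_nonneg_left ?_ (pow_pos hQ0 _).le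
        have := (hblk c).2.1
        have e : b c < Q := by rw [hb, hQ]; exact this
        omega
      · exact mul_lt_mul_of_pos_left h2 (pow_pos hQ0 _)
    rw [← hN2, h3, hQl] at h4
    exact h4
  have hW2 : W p (l * M) N = dw p N := by
    obtain ⟨k, hk⟩ := Int.eq_ofNat_of_zero_le hw1
    have h1 : k < p ^ (l * M) - 1 := by
      have h2 : (k : ℤ) < (p : ℤ) ^ (l * M) - 1 := by rw [← hk]; exact hlt
      have h3 : (k : ℤ) + 1 < ((p ^ (l * M) : ℕ) : ℤ) := by push_cast; linarith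
      have h4 : k + 1 < p ^ (l * M) := by exact_mod_cast h3
      omega
    have h5 := W_digits hp hn k h1
    have h6 : (2 : ℝ) ≤ p := by exact_mod_cast hp
    have h7 : (p : ℝ) - 1 ≠ 0 := by linarith
    unfold dw
    rw [hk, Int.toNat_natCast, h5]
    field_simp
  rw [hW1, hW2, hw3]
  have h8 : ∑ i ∈ range l, dw p (b (i : ZMod l)) = ∑ c : ZMod l, dw p (b c) := (X4_sum l (fun c => dw p (b c))).symm
  rw [h8]
  have h9 : ∀ c, dw p (b c) = ∑ g ∈ range R, om p D (x g c) (s g c) + ((M : ℝ) - R * D) * (bo (s R c) : ℝ) := by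
    intro c
    have := (hblk c).2.2
    rw [hb]
    rw [this, hy]
    rfl
  simp_rw [h9]
  rw [sum_add_distrib, sum_comm, ← mul_sum]
  congr 2
  have h10 : ∑ c : ZMod l, bo (s 0 c) = ∑ c : ZMod l, bo (s 0 (c + 1)) :=
    (Equiv.sum_comp (Equiv.addRight (1 : ZMod l)) (fun c => bo (s 0 c))).symm
  rw [h10]
  push_cast
  exact sum_congr rfl fun c _ => by rw [hcl c]


end Pool.Agent.Helper50.FE
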