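import Pool.Agent.Helper50.FE.X4
import Pool.Agent.Helper21.FC.A1

/-!
MP_0aa406_nt, project FE: the gain of a closed sequence of plays.

(1) `Stage.seq`, `Stage.of_seq`: inductions.
(2) `Stage.trans`, `Stage.shift`: inductions (`eff`, `Fit`, `nxt` commute with translations:
`cv μ (fun i => v (i - j)) u = cv μ v (u - j)`).
(3) `gain_of_stage`: take `b = ∑ g < R, p ^ (g D) ∑ c, v g c Q ^ c`, `a = h b`.  `W a`: `W_windows` with
`x g c = h * v g c` (`sx (h * v) = sx v` as `0 < h`).  `d a = p ^ r (∑ μ c Q ^ c) b` modulo `NN`, and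
`(∑ μ c Q ^ c)(∑ v c Q ^ c) = ∑ cv μ v u Q ^ u` modulo `Q ^ l - 1`; `W_pow_mul`, `W_windows` with
`x g u = cv μ (v g) u`.  Difference: `∑ g (rows - coordinates) + (M - R D)(∑ bo (s.2) - ∑ bo (s.1))`,
`bo = (1 - sign) / 2`, so `∑ bo (s.2) - ∑ bo (s.1) = κ` by `Tight`; `∑ g (...) = E + R κ D`.
`a` is not `0` modulo `NN`, since otherwise `W (d a) - W a = 0` (`W_zero`), which contradicts `hpos`.
-/

set_option autoImplicit false

namespace Pool.Agent.Helper50.FE

open Finset Pool.Agent.Helper21.FC Pool.Agent.Helper21.FD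

variable {p D h κ l : ℕ} [NeZero l] {μ : ZMod l → ℤ}

theorem Stage.seq {s s' : St l} {R : ℕ} {E : ℝ} (hS : Stage p D h κ μ s s' R E) :
    ∃ (v : ℕ → ZMod l → ℤ) (st : ℕ → St l), st 0 = s ∧ st R = s' ∧
      (∀ g < R, st (g + 1) = nxt μ (st g) (v g)) ∧ (∀ g < R, Fit p D h μ (v g)) ∧
      E = ∑ g ∈ range R, eff p D h κ μ (st g) (v g) := by
  induction hS with
  | nil s => exact ⟨fun _ _ => 0, fun _ => s, rfl, rfl, by simp, by simp, by simp⟩
  | cons v s s' R E hf _ ih =>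
    obtain ⟨w, st, h0, hR, h1, h2, h3⟩ := ih
    refine ⟨fun g => Nat.casesOn g v w, fun g => Nat.casesOn g s st, rfl, hR, ?_, ?_, ?_⟩
    · intro g hg
      cases g with
      | zero => exact h0
      | succ g => exact h1 g (by omega)
    · intro g hg
      cases g with
      | zero => exact hf
      | succ g => exact h2 g (by omega)
    · rw [Finset.sum_range_succ', h3]
      exact add_comm _ _

theorem Stage.of_seq (R : ℕ) (v : ℕ → ZMod l → ℤ) (st : ℕ → St l)
    (hst : ∀ g < R, st (g + 1) = nxt μ (st g) (v g)) (hv : ∀ g < R, Fit p D h μ (v g)) :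
    Stage p D h κ μ (st 0) (st R) R (∑ g ∈ range R, eff p D h κ μ (st g) (v g)) := by
  induction R generalizing v st with
  | zero => simpa using Stage.nil (st 0)
  | succ R ih =>
    have h1 := ih (fun g => v (g + 1)) (fun g => st (g + 1)) (fun g hg => hst (g + 1) (by omega))
      (fun g hg => hv (g + 1) (by omega))
    rw [Finset.sum_range_succ', add_comm (∑ k ∈ range R, eff p D h κ μ (st (k + 1)) (v (k + 1)))]
    refine Stage.cons (v 0) (st 0) _ R _ (hv 0 (by omega)) ?_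
    rw [← hst 0 (by omega)]
    exact h1

theorem Stage.trans {s s' s'' : St l} {R R' : ℕ} {E E' : ℝ} (h1 : Stage p D h κ μ s s' R E)
    (h2 : Stage p D h κ μ s' s'' R' E') : Stage p D h κ μ s s'' (R + R') (E + E') := by
  induction h1 with
  | nil s => simpa using h2
  | cons v s s' R E hf _ ih =>
    have h3 := Stage.cons v s s'' (R + R') (E + E') hf (ih h2)
    rw [← add_assoc] at h3
    rw [show R + 1 + R' = R + R' + 1 by omega]
    exact h3

private theorem X5_cv (v : ZMod l → ℤ) (j u : ZMod l) :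
    cv μ (fun i => v (i - j)) u = cv μ v (u - j) := by
  unfold cv
  refine Fintype.sum_equiv (Equiv.subRight j) _ _ fun i => ?_
  simp [Equiv.subRight_apply, sub_sub_sub_cancel_right]

private theorem X5_nxt (s : St l) (v : ZMod l → ℤ) (j : ZMod l) :
    nxt μ (sh j s) (fun i => v (i - j)) = sh j (nxt μ s v) := by
  unfold nxt sh
  simp [X5_cv]

private theorem X5_fit (v : ZMod l → ℤ) (j : ZMod l) (hf : Fit p D h μ v) :
    Fit p D h μ (fun i => v (i - j)) := by
  refine ⟨fun i => hf.1 _, fun u => ?_⟩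
  rw [X5_cv]
  exact hf.2 _

private theorem X5_eff (s : St l) (v : ZMod l → ℤ) (j : ZMod l) :
    eff p D h κ μ (sh j s) (fun i => v (i - j)) = eff p D h κ μ s v := by
  unfold eff sh
  simp only [X5_cv]
  congr 2
  · exact Fintype.sum_equiv (Equiv.subRight j) _ _ fun i => rfl
  · exact Fintype.sum_equiv (Equiv.subRight j) _ _ fun i => rfl

theorem Stage.shift {s s' : St l} {R : ℕ} {E : ℝ} (hS : Stage p D h κ μ s s' R E) (j : ZMod l) :
    Stage p D h κ μ (sh j s) (sh j s') R E := by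
  induction hS with
  | nil s => exact Stage.nil _
  | cons v s s' R E hf _ ih =>
    have h3 := Stage.cons (κ := κ) (fun i => v (i - j)) (sh j s) (sh j s') R E (X5_fit v j hf)
      (by rw [X5_nxt]; exact ih)
    rw [X5_eff] at h3
    exact h3

private theorem X5_sx {h : ℕ} (hh : 0 < h) (x s : ℤ) : sx ((h : ℤ) * x) s = sx x s := by
  have h1 : (0 : ℤ) < h := by exact_mod_cast hh
  unfold sx
  by_cases hx : x = 0
  · simp [hx]
  · rw [if_neg hx, if_neg (mul_ne_zero h1.ne' hx), Int.sign_mul, Int.sign_eq_one_of_pos h1, one_mul]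

private theorem X5_pm (x : ℤ) {s : ℤ} (hs : s = 1 ∨ s = -1) : sx x s = 1 ∨ sx x s = -1 := by
  unfold sx
  split_ifs with hx
  · exact hs
  · rcases lt_or_gt_of_ne hx with h1 | h1
    · right; exact Int.sign_eq_neg_one_of_neg h1
    · left; exact Int.sign_eq_one_of_pos h1

private theorem X5_pow {l M : ℕ} (x y : ZMod l) [NeZero l] :
    NN p (l * M) ∣ ((p : ℤ) ^ M) ^ x.val * ((p : ℤ) ^ M) ^ y.val - ((p : ℤ) ^ M) ^ (x + y).val := by
  have hv : (x + y).val = (x.val + y.val) % l := ZMod.val_add x y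
  obtain ⟨q, hq⟩ : ∃ q, x.val + y.val = (x + y).val + l * q := by
    refine ⟨(x.val + y.val) / l, ?_⟩
    rw [hv]
    exact (Nat.mod_add_div _ _).symm
  rw [← pow_add, hq, pow_add]
  have h1 : NN p (l * M) ∣ ((p : ℤ) ^ M) ^ (l * q) - 1 := by
    have h2 : ((p : ℤ) ^ M) ^ (l * q) = ((p : ℤ) ^ (l * M)) ^ q := by
      rw [← pow_mul, ← pow_mul]
      congr 1
      ring
    rw [h2]
    unfold NN
    have := sub_dvd_pow_sub_pow ((p : ℤ) ^ (l * M)) 1 q
    simpa using this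
  have h3 : ((p : ℤ) ^ M) ^ (x + y).val * ((p : ℤ) ^ M) ^ (l * q) - ((p : ℤ) ^ M) ^ (x + y).val =
      ((p : ℤ) ^ M) ^ (x + y).val * (((p : ℤ) ^ M) ^ (l * q) - 1) := by ring
  rw [h3]
  exact h1.mul_left _

private theorem X5_mul {l M : ℕ} [NeZero l] (μ v : ZMod l → ℤ) :
    NN p (l * M) ∣ (∑ c : ZMod l, μ c * ((p : ℤ) ^ M) ^ c.val) *
      (∑ c : ZMod l, v c * ((p : ℤ) ^ M) ^ c.val) - ∑ u : ZMod l, cv μ v u * ((p : ℤ) ^ M) ^ u.val := by
  have h1 : ∑ u : ZMod l, cv μ v u * ((p : ℤ) ^ M) ^ u.val =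
      ∑ i : ZMod l, ∑ c : ZMod l, μ c * v i * ((p : ℤ) ^ M) ^ (c + i).val := by
    unfold cv
    simp only [Finset.sum_mul]
    rw [Finset.sum_comm]
    refine Finset.sum_congr rfl fun i _ => ?_
    refine Fintype.sum_equiv (Equiv.subRight i) _ _ fun u => ?_
    simp [Equiv.subRight_apply]
  have h2 : (∑ c : ZMod l, μ c * ((p : ℤ) ^ M) ^ c.val) * (∑ c : ZMod l, v c * ((p : ℤ) ^ M) ^ c.val) =
      ∑ i : ZMod l, ∑ c : ZMod l, μ c * v i * (((p : ℤ) ^ M) ^ c.val * ((p : ℤ) ^ M) ^ i.val) := by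
    rw [Finset.sum_mul_sum, Finset.sum_comm]
    refine Finset.sum_congr rfl fun i _ => Finset.sum_congr rfl fun c _ => ?_
    ring
  rw [h1, h2, ← Finset.sum_sub_distrib]
  refine Finset.dvd_sum fun i _ => ?_
  rw [← Finset.sum_sub_distrib]
  refine Finset.dvd_sum fun c _ => ?_
  rw [← mul_sub]
  exact (X5_pow c i).mul_left _

private theorem X5_bo {s : ℤ} (hs : s = 1 ∨ s = -1) : 2 * bo s = 1 - s := by
  unfold bo
  rcases hs with rfl | rfl <;> simp

theorem gain_of_stage (hp : 2 ≤ p) (hh : 0 < h) {M : ℕ} {s s' : St l} {R : ℕ}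
    {E : ℝ} (hS : Stage p D h κ μ s s' R E) (hok : Ok s) (ht : Tight κ s)
    (hcl : s' = sh (-1) s) (h1 : ∃ i, s.1 i = 1) (h2 : ∃ u, s.2 u = 1) (hM : R * D < M)
    (hpos : 0 < (κ : ℝ) * M + E) (d : ℤ) (r : ℕ)
    (hd : NN p (l * M) ∣ (h : ℤ) * d - (p : ℤ) ^ r * ∑ c : ZMod l, μ c * ((p : ℤ) ^ M) ^ c.val) :
    Gain p (l * M) d ((κ : ℝ) * M + E) := by
  obtain ⟨v, st, hst0, hstR, hst, hfit, hE⟩ := hS.seq
  have hn : 1 ≤ l * M := Nat.mul_pos (Nat.pos_of_ne_zero (NeZero.ne l)) (by omega)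
  set b : ℤ := ∑ g ∈ range R, (p : ℤ) ^ (g * D) * ∑ c : ZMod l, v g c * ((p : ℤ) ^ M) ^ c.val with hb
  set P : ℤ := ∑ c : ZMod l, μ c * ((p : ℤ) ^ M) ^ c.val with hP
  -- the coordinates
  have hA : W p (l * M) ((h : ℤ) * b) =
      ∑ g ∈ range R, ∑ c, om p D ((h : ℤ) * v g c) ((st g).1 c) +
        ((M : ℝ) - R * D) * ((∑ c, bo (s.1 c) : ℤ) : ℝ) := by
    have h3 := W_windows (l := l) hp hM (fun g c => (h : ℤ) * v g c) (fun g c => (st g).1 c)
      (fun g hg c => (hfit g hg).1 c)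
      (fun g hg c => by
        show (st (g + 1)).1 c = sx ((h : ℤ) * v g c) ((st g).1 c)
        rw [hst g hg, X5_sx hh]
        rfl)
      (fun c => by rw [hst0]; exact hok.1 c)
      (fun c => by
        show (st R).1 c = (st 0).1 (c + 1)
        rw [hstR, hcl, hst0]
        simp [sh])
      (by
        obtain ⟨i, hi⟩ := h1
        exact ⟨i, by rw [hst0]; exact hi⟩)
    have h4 : ∑ g ∈ range R, (p : ℤ) ^ (g * D) * ∑ c : ZMod l, (h : ℤ) * v g c * ((p : ℤ) ^ M) ^ c.val =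
        (h : ℤ) * b := by
      rw [hb, Finset.mul_sum]
      refine Finset.sum_congr rfl fun g _ => ?_
      rw [mul_left_comm, Finset.mul_sum (s := univ) (a := (h : ℤ))]
      congr 1
      exact Finset.sum_congr rfl fun c _ => mul_assoc _ _ _
    rw [h4, hst0] at h3
    exact h3
  -- the rows
  have hB0 : W p (l * M) (P * b) =
      ∑ g ∈ range R, ∑ u, om p D (cv μ (v g) u) ((st g).2 u) +
        ((M : ℝ) - R * D) * ((∑ u, bo (s.2 u) : ℤ) : ℝ) := by
    have h3 := W_windows (l := l) hp hM (fun g u => cv μ (v g) u) (fun g u => (st g).2 u)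
      (fun g hg u => (hfit g hg).2 u)
      (fun g hg u => by
        show (st (g + 1)).2 u = sx (cv μ (v g) u) ((st g).2 u)
        rw [hst g hg]
        rfl)
      (fun u => by rw [hst0]; exact hok.2 u)
      (fun u => by
        show (st R).2 u = (st 0).2 (u + 1)
        rw [hstR, hcl, hst0]
        simp [sh])
      (by
        obtain ⟨u, hu⟩ := h2
        exact ⟨u, by rw [hst0]; exact hu⟩)
    rw [hst0] at h3
    rw [← h3]
    refine W_congr hp hn ?_
    rw [hb, Finset.mul_sum, ← Finset.sum_sub_distrib]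
    refine Finset.dvd_sum fun g _ => ?_
    rw [mul_left_comm, ← mul_sub]
    exact (X5_mul μ (v g)).mul_left _
  have hB : W p (l * M) (d * ((h : ℤ) * b)) = W p (l * M) (P * b) := by
    rw [← W_pow_mul hp hn r (P * b)]
    refine W_congr hp hn ?_
    have h3 : d * ((h : ℤ) * b) - (p : ℤ) ^ r * (P * b) = ((h : ℤ) * d - (p : ℤ) ^ r * P) * b := by ring
    rw [h3]
    exact hd.mul_right _
  -- the signs
  have hK : ((∑ u, bo (s.2 u) : ℤ) : ℝ) - ((∑ c, bo (s.1 c) : ℤ) : ℝ) = κ := by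
    have h3 : 2 * ∑ u, bo (s.2 u) = ∑ u, (1 - s.2 u) := by
      rw [Finset.mul_sum]
      exact Finset.sum_congr rfl fun u _ => X5_bo (hok.2 u)
    have h4 : 2 * ∑ c, bo (s.1 c) = ∑ c, (1 - s.1 c) := by
      rw [Finset.mul_sum]
      exact Finset.sum_congr rfl fun u _ => X5_bo (hok.1 u)
    rw [Finset.sum_sub_distrib] at h3 h4
    unfold Tight at ht
    have h5 : ∑ u, bo (s.2 u) - ∑ c, bo (s.1 c) = (κ : ℤ) := by linarith
    have h6 : (((∑ u, bo (s.2 u)) - ∑ c, bo (s.1 c) : ℤ) : ℝ) = κ := by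
      rw [h5]
      simp
    rw [← h6]
    push_cast
    ring
  have hE2 : E = ∑ g ∈ range R, ∑ u, om p D (cv μ (v g) u) ((st g).2 u) -
      ∑ g ∈ range R, ∑ c, om p D ((h : ℤ) * v g c) ((st g).1 c) - R * ((κ : ℝ) * D) := by
    rw [hE]
    unfold eff
    rw [Finset.sum_sub_distrib, Finset.sum_sub_distrib]
    simp
  have hD : W p (l * M) (d * ((h : ℤ) * b)) - W p (l * M) ((h : ℤ) * b) = (κ : ℝ) * M + E := by
    rw [hB, hB0, hA, hE2, ← hK]
    ring
  refine ⟨(h : ℤ) * b, ?_, hD.ge⟩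
  intro h3
  rw [W_zero hp hn h3, W_zero hp hn (h3.mul_left d)] at hD
  linarith

end Pool.Agent.Helper50.FE
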